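import Mathlib

set_option autoImplicit false

namespace Pool.Agent.Lib_MP_a0a64f_co

abbrev E3 := EuclideanSpace ℝ (Fin 3)

/-- orientation determinant -/
def D (a b c d : E3) : ℝ :=
  (b 0 - a 0) * ((c 1 - a 1) * (d 2 - a 2) - (c 2 - a 2) * (d 1 - a 1))
  - (b 1 - a 1) * ((c 0 - a 0) * (d 2 - a 2) - (c 2 - a 2) * (d 0 - a 0))
  + (b 2 - a 2) * ((c 0 - a 0) * (d 1 - a 1) - (c 1 - a 1) * (d 0 - a 0))

theorem D_gp (a b c d e f : E3) :
    D a b c d * D a b e f - D a b c e * D a b d f + D a b c f * D a b d e = 0 := by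
  unfold D; ring

theorem D_swap01 (a b c d : E3) : D b a c d = - D a b c d := by unfold D; ring
theorem D_swap12 (a b c d : E3) : D a c b d = - D a b c d := by unfold D; ring
theorem D_swap23 (a b c d : E3) : D a b d c = - D a b c d := by unfold D; ring
theorem D_0213 (a b c d : E3) : D a c b d = - D a b c d := by unfold D; ring
theorem D_0312 (a b c d : E3) : D a d b c = D a b c d := by unfold D; ring
theorem D_1203 (a b c d : E3) : D b c a d = D a b c d := by unfold D; ring
theorem D_1302 (a b c d : E3) : D b d a c = - D a b c d := by unfold D; ring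
theorem D_2301 (a b c d : E3) : D c d a b = D a b c d := by unfold D; ring
theorem D_1230 (a b c d : E3) : D b c d a = - D a b c d := by unfold D; ring
theorem D_0231 (a b c d : E3) : D a c d b = D a b c d := by unfold D; ring
theorem D_0132 (a b c d : E3) : D a b d c = - D a b c d := by unfold D; ring

theorem D_five (v : E3) (k : ℝ) (a b p q s : E3)
    (ha : v 0 * a 0 + v 1 * a 1 + v 2 * a 2 = k) (hb : v 0 * b 0 + v 1 * b 1 + v 2 * b 2 = k) :
    (v 0 * p 0 + v 1 * p 1 + v 2 * p 2 - k) * D a b q s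
      - (v 0 * q 0 + v 1 * q 1 + v 2 * q 2 - k) * D a b p s
      + (v 0 * s 0 + v 1 * s 1 + v 2 * s 2 - k) * D a b p q = 0 := by
  subst ha
  have hb' : v 0 * (b 0 - a 0) + v 1 * (b 1 - a 1) + v 2 * (b 2 - a 2) = 0 := by linarith
  unfold D
  linear_combination (((p 0 - a 0) * ((q 1 - a 1) * (s 2 - a 2) - (q 2 - a 2) * (s 1 - a 1))
  - (p 1 - a 1) * ((q 0 - a 0) * (s 2 - a 2) - (q 2 - a 2) * (s 0 - a 0))
  + (p 2 - a 2) * ((q 0 - a 0) * (s 1 - a 1) - (q 1 - a 1) * (s 0 - a 0)))) * hb'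


/-- the coordinate expression of an affine functional -/
def L (v : E3) (k : ℝ) (x : E3) : ℝ := v 0 * x 0 + v 1 * x 1 + v 2 * x 2 - k

/-- `X` (a two-colouring of the index set) is realised by a plane missing all the points. -/
def Sep (p : Fin 8 → E3) (X : Fin 8 → Bool) : Prop :=
  ∃ (v : E3) (k : ℝ), ∀ y, (X y = true → 0 < L v k (p y)) ∧ (X y = false → L v k (p y) < 0)

theorem D_eq_L (a b c : E3) : ∃ (v : E3) (k : ℝ), ∀ x, D a b c x = L v k x := by
  refine ⟨!₂[(b 1 - a 1) * (c 2 - a 2) - (b 2 - a 2) * (c 1 - a 1),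
    (b 2 - a 2) * (c 0 - a 0) - (b 0 - a 0) * (c 2 - a 2),
    (b 0 - a 0) * (c 1 - a 1) - (b 1 - a 1) * (c 0 - a 0)],
    ((b 1 - a 1) * (c 2 - a 2) - (b 2 - a 2) * (c 1 - a 1)) * a 0 +
    ((b 2 - a 2) * (c 0 - a 0) - (b 0 - a 0) * (c 2 - a 2)) * a 1 +
    ((b 0 - a 0) * (c 1 - a 1) - (b 1 - a 1) * (c 0 - a 0)) * a 2, ?_⟩
  intro x
  unfold D L
  simp
  ring

theorem L_add (v w : E3) (k l : ℝ) (s t : ℝ) (x : E3) :
    L (s • v + t • w) (s * k + t * l) x = s * L v k x + t * L w l x := by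
  unfold L; simp; ring

/-- sign of a Boolean -/
def sg (b : Bool) : ℝ := if b then 1 else -1

theorem sep_iff (p : Fin 8 → E3) (X : Fin 8 → Bool) :
    Sep p X ↔ ∃ (v : E3) (k : ℝ), ∀ y, 0 < sg (X y) * L v k (p y) := by
  unfold Sep sg
  refine exists_congr fun v => exists_congr fun k => forall_congr' fun y => ?_
  cases X y <;> simp

theorem D_self03 (x c d : E3) : D x c d x = 0 := by unfold D; ring
theorem D_self13 (b x d : E3) : D b x d x = 0 := by unfold D; ring
theorem D_self23 (b c x : E3) : D b c x x = 0 := by unfold D; ring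

theorem sg_mul_self (b : Bool) : sg b * sg b = 1 := by unfold sg; cases b <;> simp

/-- perturbation lemma: a plane through three points with the right strict signs elsewhere can be
moved to realise any colours at the three points. -/
theorem sep_of_cert (p : Fin 8 → E3) (X : Fin 8 → Bool) (a b c e : Fin 8)
    (hne : D (p a) (p b) (p c) (p e) ≠ 0) (σ : ℝ)
    (h : ∀ y, y = a ∨ y = b ∨ y = c ∨ 0 < sg (X y) * (σ * D (p a) (p b) (p c) (p y))) :
    Sep p X := by
  rw [sep_iff]
  set Δ := D (p a) (p b) (p c) (p e) with hΔ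
  obtain ⟨v0, k0, h0⟩ := D_eq_L (p a) (p b) (p c)
  -- three functionals
  obtain ⟨v1, k1, h1⟩ := D_eq_L (p b) (p c) (p e)
  obtain ⟨v2, k2, h2⟩ := D_eq_L (p a) (p c) (p e)
  obtain ⟨v3, k3, h3⟩ := D_eq_L (p a) (p b) (p e)
  -- K = α L1 + β L2 + γ L3
  obtain ⟨w, l, hwa, hwb, hwc⟩ : ∃ (w : E3) (l : ℝ), 0 < sg (X a) * L w l (p a) ∧ 0 < sg (X b) * L w l (p b) ∧
      0 < sg (X c) * L w l (p c) := by
    refine ⟨(1:ℝ) • ((-(sg (X a)) / Δ) • v1 + (sg (X b) / Δ) • v2) + (-(sg (X c)) / Δ) • v3,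
      (1:ℝ) * ((-(sg (X a)) / Δ) * k1 + (sg (X b) / Δ) * k2) + (-(sg (X c)) / Δ) * k3, ?_, ?_, ?_⟩
    · rw [L_add, L_add, ← h1, ← h2, ← h3, D_1230 (p a) (p b) (p c) (p e), D_self03, D_self03, ← hΔ]
      have : sg (X a) * (1 * (-sg (X a) / Δ * -Δ + sg (X b) / Δ * 0) + -sg (X c) / Δ * 0) = sg (X a) * sg (X a) := by
        field_simp; ring
      rw [this, sg_mul_self]; norm_num
    · rw [L_add, L_add, ← h1, ← h2, ← h3, D_0231 (p a) (p b) (p c) (p e), D_self03, D_self13, ← hΔ]
      have : sg (X b) * (1 * (-sg (X a) / Δ * 0 + sg (X b) / Δ * Δ) + -sg (X c) / Δ * 0) = sg (X b) * sg (X b) := by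
        field_simp; ring
      rw [this, sg_mul_self]; norm_num
    · rw [L_add, L_add, ← h1, ← h2, ← h3, D_0132 (p a) (p b) (p c) (p e), D_self13, D_self13, ← hΔ]
      have : sg (X c) * (1 * (-sg (X a) / Δ * 0 + sg (X b) / Δ * 0) + -sg (X c) / Δ * -Δ) = sg (X c) * sg (X c) := by
        field_simp; ring
      rw [this, sg_mul_self]; norm_num
  have hev : ∀ᶠ ε : ℝ in nhdsWithin 0 (Set.Ioi 0), ∀ y, 0 < sg (X y) * L (σ • v0 + ε • w) (σ * k0 + ε * l) (p y) := by
    rw [Filter.eventually_all]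
    intro y
    have key : ∀ ε, sg (X y) * L (σ • v0 + ε • w) (σ * k0 + ε * l) (p y) =
        sg (X y) * (σ * D (p a) (p b) (p c) (p y)) + ε * (sg (X y) * L w l (p y)) := by
      intro ε; rw [L_add, h0]; ring
    simp only [key]
    rcases h y with rfl | rfl | rfl | hy
    · filter_upwards [self_mem_nhdsWithin] with ε hε
      rw [D_self03]
      have := mul_pos (Set.mem_Ioi.mp hε) hwa
      linarith
    · filter_upwards [self_mem_nhdsWithin] with ε hε
      rw [D_self13]
      have := mul_pos (Set.mem_Ioi.mp hε) hwb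
      linarith
    · filter_upwards [self_mem_nhdsWithin] with ε hε
      rw [D_self23]
      have := mul_pos (Set.mem_Ioi.mp hε) hwc
      linarith
    · have hc : Filter.Tendsto (fun ε : ℝ => sg (X y) * (σ * D (p a) (p b) (p c) (p y)) + ε * (sg (X y) * L w l (p y)))
        (nhdsWithin 0 (Set.Ioi 0)) (nhds (sg (X y) * (σ * D (p a) (p b) (p c) (p y)) + 0 * (sg (X y) * L w l (p y)))) := by
        apply Filter.Tendsto.mono_left _ nhdsWithin_le_nhds
        apply Continuous.tendsto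
        fun_prop
      rw [zero_mul, add_zero] at hc
      exact hc.eventually_const_lt hy
  obtain ⟨ε, hε⟩ := hev.exists
  exact ⟨_, _, hε⟩


theorem D_five' (v : E3) (k : ℝ) (a b p q s : E3)
    (ha : L v k a = 0) (hb : L v k b = 0) :
    L v k p * D a b q s - L v k q * D a b p s + L v k s * D a b p q = 0 := by
  unfold L at *
  exact D_five v k a b p q s (by linarith) (by linarith)

theorem sg_true : sg true = 1 := rfl
theorem sg_false : sg false = -1 := rfl

theorem sep_cert5 (p : Fin 8 → E3) (X : Fin 8 → Bool) (a b c y1 y2 y3 y4 y5 : Fin 8)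
    (hall : ∀ y : Fin 8, y = a ∨ y = b ∨ y = c ∨ y = y1 ∨ y = y2 ∨ y = y3 ∨ y = y4 ∨ y = y5)
    (σ : ℝ) (hne : D (p a) (p b) (p c) (p y1) ≠ 0)
    (h1 : 0 < sg (X y1) * (σ * D (p a) (p b) (p c) (p y1)))
    (h2 : 0 < sg (X y2) * (σ * D (p a) (p b) (p c) (p y2)))
    (h3 : 0 < sg (X y3) * (σ * D (p a) (p b) (p c) (p y3)))
    (h4 : 0 < sg (X y4) * (σ * D (p a) (p b) (p c) (p y4)))
    (h5 : 0 < sg (X y5) * (σ * D (p a) (p b) (p c) (p y5))) : Sep p X := by
  refine sep_of_cert p X a b c y1 hne σ ?_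
  intro y
  rcases hall y with h | h | h | h | h | h | h | h
  · exact Or.inl h
  · exact Or.inr (Or.inl h)
  · exact Or.inr (Or.inr (Or.inl h))
  · subst h; exact Or.inr (Or.inr (Or.inr h1))
  · subst h; exact Or.inr (Or.inr (Or.inr h2))
  · subst h; exact Or.inr (Or.inr (Or.inr h3))
  · subst h; exact Or.inr (Or.inr (Or.inr h4))
  · subst h; exact Or.inr (Or.inr (Or.inr h5))

theorem pos_of_nz {x : ℝ} (hx : x ≠ 0) (h : x < 0 → False) : 0 < x := by
  rcases lt_trichotomy x 0 with h1 | h1 | h1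
  · exact (h h1).elim
  · exact (hx h1).elim
  · exact h1

theorem neg_of_nz {x : ℝ} (hx : x ≠ 0) (h : 0 < x → False) : x < 0 := by
  rcases lt_trichotomy x 0 with h1 | h1 | h1
  · exact h1
  · exact (hx h1).elim
  · exact (h h1).elim

/-- a vector not orthogonal to any of finitely many nonzero vectors -/
theorem exists_generic {ι : Type} [Finite ι] (s : ι → E3) (hs : ∀ i, s i ≠ 0) :
    ∃ v : E3, ∀ i, L v 0 (s i) ≠ 0 := by
  obtain ⟨x, hx⟩ := Module.Dual.exists_forall_ne_zero_of_forall_exists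
    (fun i => (innerₗ E3 (s i) : Module.Dual ℝ E3)) (fun i => ⟨s i, by
      simpa using hs i⟩)
  refine ⟨x, fun i => ?_⟩
  have := hx i
  simp only [innerₗ_apply_apply, PiLp.inner_apply, Fin.sum_univ_three, RCLike.inner_apply, conj_trivial] at this
  unfold L
  intro h
  apply this
  linarith

theorem L_sub (v x y : E3) : L v 0 (x - y) = L v 0 x - L v 0 y := by
  unfold L; simp; ring

theorem L_smul (v x : E3) (c : ℝ) : L v 0 (c • x) = c * L v 0 x := by
  unfold L; simp; ring

theorem L_add_left (v w x : E3) : L (v + w) 0 x = L v 0 x + L w 0 x := by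
  unfold L; simp; ring

theorem L_smul_left (v x : E3) (c : ℝ) : L (c • v) 0 x = c * L v 0 x := by
  unfold L; simp; ring

theorem L_k (v x : E3) (k : ℝ) : L v k x = L v 0 x - k := by unfold L; ring

/-- pairwise distinct quadruples in `P` span -/
def Gen (P : Finset E3) : Prop := ∀ a ∈ P, ∀ b ∈ P, ∀ c ∈ P, ∀ d ∈ P, a ≠ b → a ≠ c → a ≠ d →
  b ≠ c → b ≠ d → c ≠ d → D a b c d ≠ 0

theorem exists_edge (P : Finset E3) (hP : P.card = 8) (hgen : Gen P) :
    ∃ a ∈ P, ∃ b ∈ P, a ≠ b ∧ ∃ (v : E3) (k : ℝ), L v k a = 0 ∧ L v k b = 0 ∧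
      ∀ x ∈ P, x ≠ a → x ≠ b → 0 < L v k x := by
  classical
  -- first functional
  obtain ⟨v, hv⟩ := exists_generic (ι := {q : P × P // (q.1 : E3) ≠ q.2}) (fun q => (q.1.1 : E3) - q.1.2)
    (fun q => sub_ne_zero.mpr q.2)
  have hv' : ∀ x ∈ P, ∀ y ∈ P, x ≠ y → L v 0 x ≠ L v 0 y := by
    intro x hx y hy hxy h
    apply hv ⟨(⟨x, hx⟩, ⟨y, hy⟩), hxy⟩
    simp [L_sub, h]
  have hne : P.Nonempty := Finset.card_pos.mp (by omega)
  obtain ⟨a, haP, ha⟩ := P.exists_min_image (fun x => L v 0 x) hne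
  have ha' : ∀ x ∈ P, x ≠ a → 0 < L v 0 (x - a) := by
    intro x hx hxa
    rw [L_sub]
    have h1 := ha x hx
    have h2 := hv' x hx a haP hxa
    have : L v 0 a < L v 0 x := lt_of_le_of_ne h1 (Ne.symm h2)
    linarith
  let u : E3 → E3 := fun x => (L v 0 (x - a))⁻¹ • (x - a)
  have hu : ∀ x ∈ P, ∀ y ∈ P, x ≠ a → y ≠ a → x ≠ y → u x ≠ u y := by
    intro x hx y hy hxa hya hxy h
    -- another point z
    have hz : ∃ z ∈ P, z ≠ a ∧ z ≠ x ∧ z ≠ y := by
      have hc : ((P.erase a).erase x).card = 6 := by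
        rw [Finset.card_erase_of_mem, Finset.card_erase_of_mem haP, hP]
        exact Finset.mem_erase.mpr ⟨hxa, hx⟩
      have hc2 : 0 < (((P.erase a).erase x).erase y).card := by
        have := Finset.pred_card_le_card_erase (s := (P.erase a).erase x) (a := y)
        omega
      obtain ⟨z, hz⟩ := Finset.card_pos.mp hc2
      simp only [Finset.mem_erase] at hz
      exact ⟨z, hz.2.2.2, hz.2.2.1, hz.2.1, hz.1⟩
    obtain ⟨z, hz, hza, hzx, hzy⟩ := hz
    apply hgen a haP x hx y hy z hz (Ne.symm hxa) (Ne.symm hya) (Ne.symm hza) hxy (Ne.symm hzx) (Ne.symm hzy)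
    have hx0 := ha' x hx hxa
    have hy0 := ha' y hy hya
    have h' : (x - a) = (L v 0 (x - a) * (L v 0 (y - a))⁻¹) • (y - a) := by
      have := congrArg (fun w => L v 0 (x - a) • w) h
      simp only [u, smul_smul] at this
      rw [mul_inv_cancel₀ hx0.ne', one_smul] at this
      exact this
    generalize L v 0 (x - a) * (L v 0 (y - a))⁻¹ = c at h'
    have e0 : x 0 - a 0 = c * (y 0 - a 0) := by simpa using congrArg (fun w : E3 => w 0) h'
    have e1 : x 1 - a 1 = c * (y 1 - a 1) := by simpa using congrArg (fun w : E3 => w 1) h'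
    have e2 : x 2 - a 2 = c * (y 2 - a 2) := by simpa using congrArg (fun w : E3 => w 2) h'
    unfold D
    rw [e0, e1, e2]; ring
  obtain ⟨w, hw⟩ := exists_generic (ι := {q : P × P // (q.1 : E3) ≠ a ∧ (q.2 : E3) ≠ a ∧ (q.1 : E3) ≠ q.2})
    (fun q => u q.1.1 - u q.1.2)
    (fun q => sub_ne_zero.mpr (hu _ q.1.1.2 _ q.1.2.2 q.2.1 q.2.2.1 q.2.2.2))
  have hw' : ∀ x ∈ P, ∀ y ∈ P, x ≠ a → y ≠ a → x ≠ y → L w 0 (u x) ≠ L w 0 (u y) := by
    intro x hx y hy hxa hya hxy h
    apply hw ⟨(⟨x, hx⟩, ⟨y, hy⟩), hxa, hya, hxy⟩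
    simp [L_sub, h]
  have hne2 : (P.erase a).Nonempty := Finset.card_pos.mp (by rw [Finset.card_erase_of_mem haP]; omega)
  obtain ⟨b, hb0, hb⟩ := (P.erase a).exists_min_image (fun x => L w 0 (u x)) hne2
  have hba : b ≠ a := (Finset.mem_erase.mp hb0).1
  have hbP : b ∈ P := (Finset.mem_erase.mp hb0).2
  refine ⟨a, haP, b, hbP, Ne.symm hba, w + (-(L w 0 (u b))) • v, L (w + (-(L w 0 (u b))) • v) 0 a, ?_, ?_, ?_⟩
  · rw [L_k]; ring
  · rw [L_k, ← L_sub, L_add_left, L_smul_left]
    have hb1 := ha' b hbP hba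
    simp only [u]
    rw [L_smul]
    field_simp
    ring
  · intro x hx hxa hxb
    rw [L_k, ← L_sub, L_add_left, L_smul_left]
    have hx1 := ha' x hx hxa
    have h1 := hb x (Finset.mem_erase.mpr ⟨hxa, hx⟩)
    have h2 := hw' x hx b hbP hxa hba hxb
    have h3 : L w 0 (u b) < L w 0 (u x) := lt_of_le_of_ne h1 (Ne.symm h2)
    have h4 : L w 0 (x - a) = L v 0 (x - a) * L w 0 (u x) := by
      simp only [u]; rw [L_smul]; field_simp
    rw [h4]
    nlinarith

theorem exists_labelling (P : Finset E3) (hP : P.card = 8) (hgen : Gen P) :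
    ∃ p : Fin 8 → E3, Function.Injective p ∧ (∀ i, p i ∈ P) ∧
      ∀ i j : Fin 8, 2 ≤ i → i < j → 0 < D (p 0) (p 1) (p i) (p j) := by
  classical
  obtain ⟨a, haP, b, hbP, hab, v, k, hLa, hLb, hpos⟩ := exists_edge P hP hgen
  let α := {x : E3 // x ∈ (P.erase a).erase b}
  have hcard : Fintype.card α = 6 := by
    rw [Fintype.card_coe, Finset.card_erase_of_mem, Finset.card_erase_of_mem haP, hP]
    exact Finset.mem_erase.mpr ⟨Ne.symm hab, hbP⟩
  have hα : ∀ x : α, (x : E3) ∈ P ∧ (x : E3) ≠ a ∧ (x : E3) ≠ b := by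
    intro x
    have := x.2
    simp only [Finset.mem_erase] at this
    exact ⟨this.2.2, this.2.1, this.1⟩
  have htot : ∀ x y : α, x ≠ y → D a b x y ≠ 0 := by
    intro x y hxy
    obtain ⟨hx, hxa, hxb⟩ := hα x
    obtain ⟨hy, hya, hyb⟩ := hα y
    exact hgen a haP b hbP x hx y hy hab (Ne.symm hxa) (Ne.symm hya) (Ne.symm hxb) (Ne.symm hyb)
      (fun h => hxy (Subtype.ext h))
  let r : α → α → Prop := fun x y => 0 < D a b x y
  have : IsStrictTotalOrder α r :=
    { trichotomous := by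
        intro x y h1 h2
        by_contra hxy
        have h := htot x y hxy
        have h3 := D_swap23 a b x y
        simp only [r, not_lt] at h1 h2
        have : D a b x y = 0 := by linarith
        exact h this
      irrefl := by
        intro x hx
        have h3 := D_swap23 a b x x
        simp only [r] at hx
        linarith
      trans := by
        intro x y z hxy hyz
        simp only [r] at *
        have h5 := D_five' v k a b x y z hLa hLb
        obtain ⟨hx, hxa, hxb⟩ := hα x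
        obtain ⟨hy, hya, hyb⟩ := hα y
        obtain ⟨hz, hza, hzb⟩ := hα z
        have h1 := hpos x hx hxa hxb
        have h2 := hpos y hy hya hyb
        have h3 := hpos z hz hza hzb
        have h6 := mul_pos h1 hyz
        have h7 := mul_pos h3 hxy
        have h8 : 0 < L v k y * D a b x z := by linarith
        exact (mul_pos_iff_of_pos_left h2).mp h8 }
  let _ : LinearOrder α := linearOrderOfSTO r
  let e : Fin 6 ≃o α := (Fintype.orderIsoFinOfCardEq α hcard)
  refine ⟨fun i => if h0 : i = 0 then a else if h1 : i = 1 then b else e ⟨i.val - 2, by omega⟩, ?_, ?_, ?_⟩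
  · intro i j hij
    simp only at hij
    split_ifs at hij with h0 h1 h2 h3 h4 h5 h6 h7
    · rw [h0, h1]
    · exact absurd hij hab
    · exact absurd hij.symm (hα _).2.1
    · exact absurd hij hab.symm
    · rw [h3, h5]
    · exact absurd hij.symm (hα _).2.2
    · exact absurd hij (hα _).2.1
    · exact absurd hij (hα _).2.2
    · have h8 := e.injective (Subtype.ext hij)
      simp only [Fin.mk.injEq] at h8
      have hi0 : i.val ≠ 0 := fun h => h0 (Fin.ext h)
      have hi1 : i.val ≠ 1 := fun h => h3 (Fin.ext h)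
      have hj0 : j.val ≠ 0 := fun h => h6 (Fin.ext h)
      have hj1 : j.val ≠ 1 := fun h => h7 (Fin.ext h)
      apply Fin.ext; omega
  · intro i
    simp only
    split_ifs
    · exact haP
    · exact hbP
    · exact (hα _).1
  · intro i j hi hij
    have hi' : 2 ≤ i.val := hi
    have hij' : i.val < j.val := hij
    have h0 : i ≠ 0 := by intro h; rw [h] at hi'; simp at hi'
    have h1 : i ≠ 1 := by intro h; rw [h] at hi'; simp at hi'
    have h2 : j ≠ 0 := by intro h; rw [h] at hij'; simp at hij'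
    have h3 : j ≠ 1 := by intro h; rw [h] at hij'; simp at hij'; omega
    simp only [h0, h1, h2, h3, dite_false, dite_true, one_ne_zero]
    have : e ⟨i.val - 2, by omega⟩ < e ⟨j.val - 2, by omega⟩ := by
      apply e.strictMono
      simp only [Fin.mk_lt_mk]
      omega
    exact this

end Pool.Agent.Lib_MP_a0a64f_co
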