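import Mathlib
import Pool.Agent.Lib_MP_a0a64f_co.Geometry

set_option autoImplicit false

/-! Combinatorial core: 111 unit-propagation steps found by a SAT solver, starting from
Grassmann-Pluecker relations, the hull-edge normalisation and the plane certificates. -/

namespace Pool.Agent.Lib_MP_a0a64f_co

/-- colour class {0, 1, 2, 3} -/
def X0123 : Fin 8 → Bool := ![true, true, true, true, false, false, false, false]
/-- colour class {0, 1, 2, 4} -/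
def X0124 : Fin 8 → Bool := ![true, true, true, false, true, false, false, false]
/-- colour class {0, 1, 2, 5} -/
def X0125 : Fin 8 → Bool := ![true, true, true, false, false, true, false, false]
/-- colour class {0, 1, 2, 6} -/
def X0126 : Fin 8 → Bool := ![true, true, true, false, false, false, true, false]
/-- colour class {0, 1, 2, 7} -/
def X0127 : Fin 8 → Bool := ![true, true, true, false, false, false, false, true]
/-- colour class {0, 1, 3, 4} -/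
def X0134 : Fin 8 → Bool := ![true, true, false, true, true, false, false, false]
/-- colour class {0, 1, 3, 5} -/
def X0135 : Fin 8 → Bool := ![true, true, false, true, false, true, false, false]
/-- colour class {0, 1, 3, 6} -/
def X0136 : Fin 8 → Bool := ![true, true, false, true, false, false, true, false]
/-- colour class {0, 1, 3, 7} -/
def X0137 : Fin 8 → Bool := ![true, true, false, true, false, false, false, true]
/-- colour class {0, 1, 4, 5} -/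
def X0145 : Fin 8 → Bool := ![true, true, false, false, true, true, false, false]
/-- colour class {0, 1, 4, 6} -/
def X0146 : Fin 8 → Bool := ![true, true, false, false, true, false, true, false]
/-- colour class {0, 1, 4, 7} -/
def X0147 : Fin 8 → Bool := ![true, true, false, false, true, false, false, true]
/-- colour class {0, 1, 5, 6} -/
def X0156 : Fin 8 → Bool := ![true, true, false, false, false, true, true, false]
/-- colour class {0, 1, 5, 7} -/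
def X0157 : Fin 8 → Bool := ![true, true, false, false, false, true, false, true]
/-- colour class {0, 1, 6, 7} -/
def X0167 : Fin 8 → Bool := ![true, true, false, false, false, false, true, true]
/-- colour class {0, 2, 3, 4} -/
def X0234 : Fin 8 → Bool := ![true, false, true, true, true, false, false, false]
/-- colour class {0, 2, 3, 5} -/
def X0235 : Fin 8 → Bool := ![true, false, true, true, false, true, false, false]
/-- colour class {0, 2, 3, 6} -/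
def X0236 : Fin 8 → Bool := ![true, false, true, true, false, false, true, false]
/-- colour class {0, 2, 3, 7} -/
def X0237 : Fin 8 → Bool := ![true, false, true, true, false, false, false, true]
/-- colour class {0, 2, 4, 5} -/
def X0245 : Fin 8 → Bool := ![true, false, true, false, true, true, false, false]
/-- colour class {0, 2, 4, 6} -/
def X0246 : Fin 8 → Bool := ![true, false, true, false, true, false, true, false]
/-- colour class {0, 2, 4, 7} -/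
def X0247 : Fin 8 → Bool := ![true, false, true, false, true, false, false, true]
/-- colour class {0, 2, 5, 6} -/
def X0256 : Fin 8 → Bool := ![true, false, true, false, false, true, true, false]
/-- colour class {0, 2, 5, 7} -/
def X0257 : Fin 8 → Bool := ![true, false, true, false, false, true, false, true]
/-- colour class {0, 2, 6, 7} -/
def X0267 : Fin 8 → Bool := ![true, false, true, false, false, false, true, true]
/-- colour class {0, 3, 4, 5} -/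
def X0345 : Fin 8 → Bool := ![true, false, false, true, true, true, false, false]
/-- colour class {0, 3, 4, 6} -/
def X0346 : Fin 8 → Bool := ![true, false, false, true, true, false, true, false]
/-- colour class {0, 3, 4, 7} -/
def X0347 : Fin 8 → Bool := ![true, false, false, true, true, false, false, true]
/-- colour class {0, 3, 5, 6} -/
def X0356 : Fin 8 → Bool := ![true, false, false, true, false, true, true, false]
/-- colour class {0, 3, 5, 7} -/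
def X0357 : Fin 8 → Bool := ![true, false, false, true, false, true, false, true]
/-- colour class {0, 3, 6, 7} -/
def X0367 : Fin 8 → Bool := ![true, false, false, true, false, false, true, true]
/-- colour class {0, 4, 5, 6} -/
def X0456 : Fin 8 → Bool := ![true, false, false, false, true, true, true, false]
/-- colour class {0, 4, 5, 7} -/
def X0457 : Fin 8 → Bool := ![true, false, false, false, true, true, false, true]
/-- colour class {0, 4, 6, 7} -/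
def X0467 : Fin 8 → Bool := ![true, false, false, false, true, false, true, true]
/-- colour class {0, 5, 6, 7} -/
def X0567 : Fin 8 → Bool := ![true, false, false, false, false, true, true, true]

theorem in986 (p : Fin 8 → E3) (h1 : 0 < D (p 0) (p 1) (p 2) (p 5)) (h2 : 0 < D (p 0) (p 3) (p 5) (p 6)) (h3 : 0 < D (p 0) (p 1) (p 3) (p 5)) (h4 : D (p 0) (p 2) (p 5) (p 6) < 0) (h5 : 0 < D (p 0) (p 1) (p 5) (p 6)) (h6 : 0 < D (p 0) (p 2) (p 3) (p 5)) : False := by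
  have g := D_gp (p 0) (p 5) (p 1) (p 2) (p 3) (p 6)
  rw [D_0312 (p 0) (p 1) (p 2) (p 5), D_0213 (p 0) (p 3) (p 5) (p 6), D_0312 (p 0) (p 1) (p 3) (p 5), D_0213 (p 0) (p 2) (p 5) (p 6), D_0213 (p 0) (p 1) (p 5) (p 6), D_0312 (p 0) (p 2) (p 3) (p 5)] at g
  linarith only [g, mul_pos h1 h2, mul_neg_of_pos_of_neg h3 h4, mul_pos h5 h6]

theorem in1002 (p : Fin 8 → E3) (h1 : 0 < D (p 0) (p 1) (p 2) (p 5)) (h2 : 0 < D (p 0) (p 3) (p 5) (p 7)) (h3 : 0 < D (p 0) (p 1) (p 3) (p 5)) (h4 : D (p 0) (p 2) (p 5) (p 7) < 0) (h5 : 0 < D (p 0) (p 1) (p 5) (p 7)) (h6 : 0 < D (p 0) (p 2) (p 3) (p 5)) : False := by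
  have g := D_gp (p 0) (p 5) (p 1) (p 2) (p 3) (p 7)
  rw [D_0312 (p 0) (p 1) (p 2) (p 5), D_0213 (p 0) (p 3) (p 5) (p 7), D_0312 (p 0) (p 1) (p 3) (p 5), D_0213 (p 0) (p 2) (p 5) (p 7), D_0213 (p 0) (p 1) (p 5) (p 7), D_0312 (p 0) (p 2) (p 3) (p 5)] at g
  linarith only [g, mul_pos h1 h2, mul_neg_of_pos_of_neg h3 h4, mul_pos h5 h6]

theorem in1965 (p : Fin 8 → E3) (h1 : 0 < D (p 0) (p 1) (p 2) (p 3)) (h2 : 0 < D (p 1) (p 3) (p 4) (p 7)) (h3 : 0 < D (p 0) (p 1) (p 3) (p 4)) (h4 : D (p 1) (p 2) (p 3) (p 7) < 0) (h5 : 0 < D (p 0) (p 1) (p 3) (p 7)) (h6 : 0 < D (p 1) (p 2) (p 3) (p 4)) : False := by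
  have g := D_gp (p 1) (p 3) (p 0) (p 2) (p 4) (p 7)
  rw [D_1302 (p 0) (p 1) (p 2) (p 3), D_1203 (p 0) (p 1) (p 3) (p 4), D_0213 (p 1) (p 2) (p 3) (p 7), D_1203 (p 0) (p 1) (p 3) (p 7), D_0213 (p 1) (p 2) (p 3) (p 4)] at g
  linarith only [g, mul_pos h1 h2, mul_neg_of_pos_of_neg h3 h4, mul_pos h5 h6]

theorem in1989 (p : Fin 8 → E3) (h1 : 0 < D (p 0) (p 1) (p 2) (p 3)) (h2 : D (p 1) (p 3) (p 5) (p 7) < 0) (h3 : 0 < D (p 0) (p 1) (p 3) (p 5)) (h4 : 0 < D (p 1) (p 2) (p 3) (p 7)) (h5 : 0 < D (p 0) (p 1) (p 3) (p 7)) (h6 : D (p 1) (p 2) (p 3) (p 5) < 0) : False := by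
  have g := D_gp (p 1) (p 3) (p 0) (p 2) (p 5) (p 7)
  rw [D_1302 (p 0) (p 1) (p 2) (p 3), D_1203 (p 0) (p 1) (p 3) (p 5), D_0213 (p 1) (p 2) (p 3) (p 7), D_1203 (p 0) (p 1) (p 3) (p 7), D_0213 (p 1) (p 2) (p 3) (p 5)] at g
  linarith only [g, mul_neg_of_pos_of_neg h1 h2, mul_pos h3 h4, mul_neg_of_pos_of_neg h5 h6]

theorem in1997 (p : Fin 8 → E3) (h1 : 0 < D (p 0) (p 1) (p 2) (p 3)) (h2 : 0 < D (p 1) (p 3) (p 5) (p 7)) (h3 : 0 < D (p 0) (p 1) (p 3) (p 5)) (h4 : D (p 1) (p 2) (p 3) (p 7) < 0) (h5 : 0 < D (p 0) (p 1) (p 3) (p 7)) (h6 : 0 < D (p 1) (p 2) (p 3) (p 5)) : False := by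
  have g := D_gp (p 1) (p 3) (p 0) (p 2) (p 5) (p 7)
  rw [D_1302 (p 0) (p 1) (p 2) (p 3), D_1203 (p 0) (p 1) (p 3) (p 5), D_0213 (p 1) (p 2) (p 3) (p 7), D_1203 (p 0) (p 1) (p 3) (p 7), D_0213 (p 1) (p 2) (p 3) (p 5)] at g
  linarith only [g, mul_pos h1 h2, mul_neg_of_pos_of_neg h3 h4, mul_pos h5 h6]

theorem in2013 (p : Fin 8 → E3) (h1 : 0 < D (p 0) (p 1) (p 2) (p 3)) (h2 : 0 < D (p 1) (p 3) (p 6) (p 7)) (h3 : 0 < D (p 0) (p 1) (p 3) (p 6)) (h4 : D (p 1) (p 2) (p 3) (p 7) < 0) (h5 : 0 < D (p 0) (p 1) (p 3) (p 7)) (h6 : 0 < D (p 1) (p 2) (p 3) (p 6)) : False := by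
  have g := D_gp (p 1) (p 3) (p 0) (p 2) (p 6) (p 7)
  rw [D_1302 (p 0) (p 1) (p 2) (p 3), D_1203 (p 0) (p 1) (p 3) (p 6), D_0213 (p 1) (p 2) (p 3) (p 7), D_1203 (p 0) (p 1) (p 3) (p 7), D_0213 (p 1) (p 2) (p 3) (p 6)] at g
  linarith only [g, mul_pos h1 h2, mul_neg_of_pos_of_neg h3 h4, mul_pos h5 h6]

theorem in2110 (p : Fin 8 → E3) (h1 : 0 < D (p 1) (p 2) (p 3) (p 4)) (h2 : 0 < D (p 1) (p 3) (p 5) (p 7)) (h3 : D (p 1) (p 2) (p 3) (p 5) < 0) (h4 : 0 < D (p 1) (p 3) (p 4) (p 7)) (h5 : 0 < D (p 1) (p 2) (p 3) (p 7)) (h6 : 0 < D (p 1) (p 3) (p 4) (p 5)) : False := by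
  have g := D_gp (p 1) (p 3) (p 2) (p 4) (p 5) (p 7)
  rw [D_0213 (p 1) (p 2) (p 3) (p 4), D_0213 (p 1) (p 2) (p 3) (p 5), D_0213 (p 1) (p 2) (p 3) (p 7)] at g
  linarith only [g, mul_pos h1 h2, mul_neg_of_neg_of_pos h3 h4, mul_pos h5 h6]

theorem in2237 (p : Fin 8 → E3) (h1 : 0 < D (p 0) (p 1) (p 2) (p 4)) (h2 : 0 < D (p 1) (p 4) (p 5) (p 7)) (h3 : 0 < D (p 0) (p 1) (p 4) (p 5)) (h4 : D (p 1) (p 2) (p 4) (p 7) < 0) (h5 : 0 < D (p 0) (p 1) (p 4) (p 7)) (h6 : 0 < D (p 1) (p 2) (p 4) (p 5)) : False := by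
  have g := D_gp (p 1) (p 4) (p 0) (p 2) (p 5) (p 7)
  rw [D_1302 (p 0) (p 1) (p 2) (p 4), D_1203 (p 0) (p 1) (p 4) (p 5), D_0213 (p 1) (p 2) (p 4) (p 7), D_1203 (p 0) (p 1) (p 4) (p 7), D_0213 (p 1) (p 2) (p 4) (p 5)] at g
  linarith only [g, mul_pos h1 h2, mul_neg_of_pos_of_neg h3 h4, mul_pos h5 h6]

theorem in2277 (p : Fin 8 → E3) (h1 : 0 < D (p 0) (p 1) (p 3) (p 4)) (h2 : D (p 1) (p 4) (p 5) (p 7) < 0) (h3 : 0 < D (p 0) (p 1) (p 4) (p 5)) (h4 : 0 < D (p 1) (p 3) (p 4) (p 7)) (h5 : 0 < D (p 0) (p 1) (p 4) (p 7)) (h6 : D (p 1) (p 3) (p 4) (p 5) < 0) : False := by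
  have g := D_gp (p 1) (p 4) (p 0) (p 3) (p 5) (p 7)
  rw [D_1302 (p 0) (p 1) (p 3) (p 4), D_1203 (p 0) (p 1) (p 4) (p 5), D_0213 (p 1) (p 3) (p 4) (p 7), D_1203 (p 0) (p 1) (p 4) (p 7), D_0213 (p 1) (p 3) (p 4) (p 5)] at g
  linarith only [g, mul_neg_of_pos_of_neg h1 h2, mul_pos h3 h4, mul_neg_of_pos_of_neg h5 h6]

theorem in2533 (p : Fin 8 → E3) (h1 : 0 < D (p 0) (p 1) (p 3) (p 5)) (h2 : D (p 1) (p 5) (p 6) (p 7) < 0) (h3 : 0 < D (p 0) (p 1) (p 5) (p 6)) (h4 : 0 < D (p 1) (p 3) (p 5) (p 7)) (h5 : 0 < D (p 0) (p 1) (p 5) (p 7)) (h6 : D (p 1) (p 3) (p 5) (p 6) < 0) : False := by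
  have g := D_gp (p 1) (p 5) (p 0) (p 3) (p 6) (p 7)
  rw [D_1302 (p 0) (p 1) (p 3) (p 5), D_1203 (p 0) (p 1) (p 5) (p 6), D_0213 (p 1) (p 3) (p 5) (p 7), D_1203 (p 0) (p 1) (p 5) (p 7), D_0213 (p 1) (p 3) (p 5) (p 6)] at g
  linarith only [g, mul_neg_of_pos_of_neg h1 h2, mul_pos h3 h4, mul_neg_of_pos_of_neg h5 h6]

theorem in2976 (p : Fin 8 → E3) (h1 : 0 < D (p 0) (p 1) (p 2) (p 7)) (h2 : 0 < D (p 1) (p 5) (p 6) (p 7)) (h3 : 0 < D (p 0) (p 1) (p 5) (p 7)) (h4 : D (p 1) (p 2) (p 6) (p 7) < 0) (h5 : 0 < D (p 0) (p 1) (p 6) (p 7)) (h6 : 0 < D (p 1) (p 2) (p 5) (p 7)) : False := by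
  have g := D_gp (p 1) (p 7) (p 0) (p 2) (p 5) (p 6)
  rw [D_1302 (p 0) (p 1) (p 2) (p 7), D_0312 (p 1) (p 5) (p 6) (p 7), D_1302 (p 0) (p 1) (p 5) (p 7), D_0312 (p 1) (p 2) (p 6) (p 7), D_1302 (p 0) (p 1) (p 6) (p 7), D_0312 (p 1) (p 2) (p 5) (p 7)] at g
  linarith only [g, mul_pos h1 h2, mul_neg_of_pos_of_neg h3 h4, mul_pos h5 h6]

theorem in3000 (p : Fin 8 → E3) (h1 : 0 < D (p 0) (p 1) (p 3) (p 7)) (h2 : D (p 1) (p 4) (p 6) (p 7) < 0) (h3 : 0 < D (p 0) (p 1) (p 4) (p 7)) (h4 : 0 < D (p 1) (p 3) (p 6) (p 7)) (h5 : 0 < D (p 0) (p 1) (p 6) (p 7)) (h6 : D (p 1) (p 3) (p 4) (p 7) < 0) : False := by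
  have g := D_gp (p 1) (p 7) (p 0) (p 3) (p 4) (p 6)
  rw [D_1302 (p 0) (p 1) (p 3) (p 7), D_0312 (p 1) (p 4) (p 6) (p 7), D_1302 (p 0) (p 1) (p 4) (p 7), D_0312 (p 1) (p 3) (p 6) (p 7), D_1302 (p 0) (p 1) (p 6) (p 7), D_0312 (p 1) (p 3) (p 4) (p 7)] at g
  linarith only [g, mul_neg_of_pos_of_neg h1 h2, mul_pos h3 h4, mul_neg_of_pos_of_neg h5 h6]

theorem in3008 (p : Fin 8 → E3) (h1 : 0 < D (p 0) (p 1) (p 3) (p 7)) (h2 : 0 < D (p 1) (p 4) (p 6) (p 7)) (h3 : 0 < D (p 0) (p 1) (p 4) (p 7)) (h4 : D (p 1) (p 3) (p 6) (p 7) < 0) (h5 : 0 < D (p 0) (p 1) (p 6) (p 7)) (h6 : 0 < D (p 1) (p 3) (p 4) (p 7)) : False := by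
  have g := D_gp (p 1) (p 7) (p 0) (p 3) (p 4) (p 6)
  rw [D_1302 (p 0) (p 1) (p 3) (p 7), D_0312 (p 1) (p 4) (p 6) (p 7), D_1302 (p 0) (p 1) (p 4) (p 7), D_0312 (p 1) (p 3) (p 6) (p 7), D_1302 (p 0) (p 1) (p 6) (p 7), D_0312 (p 1) (p 3) (p 4) (p 7)] at g
  linarith only [g, mul_pos h1 h2, mul_neg_of_pos_of_neg h3 h4, mul_pos h5 h6]

theorem in3016 (p : Fin 8 → E3) (h1 : 0 < D (p 0) (p 1) (p 3) (p 7)) (h2 : D (p 1) (p 5) (p 6) (p 7) < 0) (h3 : 0 < D (p 0) (p 1) (p 5) (p 7)) (h4 : 0 < D (p 1) (p 3) (p 6) (p 7)) (h5 : 0 < D (p 0) (p 1) (p 6) (p 7)) (h6 : D (p 1) (p 3) (p 5) (p 7) < 0) : False := by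
  have g := D_gp (p 1) (p 7) (p 0) (p 3) (p 5) (p 6)
  rw [D_1302 (p 0) (p 1) (p 3) (p 7), D_0312 (p 1) (p 5) (p 6) (p 7), D_1302 (p 0) (p 1) (p 5) (p 7), D_0312 (p 1) (p 3) (p 6) (p 7), D_1302 (p 0) (p 1) (p 6) (p 7), D_0312 (p 1) (p 3) (p 5) (p 7)] at g
  linarith only [g, mul_neg_of_pos_of_neg h1 h2, mul_pos h3 h4, mul_neg_of_pos_of_neg h5 h6]

theorem in3024 (p : Fin 8 → E3) (h1 : 0 < D (p 0) (p 1) (p 3) (p 7)) (h2 : 0 < D (p 1) (p 5) (p 6) (p 7)) (h3 : 0 < D (p 0) (p 1) (p 5) (p 7)) (h4 : D (p 1) (p 3) (p 6) (p 7) < 0) (h5 : 0 < D (p 0) (p 1) (p 6) (p 7)) (h6 : 0 < D (p 1) (p 3) (p 5) (p 7)) : False := by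
  have g := D_gp (p 1) (p 7) (p 0) (p 3) (p 5) (p 6)
  rw [D_1302 (p 0) (p 1) (p 3) (p 7), D_0312 (p 1) (p 5) (p 6) (p 7), D_1302 (p 0) (p 1) (p 5) (p 7), D_0312 (p 1) (p 3) (p 6) (p 7), D_1302 (p 0) (p 1) (p 6) (p 7), D_0312 (p 1) (p 3) (p 5) (p 7)] at g
  linarith only [g, mul_pos h1 h2, mul_neg_of_pos_of_neg h3 h4, mul_pos h5 h6]

theorem in3105 (p : Fin 8 → E3) (h1 : 0 < D (p 1) (p 3) (p 4) (p 7)) (h2 : 0 < D (p 1) (p 5) (p 6) (p 7)) (h3 : 0 < D (p 1) (p 3) (p 5) (p 7)) (h4 : D (p 1) (p 4) (p 6) (p 7) < 0) (h5 : 0 < D (p 1) (p 3) (p 6) (p 7)) (h6 : 0 < D (p 1) (p 4) (p 5) (p 7)) : False := by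
  have g := D_gp (p 1) (p 7) (p 3) (p 4) (p 5) (p 6)
  rw [D_0312 (p 1) (p 3) (p 4) (p 7), D_0312 (p 1) (p 5) (p 6) (p 7), D_0312 (p 1) (p 3) (p 5) (p 7), D_0312 (p 1) (p 4) (p 6) (p 7), D_0312 (p 1) (p 3) (p 6) (p 7), D_0312 (p 1) (p 4) (p 5) (p 7)] at g
  linarith only [g, mul_pos h1 h2, mul_neg_of_pos_of_neg h3 h4, mul_pos h5 h6]

theorem in4593 (p : Fin 8 → E3) (h1 : 0 < D (p 0) (p 1) (p 3) (p 5)) (h2 : 0 < D (p 2) (p 3) (p 5) (p 7)) (h3 : 0 < D (p 0) (p 2) (p 3) (p 5)) (h4 : D (p 1) (p 3) (p 5) (p 7) < 0) (h5 : 0 < D (p 0) (p 3) (p 5) (p 7)) (h6 : 0 < D (p 1) (p 2) (p 3) (p 5)) : False := by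
  have g := D_gp (p 3) (p 5) (p 0) (p 1) (p 2) (p 7)
  rw [D_2301 (p 0) (p 1) (p 3) (p 5), D_1203 (p 2) (p 3) (p 5) (p 7), D_2301 (p 0) (p 2) (p 3) (p 5), D_1203 (p 1) (p 3) (p 5) (p 7), D_1203 (p 0) (p 3) (p 5) (p 7), D_2301 (p 1) (p 2) (p 3) (p 5)] at g
  linarith only [g, mul_pos h1 h2, mul_neg_of_pos_of_neg h3 h4, mul_pos h5 h6]

theorem in4604 (p : Fin 8 → E3) (h1 : 0 < D (p 0) (p 1) (p 3) (p 5)) (h2 : D (p 2) (p 3) (p 5) (p 7) < 0) (h3 : D (p 0) (p 2) (p 3) (p 5) < 0) (h4 : D (p 1) (p 3) (p 5) (p 7) < 0) (h5 : D (p 0) (p 3) (p 5) (p 7) < 0) (h6 : 0 < D (p 1) (p 2) (p 3) (p 5)) : False := by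
  have g := D_gp (p 3) (p 5) (p 0) (p 1) (p 2) (p 7)
  rw [D_2301 (p 0) (p 1) (p 3) (p 5), D_1203 (p 2) (p 3) (p 5) (p 7), D_2301 (p 0) (p 2) (p 3) (p 5), D_1203 (p 1) (p 3) (p 5) (p 7), D_1203 (p 0) (p 3) (p 5) (p 7), D_2301 (p 1) (p 2) (p 3) (p 5)] at g
  linarith only [g, mul_neg_of_pos_of_neg h1 h2, mul_pos_of_neg_of_neg h3 h4, mul_neg_of_neg_of_pos h5 h6]

theorem in4625 (p : Fin 8 → E3) (h1 : 0 < D (p 0) (p 1) (p 3) (p 5)) (h2 : D (p 3) (p 4) (p 5) (p 7) < 0) (h3 : D (p 0) (p 3) (p 4) (p 5) < 0) (h4 : D (p 1) (p 3) (p 5) (p 7) < 0) (h5 : 0 < D (p 0) (p 3) (p 5) (p 7)) (h6 : D (p 1) (p 3) (p 4) (p 5) < 0) : False := by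
  have g := D_gp (p 3) (p 5) (p 0) (p 1) (p 4) (p 7)
  rw [D_2301 (p 0) (p 1) (p 3) (p 5), D_0213 (p 3) (p 4) (p 5) (p 7), D_1302 (p 0) (p 3) (p 4) (p 5), D_1203 (p 1) (p 3) (p 5) (p 7), D_1203 (p 0) (p 3) (p 5) (p 7), D_1302 (p 1) (p 3) (p 4) (p 5)] at g
  linarith only [g, mul_neg_of_pos_of_neg h1 h2, mul_pos_of_neg_of_neg h3 h4, mul_neg_of_pos_of_neg h5 h6]

theorem in4636 (p : Fin 8 → E3) (h1 : 0 < D (p 0) (p 1) (p 3) (p 5)) (h2 : 0 < D (p 3) (p 4) (p 5) (p 7)) (h3 : 0 < D (p 0) (p 3) (p 4) (p 5)) (h4 : D (p 1) (p 3) (p 5) (p 7) < 0) (h5 : D (p 0) (p 3) (p 5) (p 7) < 0) (h6 : D (p 1) (p 3) (p 4) (p 5) < 0) : False := by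
  have g := D_gp (p 3) (p 5) (p 0) (p 1) (p 4) (p 7)
  rw [D_2301 (p 0) (p 1) (p 3) (p 5), D_0213 (p 3) (p 4) (p 5) (p 7), D_1302 (p 0) (p 3) (p 4) (p 5), D_1203 (p 1) (p 3) (p 5) (p 7), D_1203 (p 0) (p 3) (p 5) (p 7), D_1302 (p 1) (p 3) (p 4) (p 5)] at g
  linarith only [g, mul_pos h1 h2, mul_neg_of_pos_of_neg h3 h4, mul_pos_of_neg_of_neg h5 h6]

theorem in6836 (p : Fin 8 → E3) (h1 : 0 < D (p 0) (p 1) (p 2) (p 3)) (h2 : 0 < D (p 0) (p 1) (p 3) (p 4)) (h3 : 0 < D (p 0) (p 1) (p 3) (p 5)) (h4 : 0 < D (p 0) (p 1) (p 3) (p 6)) (h5 : 0 < D (p 0) (p 1) (p 3) (p 7)) (h6 : ¬ Sep p X0123) : False := by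
  apply h6
  refine sep_cert5 p X0123 0 1 3 2 4 5 6 7 (by decide) (-1) ?_ ?_ ?_ ?_ ?_ ?_
  · rw [D_0132 (p 0) (p 1) (p 2) (p 3)]; exact neg_ne_zero.mpr h1.ne'
  · show 0 < sg true * _; rw [sg_true, D_0132 (p 0) (p 1) (p 2) (p 3)]; linarith only [h1]
  · show 0 < sg false * _; rw [sg_false]; linarith only [h2]
  · show 0 < sg false * _; rw [sg_false]; linarith only [h3]
  · show 0 < sg false * _; rw [sg_false]; linarith only [h4]
  · show 0 < sg false * _; rw [sg_false]; linarith only [h5]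

theorem in6969 (p : Fin 8 → E3) (h1 : 0 < D (p 0) (p 1) (p 3) (p 5)) (h2 : 0 < D (p 0) (p 2) (p 3) (p 5)) (h3 : D (p 0) (p 3) (p 4) (p 5) < 0) (h4 : D (p 0) (p 3) (p 5) (p 6) < 0) (h5 : D (p 0) (p 3) (p 5) (p 7) < 0) (h6 : ¬ Sep p X0124) : False := by
  apply h6
  refine sep_cert5 p X0124 0 3 5 1 2 4 6 7 (by decide) (1) ?_ ?_ ?_ ?_ ?_ ?_
  · rw [D_0231 (p 0) (p 1) (p 3) (p 5)]; exact h1.ne'
  · show 0 < sg true * _; rw [sg_true, D_0231 (p 0) (p 1) (p 3) (p 5)]; linarith only [h1]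
  · show 0 < sg true * _; rw [sg_true, D_0231 (p 0) (p 2) (p 3) (p 5)]; linarith only [h2]
  · show 0 < sg true * _; rw [sg_true, D_0132 (p 0) (p 3) (p 4) (p 5)]; linarith only [h3]
  · show 0 < sg false * _; rw [sg_false]; linarith only [h4]
  · show 0 < sg false * _; rw [sg_false]; linarith only [h5]

theorem in6998 (p : Fin 8 → E3) (h1 : 0 < D (p 0) (p 1) (p 3) (p 4)) (h2 : D (p 1) (p 2) (p 3) (p 4) < 0) (h3 : 0 < D (p 1) (p 3) (p 4) (p 5)) (h4 : 0 < D (p 1) (p 3) (p 4) (p 6)) (h5 : 0 < D (p 1) (p 3) (p 4) (p 7)) (h6 : ¬ Sep p X0124) : False := by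
  apply h6
  refine sep_cert5 p X0124 1 3 4 0 2 5 6 7 (by decide) (-1) ?_ ?_ ?_ ?_ ?_ ?_
  · rw [D_1230 (p 0) (p 1) (p 3) (p 4)]; exact neg_ne_zero.mpr h1.ne'
  · show 0 < sg true * _; rw [sg_true, D_1230 (p 0) (p 1) (p 3) (p 4)]; linarith only [h1]
  · show 0 < sg true * _; rw [sg_true, D_0231 (p 1) (p 2) (p 3) (p 4)]; linarith only [h2]
  · show 0 < sg false * _; rw [sg_false]; linarith only [h3]
  · show 0 < sg false * _; rw [sg_false]; linarith only [h4]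
  · show 0 < sg false * _; rw [sg_false]; linarith only [h5]

theorem in7004 (p : Fin 8 → E3) (h1 : 0 < D (p 0) (p 1) (p 3) (p 7)) (h2 : D (p 1) (p 2) (p 3) (p 7) < 0) (h3 : 0 < D (p 1) (p 3) (p 4) (p 7)) (h4 : D (p 1) (p 3) (p 5) (p 7) < 0) (h5 : D (p 1) (p 3) (p 6) (p 7) < 0) (h6 : ¬ Sep p X0124) : False := by
  apply h6
  refine sep_cert5 p X0124 1 3 7 0 2 4 5 6 (by decide) (-1) ?_ ?_ ?_ ?_ ?_ ?_
  · rw [D_1230 (p 0) (p 1) (p 3) (p 7)]; exact neg_ne_zero.mpr h1.ne'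
  · show 0 < sg true * _; rw [sg_true, D_1230 (p 0) (p 1) (p 3) (p 7)]; linarith only [h1]
  · show 0 < sg true * _; rw [sg_true, D_0231 (p 1) (p 2) (p 3) (p 7)]; linarith only [h2]
  · show 0 < sg true * _; rw [sg_true, D_0132 (p 1) (p 3) (p 4) (p 7)]; linarith only [h3]
  · show 0 < sg false * _; rw [sg_false, D_0132 (p 1) (p 3) (p 5) (p 7)]; linarith only [h4]
  · show 0 < sg false * _; rw [sg_false, D_0132 (p 1) (p 3) (p 6) (p 7)]; linarith only [h5]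

theorem in7041 (p : Fin 8 → E3) (h1 : D (p 0) (p 3) (p 4) (p 7) < 0) (h2 : D (p 1) (p 3) (p 4) (p 7) < 0) (h3 : D (p 2) (p 3) (p 4) (p 7) < 0) (h4 : 0 < D (p 3) (p 4) (p 5) (p 7)) (h5 : 0 < D (p 3) (p 4) (p 6) (p 7)) (h6 : ¬ Sep p X0124) : False := by
  apply h6
  refine sep_cert5 p X0124 3 4 7 0 1 2 5 6 (by decide) (1) ?_ ?_ ?_ ?_ ?_ ?_
  · rw [D_1230 (p 0) (p 3) (p 4) (p 7)]; exact neg_ne_zero.mpr h1.ne
  · show 0 < sg true * _; rw [sg_true, D_1230 (p 0) (p 3) (p 4) (p 7)]; linarith only [h1]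
  · show 0 < sg true * _; rw [sg_true, D_1230 (p 1) (p 3) (p 4) (p 7)]; linarith only [h2]
  · show 0 < sg true * _; rw [sg_true, D_1230 (p 2) (p 3) (p 4) (p 7)]; linarith only [h3]
  · show 0 < sg false * _; rw [sg_false, D_0132 (p 3) (p 4) (p 5) (p 7)]; linarith only [h4]
  · show 0 < sg false * _; rw [sg_false, D_0132 (p 3) (p 4) (p 6) (p 7)]; linarith only [h5]

theorem in7042 (p : Fin 8 → E3) (h1 : 0 < D (p 0) (p 3) (p 4) (p 7)) (h2 : 0 < D (p 1) (p 3) (p 4) (p 7)) (h3 : 0 < D (p 2) (p 3) (p 4) (p 7)) (h4 : D (p 3) (p 4) (p 5) (p 7) < 0) (h5 : D (p 3) (p 4) (p 6) (p 7) < 0) (h6 : ¬ Sep p X0124) : False := by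
  apply h6
  refine sep_cert5 p X0124 3 4 7 0 1 2 5 6 (by decide) (-1) ?_ ?_ ?_ ?_ ?_ ?_
  · rw [D_1230 (p 0) (p 3) (p 4) (p 7)]; exact neg_ne_zero.mpr h1.ne'
  · show 0 < sg true * _; rw [sg_true, D_1230 (p 0) (p 3) (p 4) (p 7)]; linarith only [h1]
  · show 0 < sg true * _; rw [sg_true, D_1230 (p 1) (p 3) (p 4) (p 7)]; linarith only [h2]
  · show 0 < sg true * _; rw [sg_true, D_1230 (p 2) (p 3) (p 4) (p 7)]; linarith only [h3]
  · show 0 < sg false * _; rw [sg_false, D_0132 (p 3) (p 4) (p 5) (p 7)]; linarith only [h4]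
  · show 0 < sg false * _; rw [sg_false, D_0132 (p 3) (p 4) (p 6) (p 7)]; linarith only [h5]

theorem in7045 (p : Fin 8 → E3) (h1 : D (p 0) (p 3) (p 5) (p 7) < 0) (h2 : D (p 1) (p 3) (p 5) (p 7) < 0) (h3 : D (p 2) (p 3) (p 5) (p 7) < 0) (h4 : 0 < D (p 3) (p 4) (p 5) (p 7)) (h5 : 0 < D (p 3) (p 5) (p 6) (p 7)) (h6 : ¬ Sep p X0124) : False := by
  apply h6
  refine sep_cert5 p X0124 3 5 7 0 1 2 4 6 (by decide) (1) ?_ ?_ ?_ ?_ ?_ ?_
  · rw [D_1230 (p 0) (p 3) (p 5) (p 7)]; exact neg_ne_zero.mpr h1.ne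
  · show 0 < sg true * _; rw [sg_true, D_1230 (p 0) (p 3) (p 5) (p 7)]; linarith only [h1]
  · show 0 < sg true * _; rw [sg_true, D_1230 (p 1) (p 3) (p 5) (p 7)]; linarith only [h2]
  · show 0 < sg true * _; rw [sg_true, D_1230 (p 2) (p 3) (p 5) (p 7)]; linarith only [h3]
  · show 0 < sg true * _; rw [sg_true, D_0231 (p 3) (p 4) (p 5) (p 7)]; linarith only [h4]
  · show 0 < sg false * _; rw [sg_false, D_0132 (p 3) (p 5) (p 6) (p 7)]; linarith only [h5]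

theorem in7081 (p : Fin 8 → E3) (h1 : 0 < D (p 0) (p 1) (p 3) (p 5)) (h2 : 0 < D (p 0) (p 2) (p 3) (p 5)) (h3 : 0 < D (p 0) (p 3) (p 4) (p 5)) (h4 : D (p 0) (p 3) (p 5) (p 6) < 0) (h5 : D (p 0) (p 3) (p 5) (p 7) < 0) (h6 : ¬ Sep p X0125) : False := by
  apply h6
  refine sep_cert5 p X0125 0 3 5 1 2 4 6 7 (by decide) (1) ?_ ?_ ?_ ?_ ?_ ?_
  · rw [D_0231 (p 0) (p 1) (p 3) (p 5)]; exact h1.ne'
  · show 0 < sg true * _; rw [sg_true, D_0231 (p 0) (p 1) (p 3) (p 5)]; linarith only [h1]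
  · show 0 < sg true * _; rw [sg_true, D_0231 (p 0) (p 2) (p 3) (p 5)]; linarith only [h2]
  · show 0 < sg false * _; rw [sg_false, D_0132 (p 0) (p 3) (p 4) (p 5)]; linarith only [h3]
  · show 0 < sg false * _; rw [sg_false]; linarith only [h4]
  · show 0 < sg false * _; rw [sg_false]; linarith only [h5]

theorem in7112 (p : Fin 8 → E3) (h1 : 0 < D (p 0) (p 1) (p 3) (p 5)) (h2 : D (p 1) (p 2) (p 3) (p 5) < 0) (h3 : D (p 1) (p 3) (p 4) (p 5) < 0) (h4 : 0 < D (p 1) (p 3) (p 5) (p 6)) (h5 : 0 < D (p 1) (p 3) (p 5) (p 7)) (h6 : ¬ Sep p X0125) : False := by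
  apply h6
  refine sep_cert5 p X0125 1 3 5 0 2 4 6 7 (by decide) (-1) ?_ ?_ ?_ ?_ ?_ ?_
  · rw [D_1230 (p 0) (p 1) (p 3) (p 5)]; exact neg_ne_zero.mpr h1.ne'
  · show 0 < sg true * _; rw [sg_true, D_1230 (p 0) (p 1) (p 3) (p 5)]; linarith only [h1]
  · show 0 < sg true * _; rw [sg_true, D_0231 (p 1) (p 2) (p 3) (p 5)]; linarith only [h2]
  · show 0 < sg false * _; rw [sg_false, D_0132 (p 1) (p 3) (p 4) (p 5)]; linarith only [h3]
  · show 0 < sg false * _; rw [sg_false]; linarith only [h4]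
  · show 0 < sg false * _; rw [sg_false]; linarith only [h5]

theorem in7116 (p : Fin 8 → E3) (h1 : 0 < D (p 0) (p 1) (p 3) (p 7)) (h2 : D (p 1) (p 2) (p 3) (p 7) < 0) (h3 : D (p 1) (p 3) (p 4) (p 7) < 0) (h4 : 0 < D (p 1) (p 3) (p 5) (p 7)) (h5 : D (p 1) (p 3) (p 6) (p 7) < 0) (h6 : ¬ Sep p X0125) : False := by
  apply h6
  refine sep_cert5 p X0125 1 3 7 0 2 4 5 6 (by decide) (-1) ?_ ?_ ?_ ?_ ?_ ?_
  · rw [D_1230 (p 0) (p 1) (p 3) (p 7)]; exact neg_ne_zero.mpr h1.ne'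
  · show 0 < sg true * _; rw [sg_true, D_1230 (p 0) (p 1) (p 3) (p 7)]; linarith only [h1]
  · show 0 < sg true * _; rw [sg_true, D_0231 (p 1) (p 2) (p 3) (p 7)]; linarith only [h2]
  · show 0 < sg false * _; rw [sg_false, D_0132 (p 1) (p 3) (p 4) (p 7)]; linarith only [h3]
  · show 0 < sg true * _; rw [sg_true, D_0132 (p 1) (p 3) (p 5) (p 7)]; linarith only [h4]
  · show 0 < sg false * _; rw [sg_false, D_0132 (p 1) (p 3) (p 6) (p 7)]; linarith only [h5]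

theorem in7157 (p : Fin 8 → E3) (h1 : D (p 0) (p 3) (p 5) (p 7) < 0) (h2 : D (p 1) (p 3) (p 5) (p 7) < 0) (h3 : D (p 2) (p 3) (p 5) (p 7) < 0) (h4 : D (p 3) (p 4) (p 5) (p 7) < 0) (h5 : 0 < D (p 3) (p 5) (p 6) (p 7)) (h6 : ¬ Sep p X0125) : False := by
  apply h6
  refine sep_cert5 p X0125 3 5 7 0 1 2 4 6 (by decide) (1) ?_ ?_ ?_ ?_ ?_ ?_
  · rw [D_1230 (p 0) (p 3) (p 5) (p 7)]; exact neg_ne_zero.mpr h1.ne
  · show 0 < sg true * _; rw [sg_true, D_1230 (p 0) (p 3) (p 5) (p 7)]; linarith only [h1]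
  · show 0 < sg true * _; rw [sg_true, D_1230 (p 1) (p 3) (p 5) (p 7)]; linarith only [h2]
  · show 0 < sg true * _; rw [sg_true, D_1230 (p 2) (p 3) (p 5) (p 7)]; linarith only [h3]
  · show 0 < sg false * _; rw [sg_false, D_0231 (p 3) (p 4) (p 5) (p 7)]; linarith only [h4]
  · show 0 < sg false * _; rw [sg_false, D_0132 (p 3) (p 5) (p 6) (p 7)]; linarith only [h5]

theorem in7158 (p : Fin 8 → E3) (h1 : 0 < D (p 0) (p 3) (p 5) (p 7)) (h2 : 0 < D (p 1) (p 3) (p 5) (p 7)) (h3 : 0 < D (p 2) (p 3) (p 5) (p 7)) (h4 : 0 < D (p 3) (p 4) (p 5) (p 7)) (h5 : D (p 3) (p 5) (p 6) (p 7) < 0) (h6 : ¬ Sep p X0125) : False := by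
  apply h6
  refine sep_cert5 p X0125 3 5 7 0 1 2 4 6 (by decide) (-1) ?_ ?_ ?_ ?_ ?_ ?_
  · rw [D_1230 (p 0) (p 3) (p 5) (p 7)]; exact neg_ne_zero.mpr h1.ne'
  · show 0 < sg true * _; rw [sg_true, D_1230 (p 0) (p 3) (p 5) (p 7)]; linarith only [h1]
  · show 0 < sg true * _; rw [sg_true, D_1230 (p 1) (p 3) (p 5) (p 7)]; linarith only [h2]
  · show 0 < sg true * _; rw [sg_true, D_1230 (p 2) (p 3) (p 5) (p 7)]; linarith only [h3]
  · show 0 < sg false * _; rw [sg_false, D_0231 (p 3) (p 4) (p 5) (p 7)]; linarith only [h4]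
  · show 0 < sg false * _; rw [sg_false, D_0132 (p 3) (p 5) (p 6) (p 7)]; linarith only [h5]

theorem in7222 (p : Fin 8 → E3) (h1 : 0 < D (p 0) (p 1) (p 3) (p 4)) (h2 : D (p 1) (p 2) (p 3) (p 4) < 0) (h3 : 0 < D (p 1) (p 3) (p 4) (p 5)) (h4 : D (p 1) (p 3) (p 4) (p 6) < 0) (h5 : 0 < D (p 1) (p 3) (p 4) (p 7)) (h6 : ¬ Sep p X0126) : False := by
  apply h6
  refine sep_cert5 p X0126 1 3 4 0 2 5 6 7 (by decide) (-1) ?_ ?_ ?_ ?_ ?_ ?_
  · rw [D_1230 (p 0) (p 1) (p 3) (p 4)]; exact neg_ne_zero.mpr h1.ne'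
  · show 0 < sg true * _; rw [sg_true, D_1230 (p 0) (p 1) (p 3) (p 4)]; linarith only [h1]
  · show 0 < sg true * _; rw [sg_true, D_0231 (p 1) (p 2) (p 3) (p 4)]; linarith only [h2]
  · show 0 < sg false * _; rw [sg_false]; linarith only [h3]
  · show 0 < sg true * _; rw [sg_true]; linarith only [h4]
  · show 0 < sg false * _; rw [sg_false]; linarith only [h5]

theorem in7224 (p : Fin 8 → E3) (h1 : 0 < D (p 0) (p 1) (p 3) (p 5)) (h2 : D (p 1) (p 2) (p 3) (p 5) < 0) (h3 : D (p 1) (p 3) (p 4) (p 5) < 0) (h4 : D (p 1) (p 3) (p 5) (p 6) < 0) (h5 : 0 < D (p 1) (p 3) (p 5) (p 7)) (h6 : ¬ Sep p X0126) : False := by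
  apply h6
  refine sep_cert5 p X0126 1 3 5 0 2 4 6 7 (by decide) (-1) ?_ ?_ ?_ ?_ ?_ ?_
  · rw [D_1230 (p 0) (p 1) (p 3) (p 5)]; exact neg_ne_zero.mpr h1.ne'
  · show 0 < sg true * _; rw [sg_true, D_1230 (p 0) (p 1) (p 3) (p 5)]; linarith only [h1]
  · show 0 < sg true * _; rw [sg_true, D_0231 (p 1) (p 2) (p 3) (p 5)]; linarith only [h2]
  · show 0 < sg false * _; rw [sg_false, D_0132 (p 1) (p 3) (p 4) (p 5)]; linarith only [h3]
  · show 0 < sg true * _; rw [sg_true]; linarith only [h4]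
  · show 0 < sg false * _; rw [sg_false]; linarith only [h5]

theorem in7228 (p : Fin 8 → E3) (h1 : 0 < D (p 0) (p 1) (p 3) (p 7)) (h2 : D (p 1) (p 2) (p 3) (p 7) < 0) (h3 : D (p 1) (p 3) (p 4) (p 7) < 0) (h4 : D (p 1) (p 3) (p 5) (p 7) < 0) (h5 : 0 < D (p 1) (p 3) (p 6) (p 7)) (h6 : ¬ Sep p X0126) : False := by
  apply h6
  refine sep_cert5 p X0126 1 3 7 0 2 4 5 6 (by decide) (-1) ?_ ?_ ?_ ?_ ?_ ?_
  · rw [D_1230 (p 0) (p 1) (p 3) (p 7)]; exact neg_ne_zero.mpr h1.ne'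
  · show 0 < sg true * _; rw [sg_true, D_1230 (p 0) (p 1) (p 3) (p 7)]; linarith only [h1]
  · show 0 < sg true * _; rw [sg_true, D_0231 (p 1) (p 2) (p 3) (p 7)]; linarith only [h2]
  · show 0 < sg false * _; rw [sg_false, D_0132 (p 1) (p 3) (p 4) (p 7)]; linarith only [h3]
  · show 0 < sg false * _; rw [sg_false, D_0132 (p 1) (p 3) (p 5) (p 7)]; linarith only [h4]
  · show 0 < sg true * _; rw [sg_true, D_0132 (p 1) (p 3) (p 6) (p 7)]; linarith only [h5]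

theorem in7265 (p : Fin 8 → E3) (h1 : D (p 0) (p 3) (p 4) (p 7) < 0) (h2 : D (p 1) (p 3) (p 4) (p 7) < 0) (h3 : D (p 2) (p 3) (p 4) (p 7) < 0) (h4 : 0 < D (p 3) (p 4) (p 5) (p 7)) (h5 : D (p 3) (p 4) (p 6) (p 7) < 0) (h6 : ¬ Sep p X0126) : False := by
  apply h6
  refine sep_cert5 p X0126 3 4 7 0 1 2 5 6 (by decide) (1) ?_ ?_ ?_ ?_ ?_ ?_
  · rw [D_1230 (p 0) (p 3) (p 4) (p 7)]; exact neg_ne_zero.mpr h1.ne
  · show 0 < sg true * _; rw [sg_true, D_1230 (p 0) (p 3) (p 4) (p 7)]; linarith only [h1]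
  · show 0 < sg true * _; rw [sg_true, D_1230 (p 1) (p 3) (p 4) (p 7)]; linarith only [h2]
  · show 0 < sg true * _; rw [sg_true, D_1230 (p 2) (p 3) (p 4) (p 7)]; linarith only [h3]
  · show 0 < sg false * _; rw [sg_false, D_0132 (p 3) (p 4) (p 5) (p 7)]; linarith only [h4]
  · show 0 < sg true * _; rw [sg_true, D_0132 (p 3) (p 4) (p 6) (p 7)]; linarith only [h5]

theorem in7266 (p : Fin 8 → E3) (h1 : 0 < D (p 0) (p 3) (p 4) (p 7)) (h2 : 0 < D (p 1) (p 3) (p 4) (p 7)) (h3 : 0 < D (p 2) (p 3) (p 4) (p 7)) (h4 : D (p 3) (p 4) (p 5) (p 7) < 0) (h5 : 0 < D (p 3) (p 4) (p 6) (p 7)) (h6 : ¬ Sep p X0126) : False := by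
  apply h6
  refine sep_cert5 p X0126 3 4 7 0 1 2 5 6 (by decide) (-1) ?_ ?_ ?_ ?_ ?_ ?_
  · rw [D_1230 (p 0) (p 3) (p 4) (p 7)]; exact neg_ne_zero.mpr h1.ne'
  · show 0 < sg true * _; rw [sg_true, D_1230 (p 0) (p 3) (p 4) (p 7)]; linarith only [h1]
  · show 0 < sg true * _; rw [sg_true, D_1230 (p 1) (p 3) (p 4) (p 7)]; linarith only [h2]
  · show 0 < sg true * _; rw [sg_true, D_1230 (p 2) (p 3) (p 4) (p 7)]; linarith only [h3]
  · show 0 < sg false * _; rw [sg_false, D_0132 (p 3) (p 4) (p 5) (p 7)]; linarith only [h4]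
  · show 0 < sg true * _; rw [sg_true, D_0132 (p 3) (p 4) (p 6) (p 7)]; linarith only [h5]

theorem in7269 (p : Fin 8 → E3) (h1 : D (p 0) (p 3) (p 5) (p 7) < 0) (h2 : D (p 1) (p 3) (p 5) (p 7) < 0) (h3 : D (p 2) (p 3) (p 5) (p 7) < 0) (h4 : D (p 3) (p 4) (p 5) (p 7) < 0) (h5 : D (p 3) (p 5) (p 6) (p 7) < 0) (h6 : ¬ Sep p X0126) : False := by
  apply h6
  refine sep_cert5 p X0126 3 5 7 0 1 2 4 6 (by decide) (1) ?_ ?_ ?_ ?_ ?_ ?_
  · rw [D_1230 (p 0) (p 3) (p 5) (p 7)]; exact neg_ne_zero.mpr h1.ne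
  · show 0 < sg true * _; rw [sg_true, D_1230 (p 0) (p 3) (p 5) (p 7)]; linarith only [h1]
  · show 0 < sg true * _; rw [sg_true, D_1230 (p 1) (p 3) (p 5) (p 7)]; linarith only [h2]
  · show 0 < sg true * _; rw [sg_true, D_1230 (p 2) (p 3) (p 5) (p 7)]; linarith only [h3]
  · show 0 < sg false * _; rw [sg_false, D_0231 (p 3) (p 4) (p 5) (p 7)]; linarith only [h4]
  · show 0 < sg true * _; rw [sg_true, D_0132 (p 3) (p 5) (p 6) (p 7)]; linarith only [h5]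

theorem in7270 (p : Fin 8 → E3) (h1 : 0 < D (p 0) (p 3) (p 5) (p 7)) (h2 : 0 < D (p 1) (p 3) (p 5) (p 7)) (h3 : 0 < D (p 2) (p 3) (p 5) (p 7)) (h4 : 0 < D (p 3) (p 4) (p 5) (p 7)) (h5 : 0 < D (p 3) (p 5) (p 6) (p 7)) (h6 : ¬ Sep p X0126) : False := by
  apply h6
  refine sep_cert5 p X0126 3 5 7 0 1 2 4 6 (by decide) (-1) ?_ ?_ ?_ ?_ ?_ ?_
  · rw [D_1230 (p 0) (p 3) (p 5) (p 7)]; exact neg_ne_zero.mpr h1.ne'
  · show 0 < sg true * _; rw [sg_true, D_1230 (p 0) (p 3) (p 5) (p 7)]; linarith only [h1]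
  · show 0 < sg true * _; rw [sg_true, D_1230 (p 1) (p 3) (p 5) (p 7)]; linarith only [h2]
  · show 0 < sg true * _; rw [sg_true, D_1230 (p 2) (p 3) (p 5) (p 7)]; linarith only [h3]
  · show 0 < sg false * _; rw [sg_false, D_0231 (p 3) (p 4) (p 5) (p 7)]; linarith only [h4]
  · show 0 < sg true * _; rw [sg_true, D_0132 (p 3) (p 5) (p 6) (p 7)]; linarith only [h5]

theorem in7305 (p : Fin 8 → E3) (h1 : 0 < D (p 0) (p 1) (p 3) (p 5)) (h2 : 0 < D (p 0) (p 2) (p 3) (p 5)) (h3 : 0 < D (p 0) (p 3) (p 4) (p 5)) (h4 : D (p 0) (p 3) (p 5) (p 6) < 0) (h5 : 0 < D (p 0) (p 3) (p 5) (p 7)) (h6 : ¬ Sep p X0127) : False := by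
  apply h6
  refine sep_cert5 p X0127 0 3 5 1 2 4 6 7 (by decide) (1) ?_ ?_ ?_ ?_ ?_ ?_
  · rw [D_0231 (p 0) (p 1) (p 3) (p 5)]; exact h1.ne'
  · show 0 < sg true * _; rw [sg_true, D_0231 (p 0) (p 1) (p 3) (p 5)]; linarith only [h1]
  · show 0 < sg true * _; rw [sg_true, D_0231 (p 0) (p 2) (p 3) (p 5)]; linarith only [h2]
  · show 0 < sg false * _; rw [sg_false, D_0132 (p 0) (p 3) (p 4) (p 5)]; linarith only [h3]
  · show 0 < sg false * _; rw [sg_false]; linarith only [h4]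
  · show 0 < sg true * _; rw [sg_true]; linarith only [h5]

theorem in7340 (p : Fin 8 → E3) (h1 : 0 < D (p 0) (p 1) (p 3) (p 7)) (h2 : D (p 1) (p 2) (p 3) (p 7) < 0) (h3 : D (p 1) (p 3) (p 4) (p 7) < 0) (h4 : D (p 1) (p 3) (p 5) (p 7) < 0) (h5 : D (p 1) (p 3) (p 6) (p 7) < 0) (h6 : ¬ Sep p X0127) : False := by
  apply h6
  refine sep_cert5 p X0127 1 3 7 0 2 4 5 6 (by decide) (-1) ?_ ?_ ?_ ?_ ?_ ?_
  · rw [D_1230 (p 0) (p 1) (p 3) (p 7)]; exact neg_ne_zero.mpr h1.ne'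
  · show 0 < sg true * _; rw [sg_true, D_1230 (p 0) (p 1) (p 3) (p 7)]; linarith only [h1]
  · show 0 < sg true * _; rw [sg_true, D_0231 (p 1) (p 2) (p 3) (p 7)]; linarith only [h2]
  · show 0 < sg false * _; rw [sg_false, D_0132 (p 1) (p 3) (p 4) (p 7)]; linarith only [h3]
  · show 0 < sg false * _; rw [sg_false, D_0132 (p 1) (p 3) (p 5) (p 7)]; linarith only [h4]
  · show 0 < sg false * _; rw [sg_false, D_0132 (p 1) (p 3) (p 6) (p 7)]; linarith only [h5]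

theorem in7417 (p : Fin 8 → E3) (h1 : 0 < D (p 0) (p 1) (p 3) (p 5)) (h2 : D (p 0) (p 2) (p 3) (p 5) < 0) (h3 : D (p 0) (p 3) (p 4) (p 5) < 0) (h4 : D (p 0) (p 3) (p 5) (p 6) < 0) (h5 : D (p 0) (p 3) (p 5) (p 7) < 0) (h6 : ¬ Sep p X0134) : False := by
  apply h6
  refine sep_cert5 p X0134 0 3 5 1 2 4 6 7 (by decide) (1) ?_ ?_ ?_ ?_ ?_ ?_
  · rw [D_0231 (p 0) (p 1) (p 3) (p 5)]; exact h1.ne'
  · show 0 < sg true * _; rw [sg_true, D_0231 (p 0) (p 1) (p 3) (p 5)]; linarith only [h1]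
  · show 0 < sg false * _; rw [sg_false, D_0231 (p 0) (p 2) (p 3) (p 5)]; linarith only [h2]
  · show 0 < sg true * _; rw [sg_true, D_0132 (p 0) (p 3) (p 4) (p 5)]; linarith only [h3]
  · show 0 < sg false * _; rw [sg_false]; linarith only [h4]
  · show 0 < sg false * _; rw [sg_false]; linarith only [h5]

theorem in7446 (p : Fin 8 → E3) (h1 : 0 < D (p 0) (p 1) (p 3) (p 4)) (h2 : 0 < D (p 1) (p 2) (p 3) (p 4)) (h3 : 0 < D (p 1) (p 3) (p 4) (p 5)) (h4 : 0 < D (p 1) (p 3) (p 4) (p 6)) (h5 : 0 < D (p 1) (p 3) (p 4) (p 7)) (h6 : ¬ Sep p X0134) : False := by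
  apply h6
  refine sep_cert5 p X0134 1 3 4 0 2 5 6 7 (by decide) (-1) ?_ ?_ ?_ ?_ ?_ ?_
  · rw [D_1230 (p 0) (p 1) (p 3) (p 4)]; exact neg_ne_zero.mpr h1.ne'
  · show 0 < sg true * _; rw [sg_true, D_1230 (p 0) (p 1) (p 3) (p 4)]; linarith only [h1]
  · show 0 < sg false * _; rw [sg_false, D_0231 (p 1) (p 2) (p 3) (p 4)]; linarith only [h2]
  · show 0 < sg false * _; rw [sg_false]; linarith only [h3]
  · show 0 < sg false * _; rw [sg_false]; linarith only [h4]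
  · show 0 < sg false * _; rw [sg_false]; linarith only [h5]

theorem in7448 (p : Fin 8 → E3) (h1 : 0 < D (p 0) (p 1) (p 3) (p 5)) (h2 : 0 < D (p 1) (p 2) (p 3) (p 5)) (h3 : 0 < D (p 1) (p 3) (p 4) (p 5)) (h4 : 0 < D (p 1) (p 3) (p 5) (p 6)) (h5 : 0 < D (p 1) (p 3) (p 5) (p 7)) (h6 : ¬ Sep p X0134) : False := by
  apply h6
  refine sep_cert5 p X0134 1 3 5 0 2 4 6 7 (by decide) (-1) ?_ ?_ ?_ ?_ ?_ ?_
  · rw [D_1230 (p 0) (p 1) (p 3) (p 5)]; exact neg_ne_zero.mpr h1.ne'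
  · show 0 < sg true * _; rw [sg_true, D_1230 (p 0) (p 1) (p 3) (p 5)]; linarith only [h1]
  · show 0 < sg false * _; rw [sg_false, D_0231 (p 1) (p 2) (p 3) (p 5)]; linarith only [h2]
  · show 0 < sg true * _; rw [sg_true, D_0132 (p 1) (p 3) (p 4) (p 5)]; linarith only [h3]
  · show 0 < sg false * _; rw [sg_false]; linarith only [h4]
  · show 0 < sg false * _; rw [sg_false]; linarith only [h5]

theorem in7452 (p : Fin 8 → E3) (h1 : 0 < D (p 0) (p 1) (p 3) (p 7)) (h2 : 0 < D (p 1) (p 2) (p 3) (p 7)) (h3 : 0 < D (p 1) (p 3) (p 4) (p 7)) (h4 : D (p 1) (p 3) (p 5) (p 7) < 0) (h5 : D (p 1) (p 3) (p 6) (p 7) < 0) (h6 : ¬ Sep p X0134) : False := by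
  apply h6
  refine sep_cert5 p X0134 1 3 7 0 2 4 5 6 (by decide) (-1) ?_ ?_ ?_ ?_ ?_ ?_
  · rw [D_1230 (p 0) (p 1) (p 3) (p 7)]; exact neg_ne_zero.mpr h1.ne'
  · show 0 < sg true * _; rw [sg_true, D_1230 (p 0) (p 1) (p 3) (p 7)]; linarith only [h1]
  · show 0 < sg false * _; rw [sg_false, D_0231 (p 1) (p 2) (p 3) (p 7)]; linarith only [h2]
  · show 0 < sg true * _; rw [sg_true, D_0132 (p 1) (p 3) (p 4) (p 7)]; linarith only [h3]
  · show 0 < sg false * _; rw [sg_false, D_0132 (p 1) (p 3) (p 5) (p 7)]; linarith only [h4]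
  · show 0 < sg false * _; rw [sg_false, D_0132 (p 1) (p 3) (p 6) (p 7)]; linarith only [h5]

theorem in7489 (p : Fin 8 → E3) (h1 : D (p 0) (p 3) (p 4) (p 7) < 0) (h2 : D (p 1) (p 3) (p 4) (p 7) < 0) (h3 : 0 < D (p 2) (p 3) (p 4) (p 7)) (h4 : 0 < D (p 3) (p 4) (p 5) (p 7)) (h5 : 0 < D (p 3) (p 4) (p 6) (p 7)) (h6 : ¬ Sep p X0134) : False := by
  apply h6
  refine sep_cert5 p X0134 3 4 7 0 1 2 5 6 (by decide) (1) ?_ ?_ ?_ ?_ ?_ ?_
  · rw [D_1230 (p 0) (p 3) (p 4) (p 7)]; exact neg_ne_zero.mpr h1.ne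
  · show 0 < sg true * _; rw [sg_true, D_1230 (p 0) (p 3) (p 4) (p 7)]; linarith only [h1]
  · show 0 < sg true * _; rw [sg_true, D_1230 (p 1) (p 3) (p 4) (p 7)]; linarith only [h2]
  · show 0 < sg false * _; rw [sg_false, D_1230 (p 2) (p 3) (p 4) (p 7)]; linarith only [h3]
  · show 0 < sg false * _; rw [sg_false, D_0132 (p 3) (p 4) (p 5) (p 7)]; linarith only [h4]
  · show 0 < sg false * _; rw [sg_false, D_0132 (p 3) (p 4) (p 6) (p 7)]; linarith only [h5]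

theorem in7490 (p : Fin 8 → E3) (h1 : 0 < D (p 0) (p 3) (p 4) (p 7)) (h2 : 0 < D (p 1) (p 3) (p 4) (p 7)) (h3 : D (p 2) (p 3) (p 4) (p 7) < 0) (h4 : D (p 3) (p 4) (p 5) (p 7) < 0) (h5 : D (p 3) (p 4) (p 6) (p 7) < 0) (h6 : ¬ Sep p X0134) : False := by
  apply h6
  refine sep_cert5 p X0134 3 4 7 0 1 2 5 6 (by decide) (-1) ?_ ?_ ?_ ?_ ?_ ?_
  · rw [D_1230 (p 0) (p 3) (p 4) (p 7)]; exact neg_ne_zero.mpr h1.ne'
  · show 0 < sg true * _; rw [sg_true, D_1230 (p 0) (p 3) (p 4) (p 7)]; linarith only [h1]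
  · show 0 < sg true * _; rw [sg_true, D_1230 (p 1) (p 3) (p 4) (p 7)]; linarith only [h2]
  · show 0 < sg false * _; rw [sg_false, D_1230 (p 2) (p 3) (p 4) (p 7)]; linarith only [h3]
  · show 0 < sg false * _; rw [sg_false, D_0132 (p 3) (p 4) (p 5) (p 7)]; linarith only [h4]
  · show 0 < sg false * _; rw [sg_false, D_0132 (p 3) (p 4) (p 6) (p 7)]; linarith only [h5]

theorem in7493 (p : Fin 8 → E3) (h1 : D (p 0) (p 3) (p 5) (p 7) < 0) (h2 : D (p 1) (p 3) (p 5) (p 7) < 0) (h3 : 0 < D (p 2) (p 3) (p 5) (p 7)) (h4 : 0 < D (p 3) (p 4) (p 5) (p 7)) (h5 : 0 < D (p 3) (p 5) (p 6) (p 7)) (h6 : ¬ Sep p X0134) : False := by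
  apply h6
  refine sep_cert5 p X0134 3 5 7 0 1 2 4 6 (by decide) (1) ?_ ?_ ?_ ?_ ?_ ?_
  · rw [D_1230 (p 0) (p 3) (p 5) (p 7)]; exact neg_ne_zero.mpr h1.ne
  · show 0 < sg true * _; rw [sg_true, D_1230 (p 0) (p 3) (p 5) (p 7)]; linarith only [h1]
  · show 0 < sg true * _; rw [sg_true, D_1230 (p 1) (p 3) (p 5) (p 7)]; linarith only [h2]
  · show 0 < sg false * _; rw [sg_false, D_1230 (p 2) (p 3) (p 5) (p 7)]; linarith only [h3]
  · show 0 < sg true * _; rw [sg_true, D_0231 (p 3) (p 4) (p 5) (p 7)]; linarith only [h4]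
  · show 0 < sg false * _; rw [sg_false, D_0132 (p 3) (p 5) (p 6) (p 7)]; linarith only [h5]

theorem in7529 (p : Fin 8 → E3) (h1 : 0 < D (p 0) (p 1) (p 3) (p 5)) (h2 : D (p 0) (p 2) (p 3) (p 5) < 0) (h3 : 0 < D (p 0) (p 3) (p 4) (p 5)) (h4 : D (p 0) (p 3) (p 5) (p 6) < 0) (h5 : D (p 0) (p 3) (p 5) (p 7) < 0) (h6 : ¬ Sep p X0135) : False := by
  apply h6
  refine sep_cert5 p X0135 0 3 5 1 2 4 6 7 (by decide) (1) ?_ ?_ ?_ ?_ ?_ ?_
  · rw [D_0231 (p 0) (p 1) (p 3) (p 5)]; exact h1.ne'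
  · show 0 < sg true * _; rw [sg_true, D_0231 (p 0) (p 1) (p 3) (p 5)]; linarith only [h1]
  · show 0 < sg false * _; rw [sg_false, D_0231 (p 0) (p 2) (p 3) (p 5)]; linarith only [h2]
  · show 0 < sg false * _; rw [sg_false, D_0132 (p 0) (p 3) (p 4) (p 5)]; linarith only [h3]
  · show 0 < sg false * _; rw [sg_false]; linarith only [h4]
  · show 0 < sg false * _; rw [sg_false]; linarith only [h5]

theorem in7558 (p : Fin 8 → E3) (h1 : 0 < D (p 0) (p 1) (p 3) (p 4)) (h2 : 0 < D (p 1) (p 2) (p 3) (p 4)) (h3 : D (p 1) (p 3) (p 4) (p 5) < 0) (h4 : 0 < D (p 1) (p 3) (p 4) (p 6)) (h5 : 0 < D (p 1) (p 3) (p 4) (p 7)) (h6 : ¬ Sep p X0135) : False := by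
  apply h6
  refine sep_cert5 p X0135 1 3 4 0 2 5 6 7 (by decide) (-1) ?_ ?_ ?_ ?_ ?_ ?_
  · rw [D_1230 (p 0) (p 1) (p 3) (p 4)]; exact neg_ne_zero.mpr h1.ne'
  · show 0 < sg true * _; rw [sg_true, D_1230 (p 0) (p 1) (p 3) (p 4)]; linarith only [h1]
  · show 0 < sg false * _; rw [sg_false, D_0231 (p 1) (p 2) (p 3) (p 4)]; linarith only [h2]
  · show 0 < sg true * _; rw [sg_true]; linarith only [h3]
  · show 0 < sg false * _; rw [sg_false]; linarith only [h4]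
  · show 0 < sg false * _; rw [sg_false]; linarith only [h5]

theorem in7560 (p : Fin 8 → E3) (h1 : 0 < D (p 0) (p 1) (p 3) (p 5)) (h2 : 0 < D (p 1) (p 2) (p 3) (p 5)) (h3 : D (p 1) (p 3) (p 4) (p 5) < 0) (h4 : 0 < D (p 1) (p 3) (p 5) (p 6)) (h5 : 0 < D (p 1) (p 3) (p 5) (p 7)) (h6 : ¬ Sep p X0135) : False := by
  apply h6
  refine sep_cert5 p X0135 1 3 5 0 2 4 6 7 (by decide) (-1) ?_ ?_ ?_ ?_ ?_ ?_
  · rw [D_1230 (p 0) (p 1) (p 3) (p 5)]; exact neg_ne_zero.mpr h1.ne'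
  · show 0 < sg true * _; rw [sg_true, D_1230 (p 0) (p 1) (p 3) (p 5)]; linarith only [h1]
  · show 0 < sg false * _; rw [sg_false, D_0231 (p 1) (p 2) (p 3) (p 5)]; linarith only [h2]
  · show 0 < sg false * _; rw [sg_false, D_0132 (p 1) (p 3) (p 4) (p 5)]; linarith only [h3]
  · show 0 < sg false * _; rw [sg_false]; linarith only [h4]
  · show 0 < sg false * _; rw [sg_false]; linarith only [h5]

theorem in7564 (p : Fin 8 → E3) (h1 : 0 < D (p 0) (p 1) (p 3) (p 7)) (h2 : 0 < D (p 1) (p 2) (p 3) (p 7)) (h3 : D (p 1) (p 3) (p 4) (p 7) < 0) (h4 : 0 < D (p 1) (p 3) (p 5) (p 7)) (h5 : D (p 1) (p 3) (p 6) (p 7) < 0) (h6 : ¬ Sep p X0135) : False := by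
  apply h6
  refine sep_cert5 p X0135 1 3 7 0 2 4 5 6 (by decide) (-1) ?_ ?_ ?_ ?_ ?_ ?_
  · rw [D_1230 (p 0) (p 1) (p 3) (p 7)]; exact neg_ne_zero.mpr h1.ne'
  · show 0 < sg true * _; rw [sg_true, D_1230 (p 0) (p 1) (p 3) (p 7)]; linarith only [h1]
  · show 0 < sg false * _; rw [sg_false, D_0231 (p 1) (p 2) (p 3) (p 7)]; linarith only [h2]
  · show 0 < sg false * _; rw [sg_false, D_0132 (p 1) (p 3) (p 4) (p 7)]; linarith only [h3]
  · show 0 < sg true * _; rw [sg_true, D_0132 (p 1) (p 3) (p 5) (p 7)]; linarith only [h4]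
  · show 0 < sg false * _; rw [sg_false, D_0132 (p 1) (p 3) (p 6) (p 7)]; linarith only [h5]

theorem in7605 (p : Fin 8 → E3) (h1 : D (p 0) (p 3) (p 5) (p 7) < 0) (h2 : D (p 1) (p 3) (p 5) (p 7) < 0) (h3 : 0 < D (p 2) (p 3) (p 5) (p 7)) (h4 : D (p 3) (p 4) (p 5) (p 7) < 0) (h5 : 0 < D (p 3) (p 5) (p 6) (p 7)) (h6 : ¬ Sep p X0135) : False := by
  apply h6
  refine sep_cert5 p X0135 3 5 7 0 1 2 4 6 (by decide) (1) ?_ ?_ ?_ ?_ ?_ ?_
  · rw [D_1230 (p 0) (p 3) (p 5) (p 7)]; exact neg_ne_zero.mpr h1.ne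
  · show 0 < sg true * _; rw [sg_true, D_1230 (p 0) (p 3) (p 5) (p 7)]; linarith only [h1]
  · show 0 < sg true * _; rw [sg_true, D_1230 (p 1) (p 3) (p 5) (p 7)]; linarith only [h2]
  · show 0 < sg false * _; rw [sg_false, D_1230 (p 2) (p 3) (p 5) (p 7)]; linarith only [h3]
  · show 0 < sg false * _; rw [sg_false, D_0231 (p 3) (p 4) (p 5) (p 7)]; linarith only [h4]
  · show 0 < sg false * _; rw [sg_false, D_0132 (p 3) (p 5) (p 6) (p 7)]; linarith only [h5]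

theorem in7606 (p : Fin 8 → E3) (h1 : 0 < D (p 0) (p 3) (p 5) (p 7)) (h2 : 0 < D (p 1) (p 3) (p 5) (p 7)) (h3 : D (p 2) (p 3) (p 5) (p 7) < 0) (h4 : 0 < D (p 3) (p 4) (p 5) (p 7)) (h5 : D (p 3) (p 5) (p 6) (p 7) < 0) (h6 : ¬ Sep p X0135) : False := by
  apply h6
  refine sep_cert5 p X0135 3 5 7 0 1 2 4 6 (by decide) (-1) ?_ ?_ ?_ ?_ ?_ ?_
  · rw [D_1230 (p 0) (p 3) (p 5) (p 7)]; exact neg_ne_zero.mpr h1.ne'
  · show 0 < sg true * _; rw [sg_true, D_1230 (p 0) (p 3) (p 5) (p 7)]; linarith only [h1]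
  · show 0 < sg true * _; rw [sg_true, D_1230 (p 1) (p 3) (p 5) (p 7)]; linarith only [h2]
  · show 0 < sg false * _; rw [sg_false, D_1230 (p 2) (p 3) (p 5) (p 7)]; linarith only [h3]
  · show 0 < sg false * _; rw [sg_false, D_0231 (p 3) (p 4) (p 5) (p 7)]; linarith only [h4]
  · show 0 < sg false * _; rw [sg_false, D_0132 (p 3) (p 5) (p 6) (p 7)]; linarith only [h5]

theorem in7641 (p : Fin 8 → E3) (h1 : 0 < D (p 0) (p 1) (p 3) (p 5)) (h2 : D (p 0) (p 2) (p 3) (p 5) < 0) (h3 : 0 < D (p 0) (p 3) (p 4) (p 5)) (h4 : 0 < D (p 0) (p 3) (p 5) (p 6)) (h5 : D (p 0) (p 3) (p 5) (p 7) < 0) (h6 : ¬ Sep p X0136) : False := by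
  apply h6
  refine sep_cert5 p X0136 0 3 5 1 2 4 6 7 (by decide) (1) ?_ ?_ ?_ ?_ ?_ ?_
  · rw [D_0231 (p 0) (p 1) (p 3) (p 5)]; exact h1.ne'
  · show 0 < sg true * _; rw [sg_true, D_0231 (p 0) (p 1) (p 3) (p 5)]; linarith only [h1]
  · show 0 < sg false * _; rw [sg_false, D_0231 (p 0) (p 2) (p 3) (p 5)]; linarith only [h2]
  · show 0 < sg false * _; rw [sg_false, D_0132 (p 0) (p 3) (p 4) (p 5)]; linarith only [h3]
  · show 0 < sg true * _; rw [sg_true]; linarith only [h4]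
  · show 0 < sg false * _; rw [sg_false]; linarith only [h5]

theorem in7670 (p : Fin 8 → E3) (h1 : 0 < D (p 0) (p 1) (p 3) (p 4)) (h2 : 0 < D (p 1) (p 2) (p 3) (p 4)) (h3 : 0 < D (p 1) (p 3) (p 4) (p 5)) (h4 : D (p 1) (p 3) (p 4) (p 6) < 0) (h5 : 0 < D (p 1) (p 3) (p 4) (p 7)) (h6 : ¬ Sep p X0136) : False := by
  apply h6
  refine sep_cert5 p X0136 1 3 4 0 2 5 6 7 (by decide) (-1) ?_ ?_ ?_ ?_ ?_ ?_
  · rw [D_1230 (p 0) (p 1) (p 3) (p 4)]; exact neg_ne_zero.mpr h1.ne'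
  · show 0 < sg true * _; rw [sg_true, D_1230 (p 0) (p 1) (p 3) (p 4)]; linarith only [h1]
  · show 0 < sg false * _; rw [sg_false, D_0231 (p 1) (p 2) (p 3) (p 4)]; linarith only [h2]
  · show 0 < sg false * _; rw [sg_false]; linarith only [h3]
  · show 0 < sg true * _; rw [sg_true]; linarith only [h4]
  · show 0 < sg false * _; rw [sg_false]; linarith only [h5]

theorem in7672 (p : Fin 8 → E3) (h1 : 0 < D (p 0) (p 1) (p 3) (p 5)) (h2 : 0 < D (p 1) (p 2) (p 3) (p 5)) (h3 : D (p 1) (p 3) (p 4) (p 5) < 0) (h4 : D (p 1) (p 3) (p 5) (p 6) < 0) (h5 : 0 < D (p 1) (p 3) (p 5) (p 7)) (h6 : ¬ Sep p X0136) : False := by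
  apply h6
  refine sep_cert5 p X0136 1 3 5 0 2 4 6 7 (by decide) (-1) ?_ ?_ ?_ ?_ ?_ ?_
  · rw [D_1230 (p 0) (p 1) (p 3) (p 5)]; exact neg_ne_zero.mpr h1.ne'
  · show 0 < sg true * _; rw [sg_true, D_1230 (p 0) (p 1) (p 3) (p 5)]; linarith only [h1]
  · show 0 < sg false * _; rw [sg_false, D_0231 (p 1) (p 2) (p 3) (p 5)]; linarith only [h2]
  · show 0 < sg false * _; rw [sg_false, D_0132 (p 1) (p 3) (p 4) (p 5)]; linarith only [h3]
  · show 0 < sg true * _; rw [sg_true]; linarith only [h4]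
  · show 0 < sg false * _; rw [sg_false]; linarith only [h5]

theorem in7676 (p : Fin 8 → E3) (h1 : 0 < D (p 0) (p 1) (p 3) (p 7)) (h2 : 0 < D (p 1) (p 2) (p 3) (p 7)) (h3 : D (p 1) (p 3) (p 4) (p 7) < 0) (h4 : D (p 1) (p 3) (p 5) (p 7) < 0) (h5 : 0 < D (p 1) (p 3) (p 6) (p 7)) (h6 : ¬ Sep p X0136) : False := by
  apply h6
  refine sep_cert5 p X0136 1 3 7 0 2 4 5 6 (by decide) (-1) ?_ ?_ ?_ ?_ ?_ ?_
  · rw [D_1230 (p 0) (p 1) (p 3) (p 7)]; exact neg_ne_zero.mpr h1.ne'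
  · show 0 < sg true * _; rw [sg_true, D_1230 (p 0) (p 1) (p 3) (p 7)]; linarith only [h1]
  · show 0 < sg false * _; rw [sg_false, D_0231 (p 1) (p 2) (p 3) (p 7)]; linarith only [h2]
  · show 0 < sg false * _; rw [sg_false, D_0132 (p 1) (p 3) (p 4) (p 7)]; linarith only [h3]
  · show 0 < sg false * _; rw [sg_false, D_0132 (p 1) (p 3) (p 5) (p 7)]; linarith only [h4]
  · show 0 < sg true * _; rw [sg_true, D_0132 (p 1) (p 3) (p 6) (p 7)]; linarith only [h5]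

theorem in7713 (p : Fin 8 → E3) (h1 : D (p 0) (p 3) (p 4) (p 7) < 0) (h2 : D (p 1) (p 3) (p 4) (p 7) < 0) (h3 : 0 < D (p 2) (p 3) (p 4) (p 7)) (h4 : 0 < D (p 3) (p 4) (p 5) (p 7)) (h5 : D (p 3) (p 4) (p 6) (p 7) < 0) (h6 : ¬ Sep p X0136) : False := by
  apply h6
  refine sep_cert5 p X0136 3 4 7 0 1 2 5 6 (by decide) (1) ?_ ?_ ?_ ?_ ?_ ?_
  · rw [D_1230 (p 0) (p 3) (p 4) (p 7)]; exact neg_ne_zero.mpr h1.ne
  · show 0 < sg true * _; rw [sg_true, D_1230 (p 0) (p 3) (p 4) (p 7)]; linarith only [h1]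
  · show 0 < sg true * _; rw [sg_true, D_1230 (p 1) (p 3) (p 4) (p 7)]; linarith only [h2]
  · show 0 < sg false * _; rw [sg_false, D_1230 (p 2) (p 3) (p 4) (p 7)]; linarith only [h3]
  · show 0 < sg false * _; rw [sg_false, D_0132 (p 3) (p 4) (p 5) (p 7)]; linarith only [h4]
  · show 0 < sg true * _; rw [sg_true, D_0132 (p 3) (p 4) (p 6) (p 7)]; linarith only [h5]

theorem in7714 (p : Fin 8 → E3) (h1 : 0 < D (p 0) (p 3) (p 4) (p 7)) (h2 : 0 < D (p 1) (p 3) (p 4) (p 7)) (h3 : D (p 2) (p 3) (p 4) (p 7) < 0) (h4 : D (p 3) (p 4) (p 5) (p 7) < 0) (h5 : 0 < D (p 3) (p 4) (p 6) (p 7)) (h6 : ¬ Sep p X0136) : False := by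
  apply h6
  refine sep_cert5 p X0136 3 4 7 0 1 2 5 6 (by decide) (-1) ?_ ?_ ?_ ?_ ?_ ?_
  · rw [D_1230 (p 0) (p 3) (p 4) (p 7)]; exact neg_ne_zero.mpr h1.ne'
  · show 0 < sg true * _; rw [sg_true, D_1230 (p 0) (p 3) (p 4) (p 7)]; linarith only [h1]
  · show 0 < sg true * _; rw [sg_true, D_1230 (p 1) (p 3) (p 4) (p 7)]; linarith only [h2]
  · show 0 < sg false * _; rw [sg_false, D_1230 (p 2) (p 3) (p 4) (p 7)]; linarith only [h3]
  · show 0 < sg false * _; rw [sg_false, D_0132 (p 3) (p 4) (p 5) (p 7)]; linarith only [h4]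
  · show 0 < sg true * _; rw [sg_true, D_0132 (p 3) (p 4) (p 6) (p 7)]; linarith only [h5]

theorem in7717 (p : Fin 8 → E3) (h1 : D (p 0) (p 3) (p 5) (p 7) < 0) (h2 : D (p 1) (p 3) (p 5) (p 7) < 0) (h3 : 0 < D (p 2) (p 3) (p 5) (p 7)) (h4 : D (p 3) (p 4) (p 5) (p 7) < 0) (h5 : D (p 3) (p 5) (p 6) (p 7) < 0) (h6 : ¬ Sep p X0136) : False := by
  apply h6
  refine sep_cert5 p X0136 3 5 7 0 1 2 4 6 (by decide) (1) ?_ ?_ ?_ ?_ ?_ ?_
  · rw [D_1230 (p 0) (p 3) (p 5) (p 7)]; exact neg_ne_zero.mpr h1.ne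
  · show 0 < sg true * _; rw [sg_true, D_1230 (p 0) (p 3) (p 5) (p 7)]; linarith only [h1]
  · show 0 < sg true * _; rw [sg_true, D_1230 (p 1) (p 3) (p 5) (p 7)]; linarith only [h2]
  · show 0 < sg false * _; rw [sg_false, D_1230 (p 2) (p 3) (p 5) (p 7)]; linarith only [h3]
  · show 0 < sg false * _; rw [sg_false, D_0231 (p 3) (p 4) (p 5) (p 7)]; linarith only [h4]
  · show 0 < sg true * _; rw [sg_true, D_0132 (p 3) (p 5) (p 6) (p 7)]; linarith only [h5]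

theorem in7718 (p : Fin 8 → E3) (h1 : 0 < D (p 0) (p 3) (p 5) (p 7)) (h2 : 0 < D (p 1) (p 3) (p 5) (p 7)) (h3 : D (p 2) (p 3) (p 5) (p 7) < 0) (h4 : 0 < D (p 3) (p 4) (p 5) (p 7)) (h5 : 0 < D (p 3) (p 5) (p 6) (p 7)) (h6 : ¬ Sep p X0136) : False := by
  apply h6
  refine sep_cert5 p X0136 3 5 7 0 1 2 4 6 (by decide) (-1) ?_ ?_ ?_ ?_ ?_ ?_
  · rw [D_1230 (p 0) (p 3) (p 5) (p 7)]; exact neg_ne_zero.mpr h1.ne'
  · show 0 < sg true * _; rw [sg_true, D_1230 (p 0) (p 3) (p 5) (p 7)]; linarith only [h1]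
  · show 0 < sg true * _; rw [sg_true, D_1230 (p 1) (p 3) (p 5) (p 7)]; linarith only [h2]
  · show 0 < sg false * _; rw [sg_false, D_1230 (p 2) (p 3) (p 5) (p 7)]; linarith only [h3]
  · show 0 < sg false * _; rw [sg_false, D_0231 (p 3) (p 4) (p 5) (p 7)]; linarith only [h4]
  · show 0 < sg true * _; rw [sg_true, D_0132 (p 3) (p 5) (p 6) (p 7)]; linarith only [h5]

theorem in7753 (p : Fin 8 → E3) (h1 : 0 < D (p 0) (p 1) (p 3) (p 5)) (h2 : D (p 0) (p 2) (p 3) (p 5) < 0) (h3 : 0 < D (p 0) (p 3) (p 4) (p 5)) (h4 : D (p 0) (p 3) (p 5) (p 6) < 0) (h5 : 0 < D (p 0) (p 3) (p 5) (p 7)) (h6 : ¬ Sep p X0137) : False := by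
  apply h6
  refine sep_cert5 p X0137 0 3 5 1 2 4 6 7 (by decide) (1) ?_ ?_ ?_ ?_ ?_ ?_
  · rw [D_0231 (p 0) (p 1) (p 3) (p 5)]; exact h1.ne'
  · show 0 < sg true * _; rw [sg_true, D_0231 (p 0) (p 1) (p 3) (p 5)]; linarith only [h1]
  · show 0 < sg false * _; rw [sg_false, D_0231 (p 0) (p 2) (p 3) (p 5)]; linarith only [h2]
  · show 0 < sg false * _; rw [sg_false, D_0132 (p 0) (p 3) (p 4) (p 5)]; linarith only [h3]
  · show 0 < sg false * _; rw [sg_false]; linarith only [h4]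
  · show 0 < sg true * _; rw [sg_true]; linarith only [h5]

theorem in7788 (p : Fin 8 → E3) (h1 : 0 < D (p 0) (p 1) (p 3) (p 7)) (h2 : 0 < D (p 1) (p 2) (p 3) (p 7)) (h3 : D (p 1) (p 3) (p 4) (p 7) < 0) (h4 : D (p 1) (p 3) (p 5) (p 7) < 0) (h5 : D (p 1) (p 3) (p 6) (p 7) < 0) (h6 : ¬ Sep p X0137) : False := by
  apply h6
  refine sep_cert5 p X0137 1 3 7 0 2 4 5 6 (by decide) (-1) ?_ ?_ ?_ ?_ ?_ ?_
  · rw [D_1230 (p 0) (p 1) (p 3) (p 7)]; exact neg_ne_zero.mpr h1.ne'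
  · show 0 < sg true * _; rw [sg_true, D_1230 (p 0) (p 1) (p 3) (p 7)]; linarith only [h1]
  · show 0 < sg false * _; rw [sg_false, D_0231 (p 1) (p 2) (p 3) (p 7)]; linarith only [h2]
  · show 0 < sg false * _; rw [sg_false, D_0132 (p 1) (p 3) (p 4) (p 7)]; linarith only [h3]
  · show 0 < sg false * _; rw [sg_false, D_0132 (p 1) (p 3) (p 5) (p 7)]; linarith only [h4]
  · show 0 < sg false * _; rw [sg_false, D_0132 (p 1) (p 3) (p 6) (p 7)]; linarith only [h5]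

theorem in7977 (p : Fin 8 → E3) (h1 : 0 < D (p 0) (p 1) (p 3) (p 5)) (h2 : D (p 0) (p 2) (p 3) (p 5) < 0) (h3 : D (p 0) (p 3) (p 4) (p 5) < 0) (h4 : 0 < D (p 0) (p 3) (p 5) (p 6)) (h5 : D (p 0) (p 3) (p 5) (p 7) < 0) (h6 : ¬ Sep p X0146) : False := by
  apply h6
  refine sep_cert5 p X0146 0 3 5 1 2 4 6 7 (by decide) (1) ?_ ?_ ?_ ?_ ?_ ?_
  · rw [D_0231 (p 0) (p 1) (p 3) (p 5)]; exact h1.ne'
  · show 0 < sg true * _; rw [sg_true, D_0231 (p 0) (p 1) (p 3) (p 5)]; linarith only [h1]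
  · show 0 < sg false * _; rw [sg_false, D_0231 (p 0) (p 2) (p 3) (p 5)]; linarith only [h2]
  · show 0 < sg true * _; rw [sg_true, D_0132 (p 0) (p 3) (p 4) (p 5)]; linarith only [h3]
  · show 0 < sg true * _; rw [sg_true]; linarith only [h4]
  · show 0 < sg false * _; rw [sg_false]; linarith only [h5]

theorem in8053 (p : Fin 8 → E3) (h1 : D (p 0) (p 3) (p 5) (p 7) < 0) (h2 : D (p 1) (p 3) (p 5) (p 7) < 0) (h3 : 0 < D (p 2) (p 3) (p 5) (p 7)) (h4 : 0 < D (p 3) (p 4) (p 5) (p 7)) (h5 : D (p 3) (p 5) (p 6) (p 7) < 0) (h6 : ¬ Sep p X0146) : False := by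
  apply h6
  refine sep_cert5 p X0146 3 5 7 0 1 2 4 6 (by decide) (1) ?_ ?_ ?_ ?_ ?_ ?_
  · rw [D_1230 (p 0) (p 3) (p 5) (p 7)]; exact neg_ne_zero.mpr h1.ne
  · show 0 < sg true * _; rw [sg_true, D_1230 (p 0) (p 3) (p 5) (p 7)]; linarith only [h1]
  · show 0 < sg true * _; rw [sg_true, D_1230 (p 1) (p 3) (p 5) (p 7)]; linarith only [h2]
  · show 0 < sg false * _; rw [sg_false, D_1230 (p 2) (p 3) (p 5) (p 7)]; linarith only [h3]
  · show 0 < sg true * _; rw [sg_true, D_0231 (p 3) (p 4) (p 5) (p 7)]; linarith only [h4]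
  · show 0 < sg true * _; rw [sg_true, D_0132 (p 3) (p 5) (p 6) (p 7)]; linarith only [h5]

theorem in8089 (p : Fin 8 → E3) (h1 : 0 < D (p 0) (p 1) (p 3) (p 5)) (h2 : D (p 0) (p 2) (p 3) (p 5) < 0) (h3 : D (p 0) (p 3) (p 4) (p 5) < 0) (h4 : D (p 0) (p 3) (p 5) (p 6) < 0) (h5 : 0 < D (p 0) (p 3) (p 5) (p 7)) (h6 : ¬ Sep p X0147) : False := by
  apply h6
  refine sep_cert5 p X0147 0 3 5 1 2 4 6 7 (by decide) (1) ?_ ?_ ?_ ?_ ?_ ?_
  · rw [D_0231 (p 0) (p 1) (p 3) (p 5)]; exact h1.ne'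
  · show 0 < sg true * _; rw [sg_true, D_0231 (p 0) (p 1) (p 3) (p 5)]; linarith only [h1]
  · show 0 < sg false * _; rw [sg_false, D_0231 (p 0) (p 2) (p 3) (p 5)]; linarith only [h2]
  · show 0 < sg true * _; rw [sg_true, D_0132 (p 0) (p 3) (p 4) (p 5)]; linarith only [h3]
  · show 0 < sg false * _; rw [sg_false]; linarith only [h4]
  · show 0 < sg true * _; rw [sg_true]; linarith only [h5]

theorem in8134 (p : Fin 8 → E3) (h1 : 0 < D (p 0) (p 1) (p 5) (p 7)) (h2 : 0 < D (p 1) (p 2) (p 5) (p 7)) (h3 : 0 < D (p 1) (p 3) (p 5) (p 7)) (h4 : D (p 1) (p 4) (p 5) (p 7) < 0) (h5 : D (p 1) (p 5) (p 6) (p 7) < 0) (h6 : ¬ Sep p X0147) : False := by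
  apply h6
  refine sep_cert5 p X0147 1 5 7 0 2 3 4 6 (by decide) (-1) ?_ ?_ ?_ ?_ ?_ ?_
  · rw [D_1230 (p 0) (p 1) (p 5) (p 7)]; exact neg_ne_zero.mpr h1.ne'
  · show 0 < sg true * _; rw [sg_true, D_1230 (p 0) (p 1) (p 5) (p 7)]; linarith only [h1]
  · show 0 < sg false * _; rw [sg_false, D_0231 (p 1) (p 2) (p 5) (p 7)]; linarith only [h2]
  · show 0 < sg false * _; rw [sg_false, D_0231 (p 1) (p 3) (p 5) (p 7)]; linarith only [h3]
  · show 0 < sg true * _; rw [sg_true, D_0231 (p 1) (p 4) (p 5) (p 7)]; linarith only [h4]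
  · show 0 < sg false * _; rw [sg_false, D_0132 (p 1) (p 5) (p 6) (p 7)]; linarith only [h5]

theorem in8201 (p : Fin 8 → E3) (h1 : 0 < D (p 0) (p 1) (p 3) (p 5)) (h2 : D (p 0) (p 2) (p 3) (p 5) < 0) (h3 : 0 < D (p 0) (p 3) (p 4) (p 5)) (h4 : 0 < D (p 0) (p 3) (p 5) (p 6)) (h5 : D (p 0) (p 3) (p 5) (p 7) < 0) (h6 : ¬ Sep p X0156) : False := by
  apply h6
  refine sep_cert5 p X0156 0 3 5 1 2 4 6 7 (by decide) (1) ?_ ?_ ?_ ?_ ?_ ?_
  · rw [D_0231 (p 0) (p 1) (p 3) (p 5)]; exact h1.ne'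
  · show 0 < sg true * _; rw [sg_true, D_0231 (p 0) (p 1) (p 3) (p 5)]; linarith only [h1]
  · show 0 < sg false * _; rw [sg_false, D_0231 (p 0) (p 2) (p 3) (p 5)]; linarith only [h2]
  · show 0 < sg false * _; rw [sg_false, D_0132 (p 0) (p 3) (p 4) (p 5)]; linarith only [h3]
  · show 0 < sg true * _; rw [sg_true]; linarith only [h4]
  · show 0 < sg false * _; rw [sg_false]; linarith only [h5]

theorem in8242 (p : Fin 8 → E3) (h1 : 0 < D (p 0) (p 1) (p 4) (p 7)) (h2 : 0 < D (p 1) (p 2) (p 4) (p 7)) (h3 : 0 < D (p 1) (p 3) (p 4) (p 7)) (h4 : 0 < D (p 1) (p 4) (p 5) (p 7)) (h5 : 0 < D (p 1) (p 4) (p 6) (p 7)) (h6 : ¬ Sep p X0156) : False := by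
  apply h6
  refine sep_cert5 p X0156 1 4 7 0 2 3 5 6 (by decide) (-1) ?_ ?_ ?_ ?_ ?_ ?_
  · rw [D_1230 (p 0) (p 1) (p 4) (p 7)]; exact neg_ne_zero.mpr h1.ne'
  · show 0 < sg true * _; rw [sg_true, D_1230 (p 0) (p 1) (p 4) (p 7)]; linarith only [h1]
  · show 0 < sg false * _; rw [sg_false, D_0231 (p 1) (p 2) (p 4) (p 7)]; linarith only [h2]
  · show 0 < sg false * _; rw [sg_false, D_0231 (p 1) (p 3) (p 4) (p 7)]; linarith only [h3]
  · show 0 < sg true * _; rw [sg_true, D_0132 (p 1) (p 4) (p 5) (p 7)]; linarith only [h4]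
  · show 0 < sg true * _; rw [sg_true, D_0132 (p 1) (p 4) (p 6) (p 7)]; linarith only [h5]

theorem in8354 (p : Fin 8 → E3) (h1 : 0 < D (p 0) (p 1) (p 4) (p 7)) (h2 : 0 < D (p 1) (p 2) (p 4) (p 7)) (h3 : 0 < D (p 1) (p 3) (p 4) (p 7)) (h4 : 0 < D (p 1) (p 4) (p 5) (p 7)) (h5 : D (p 1) (p 4) (p 6) (p 7) < 0) (h6 : ¬ Sep p X0157) : False := by
  apply h6
  refine sep_cert5 p X0157 1 4 7 0 2 3 5 6 (by decide) (-1) ?_ ?_ ?_ ?_ ?_ ?_
  · rw [D_1230 (p 0) (p 1) (p 4) (p 7)]; exact neg_ne_zero.mpr h1.ne'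
  · show 0 < sg true * _; rw [sg_true, D_1230 (p 0) (p 1) (p 4) (p 7)]; linarith only [h1]
  · show 0 < sg false * _; rw [sg_false, D_0231 (p 1) (p 2) (p 4) (p 7)]; linarith only [h2]
  · show 0 < sg false * _; rw [sg_false, D_0231 (p 1) (p 3) (p 4) (p 7)]; linarith only [h3]
  · show 0 < sg true * _; rw [sg_true, D_0132 (p 1) (p 4) (p 5) (p 7)]; linarith only [h4]
  · show 0 < sg false * _; rw [sg_false, D_0132 (p 1) (p 4) (p 6) (p 7)]; linarith only [h5]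

theorem in8358 (p : Fin 8 → E3) (h1 : 0 < D (p 0) (p 1) (p 5) (p 7)) (h2 : 0 < D (p 1) (p 2) (p 5) (p 7)) (h3 : 0 < D (p 1) (p 3) (p 5) (p 7)) (h4 : 0 < D (p 1) (p 4) (p 5) (p 7)) (h5 : D (p 1) (p 5) (p 6) (p 7) < 0) (h6 : ¬ Sep p X0157) : False := by
  apply h6
  refine sep_cert5 p X0157 1 5 7 0 2 3 4 6 (by decide) (-1) ?_ ?_ ?_ ?_ ?_ ?_
  · rw [D_1230 (p 0) (p 1) (p 5) (p 7)]; exact neg_ne_zero.mpr h1.ne'
  · show 0 < sg true * _; rw [sg_true, D_1230 (p 0) (p 1) (p 5) (p 7)]; linarith only [h1]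
  · show 0 < sg false * _; rw [sg_false, D_0231 (p 1) (p 2) (p 5) (p 7)]; linarith only [h2]
  · show 0 < sg false * _; rw [sg_false, D_0231 (p 1) (p 3) (p 5) (p 7)]; linarith only [h3]
  · show 0 < sg false * _; rw [sg_false, D_0231 (p 1) (p 4) (p 5) (p 7)]; linarith only [h4]
  · show 0 < sg false * _; rw [sg_false, D_0132 (p 1) (p 5) (p 6) (p 7)]; linarith only [h5]

theorem in8407 (p : Fin 8 → E3) (h1 : 0 < D (p 0) (p 1) (p 2) (p 5)) (h2 : 0 < D (p 0) (p 1) (p 3) (p 5)) (h3 : 0 < D (p 0) (p 1) (p 4) (p 5)) (h4 : 0 < D (p 0) (p 1) (p 5) (p 6)) (h5 : 0 < D (p 0) (p 1) (p 5) (p 7)) (h6 : ¬ Sep p X0167) : False := by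
  apply h6
  refine sep_cert5 p X0167 0 1 5 2 3 4 6 7 (by decide) (1) ?_ ?_ ?_ ?_ ?_ ?_
  · rw [D_0132 (p 0) (p 1) (p 2) (p 5)]; exact neg_ne_zero.mpr h1.ne'
  · show 0 < sg false * _; rw [sg_false, D_0132 (p 0) (p 1) (p 2) (p 5)]; linarith only [h1]
  · show 0 < sg false * _; rw [sg_false, D_0132 (p 0) (p 1) (p 3) (p 5)]; linarith only [h2]
  · show 0 < sg false * _; rw [sg_false, D_0132 (p 0) (p 1) (p 4) (p 5)]; linarith only [h3]
  · show 0 < sg true * _; rw [sg_true]; linarith only [h4]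
  · show 0 < sg true * _; rw [sg_true]; linarith only [h5]

theorem in8518 (p : Fin 8 → E3) (h1 : 0 < D (p 0) (p 1) (p 2) (p 4)) (h2 : 0 < D (p 0) (p 1) (p 3) (p 4)) (h3 : 0 < D (p 0) (p 1) (p 4) (p 5)) (h4 : 0 < D (p 0) (p 1) (p 4) (p 6)) (h5 : 0 < D (p 0) (p 1) (p 4) (p 7)) (h6 : ¬ Sep p X0234) : False := by
  apply h6
  refine sep_cert5 p X0234 0 1 4 2 3 5 6 7 (by decide) (-1) ?_ ?_ ?_ ?_ ?_ ?_
  · rw [D_0132 (p 0) (p 1) (p 2) (p 4)]; exact neg_ne_zero.mpr h1.ne'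
  · show 0 < sg true * _; rw [sg_true, D_0132 (p 0) (p 1) (p 2) (p 4)]; linarith only [h1]
  · show 0 < sg true * _; rw [sg_true, D_0132 (p 0) (p 1) (p 3) (p 4)]; linarith only [h2]
  · show 0 < sg false * _; rw [sg_false]; linarith only [h3]
  · show 0 < sg false * _; rw [sg_false]; linarith only [h4]
  · show 0 < sg false * _; rw [sg_false]; linarith only [h5]

theorem in8642 (p : Fin 8 → E3) (h1 : 0 < D (p 0) (p 1) (p 2) (p 5)) (h2 : 0 < D (p 0) (p 2) (p 3) (p 5)) (h3 : D (p 0) (p 2) (p 4) (p 5) < 0) (h4 : 0 < D (p 0) (p 2) (p 5) (p 6)) (h5 : 0 < D (p 0) (p 2) (p 5) (p 7)) (h6 : ¬ Sep p X0235) : False := by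
  apply h6
  refine sep_cert5 p X0235 0 2 5 1 3 4 6 7 (by decide) (-1) ?_ ?_ ?_ ?_ ?_ ?_
  · rw [D_0231 (p 0) (p 1) (p 2) (p 5)]; exact h1.ne'
  · show 0 < sg false * _; rw [sg_false, D_0231 (p 0) (p 1) (p 2) (p 5)]; linarith only [h1]
  · show 0 < sg true * _; rw [sg_true, D_0132 (p 0) (p 2) (p 3) (p 5)]; linarith only [h2]
  · show 0 < sg false * _; rw [sg_false, D_0132 (p 0) (p 2) (p 4) (p 5)]; linarith only [h3]
  · show 0 < sg false * _; rw [sg_false]; linarith only [h4]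
  · show 0 < sg false * _; rw [sg_false]; linarith only [h5]

theorem in8650 (p : Fin 8 → E3) (h1 : 0 < D (p 0) (p 1) (p 3) (p 5)) (h2 : D (p 0) (p 2) (p 3) (p 5) < 0) (h3 : D (p 0) (p 3) (p 4) (p 5) < 0) (h4 : 0 < D (p 0) (p 3) (p 5) (p 6)) (h5 : 0 < D (p 0) (p 3) (p 5) (p 7)) (h6 : ¬ Sep p X0235) : False := by
  apply h6
  refine sep_cert5 p X0235 0 3 5 1 2 4 6 7 (by decide) (-1) ?_ ?_ ?_ ?_ ?_ ?_
  · rw [D_0231 (p 0) (p 1) (p 3) (p 5)]; exact h1.ne'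
  · show 0 < sg false * _; rw [sg_false, D_0231 (p 0) (p 1) (p 3) (p 5)]; linarith only [h1]
  · show 0 < sg true * _; rw [sg_true, D_0231 (p 0) (p 2) (p 3) (p 5)]; linarith only [h2]
  · show 0 < sg false * _; rw [sg_false, D_0132 (p 0) (p 3) (p 4) (p 5)]; linarith only [h3]
  · show 0 < sg false * _; rw [sg_false]; linarith only [h4]
  · show 0 < sg false * _; rw [sg_false]; linarith only [h5]

theorem in8686 (p : Fin 8 → E3) (h1 : 0 < D (p 0) (p 1) (p 4) (p 5)) (h2 : D (p 1) (p 2) (p 4) (p 5) < 0) (h3 : D (p 1) (p 3) (p 4) (p 5) < 0) (h4 : 0 < D (p 1) (p 4) (p 5) (p 6)) (h5 : 0 < D (p 1) (p 4) (p 5) (p 7)) (h6 : ¬ Sep p X0235) : False := by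
  apply h6
  refine sep_cert5 p X0235 1 4 5 0 2 3 6 7 (by decide) (-1) ?_ ?_ ?_ ?_ ?_ ?_
  · rw [D_1230 (p 0) (p 1) (p 4) (p 5)]; exact neg_ne_zero.mpr h1.ne'
  · show 0 < sg true * _; rw [sg_true, D_1230 (p 0) (p 1) (p 4) (p 5)]; linarith only [h1]
  · show 0 < sg true * _; rw [sg_true, D_0231 (p 1) (p 2) (p 4) (p 5)]; linarith only [h2]
  · show 0 < sg true * _; rw [sg_true, D_0231 (p 1) (p 3) (p 4) (p 5)]; linarith only [h3]
  · show 0 < sg false * _; rw [sg_false]; linarith only [h4]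
  · show 0 < sg false * _; rw [sg_false]; linarith only [h5]

theorem in8690 (p : Fin 8 → E3) (h1 : 0 < D (p 0) (p 1) (p 4) (p 7)) (h2 : D (p 1) (p 2) (p 4) (p 7) < 0) (h3 : D (p 1) (p 3) (p 4) (p 7) < 0) (h4 : 0 < D (p 1) (p 4) (p 5) (p 7)) (h5 : D (p 1) (p 4) (p 6) (p 7) < 0) (h6 : ¬ Sep p X0235) : False := by
  apply h6
  refine sep_cert5 p X0235 1 4 7 0 2 3 5 6 (by decide) (-1) ?_ ?_ ?_ ?_ ?_ ?_
  · rw [D_1230 (p 0) (p 1) (p 4) (p 7)]; exact neg_ne_zero.mpr h1.ne'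
  · show 0 < sg true * _; rw [sg_true, D_1230 (p 0) (p 1) (p 4) (p 7)]; linarith only [h1]
  · show 0 < sg true * _; rw [sg_true, D_0231 (p 1) (p 2) (p 4) (p 7)]; linarith only [h2]
  · show 0 < sg true * _; rw [sg_true, D_0231 (p 1) (p 3) (p 4) (p 7)]; linarith only [h3]
  · show 0 < sg true * _; rw [sg_true, D_0132 (p 1) (p 4) (p 5) (p 7)]; linarith only [h4]
  · show 0 < sg false * _; rw [sg_false, D_0132 (p 1) (p 4) (p 6) (p 7)]; linarith only [h5]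

theorem in8796 (p : Fin 8 → E3) (h1 : 0 < D (p 0) (p 1) (p 3) (p 7)) (h2 : D (p 1) (p 2) (p 3) (p 7) < 0) (h3 : D (p 1) (p 3) (p 4) (p 7) < 0) (h4 : D (p 1) (p 3) (p 5) (p 7) < 0) (h5 : 0 < D (p 1) (p 3) (p 6) (p 7)) (h6 : ¬ Sep p X0236) : False := by
  apply h6
  refine sep_cert5 p X0236 1 3 7 0 2 4 5 6 (by decide) (-1) ?_ ?_ ?_ ?_ ?_ ?_
  · rw [D_1230 (p 0) (p 1) (p 3) (p 7)]; exact neg_ne_zero.mpr h1.ne'
  · show 0 < sg true * _; rw [sg_true, D_1230 (p 0) (p 1) (p 3) (p 7)]; linarith only [h1]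
  · show 0 < sg true * _; rw [sg_true, D_0231 (p 1) (p 2) (p 3) (p 7)]; linarith only [h2]
  · show 0 < sg false * _; rw [sg_false, D_0132 (p 1) (p 3) (p 4) (p 7)]; linarith only [h3]
  · show 0 < sg false * _; rw [sg_false, D_0132 (p 1) (p 3) (p 5) (p 7)]; linarith only [h4]
  · show 0 < sg true * _; rw [sg_true, D_0132 (p 1) (p 3) (p 6) (p 7)]; linarith only [h5]

theorem in8798 (p : Fin 8 → E3) (h1 : 0 < D (p 0) (p 1) (p 4) (p 5)) (h2 : D (p 1) (p 2) (p 4) (p 5) < 0) (h3 : D (p 1) (p 3) (p 4) (p 5) < 0) (h4 : D (p 1) (p 4) (p 5) (p 6) < 0) (h5 : 0 < D (p 1) (p 4) (p 5) (p 7)) (h6 : ¬ Sep p X0236) : False := by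
  apply h6
  refine sep_cert5 p X0236 1 4 5 0 2 3 6 7 (by decide) (-1) ?_ ?_ ?_ ?_ ?_ ?_
  · rw [D_1230 (p 0) (p 1) (p 4) (p 5)]; exact neg_ne_zero.mpr h1.ne'
  · show 0 < sg true * _; rw [sg_true, D_1230 (p 0) (p 1) (p 4) (p 5)]; linarith only [h1]
  · show 0 < sg true * _; rw [sg_true, D_0231 (p 1) (p 2) (p 4) (p 5)]; linarith only [h2]
  · show 0 < sg true * _; rw [sg_true, D_0231 (p 1) (p 3) (p 4) (p 5)]; linarith only [h3]
  · show 0 < sg true * _; rw [sg_true]; linarith only [h4]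
  · show 0 < sg false * _; rw [sg_false]; linarith only [h5]

theorem in8802 (p : Fin 8 → E3) (h1 : 0 < D (p 0) (p 1) (p 4) (p 7)) (h2 : D (p 1) (p 2) (p 4) (p 7) < 0) (h3 : D (p 1) (p 3) (p 4) (p 7) < 0) (h4 : D (p 1) (p 4) (p 5) (p 7) < 0) (h5 : 0 < D (p 1) (p 4) (p 6) (p 7)) (h6 : ¬ Sep p X0236) : False := by
  apply h6
  refine sep_cert5 p X0236 1 4 7 0 2 3 5 6 (by decide) (-1) ?_ ?_ ?_ ?_ ?_ ?_
  · rw [D_1230 (p 0) (p 1) (p 4) (p 7)]; exact neg_ne_zero.mpr h1.ne'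
  · show 0 < sg true * _; rw [sg_true, D_1230 (p 0) (p 1) (p 4) (p 7)]; linarith only [h1]
  · show 0 < sg true * _; rw [sg_true, D_0231 (p 1) (p 2) (p 4) (p 7)]; linarith only [h2]
  · show 0 < sg true * _; rw [sg_true, D_0231 (p 1) (p 3) (p 4) (p 7)]; linarith only [h3]
  · show 0 < sg false * _; rw [sg_false, D_0132 (p 1) (p 4) (p 5) (p 7)]; linarith only [h4]
  · show 0 < sg true * _; rw [sg_true, D_0132 (p 1) (p 4) (p 6) (p 7)]; linarith only [h5]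

theorem in8806 (p : Fin 8 → E3) (h1 : 0 < D (p 0) (p 1) (p 5) (p 7)) (h2 : D (p 1) (p 2) (p 5) (p 7) < 0) (h3 : D (p 1) (p 3) (p 5) (p 7) < 0) (h4 : 0 < D (p 1) (p 4) (p 5) (p 7)) (h5 : 0 < D (p 1) (p 5) (p 6) (p 7)) (h6 : ¬ Sep p X0236) : False := by
  apply h6
  refine sep_cert5 p X0236 1 5 7 0 2 3 4 6 (by decide) (-1) ?_ ?_ ?_ ?_ ?_ ?_
  · rw [D_1230 (p 0) (p 1) (p 5) (p 7)]; exact neg_ne_zero.mpr h1.ne'
  · show 0 < sg true * _; rw [sg_true, D_1230 (p 0) (p 1) (p 5) (p 7)]; linarith only [h1]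
  · show 0 < sg true * _; rw [sg_true, D_0231 (p 1) (p 2) (p 5) (p 7)]; linarith only [h2]
  · show 0 < sg true * _; rw [sg_true, D_0231 (p 1) (p 3) (p 5) (p 7)]; linarith only [h3]
  · show 0 < sg false * _; rw [sg_false, D_0231 (p 1) (p 4) (p 5) (p 7)]; linarith only [h4]
  · show 0 < sg true * _; rw [sg_true, D_0132 (p 1) (p 5) (p 6) (p 7)]; linarith only [h5]

theorem in8838 (p : Fin 8 → E3) (h1 : 0 < D (p 0) (p 3) (p 5) (p 7)) (h2 : D (p 1) (p 3) (p 5) (p 7) < 0) (h3 : 0 < D (p 2) (p 3) (p 5) (p 7)) (h4 : 0 < D (p 3) (p 4) (p 5) (p 7)) (h5 : 0 < D (p 3) (p 5) (p 6) (p 7)) (h6 : ¬ Sep p X0236) : False := by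
  apply h6
  refine sep_cert5 p X0236 3 5 7 0 1 2 4 6 (by decide) (-1) ?_ ?_ ?_ ?_ ?_ ?_
  · rw [D_1230 (p 0) (p 3) (p 5) (p 7)]; exact neg_ne_zero.mpr h1.ne'
  · show 0 < sg true * _; rw [sg_true, D_1230 (p 0) (p 3) (p 5) (p 7)]; linarith only [h1]
  · show 0 < sg false * _; rw [sg_false, D_1230 (p 1) (p 3) (p 5) (p 7)]; linarith only [h2]
  · show 0 < sg true * _; rw [sg_true, D_1230 (p 2) (p 3) (p 5) (p 7)]; linarith only [h3]
  · show 0 < sg false * _; rw [sg_false, D_0231 (p 3) (p 4) (p 5) (p 7)]; linarith only [h4]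
  · show 0 < sg true * _; rw [sg_true, D_0132 (p 3) (p 5) (p 6) (p 7)]; linarith only [h5]

theorem in8908 (p : Fin 8 → E3) (h1 : 0 < D (p 0) (p 1) (p 3) (p 7)) (h2 : D (p 1) (p 2) (p 3) (p 7) < 0) (h3 : D (p 1) (p 3) (p 4) (p 7) < 0) (h4 : D (p 1) (p 3) (p 5) (p 7) < 0) (h5 : D (p 1) (p 3) (p 6) (p 7) < 0) (h6 : ¬ Sep p X0237) : False := by
  apply h6
  refine sep_cert5 p X0237 1 3 7 0 2 4 5 6 (by decide) (-1) ?_ ?_ ?_ ?_ ?_ ?_
  · rw [D_1230 (p 0) (p 1) (p 3) (p 7)]; exact neg_ne_zero.mpr h1.ne'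
  · show 0 < sg true * _; rw [sg_true, D_1230 (p 0) (p 1) (p 3) (p 7)]; linarith only [h1]
  · show 0 < sg true * _; rw [sg_true, D_0231 (p 1) (p 2) (p 3) (p 7)]; linarith only [h2]
  · show 0 < sg false * _; rw [sg_false, D_0132 (p 1) (p 3) (p 4) (p 7)]; linarith only [h3]
  · show 0 < sg false * _; rw [sg_false, D_0132 (p 1) (p 3) (p 5) (p 7)]; linarith only [h4]
  · show 0 < sg false * _; rw [sg_false, D_0132 (p 1) (p 3) (p 6) (p 7)]; linarith only [h5]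

theorem in8914 (p : Fin 8 → E3) (h1 : 0 < D (p 0) (p 1) (p 4) (p 7)) (h2 : D (p 1) (p 2) (p 4) (p 7) < 0) (h3 : D (p 1) (p 3) (p 4) (p 7) < 0) (h4 : D (p 1) (p 4) (p 5) (p 7) < 0) (h5 : D (p 1) (p 4) (p 6) (p 7) < 0) (h6 : ¬ Sep p X0237) : False := by
  apply h6
  refine sep_cert5 p X0237 1 4 7 0 2 3 5 6 (by decide) (-1) ?_ ?_ ?_ ?_ ?_ ?_
  · rw [D_1230 (p 0) (p 1) (p 4) (p 7)]; exact neg_ne_zero.mpr h1.ne'
  · show 0 < sg true * _; rw [sg_true, D_1230 (p 0) (p 1) (p 4) (p 7)]; linarith only [h1]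
  · show 0 < sg true * _; rw [sg_true, D_0231 (p 1) (p 2) (p 4) (p 7)]; linarith only [h2]
  · show 0 < sg true * _; rw [sg_true, D_0231 (p 1) (p 3) (p 4) (p 7)]; linarith only [h3]
  · show 0 < sg false * _; rw [sg_false, D_0132 (p 1) (p 4) (p 5) (p 7)]; linarith only [h4]
  · show 0 < sg false * _; rw [sg_false, D_0132 (p 1) (p 4) (p 6) (p 7)]; linarith only [h5]

theorem in8986 (p : Fin 8 → E3) (h1 : 0 < D (p 0) (p 1) (p 3) (p 5)) (h2 : D (p 0) (p 2) (p 3) (p 5) < 0) (h3 : 0 < D (p 0) (p 3) (p 4) (p 5)) (h4 : 0 < D (p 0) (p 3) (p 5) (p 6)) (h5 : 0 < D (p 0) (p 3) (p 5) (p 7)) (h6 : ¬ Sep p X0245) : False := by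
  apply h6
  refine sep_cert5 p X0245 0 3 5 1 2 4 6 7 (by decide) (-1) ?_ ?_ ?_ ?_ ?_ ?_
  · rw [D_0231 (p 0) (p 1) (p 3) (p 5)]; exact h1.ne'
  · show 0 < sg false * _; rw [sg_false, D_0231 (p 0) (p 1) (p 3) (p 5)]; linarith only [h1]
  · show 0 < sg true * _; rw [sg_true, D_0231 (p 0) (p 2) (p 3) (p 5)]; linarith only [h2]
  · show 0 < sg true * _; rw [sg_true, D_0132 (p 0) (p 3) (p 4) (p 5)]; linarith only [h3]
  · show 0 < sg false * _; rw [sg_false]; linarith only [h4]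
  · show 0 < sg false * _; rw [sg_false]; linarith only [h5]

theorem in9014 (p : Fin 8 → E3) (h1 : 0 < D (p 0) (p 1) (p 3) (p 4)) (h2 : D (p 1) (p 2) (p 3) (p 4) < 0) (h3 : D (p 1) (p 3) (p 4) (p 5) < 0) (h4 : 0 < D (p 1) (p 3) (p 4) (p 6)) (h5 : 0 < D (p 1) (p 3) (p 4) (p 7)) (h6 : ¬ Sep p X0245) : False := by
  apply h6
  refine sep_cert5 p X0245 1 3 4 0 2 5 6 7 (by decide) (-1) ?_ ?_ ?_ ?_ ?_ ?_
  · rw [D_1230 (p 0) (p 1) (p 3) (p 4)]; exact neg_ne_zero.mpr h1.ne'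
  · show 0 < sg true * _; rw [sg_true, D_1230 (p 0) (p 1) (p 3) (p 4)]; linarith only [h1]
  · show 0 < sg true * _; rw [sg_true, D_0231 (p 1) (p 2) (p 3) (p 4)]; linarith only [h2]
  · show 0 < sg true * _; rw [sg_true]; linarith only [h3]
  · show 0 < sg false * _; rw [sg_false]; linarith only [h4]
  · show 0 < sg false * _; rw [sg_false]; linarith only [h5]

theorem in9016 (p : Fin 8 → E3) (h1 : 0 < D (p 0) (p 1) (p 3) (p 5)) (h2 : D (p 1) (p 2) (p 3) (p 5) < 0) (h3 : 0 < D (p 1) (p 3) (p 4) (p 5)) (h4 : 0 < D (p 1) (p 3) (p 5) (p 6)) (h5 : 0 < D (p 1) (p 3) (p 5) (p 7)) (h6 : ¬ Sep p X0245) : False := by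
  apply h6
  refine sep_cert5 p X0245 1 3 5 0 2 4 6 7 (by decide) (-1) ?_ ?_ ?_ ?_ ?_ ?_
  · rw [D_1230 (p 0) (p 1) (p 3) (p 5)]; exact neg_ne_zero.mpr h1.ne'
  · show 0 < sg true * _; rw [sg_true, D_1230 (p 0) (p 1) (p 3) (p 5)]; linarith only [h1]
  · show 0 < sg true * _; rw [sg_true, D_0231 (p 1) (p 2) (p 3) (p 5)]; linarith only [h2]
  · show 0 < sg true * _; rw [sg_true, D_0132 (p 1) (p 3) (p 4) (p 5)]; linarith only [h3]
  · show 0 < sg false * _; rw [sg_false]; linarith only [h4]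
  · show 0 < sg false * _; rw [sg_false]; linarith only [h5]

theorem in9018 (p : Fin 8 → E3) (h1 : 0 < D (p 0) (p 1) (p 3) (p 6)) (h2 : D (p 1) (p 2) (p 3) (p 6) < 0) (h3 : 0 < D (p 1) (p 3) (p 4) (p 6)) (h4 : 0 < D (p 1) (p 3) (p 5) (p 6)) (h5 : 0 < D (p 1) (p 3) (p 6) (p 7)) (h6 : ¬ Sep p X0245) : False := by
  apply h6
  refine sep_cert5 p X0245 1 3 6 0 2 4 5 7 (by decide) (-1) ?_ ?_ ?_ ?_ ?_ ?_
  · rw [D_1230 (p 0) (p 1) (p 3) (p 6)]; exact neg_ne_zero.mpr h1.ne'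
  · show 0 < sg true * _; rw [sg_true, D_1230 (p 0) (p 1) (p 3) (p 6)]; linarith only [h1]
  · show 0 < sg true * _; rw [sg_true, D_0231 (p 1) (p 2) (p 3) (p 6)]; linarith only [h2]
  · show 0 < sg true * _; rw [sg_true, D_0132 (p 1) (p 3) (p 4) (p 6)]; linarith only [h3]
  · show 0 < sg true * _; rw [sg_true, D_0132 (p 1) (p 3) (p 5) (p 6)]; linarith only [h4]
  · show 0 < sg false * _; rw [sg_false]; linarith only [h5]

theorem in9020 (p : Fin 8 → E3) (h1 : 0 < D (p 0) (p 1) (p 3) (p 7)) (h2 : D (p 1) (p 2) (p 3) (p 7) < 0) (h3 : 0 < D (p 1) (p 3) (p 4) (p 7)) (h4 : 0 < D (p 1) (p 3) (p 5) (p 7)) (h5 : D (p 1) (p 3) (p 6) (p 7) < 0) (h6 : ¬ Sep p X0245) : False := by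
  apply h6
  refine sep_cert5 p X0245 1 3 7 0 2 4 5 6 (by decide) (-1) ?_ ?_ ?_ ?_ ?_ ?_
  · rw [D_1230 (p 0) (p 1) (p 3) (p 7)]; exact neg_ne_zero.mpr h1.ne'
  · show 0 < sg true * _; rw [sg_true, D_1230 (p 0) (p 1) (p 3) (p 7)]; linarith only [h1]
  · show 0 < sg true * _; rw [sg_true, D_0231 (p 1) (p 2) (p 3) (p 7)]; linarith only [h2]
  · show 0 < sg true * _; rw [sg_true, D_0132 (p 1) (p 3) (p 4) (p 7)]; linarith only [h3]
  · show 0 < sg true * _; rw [sg_true, D_0132 (p 1) (p 3) (p 5) (p 7)]; linarith only [h4]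
  · show 0 < sg false * _; rw [sg_false, D_0132 (p 1) (p 3) (p 6) (p 7)]; linarith only [h5]

theorem in9128 (p : Fin 8 → E3) (h1 : 0 < D (p 0) (p 1) (p 3) (p 5)) (h2 : D (p 1) (p 2) (p 3) (p 5) < 0) (h3 : 0 < D (p 1) (p 3) (p 4) (p 5)) (h4 : D (p 1) (p 3) (p 5) (p 6) < 0) (h5 : 0 < D (p 1) (p 3) (p 5) (p 7)) (h6 : ¬ Sep p X0246) : False := by
  apply h6
  refine sep_cert5 p X0246 1 3 5 0 2 4 6 7 (by decide) (-1) ?_ ?_ ?_ ?_ ?_ ?_
  · rw [D_1230 (p 0) (p 1) (p 3) (p 5)]; exact neg_ne_zero.mpr h1.ne'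
  · show 0 < sg true * _; rw [sg_true, D_1230 (p 0) (p 1) (p 3) (p 5)]; linarith only [h1]
  · show 0 < sg true * _; rw [sg_true, D_0231 (p 1) (p 2) (p 3) (p 5)]; linarith only [h2]
  · show 0 < sg true * _; rw [sg_true, D_0132 (p 1) (p 3) (p 4) (p 5)]; linarith only [h3]
  · show 0 < sg true * _; rw [sg_true]; linarith only [h4]
  · show 0 < sg false * _; rw [sg_false]; linarith only [h5]

theorem in9132 (p : Fin 8 → E3) (h1 : 0 < D (p 0) (p 1) (p 3) (p 7)) (h2 : D (p 1) (p 2) (p 3) (p 7) < 0) (h3 : 0 < D (p 1) (p 3) (p 4) (p 7)) (h4 : D (p 1) (p 3) (p 5) (p 7) < 0) (h5 : 0 < D (p 1) (p 3) (p 6) (p 7)) (h6 : ¬ Sep p X0246) : False := by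
  apply h6
  refine sep_cert5 p X0246 1 3 7 0 2 4 5 6 (by decide) (-1) ?_ ?_ ?_ ?_ ?_ ?_
  · rw [D_1230 (p 0) (p 1) (p 3) (p 7)]; exact neg_ne_zero.mpr h1.ne'
  · show 0 < sg true * _; rw [sg_true, D_1230 (p 0) (p 1) (p 3) (p 7)]; linarith only [h1]
  · show 0 < sg true * _; rw [sg_true, D_0231 (p 1) (p 2) (p 3) (p 7)]; linarith only [h2]
  · show 0 < sg true * _; rw [sg_true, D_0132 (p 1) (p 3) (p 4) (p 7)]; linarith only [h3]
  · show 0 < sg false * _; rw [sg_false, D_0132 (p 1) (p 3) (p 5) (p 7)]; linarith only [h4]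
  · show 0 < sg true * _; rw [sg_true, D_0132 (p 1) (p 3) (p 6) (p 7)]; linarith only [h5]

theorem in9142 (p : Fin 8 → E3) (h1 : 0 < D (p 0) (p 1) (p 5) (p 7)) (h2 : D (p 1) (p 2) (p 5) (p 7) < 0) (h3 : 0 < D (p 1) (p 3) (p 5) (p 7)) (h4 : D (p 1) (p 4) (p 5) (p 7) < 0) (h5 : 0 < D (p 1) (p 5) (p 6) (p 7)) (h6 : ¬ Sep p X0246) : False := by
  apply h6
  refine sep_cert5 p X0246 1 5 7 0 2 3 4 6 (by decide) (-1) ?_ ?_ ?_ ?_ ?_ ?_
  · rw [D_1230 (p 0) (p 1) (p 5) (p 7)]; exact neg_ne_zero.mpr h1.ne'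
  · show 0 < sg true * _; rw [sg_true, D_1230 (p 0) (p 1) (p 5) (p 7)]; linarith only [h1]
  · show 0 < sg true * _; rw [sg_true, D_0231 (p 1) (p 2) (p 5) (p 7)]; linarith only [h2]
  · show 0 < sg false * _; rw [sg_false, D_0231 (p 1) (p 3) (p 5) (p 7)]; linarith only [h3]
  · show 0 < sg true * _; rw [sg_true, D_0231 (p 1) (p 4) (p 5) (p 7)]; linarith only [h4]
  · show 0 < sg true * _; rw [sg_true, D_0132 (p 1) (p 5) (p 6) (p 7)]; linarith only [h5]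

theorem in9173 (p : Fin 8 → E3) (h1 : D (p 0) (p 3) (p 5) (p 7) < 0) (h2 : 0 < D (p 1) (p 3) (p 5) (p 7)) (h3 : D (p 2) (p 3) (p 5) (p 7) < 0) (h4 : 0 < D (p 3) (p 4) (p 5) (p 7)) (h5 : D (p 3) (p 5) (p 6) (p 7) < 0) (h6 : ¬ Sep p X0246) : False := by
  apply h6
  refine sep_cert5 p X0246 3 5 7 0 1 2 4 6 (by decide) (1) ?_ ?_ ?_ ?_ ?_ ?_
  · rw [D_1230 (p 0) (p 3) (p 5) (p 7)]; exact neg_ne_zero.mpr h1.ne
  · show 0 < sg true * _; rw [sg_true, D_1230 (p 0) (p 3) (p 5) (p 7)]; linarith only [h1]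
  · show 0 < sg false * _; rw [sg_false, D_1230 (p 1) (p 3) (p 5) (p 7)]; linarith only [h2]
  · show 0 < sg true * _; rw [sg_true, D_1230 (p 2) (p 3) (p 5) (p 7)]; linarith only [h3]
  · show 0 < sg true * _; rw [sg_true, D_0231 (p 3) (p 4) (p 5) (p 7)]; linarith only [h4]
  · show 0 < sg true * _; rw [sg_true, D_0132 (p 3) (p 5) (p 6) (p 7)]; linarith only [h5]

theorem in9174 (p : Fin 8 → E3) (h1 : 0 < D (p 0) (p 3) (p 5) (p 7)) (h2 : D (p 1) (p 3) (p 5) (p 7) < 0) (h3 : 0 < D (p 2) (p 3) (p 5) (p 7)) (h4 : D (p 3) (p 4) (p 5) (p 7) < 0) (h5 : 0 < D (p 3) (p 5) (p 6) (p 7)) (h6 : ¬ Sep p X0246) : False := by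
  apply h6
  refine sep_cert5 p X0246 3 5 7 0 1 2 4 6 (by decide) (-1) ?_ ?_ ?_ ?_ ?_ ?_
  · rw [D_1230 (p 0) (p 3) (p 5) (p 7)]; exact neg_ne_zero.mpr h1.ne'
  · show 0 < sg true * _; rw [sg_true, D_1230 (p 0) (p 3) (p 5) (p 7)]; linarith only [h1]
  · show 0 < sg false * _; rw [sg_false, D_1230 (p 1) (p 3) (p 5) (p 7)]; linarith only [h2]
  · show 0 < sg true * _; rw [sg_true, D_1230 (p 2) (p 3) (p 5) (p 7)]; linarith only [h3]
  · show 0 < sg true * _; rw [sg_true, D_0231 (p 3) (p 4) (p 5) (p 7)]; linarith only [h4]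
  · show 0 < sg true * _; rw [sg_true, D_0132 (p 3) (p 5) (p 6) (p 7)]; linarith only [h5]

theorem in9244 (p : Fin 8 → E3) (h1 : 0 < D (p 0) (p 1) (p 3) (p 7)) (h2 : D (p 1) (p 2) (p 3) (p 7) < 0) (h3 : 0 < D (p 1) (p 3) (p 4) (p 7)) (h4 : D (p 1) (p 3) (p 5) (p 7) < 0) (h5 : D (p 1) (p 3) (p 6) (p 7) < 0) (h6 : ¬ Sep p X0247) : False := by
  apply h6
  refine sep_cert5 p X0247 1 3 7 0 2 4 5 6 (by decide) (-1) ?_ ?_ ?_ ?_ ?_ ?_
  · rw [D_1230 (p 0) (p 1) (p 3) (p 7)]; exact neg_ne_zero.mpr h1.ne'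
  · show 0 < sg true * _; rw [sg_true, D_1230 (p 0) (p 1) (p 3) (p 7)]; linarith only [h1]
  · show 0 < sg true * _; rw [sg_true, D_0231 (p 1) (p 2) (p 3) (p 7)]; linarith only [h2]
  · show 0 < sg true * _; rw [sg_true, D_0132 (p 1) (p 3) (p 4) (p 7)]; linarith only [h3]
  · show 0 < sg false * _; rw [sg_false, D_0132 (p 1) (p 3) (p 5) (p 7)]; linarith only [h4]
  · show 0 < sg false * _; rw [sg_false, D_0132 (p 1) (p 3) (p 6) (p 7)]; linarith only [h5]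

theorem in9254 (p : Fin 8 → E3) (h1 : 0 < D (p 0) (p 1) (p 5) (p 7)) (h2 : D (p 1) (p 2) (p 5) (p 7) < 0) (h3 : 0 < D (p 1) (p 3) (p 5) (p 7)) (h4 : D (p 1) (p 4) (p 5) (p 7) < 0) (h5 : D (p 1) (p 5) (p 6) (p 7) < 0) (h6 : ¬ Sep p X0247) : False := by
  apply h6
  refine sep_cert5 p X0247 1 5 7 0 2 3 4 6 (by decide) (-1) ?_ ?_ ?_ ?_ ?_ ?_
  · rw [D_1230 (p 0) (p 1) (p 5) (p 7)]; exact neg_ne_zero.mpr h1.ne'
  · show 0 < sg true * _; rw [sg_true, D_1230 (p 0) (p 1) (p 5) (p 7)]; linarith only [h1]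
  · show 0 < sg true * _; rw [sg_true, D_0231 (p 1) (p 2) (p 5) (p 7)]; linarith only [h2]
  · show 0 < sg false * _; rw [sg_false, D_0231 (p 1) (p 3) (p 5) (p 7)]; linarith only [h3]
  · show 0 < sg true * _; rw [sg_true, D_0231 (p 1) (p 4) (p 5) (p 7)]; linarith only [h4]
  · show 0 < sg false * _; rw [sg_false, D_0132 (p 1) (p 5) (p 6) (p 7)]; linarith only [h5]

theorem in9285 (p : Fin 8 → E3) (h1 : D (p 0) (p 3) (p 5) (p 7) < 0) (h2 : 0 < D (p 1) (p 3) (p 5) (p 7)) (h3 : D (p 2) (p 3) (p 5) (p 7) < 0) (h4 : 0 < D (p 3) (p 4) (p 5) (p 7)) (h5 : 0 < D (p 3) (p 5) (p 6) (p 7)) (h6 : ¬ Sep p X0247) : False := by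
  apply h6
  refine sep_cert5 p X0247 3 5 7 0 1 2 4 6 (by decide) (1) ?_ ?_ ?_ ?_ ?_ ?_
  · rw [D_1230 (p 0) (p 3) (p 5) (p 7)]; exact neg_ne_zero.mpr h1.ne
  · show 0 < sg true * _; rw [sg_true, D_1230 (p 0) (p 3) (p 5) (p 7)]; linarith only [h1]
  · show 0 < sg false * _; rw [sg_false, D_1230 (p 1) (p 3) (p 5) (p 7)]; linarith only [h2]
  · show 0 < sg true * _; rw [sg_true, D_1230 (p 2) (p 3) (p 5) (p 7)]; linarith only [h3]
  · show 0 < sg true * _; rw [sg_true, D_0231 (p 3) (p 4) (p 5) (p 7)]; linarith only [h4]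
  · show 0 < sg false * _; rw [sg_false, D_0132 (p 3) (p 5) (p 6) (p 7)]; linarith only [h5]

theorem in9286 (p : Fin 8 → E3) (h1 : 0 < D (p 0) (p 3) (p 5) (p 7)) (h2 : D (p 1) (p 3) (p 5) (p 7) < 0) (h3 : 0 < D (p 2) (p 3) (p 5) (p 7)) (h4 : D (p 3) (p 4) (p 5) (p 7) < 0) (h5 : D (p 3) (p 5) (p 6) (p 7) < 0) (h6 : ¬ Sep p X0247) : False := by
  apply h6
  refine sep_cert5 p X0247 3 5 7 0 1 2 4 6 (by decide) (-1) ?_ ?_ ?_ ?_ ?_ ?_
  · rw [D_1230 (p 0) (p 3) (p 5) (p 7)]; exact neg_ne_zero.mpr h1.ne'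
  · show 0 < sg true * _; rw [sg_true, D_1230 (p 0) (p 3) (p 5) (p 7)]; linarith only [h1]
  · show 0 < sg false * _; rw [sg_false, D_1230 (p 1) (p 3) (p 5) (p 7)]; linarith only [h2]
  · show 0 < sg true * _; rw [sg_true, D_1230 (p 2) (p 3) (p 5) (p 7)]; linarith only [h3]
  · show 0 < sg true * _; rw [sg_true, D_0231 (p 3) (p 4) (p 5) (p 7)]; linarith only [h4]
  · show 0 < sg false * _; rw [sg_false, D_0132 (p 3) (p 5) (p 6) (p 7)]; linarith only [h5]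

theorem in9350 (p : Fin 8 → E3) (h1 : 0 < D (p 0) (p 1) (p 3) (p 4)) (h2 : D (p 1) (p 2) (p 3) (p 4) < 0) (h3 : D (p 1) (p 3) (p 4) (p 5) < 0) (h4 : D (p 1) (p 3) (p 4) (p 6) < 0) (h5 : 0 < D (p 1) (p 3) (p 4) (p 7)) (h6 : ¬ Sep p X0256) : False := by
  apply h6
  refine sep_cert5 p X0256 1 3 4 0 2 5 6 7 (by decide) (-1) ?_ ?_ ?_ ?_ ?_ ?_
  · rw [D_1230 (p 0) (p 1) (p 3) (p 4)]; exact neg_ne_zero.mpr h1.ne'
  · show 0 < sg true * _; rw [sg_true, D_1230 (p 0) (p 1) (p 3) (p 4)]; linarith only [h1]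
  · show 0 < sg true * _; rw [sg_true, D_0231 (p 1) (p 2) (p 3) (p 4)]; linarith only [h2]
  · show 0 < sg true * _; rw [sg_true]; linarith only [h3]
  · show 0 < sg true * _; rw [sg_true]; linarith only [h4]
  · show 0 < sg false * _; rw [sg_false]; linarith only [h5]

theorem in9352 (p : Fin 8 → E3) (h1 : 0 < D (p 0) (p 1) (p 3) (p 5)) (h2 : D (p 1) (p 2) (p 3) (p 5) < 0) (h3 : D (p 1) (p 3) (p 4) (p 5) < 0) (h4 : D (p 1) (p 3) (p 5) (p 6) < 0) (h5 : 0 < D (p 1) (p 3) (p 5) (p 7)) (h6 : ¬ Sep p X0256) : False := by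
  apply h6
  refine sep_cert5 p X0256 1 3 5 0 2 4 6 7 (by decide) (-1) ?_ ?_ ?_ ?_ ?_ ?_
  · rw [D_1230 (p 0) (p 1) (p 3) (p 5)]; exact neg_ne_zero.mpr h1.ne'
  · show 0 < sg true * _; rw [sg_true, D_1230 (p 0) (p 1) (p 3) (p 5)]; linarith only [h1]
  · show 0 < sg true * _; rw [sg_true, D_0231 (p 1) (p 2) (p 3) (p 5)]; linarith only [h2]
  · show 0 < sg false * _; rw [sg_false, D_0132 (p 1) (p 3) (p 4) (p 5)]; linarith only [h3]
  · show 0 < sg true * _; rw [sg_true]; linarith only [h4]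
  · show 0 < sg false * _; rw [sg_false]; linarith only [h5]

theorem in9356 (p : Fin 8 → E3) (h1 : 0 < D (p 0) (p 1) (p 3) (p 7)) (h2 : D (p 1) (p 2) (p 3) (p 7) < 0) (h3 : D (p 1) (p 3) (p 4) (p 7) < 0) (h4 : 0 < D (p 1) (p 3) (p 5) (p 7)) (h5 : 0 < D (p 1) (p 3) (p 6) (p 7)) (h6 : ¬ Sep p X0256) : False := by
  apply h6
  refine sep_cert5 p X0256 1 3 7 0 2 4 5 6 (by decide) (-1) ?_ ?_ ?_ ?_ ?_ ?_
  · rw [D_1230 (p 0) (p 1) (p 3) (p 7)]; exact neg_ne_zero.mpr h1.ne'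
  · show 0 < sg true * _; rw [sg_true, D_1230 (p 0) (p 1) (p 3) (p 7)]; linarith only [h1]
  · show 0 < sg true * _; rw [sg_true, D_0231 (p 1) (p 2) (p 3) (p 7)]; linarith only [h2]
  · show 0 < sg false * _; rw [sg_false, D_0132 (p 1) (p 3) (p 4) (p 7)]; linarith only [h3]
  · show 0 < sg true * _; rw [sg_true, D_0132 (p 1) (p 3) (p 5) (p 7)]; linarith only [h4]
  · show 0 < sg true * _; rw [sg_true, D_0132 (p 1) (p 3) (p 6) (p 7)]; linarith only [h5]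

theorem in9362 (p : Fin 8 → E3) (h1 : 0 < D (p 0) (p 1) (p 4) (p 7)) (h2 : D (p 1) (p 2) (p 4) (p 7) < 0) (h3 : 0 < D (p 1) (p 3) (p 4) (p 7)) (h4 : 0 < D (p 1) (p 4) (p 5) (p 7)) (h5 : 0 < D (p 1) (p 4) (p 6) (p 7)) (h6 : ¬ Sep p X0256) : False := by
  apply h6
  refine sep_cert5 p X0256 1 4 7 0 2 3 5 6 (by decide) (-1) ?_ ?_ ?_ ?_ ?_ ?_
  · rw [D_1230 (p 0) (p 1) (p 4) (p 7)]; exact neg_ne_zero.mpr h1.ne'
  · show 0 < sg true * _; rw [sg_true, D_1230 (p 0) (p 1) (p 4) (p 7)]; linarith only [h1]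
  · show 0 < sg true * _; rw [sg_true, D_0231 (p 1) (p 2) (p 4) (p 7)]; linarith only [h2]
  · show 0 < sg false * _; rw [sg_false, D_0231 (p 1) (p 3) (p 4) (p 7)]; linarith only [h3]
  · show 0 < sg true * _; rw [sg_true, D_0132 (p 1) (p 4) (p 5) (p 7)]; linarith only [h4]
  · show 0 < sg true * _; rw [sg_true, D_0132 (p 1) (p 4) (p 6) (p 7)]; linarith only [h5]

theorem in9366 (p : Fin 8 → E3) (h1 : 0 < D (p 0) (p 1) (p 5) (p 7)) (h2 : D (p 1) (p 2) (p 5) (p 7) < 0) (h3 : 0 < D (p 1) (p 3) (p 5) (p 7)) (h4 : 0 < D (p 1) (p 4) (p 5) (p 7)) (h5 : 0 < D (p 1) (p 5) (p 6) (p 7)) (h6 : ¬ Sep p X0256) : False := by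
  apply h6
  refine sep_cert5 p X0256 1 5 7 0 2 3 4 6 (by decide) (-1) ?_ ?_ ?_ ?_ ?_ ?_
  · rw [D_1230 (p 0) (p 1) (p 5) (p 7)]; exact neg_ne_zero.mpr h1.ne'
  · show 0 < sg true * _; rw [sg_true, D_1230 (p 0) (p 1) (p 5) (p 7)]; linarith only [h1]
  · show 0 < sg true * _; rw [sg_true, D_0231 (p 1) (p 2) (p 5) (p 7)]; linarith only [h2]
  · show 0 < sg false * _; rw [sg_false, D_0231 (p 1) (p 3) (p 5) (p 7)]; linarith only [h3]
  · show 0 < sg false * _; rw [sg_false, D_0231 (p 1) (p 4) (p 5) (p 7)]; linarith only [h4]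
  · show 0 < sg true * _; rw [sg_true, D_0132 (p 1) (p 5) (p 6) (p 7)]; linarith only [h5]

theorem in9393 (p : Fin 8 → E3) (h1 : D (p 0) (p 3) (p 4) (p 7) < 0) (h2 : 0 < D (p 1) (p 3) (p 4) (p 7)) (h3 : D (p 2) (p 3) (p 4) (p 7) < 0) (h4 : D (p 3) (p 4) (p 5) (p 7) < 0) (h5 : D (p 3) (p 4) (p 6) (p 7) < 0) (h6 : ¬ Sep p X0256) : False := by
  apply h6
  refine sep_cert5 p X0256 3 4 7 0 1 2 5 6 (by decide) (1) ?_ ?_ ?_ ?_ ?_ ?_
  · rw [D_1230 (p 0) (p 3) (p 4) (p 7)]; exact neg_ne_zero.mpr h1.ne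
  · show 0 < sg true * _; rw [sg_true, D_1230 (p 0) (p 3) (p 4) (p 7)]; linarith only [h1]
  · show 0 < sg false * _; rw [sg_false, D_1230 (p 1) (p 3) (p 4) (p 7)]; linarith only [h2]
  · show 0 < sg true * _; rw [sg_true, D_1230 (p 2) (p 3) (p 4) (p 7)]; linarith only [h3]
  · show 0 < sg true * _; rw [sg_true, D_0132 (p 3) (p 4) (p 5) (p 7)]; linarith only [h4]
  · show 0 < sg true * _; rw [sg_true, D_0132 (p 3) (p 4) (p 6) (p 7)]; linarith only [h5]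

theorem in9394 (p : Fin 8 → E3) (h1 : 0 < D (p 0) (p 3) (p 4) (p 7)) (h2 : D (p 1) (p 3) (p 4) (p 7) < 0) (h3 : 0 < D (p 2) (p 3) (p 4) (p 7)) (h4 : 0 < D (p 3) (p 4) (p 5) (p 7)) (h5 : 0 < D (p 3) (p 4) (p 6) (p 7)) (h6 : ¬ Sep p X0256) : False := by
  apply h6
  refine sep_cert5 p X0256 3 4 7 0 1 2 5 6 (by decide) (-1) ?_ ?_ ?_ ?_ ?_ ?_
  · rw [D_1230 (p 0) (p 3) (p 4) (p 7)]; exact neg_ne_zero.mpr h1.ne'
  · show 0 < sg true * _; rw [sg_true, D_1230 (p 0) (p 3) (p 4) (p 7)]; linarith only [h1]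
  · show 0 < sg false * _; rw [sg_false, D_1230 (p 1) (p 3) (p 4) (p 7)]; linarith only [h2]
  · show 0 < sg true * _; rw [sg_true, D_1230 (p 2) (p 3) (p 4) (p 7)]; linarith only [h3]
  · show 0 < sg true * _; rw [sg_true, D_0132 (p 3) (p 4) (p 5) (p 7)]; linarith only [h4]
  · show 0 < sg true * _; rw [sg_true, D_0132 (p 3) (p 4) (p 6) (p 7)]; linarith only [h5]

theorem in9468 (p : Fin 8 → E3) (h1 : 0 < D (p 0) (p 1) (p 3) (p 7)) (h2 : D (p 1) (p 2) (p 3) (p 7) < 0) (h3 : D (p 1) (p 3) (p 4) (p 7) < 0) (h4 : 0 < D (p 1) (p 3) (p 5) (p 7)) (h5 : D (p 1) (p 3) (p 6) (p 7) < 0) (h6 : ¬ Sep p X0257) : False := by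
  apply h6
  refine sep_cert5 p X0257 1 3 7 0 2 4 5 6 (by decide) (-1) ?_ ?_ ?_ ?_ ?_ ?_
  · rw [D_1230 (p 0) (p 1) (p 3) (p 7)]; exact neg_ne_zero.mpr h1.ne'
  · show 0 < sg true * _; rw [sg_true, D_1230 (p 0) (p 1) (p 3) (p 7)]; linarith only [h1]
  · show 0 < sg true * _; rw [sg_true, D_0231 (p 1) (p 2) (p 3) (p 7)]; linarith only [h2]
  · show 0 < sg false * _; rw [sg_false, D_0132 (p 1) (p 3) (p 4) (p 7)]; linarith only [h3]
  · show 0 < sg true * _; rw [sg_true, D_0132 (p 1) (p 3) (p 5) (p 7)]; linarith only [h4]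
  · show 0 < sg false * _; rw [sg_false, D_0132 (p 1) (p 3) (p 6) (p 7)]; linarith only [h5]

theorem in9474 (p : Fin 8 → E3) (h1 : 0 < D (p 0) (p 1) (p 4) (p 7)) (h2 : D (p 1) (p 2) (p 4) (p 7) < 0) (h3 : 0 < D (p 1) (p 3) (p 4) (p 7)) (h4 : 0 < D (p 1) (p 4) (p 5) (p 7)) (h5 : D (p 1) (p 4) (p 6) (p 7) < 0) (h6 : ¬ Sep p X0257) : False := by
  apply h6
  refine sep_cert5 p X0257 1 4 7 0 2 3 5 6 (by decide) (-1) ?_ ?_ ?_ ?_ ?_ ?_
  · rw [D_1230 (p 0) (p 1) (p 4) (p 7)]; exact neg_ne_zero.mpr h1.ne'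
  · show 0 < sg true * _; rw [sg_true, D_1230 (p 0) (p 1) (p 4) (p 7)]; linarith only [h1]
  · show 0 < sg true * _; rw [sg_true, D_0231 (p 1) (p 2) (p 4) (p 7)]; linarith only [h2]
  · show 0 < sg false * _; rw [sg_false, D_0231 (p 1) (p 3) (p 4) (p 7)]; linarith only [h3]
  · show 0 < sg true * _; rw [sg_true, D_0132 (p 1) (p 4) (p 5) (p 7)]; linarith only [h4]
  · show 0 < sg false * _; rw [sg_false, D_0132 (p 1) (p 4) (p 6) (p 7)]; linarith only [h5]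

theorem in9478 (p : Fin 8 → E3) (h1 : 0 < D (p 0) (p 1) (p 5) (p 7)) (h2 : D (p 1) (p 2) (p 5) (p 7) < 0) (h3 : 0 < D (p 1) (p 3) (p 5) (p 7)) (h4 : 0 < D (p 1) (p 4) (p 5) (p 7)) (h5 : D (p 1) (p 5) (p 6) (p 7) < 0) (h6 : ¬ Sep p X0257) : False := by
  apply h6
  refine sep_cert5 p X0257 1 5 7 0 2 3 4 6 (by decide) (-1) ?_ ?_ ?_ ?_ ?_ ?_
  · rw [D_1230 (p 0) (p 1) (p 5) (p 7)]; exact neg_ne_zero.mpr h1.ne'
  · show 0 < sg true * _; rw [sg_true, D_1230 (p 0) (p 1) (p 5) (p 7)]; linarith only [h1]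
  · show 0 < sg true * _; rw [sg_true, D_0231 (p 1) (p 2) (p 5) (p 7)]; linarith only [h2]
  · show 0 < sg false * _; rw [sg_false, D_0231 (p 1) (p 3) (p 5) (p 7)]; linarith only [h3]
  · show 0 < sg false * _; rw [sg_false, D_0231 (p 1) (p 4) (p 5) (p 7)]; linarith only [h4]
  · show 0 < sg false * _; rw [sg_false, D_0132 (p 1) (p 5) (p 6) (p 7)]; linarith only [h5]

theorem in9505 (p : Fin 8 → E3) (h1 : D (p 0) (p 3) (p 4) (p 7) < 0) (h2 : 0 < D (p 1) (p 3) (p 4) (p 7)) (h3 : D (p 2) (p 3) (p 4) (p 7) < 0) (h4 : D (p 3) (p 4) (p 5) (p 7) < 0) (h5 : 0 < D (p 3) (p 4) (p 6) (p 7)) (h6 : ¬ Sep p X0257) : False := by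
  apply h6
  refine sep_cert5 p X0257 3 4 7 0 1 2 5 6 (by decide) (1) ?_ ?_ ?_ ?_ ?_ ?_
  · rw [D_1230 (p 0) (p 3) (p 4) (p 7)]; exact neg_ne_zero.mpr h1.ne
  · show 0 < sg true * _; rw [sg_true, D_1230 (p 0) (p 3) (p 4) (p 7)]; linarith only [h1]
  · show 0 < sg false * _; rw [sg_false, D_1230 (p 1) (p 3) (p 4) (p 7)]; linarith only [h2]
  · show 0 < sg true * _; rw [sg_true, D_1230 (p 2) (p 3) (p 4) (p 7)]; linarith only [h3]
  · show 0 < sg true * _; rw [sg_true, D_0132 (p 3) (p 4) (p 5) (p 7)]; linarith only [h4]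
  · show 0 < sg false * _; rw [sg_false, D_0132 (p 3) (p 4) (p 6) (p 7)]; linarith only [h5]

theorem in9506 (p : Fin 8 → E3) (h1 : 0 < D (p 0) (p 3) (p 4) (p 7)) (h2 : D (p 1) (p 3) (p 4) (p 7) < 0) (h3 : 0 < D (p 2) (p 3) (p 4) (p 7)) (h4 : 0 < D (p 3) (p 4) (p 5) (p 7)) (h5 : D (p 3) (p 4) (p 6) (p 7) < 0) (h6 : ¬ Sep p X0257) : False := by
  apply h6
  refine sep_cert5 p X0257 3 4 7 0 1 2 5 6 (by decide) (-1) ?_ ?_ ?_ ?_ ?_ ?_
  · rw [D_1230 (p 0) (p 3) (p 4) (p 7)]; exact neg_ne_zero.mpr h1.ne'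
  · show 0 < sg true * _; rw [sg_true, D_1230 (p 0) (p 3) (p 4) (p 7)]; linarith only [h1]
  · show 0 < sg false * _; rw [sg_false, D_1230 (p 1) (p 3) (p 4) (p 7)]; linarith only [h2]
  · show 0 < sg true * _; rw [sg_true, D_1230 (p 2) (p 3) (p 4) (p 7)]; linarith only [h3]
  · show 0 < sg true * _; rw [sg_true, D_0132 (p 3) (p 4) (p 5) (p 7)]; linarith only [h4]
  · show 0 < sg false * _; rw [sg_false, D_0132 (p 3) (p 4) (p 6) (p 7)]; linarith only [h5]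

theorem in9510 (p : Fin 8 → E3) (h1 : 0 < D (p 0) (p 3) (p 5) (p 7)) (h2 : D (p 1) (p 3) (p 5) (p 7) < 0) (h3 : 0 < D (p 2) (p 3) (p 5) (p 7)) (h4 : 0 < D (p 3) (p 4) (p 5) (p 7)) (h5 : D (p 3) (p 5) (p 6) (p 7) < 0) (h6 : ¬ Sep p X0257) : False := by
  apply h6
  refine sep_cert5 p X0257 3 5 7 0 1 2 4 6 (by decide) (-1) ?_ ?_ ?_ ?_ ?_ ?_
  · rw [D_1230 (p 0) (p 3) (p 5) (p 7)]; exact neg_ne_zero.mpr h1.ne'
  · show 0 < sg true * _; rw [sg_true, D_1230 (p 0) (p 3) (p 5) (p 7)]; linarith only [h1]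
  · show 0 < sg false * _; rw [sg_false, D_1230 (p 1) (p 3) (p 5) (p 7)]; linarith only [h2]
  · show 0 < sg true * _; rw [sg_true, D_1230 (p 2) (p 3) (p 5) (p 7)]; linarith only [h3]
  · show 0 < sg false * _; rw [sg_false, D_0231 (p 3) (p 4) (p 5) (p 7)]; linarith only [h4]
  · show 0 < sg false * _; rw [sg_false, D_0132 (p 3) (p 5) (p 6) (p 7)]; linarith only [h5]

theorem in9580 (p : Fin 8 → E3) (h1 : 0 < D (p 0) (p 1) (p 3) (p 7)) (h2 : D (p 1) (p 2) (p 3) (p 7) < 0) (h3 : D (p 1) (p 3) (p 4) (p 7) < 0) (h4 : D (p 1) (p 3) (p 5) (p 7) < 0) (h5 : 0 < D (p 1) (p 3) (p 6) (p 7)) (h6 : ¬ Sep p X0267) : False := by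
  apply h6
  refine sep_cert5 p X0267 1 3 7 0 2 4 5 6 (by decide) (-1) ?_ ?_ ?_ ?_ ?_ ?_
  · rw [D_1230 (p 0) (p 1) (p 3) (p 7)]; exact neg_ne_zero.mpr h1.ne'
  · show 0 < sg true * _; rw [sg_true, D_1230 (p 0) (p 1) (p 3) (p 7)]; linarith only [h1]
  · show 0 < sg true * _; rw [sg_true, D_0231 (p 1) (p 2) (p 3) (p 7)]; linarith only [h2]
  · show 0 < sg false * _; rw [sg_false, D_0132 (p 1) (p 3) (p 4) (p 7)]; linarith only [h3]
  · show 0 < sg false * _; rw [sg_false, D_0132 (p 1) (p 3) (p 5) (p 7)]; linarith only [h4]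
  · show 0 < sg true * _; rw [sg_true, D_0132 (p 1) (p 3) (p 6) (p 7)]; linarith only [h5]

theorem in9650 (p : Fin 8 → E3) (h1 : 0 < D (p 0) (p 1) (p 2) (p 5)) (h2 : 0 < D (p 0) (p 2) (p 3) (p 5)) (h3 : 0 < D (p 0) (p 2) (p 4) (p 5)) (h4 : 0 < D (p 0) (p 2) (p 5) (p 6)) (h5 : 0 < D (p 0) (p 2) (p 5) (p 7)) (h6 : ¬ Sep p X0345) : False := by
  apply h6
  refine sep_cert5 p X0345 0 2 5 1 3 4 6 7 (by decide) (-1) ?_ ?_ ?_ ?_ ?_ ?_
  · rw [D_0231 (p 0) (p 1) (p 2) (p 5)]; exact h1.ne'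
  · show 0 < sg false * _; rw [sg_false, D_0231 (p 0) (p 1) (p 2) (p 5)]; linarith only [h1]
  · show 0 < sg true * _; rw [sg_true, D_0132 (p 0) (p 2) (p 3) (p 5)]; linarith only [h2]
  · show 0 < sg true * _; rw [sg_true, D_0132 (p 0) (p 2) (p 4) (p 5)]; linarith only [h3]
  · show 0 < sg false * _; rw [sg_false]; linarith only [h4]
  · show 0 < sg false * _; rw [sg_false]; linarith only [h5]

theorem in9658 (p : Fin 8 → E3) (h1 : 0 < D (p 0) (p 1) (p 3) (p 5)) (h2 : 0 < D (p 0) (p 2) (p 3) (p 5)) (h3 : 0 < D (p 0) (p 3) (p 4) (p 5)) (h4 : 0 < D (p 0) (p 3) (p 5) (p 6)) (h5 : 0 < D (p 0) (p 3) (p 5) (p 7)) (h6 : ¬ Sep p X0345) : False := by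
  apply h6
  refine sep_cert5 p X0345 0 3 5 1 2 4 6 7 (by decide) (-1) ?_ ?_ ?_ ?_ ?_ ?_
  · rw [D_0231 (p 0) (p 1) (p 3) (p 5)]; exact h1.ne'
  · show 0 < sg false * _; rw [sg_false, D_0231 (p 0) (p 1) (p 3) (p 5)]; linarith only [h1]
  · show 0 < sg false * _; rw [sg_false, D_0231 (p 0) (p 2) (p 3) (p 5)]; linarith only [h2]
  · show 0 < sg true * _; rw [sg_true, D_0132 (p 0) (p 3) (p 4) (p 5)]; linarith only [h3]
  · show 0 < sg false * _; rw [sg_false]; linarith only [h4]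
  · show 0 < sg false * _; rw [sg_false]; linarith only [h5]

theorem in9688 (p : Fin 8 → E3) (h1 : 0 < D (p 0) (p 1) (p 3) (p 5)) (h2 : 0 < D (p 1) (p 2) (p 3) (p 5)) (h3 : 0 < D (p 1) (p 3) (p 4) (p 5)) (h4 : 0 < D (p 1) (p 3) (p 5) (p 6)) (h5 : 0 < D (p 1) (p 3) (p 5) (p 7)) (h6 : ¬ Sep p X0345) : False := by
  apply h6
  refine sep_cert5 p X0345 1 3 5 0 2 4 6 7 (by decide) (-1) ?_ ?_ ?_ ?_ ?_ ?_
  · rw [D_1230 (p 0) (p 1) (p 3) (p 5)]; exact neg_ne_zero.mpr h1.ne'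
  · show 0 < sg true * _; rw [sg_true, D_1230 (p 0) (p 1) (p 3) (p 5)]; linarith only [h1]
  · show 0 < sg false * _; rw [sg_false, D_0231 (p 1) (p 2) (p 3) (p 5)]; linarith only [h2]
  · show 0 < sg true * _; rw [sg_true, D_0132 (p 1) (p 3) (p 4) (p 5)]; linarith only [h3]
  · show 0 < sg false * _; rw [sg_false]; linarith only [h4]
  · show 0 < sg false * _; rw [sg_false]; linarith only [h5]

theorem in9692 (p : Fin 8 → E3) (h1 : 0 < D (p 0) (p 1) (p 3) (p 7)) (h2 : 0 < D (p 1) (p 2) (p 3) (p 7)) (h3 : 0 < D (p 1) (p 3) (p 4) (p 7)) (h4 : 0 < D (p 1) (p 3) (p 5) (p 7)) (h5 : D (p 1) (p 3) (p 6) (p 7) < 0) (h6 : ¬ Sep p X0345) : False := by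
  apply h6
  refine sep_cert5 p X0345 1 3 7 0 2 4 5 6 (by decide) (-1) ?_ ?_ ?_ ?_ ?_ ?_
  · rw [D_1230 (p 0) (p 1) (p 3) (p 7)]; exact neg_ne_zero.mpr h1.ne'
  · show 0 < sg true * _; rw [sg_true, D_1230 (p 0) (p 1) (p 3) (p 7)]; linarith only [h1]
  · show 0 < sg false * _; rw [sg_false, D_0231 (p 1) (p 2) (p 3) (p 7)]; linarith only [h2]
  · show 0 < sg true * _; rw [sg_true, D_0132 (p 1) (p 3) (p 4) (p 7)]; linarith only [h3]
  · show 0 < sg true * _; rw [sg_true, D_0132 (p 1) (p 3) (p 5) (p 7)]; linarith only [h4]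
  · show 0 < sg false * _; rw [sg_false, D_0132 (p 1) (p 3) (p 6) (p 7)]; linarith only [h5]

theorem in9698 (p : Fin 8 → E3) (h1 : 0 < D (p 0) (p 1) (p 4) (p 7)) (h2 : 0 < D (p 1) (p 2) (p 4) (p 7)) (h3 : D (p 1) (p 3) (p 4) (p 7) < 0) (h4 : 0 < D (p 1) (p 4) (p 5) (p 7)) (h5 : D (p 1) (p 4) (p 6) (p 7) < 0) (h6 : ¬ Sep p X0345) : False := by
  apply h6
  refine sep_cert5 p X0345 1 4 7 0 2 3 5 6 (by decide) (-1) ?_ ?_ ?_ ?_ ?_ ?_
  · rw [D_1230 (p 0) (p 1) (p 4) (p 7)]; exact neg_ne_zero.mpr h1.ne'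
  · show 0 < sg true * _; rw [sg_true, D_1230 (p 0) (p 1) (p 4) (p 7)]; linarith only [h1]
  · show 0 < sg false * _; rw [sg_false, D_0231 (p 1) (p 2) (p 4) (p 7)]; linarith only [h2]
  · show 0 < sg true * _; rw [sg_true, D_0231 (p 1) (p 3) (p 4) (p 7)]; linarith only [h3]
  · show 0 < sg true * _; rw [sg_true, D_0132 (p 1) (p 4) (p 5) (p 7)]; linarith only [h4]
  · show 0 < sg false * _; rw [sg_false, D_0132 (p 1) (p 4) (p 6) (p 7)]; linarith only [h5]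

theorem in9800 (p : Fin 8 → E3) (h1 : 0 < D (p 0) (p 1) (p 3) (p 5)) (h2 : 0 < D (p 1) (p 2) (p 3) (p 5)) (h3 : 0 < D (p 1) (p 3) (p 4) (p 5)) (h4 : D (p 1) (p 3) (p 5) (p 6) < 0) (h5 : 0 < D (p 1) (p 3) (p 5) (p 7)) (h6 : ¬ Sep p X0346) : False := by
  apply h6
  refine sep_cert5 p X0346 1 3 5 0 2 4 6 7 (by decide) (-1) ?_ ?_ ?_ ?_ ?_ ?_
  · rw [D_1230 (p 0) (p 1) (p 3) (p 5)]; exact neg_ne_zero.mpr h1.ne'
  · show 0 < sg true * _; rw [sg_true, D_1230 (p 0) (p 1) (p 3) (p 5)]; linarith only [h1]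
  · show 0 < sg false * _; rw [sg_false, D_0231 (p 1) (p 2) (p 3) (p 5)]; linarith only [h2]
  · show 0 < sg true * _; rw [sg_true, D_0132 (p 1) (p 3) (p 4) (p 5)]; linarith only [h3]
  · show 0 < sg true * _; rw [sg_true]; linarith only [h4]
  · show 0 < sg false * _; rw [sg_false]; linarith only [h5]

theorem in9804 (p : Fin 8 → E3) (h1 : 0 < D (p 0) (p 1) (p 3) (p 7)) (h2 : 0 < D (p 1) (p 2) (p 3) (p 7)) (h3 : 0 < D (p 1) (p 3) (p 4) (p 7)) (h4 : D (p 1) (p 3) (p 5) (p 7) < 0) (h5 : 0 < D (p 1) (p 3) (p 6) (p 7)) (h6 : ¬ Sep p X0346) : False := by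
  apply h6
  refine sep_cert5 p X0346 1 3 7 0 2 4 5 6 (by decide) (-1) ?_ ?_ ?_ ?_ ?_ ?_
  · rw [D_1230 (p 0) (p 1) (p 3) (p 7)]; exact neg_ne_zero.mpr h1.ne'
  · show 0 < sg true * _; rw [sg_true, D_1230 (p 0) (p 1) (p 3) (p 7)]; linarith only [h1]
  · show 0 < sg false * _; rw [sg_false, D_0231 (p 1) (p 2) (p 3) (p 7)]; linarith only [h2]
  · show 0 < sg true * _; rw [sg_true, D_0132 (p 1) (p 3) (p 4) (p 7)]; linarith only [h3]
  · show 0 < sg false * _; rw [sg_false, D_0132 (p 1) (p 3) (p 5) (p 7)]; linarith only [h4]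
  · show 0 < sg true * _; rw [sg_true, D_0132 (p 1) (p 3) (p 6) (p 7)]; linarith only [h5]

theorem in9810 (p : Fin 8 → E3) (h1 : 0 < D (p 0) (p 1) (p 4) (p 7)) (h2 : 0 < D (p 1) (p 2) (p 4) (p 7)) (h3 : D (p 1) (p 3) (p 4) (p 7) < 0) (h4 : D (p 1) (p 4) (p 5) (p 7) < 0) (h5 : 0 < D (p 1) (p 4) (p 6) (p 7)) (h6 : ¬ Sep p X0346) : False := by
  apply h6
  refine sep_cert5 p X0346 1 4 7 0 2 3 5 6 (by decide) (-1) ?_ ?_ ?_ ?_ ?_ ?_
  · rw [D_1230 (p 0) (p 1) (p 4) (p 7)]; exact neg_ne_zero.mpr h1.ne'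
  · show 0 < sg true * _; rw [sg_true, D_1230 (p 0) (p 1) (p 4) (p 7)]; linarith only [h1]
  · show 0 < sg false * _; rw [sg_false, D_0231 (p 1) (p 2) (p 4) (p 7)]; linarith only [h2]
  · show 0 < sg true * _; rw [sg_true, D_0231 (p 1) (p 3) (p 4) (p 7)]; linarith only [h3]
  · show 0 < sg false * _; rw [sg_false, D_0132 (p 1) (p 4) (p 5) (p 7)]; linarith only [h4]
  · show 0 < sg true * _; rw [sg_true, D_0132 (p 1) (p 4) (p 6) (p 7)]; linarith only [h5]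

theorem in9845 (p : Fin 8 → E3) (h1 : D (p 0) (p 3) (p 5) (p 7) < 0) (h2 : 0 < D (p 1) (p 3) (p 5) (p 7)) (h3 : 0 < D (p 2) (p 3) (p 5) (p 7)) (h4 : 0 < D (p 3) (p 4) (p 5) (p 7)) (h5 : D (p 3) (p 5) (p 6) (p 7) < 0) (h6 : ¬ Sep p X0346) : False := by
  apply h6
  refine sep_cert5 p X0346 3 5 7 0 1 2 4 6 (by decide) (1) ?_ ?_ ?_ ?_ ?_ ?_
  · rw [D_1230 (p 0) (p 3) (p 5) (p 7)]; exact neg_ne_zero.mpr h1.ne
  · show 0 < sg true * _; rw [sg_true, D_1230 (p 0) (p 3) (p 5) (p 7)]; linarith only [h1]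
  · show 0 < sg false * _; rw [sg_false, D_1230 (p 1) (p 3) (p 5) (p 7)]; linarith only [h2]
  · show 0 < sg false * _; rw [sg_false, D_1230 (p 2) (p 3) (p 5) (p 7)]; linarith only [h3]
  · show 0 < sg true * _; rw [sg_true, D_0231 (p 3) (p 4) (p 5) (p 7)]; linarith only [h4]
  · show 0 < sg true * _; rw [sg_true, D_0132 (p 3) (p 5) (p 6) (p 7)]; linarith only [h5]

theorem in9846 (p : Fin 8 → E3) (h1 : 0 < D (p 0) (p 3) (p 5) (p 7)) (h2 : D (p 1) (p 3) (p 5) (p 7) < 0) (h3 : D (p 2) (p 3) (p 5) (p 7) < 0) (h4 : D (p 3) (p 4) (p 5) (p 7) < 0) (h5 : 0 < D (p 3) (p 5) (p 6) (p 7)) (h6 : ¬ Sep p X0346) : False := by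
  apply h6
  refine sep_cert5 p X0346 3 5 7 0 1 2 4 6 (by decide) (-1) ?_ ?_ ?_ ?_ ?_ ?_
  · rw [D_1230 (p 0) (p 3) (p 5) (p 7)]; exact neg_ne_zero.mpr h1.ne'
  · show 0 < sg true * _; rw [sg_true, D_1230 (p 0) (p 3) (p 5) (p 7)]; linarith only [h1]
  · show 0 < sg false * _; rw [sg_false, D_1230 (p 1) (p 3) (p 5) (p 7)]; linarith only [h2]
  · show 0 < sg false * _; rw [sg_false, D_1230 (p 2) (p 3) (p 5) (p 7)]; linarith only [h3]
  · show 0 < sg true * _; rw [sg_true, D_0231 (p 3) (p 4) (p 5) (p 7)]; linarith only [h4]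
  · show 0 < sg true * _; rw [sg_true, D_0132 (p 3) (p 5) (p 6) (p 7)]; linarith only [h5]

theorem in9882 (p : Fin 8 → E3) (h1 : 0 < D (p 0) (p 1) (p 3) (p 5)) (h2 : 0 < D (p 0) (p 2) (p 3) (p 5)) (h3 : 0 < D (p 0) (p 3) (p 4) (p 5)) (h4 : 0 < D (p 0) (p 3) (p 5) (p 6)) (h5 : D (p 0) (p 3) (p 5) (p 7) < 0) (h6 : ¬ Sep p X0347) : False := by
  apply h6
  refine sep_cert5 p X0347 0 3 5 1 2 4 6 7 (by decide) (-1) ?_ ?_ ?_ ?_ ?_ ?_
  · rw [D_0231 (p 0) (p 1) (p 3) (p 5)]; exact h1.ne'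
  · show 0 < sg false * _; rw [sg_false, D_0231 (p 0) (p 1) (p 3) (p 5)]; linarith only [h1]
  · show 0 < sg false * _; rw [sg_false, D_0231 (p 0) (p 2) (p 3) (p 5)]; linarith only [h2]
  · show 0 < sg true * _; rw [sg_true, D_0132 (p 0) (p 3) (p 4) (p 5)]; linarith only [h3]
  · show 0 < sg false * _; rw [sg_false]; linarith only [h4]
  · show 0 < sg true * _; rw [sg_true]; linarith only [h5]

theorem in9912 (p : Fin 8 → E3) (h1 : 0 < D (p 0) (p 1) (p 3) (p 5)) (h2 : 0 < D (p 1) (p 2) (p 3) (p 5)) (h3 : 0 < D (p 1) (p 3) (p 4) (p 5)) (h4 : 0 < D (p 1) (p 3) (p 5) (p 6)) (h5 : D (p 1) (p 3) (p 5) (p 7) < 0) (h6 : ¬ Sep p X0347) : False := by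
  apply h6
  refine sep_cert5 p X0347 1 3 5 0 2 4 6 7 (by decide) (-1) ?_ ?_ ?_ ?_ ?_ ?_
  · rw [D_1230 (p 0) (p 1) (p 3) (p 5)]; exact neg_ne_zero.mpr h1.ne'
  · show 0 < sg true * _; rw [sg_true, D_1230 (p 0) (p 1) (p 3) (p 5)]; linarith only [h1]
  · show 0 < sg false * _; rw [sg_false, D_0231 (p 1) (p 2) (p 3) (p 5)]; linarith only [h2]
  · show 0 < sg true * _; rw [sg_true, D_0132 (p 1) (p 3) (p 4) (p 5)]; linarith only [h3]
  · show 0 < sg false * _; rw [sg_false]; linarith only [h4]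
  · show 0 < sg true * _; rw [sg_true]; linarith only [h5]

theorem in9916 (p : Fin 8 → E3) (h1 : 0 < D (p 0) (p 1) (p 3) (p 7)) (h2 : 0 < D (p 1) (p 2) (p 3) (p 7)) (h3 : 0 < D (p 1) (p 3) (p 4) (p 7)) (h4 : D (p 1) (p 3) (p 5) (p 7) < 0) (h5 : D (p 1) (p 3) (p 6) (p 7) < 0) (h6 : ¬ Sep p X0347) : False := by
  apply h6
  refine sep_cert5 p X0347 1 3 7 0 2 4 5 6 (by decide) (-1) ?_ ?_ ?_ ?_ ?_ ?_
  · rw [D_1230 (p 0) (p 1) (p 3) (p 7)]; exact neg_ne_zero.mpr h1.ne'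
  · show 0 < sg true * _; rw [sg_true, D_1230 (p 0) (p 1) (p 3) (p 7)]; linarith only [h1]
  · show 0 < sg false * _; rw [sg_false, D_0231 (p 1) (p 2) (p 3) (p 7)]; linarith only [h2]
  · show 0 < sg true * _; rw [sg_true, D_0132 (p 1) (p 3) (p 4) (p 7)]; linarith only [h3]
  · show 0 < sg false * _; rw [sg_false, D_0132 (p 1) (p 3) (p 5) (p 7)]; linarith only [h4]
  · show 0 < sg false * _; rw [sg_false, D_0132 (p 1) (p 3) (p 6) (p 7)]; linarith only [h5]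

theorem in9922 (p : Fin 8 → E3) (h1 : 0 < D (p 0) (p 1) (p 4) (p 7)) (h2 : 0 < D (p 1) (p 2) (p 4) (p 7)) (h3 : D (p 1) (p 3) (p 4) (p 7) < 0) (h4 : D (p 1) (p 4) (p 5) (p 7) < 0) (h5 : D (p 1) (p 4) (p 6) (p 7) < 0) (h6 : ¬ Sep p X0347) : False := by
  apply h6
  refine sep_cert5 p X0347 1 4 7 0 2 3 5 6 (by decide) (-1) ?_ ?_ ?_ ?_ ?_ ?_
  · rw [D_1230 (p 0) (p 1) (p 4) (p 7)]; exact neg_ne_zero.mpr h1.ne'
  · show 0 < sg true * _; rw [sg_true, D_1230 (p 0) (p 1) (p 4) (p 7)]; linarith only [h1]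
  · show 0 < sg false * _; rw [sg_false, D_0231 (p 1) (p 2) (p 4) (p 7)]; linarith only [h2]
  · show 0 < sg true * _; rw [sg_true, D_0231 (p 1) (p 3) (p 4) (p 7)]; linarith only [h3]
  · show 0 < sg false * _; rw [sg_false, D_0132 (p 1) (p 4) (p 5) (p 7)]; linarith only [h4]
  · show 0 < sg false * _; rw [sg_false, D_0132 (p 1) (p 4) (p 6) (p 7)]; linarith only [h5]

theorem in9957 (p : Fin 8 → E3) (h1 : D (p 0) (p 3) (p 5) (p 7) < 0) (h2 : 0 < D (p 1) (p 3) (p 5) (p 7)) (h3 : 0 < D (p 2) (p 3) (p 5) (p 7)) (h4 : 0 < D (p 3) (p 4) (p 5) (p 7)) (h5 : 0 < D (p 3) (p 5) (p 6) (p 7)) (h6 : ¬ Sep p X0347) : False := by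
  apply h6
  refine sep_cert5 p X0347 3 5 7 0 1 2 4 6 (by decide) (1) ?_ ?_ ?_ ?_ ?_ ?_
  · rw [D_1230 (p 0) (p 3) (p 5) (p 7)]; exact neg_ne_zero.mpr h1.ne
  · show 0 < sg true * _; rw [sg_true, D_1230 (p 0) (p 3) (p 5) (p 7)]; linarith only [h1]
  · show 0 < sg false * _; rw [sg_false, D_1230 (p 1) (p 3) (p 5) (p 7)]; linarith only [h2]
  · show 0 < sg false * _; rw [sg_false, D_1230 (p 2) (p 3) (p 5) (p 7)]; linarith only [h3]
  · show 0 < sg true * _; rw [sg_true, D_0231 (p 3) (p 4) (p 5) (p 7)]; linarith only [h4]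
  · show 0 < sg false * _; rw [sg_false, D_0132 (p 3) (p 5) (p 6) (p 7)]; linarith only [h5]

theorem in9958 (p : Fin 8 → E3) (h1 : 0 < D (p 0) (p 3) (p 5) (p 7)) (h2 : D (p 1) (p 3) (p 5) (p 7) < 0) (h3 : D (p 2) (p 3) (p 5) (p 7) < 0) (h4 : D (p 3) (p 4) (p 5) (p 7) < 0) (h5 : D (p 3) (p 5) (p 6) (p 7) < 0) (h6 : ¬ Sep p X0347) : False := by
  apply h6
  refine sep_cert5 p X0347 3 5 7 0 1 2 4 6 (by decide) (-1) ?_ ?_ ?_ ?_ ?_ ?_
  · rw [D_1230 (p 0) (p 3) (p 5) (p 7)]; exact neg_ne_zero.mpr h1.ne'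
  · show 0 < sg true * _; rw [sg_true, D_1230 (p 0) (p 3) (p 5) (p 7)]; linarith only [h1]
  · show 0 < sg false * _; rw [sg_false, D_1230 (p 1) (p 3) (p 5) (p 7)]; linarith only [h2]
  · show 0 < sg false * _; rw [sg_false, D_1230 (p 2) (p 3) (p 5) (p 7)]; linarith only [h3]
  · show 0 < sg true * _; rw [sg_true, D_0231 (p 3) (p 4) (p 5) (p 7)]; linarith only [h4]
  · show 0 < sg false * _; rw [sg_false, D_0132 (p 3) (p 5) (p 6) (p 7)]; linarith only [h5]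

theorem in9994 (p : Fin 8 → E3) (h1 : 0 < D (p 0) (p 1) (p 3) (p 5)) (h2 : 0 < D (p 0) (p 2) (p 3) (p 5)) (h3 : D (p 0) (p 3) (p 4) (p 5) < 0) (h4 : D (p 0) (p 3) (p 5) (p 6) < 0) (h5 : 0 < D (p 0) (p 3) (p 5) (p 7)) (h6 : ¬ Sep p X0356) : False := by
  apply h6
  refine sep_cert5 p X0356 0 3 5 1 2 4 6 7 (by decide) (-1) ?_ ?_ ?_ ?_ ?_ ?_
  · rw [D_0231 (p 0) (p 1) (p 3) (p 5)]; exact h1.ne'
  · show 0 < sg false * _; rw [sg_false, D_0231 (p 0) (p 1) (p 3) (p 5)]; linarith only [h1]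
  · show 0 < sg false * _; rw [sg_false, D_0231 (p 0) (p 2) (p 3) (p 5)]; linarith only [h2]
  · show 0 < sg false * _; rw [sg_false, D_0132 (p 0) (p 3) (p 4) (p 5)]; linarith only [h3]
  · show 0 < sg true * _; rw [sg_true]; linarith only [h4]
  · show 0 < sg false * _; rw [sg_false]; linarith only [h5]

theorem in10022 (p : Fin 8 → E3) (h1 : 0 < D (p 0) (p 1) (p 3) (p 4)) (h2 : 0 < D (p 1) (p 2) (p 3) (p 4)) (h3 : D (p 1) (p 3) (p 4) (p 5) < 0) (h4 : D (p 1) (p 3) (p 4) (p 6) < 0) (h5 : 0 < D (p 1) (p 3) (p 4) (p 7)) (h6 : ¬ Sep p X0356) : False := by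
  apply h6
  refine sep_cert5 p X0356 1 3 4 0 2 5 6 7 (by decide) (-1) ?_ ?_ ?_ ?_ ?_ ?_
  · rw [D_1230 (p 0) (p 1) (p 3) (p 4)]; exact neg_ne_zero.mpr h1.ne'
  · show 0 < sg true * _; rw [sg_true, D_1230 (p 0) (p 1) (p 3) (p 4)]; linarith only [h1]
  · show 0 < sg false * _; rw [sg_false, D_0231 (p 1) (p 2) (p 3) (p 4)]; linarith only [h2]
  · show 0 < sg true * _; rw [sg_true]; linarith only [h3]
  · show 0 < sg true * _; rw [sg_true]; linarith only [h4]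
  · show 0 < sg false * _; rw [sg_false]; linarith only [h5]

theorem in10028 (p : Fin 8 → E3) (h1 : 0 < D (p 0) (p 1) (p 3) (p 7)) (h2 : 0 < D (p 1) (p 2) (p 3) (p 7)) (h3 : D (p 1) (p 3) (p 4) (p 7) < 0) (h4 : 0 < D (p 1) (p 3) (p 5) (p 7)) (h5 : 0 < D (p 1) (p 3) (p 6) (p 7)) (h6 : ¬ Sep p X0356) : False := by
  apply h6
  refine sep_cert5 p X0356 1 3 7 0 2 4 5 6 (by decide) (-1) ?_ ?_ ?_ ?_ ?_ ?_
  · rw [D_1230 (p 0) (p 1) (p 3) (p 7)]; exact neg_ne_zero.mpr h1.ne'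
  · show 0 < sg true * _; rw [sg_true, D_1230 (p 0) (p 1) (p 3) (p 7)]; linarith only [h1]
  · show 0 < sg false * _; rw [sg_false, D_0231 (p 1) (p 2) (p 3) (p 7)]; linarith only [h2]
  · show 0 < sg false * _; rw [sg_false, D_0132 (p 1) (p 3) (p 4) (p 7)]; linarith only [h3]
  · show 0 < sg true * _; rw [sg_true, D_0132 (p 1) (p 3) (p 5) (p 7)]; linarith only [h4]
  · show 0 < sg true * _; rw [sg_true, D_0132 (p 1) (p 3) (p 6) (p 7)]; linarith only [h5]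

theorem in10034 (p : Fin 8 → E3) (h1 : 0 < D (p 0) (p 1) (p 4) (p 7)) (h2 : 0 < D (p 1) (p 2) (p 4) (p 7)) (h3 : D (p 1) (p 3) (p 4) (p 7) < 0) (h4 : 0 < D (p 1) (p 4) (p 5) (p 7)) (h5 : 0 < D (p 1) (p 4) (p 6) (p 7)) (h6 : ¬ Sep p X0356) : False := by
  apply h6
  refine sep_cert5 p X0356 1 4 7 0 2 3 5 6 (by decide) (-1) ?_ ?_ ?_ ?_ ?_ ?_
  · rw [D_1230 (p 0) (p 1) (p 4) (p 7)]; exact neg_ne_zero.mpr h1.ne'
  · show 0 < sg true * _; rw [sg_true, D_1230 (p 0) (p 1) (p 4) (p 7)]; linarith only [h1]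
  · show 0 < sg false * _; rw [sg_false, D_0231 (p 1) (p 2) (p 4) (p 7)]; linarith only [h2]
  · show 0 < sg true * _; rw [sg_true, D_0231 (p 1) (p 3) (p 4) (p 7)]; linarith only [h3]
  · show 0 < sg true * _; rw [sg_true, D_0132 (p 1) (p 4) (p 5) (p 7)]; linarith only [h4]
  · show 0 < sg true * _; rw [sg_true, D_0132 (p 1) (p 4) (p 6) (p 7)]; linarith only [h5]

theorem in10038 (p : Fin 8 → E3) (h1 : 0 < D (p 0) (p 1) (p 5) (p 7)) (h2 : 0 < D (p 1) (p 2) (p 5) (p 7)) (h3 : D (p 1) (p 3) (p 5) (p 7) < 0) (h4 : 0 < D (p 1) (p 4) (p 5) (p 7)) (h5 : 0 < D (p 1) (p 5) (p 6) (p 7)) (h6 : ¬ Sep p X0356) : False := by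
  apply h6
  refine sep_cert5 p X0356 1 5 7 0 2 3 4 6 (by decide) (-1) ?_ ?_ ?_ ?_ ?_ ?_
  · rw [D_1230 (p 0) (p 1) (p 5) (p 7)]; exact neg_ne_zero.mpr h1.ne'
  · show 0 < sg true * _; rw [sg_true, D_1230 (p 0) (p 1) (p 5) (p 7)]; linarith only [h1]
  · show 0 < sg false * _; rw [sg_false, D_0231 (p 1) (p 2) (p 5) (p 7)]; linarith only [h2]
  · show 0 < sg true * _; rw [sg_true, D_0231 (p 1) (p 3) (p 5) (p 7)]; linarith only [h3]
  · show 0 < sg false * _; rw [sg_false, D_0231 (p 1) (p 4) (p 5) (p 7)]; linarith only [h4]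
  · show 0 < sg true * _; rw [sg_true, D_0132 (p 1) (p 5) (p 6) (p 7)]; linarith only [h5]

theorem in10065 (p : Fin 8 → E3) (h1 : D (p 0) (p 3) (p 4) (p 7) < 0) (h2 : 0 < D (p 1) (p 3) (p 4) (p 7)) (h3 : 0 < D (p 2) (p 3) (p 4) (p 7)) (h4 : D (p 3) (p 4) (p 5) (p 7) < 0) (h5 : D (p 3) (p 4) (p 6) (p 7) < 0) (h6 : ¬ Sep p X0356) : False := by
  apply h6
  refine sep_cert5 p X0356 3 4 7 0 1 2 5 6 (by decide) (1) ?_ ?_ ?_ ?_ ?_ ?_
  · rw [D_1230 (p 0) (p 3) (p 4) (p 7)]; exact neg_ne_zero.mpr h1.ne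
  · show 0 < sg true * _; rw [sg_true, D_1230 (p 0) (p 3) (p 4) (p 7)]; linarith only [h1]
  · show 0 < sg false * _; rw [sg_false, D_1230 (p 1) (p 3) (p 4) (p 7)]; linarith only [h2]
  · show 0 < sg false * _; rw [sg_false, D_1230 (p 2) (p 3) (p 4) (p 7)]; linarith only [h3]
  · show 0 < sg true * _; rw [sg_true, D_0132 (p 3) (p 4) (p 5) (p 7)]; linarith only [h4]
  · show 0 < sg true * _; rw [sg_true, D_0132 (p 3) (p 4) (p 6) (p 7)]; linarith only [h5]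

theorem in10066 (p : Fin 8 → E3) (h1 : 0 < D (p 0) (p 3) (p 4) (p 7)) (h2 : D (p 1) (p 3) (p 4) (p 7) < 0) (h3 : D (p 2) (p 3) (p 4) (p 7) < 0) (h4 : 0 < D (p 3) (p 4) (p 5) (p 7)) (h5 : 0 < D (p 3) (p 4) (p 6) (p 7)) (h6 : ¬ Sep p X0356) : False := by
  apply h6
  refine sep_cert5 p X0356 3 4 7 0 1 2 5 6 (by decide) (-1) ?_ ?_ ?_ ?_ ?_ ?_
  · rw [D_1230 (p 0) (p 3) (p 4) (p 7)]; exact neg_ne_zero.mpr h1.ne'
  · show 0 < sg true * _; rw [sg_true, D_1230 (p 0) (p 3) (p 4) (p 7)]; linarith only [h1]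
  · show 0 < sg false * _; rw [sg_false, D_1230 (p 1) (p 3) (p 4) (p 7)]; linarith only [h2]
  · show 0 < sg false * _; rw [sg_false, D_1230 (p 2) (p 3) (p 4) (p 7)]; linarith only [h3]
  · show 0 < sg true * _; rw [sg_true, D_0132 (p 3) (p 4) (p 5) (p 7)]; linarith only [h4]
  · show 0 < sg true * _; rw [sg_true, D_0132 (p 3) (p 4) (p 6) (p 7)]; linarith only [h5]

theorem in10070 (p : Fin 8 → E3) (h1 : 0 < D (p 0) (p 3) (p 5) (p 7)) (h2 : D (p 1) (p 3) (p 5) (p 7) < 0) (h3 : D (p 2) (p 3) (p 5) (p 7) < 0) (h4 : 0 < D (p 3) (p 4) (p 5) (p 7)) (h5 : 0 < D (p 3) (p 5) (p 6) (p 7)) (h6 : ¬ Sep p X0356) : False := by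
  apply h6
  refine sep_cert5 p X0356 3 5 7 0 1 2 4 6 (by decide) (-1) ?_ ?_ ?_ ?_ ?_ ?_
  · rw [D_1230 (p 0) (p 3) (p 5) (p 7)]; exact neg_ne_zero.mpr h1.ne'
  · show 0 < sg true * _; rw [sg_true, D_1230 (p 0) (p 3) (p 5) (p 7)]; linarith only [h1]
  · show 0 < sg false * _; rw [sg_false, D_1230 (p 1) (p 3) (p 5) (p 7)]; linarith only [h2]
  · show 0 < sg false * _; rw [sg_false, D_1230 (p 2) (p 3) (p 5) (p 7)]; linarith only [h3]
  · show 0 < sg false * _; rw [sg_false, D_0231 (p 3) (p 4) (p 5) (p 7)]; linarith only [h4]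
  · show 0 < sg true * _; rw [sg_true, D_0132 (p 3) (p 5) (p 6) (p 7)]; linarith only [h5]

theorem in10106 (p : Fin 8 → E3) (h1 : 0 < D (p 0) (p 1) (p 3) (p 5)) (h2 : 0 < D (p 0) (p 2) (p 3) (p 5)) (h3 : D (p 0) (p 3) (p 4) (p 5) < 0) (h4 : 0 < D (p 0) (p 3) (p 5) (p 6)) (h5 : D (p 0) (p 3) (p 5) (p 7) < 0) (h6 : ¬ Sep p X0357) : False := by
  apply h6
  refine sep_cert5 p X0357 0 3 5 1 2 4 6 7 (by decide) (-1) ?_ ?_ ?_ ?_ ?_ ?_
  · rw [D_0231 (p 0) (p 1) (p 3) (p 5)]; exact h1.ne'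
  · show 0 < sg false * _; rw [sg_false, D_0231 (p 0) (p 1) (p 3) (p 5)]; linarith only [h1]
  · show 0 < sg false * _; rw [sg_false, D_0231 (p 0) (p 2) (p 3) (p 5)]; linarith only [h2]
  · show 0 < sg false * _; rw [sg_false, D_0132 (p 0) (p 3) (p 4) (p 5)]; linarith only [h3]
  · show 0 < sg false * _; rw [sg_false]; linarith only [h4]
  · show 0 < sg true * _; rw [sg_true]; linarith only [h5]

theorem in10140 (p : Fin 8 → E3) (h1 : 0 < D (p 0) (p 1) (p 3) (p 7)) (h2 : 0 < D (p 1) (p 2) (p 3) (p 7)) (h3 : D (p 1) (p 3) (p 4) (p 7) < 0) (h4 : 0 < D (p 1) (p 3) (p 5) (p 7)) (h5 : D (p 1) (p 3) (p 6) (p 7) < 0) (h6 : ¬ Sep p X0357) : False := by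
  apply h6
  refine sep_cert5 p X0357 1 3 7 0 2 4 5 6 (by decide) (-1) ?_ ?_ ?_ ?_ ?_ ?_
  · rw [D_1230 (p 0) (p 1) (p 3) (p 7)]; exact neg_ne_zero.mpr h1.ne'
  · show 0 < sg true * _; rw [sg_true, D_1230 (p 0) (p 1) (p 3) (p 7)]; linarith only [h1]
  · show 0 < sg false * _; rw [sg_false, D_0231 (p 1) (p 2) (p 3) (p 7)]; linarith only [h2]
  · show 0 < sg false * _; rw [sg_false, D_0132 (p 1) (p 3) (p 4) (p 7)]; linarith only [h3]
  · show 0 < sg true * _; rw [sg_true, D_0132 (p 1) (p 3) (p 5) (p 7)]; linarith only [h4]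
  · show 0 < sg false * _; rw [sg_false, D_0132 (p 1) (p 3) (p 6) (p 7)]; linarith only [h5]

theorem in10177 (p : Fin 8 → E3) (h1 : D (p 0) (p 3) (p 4) (p 7) < 0) (h2 : 0 < D (p 1) (p 3) (p 4) (p 7)) (h3 : 0 < D (p 2) (p 3) (p 4) (p 7)) (h4 : D (p 3) (p 4) (p 5) (p 7) < 0) (h5 : 0 < D (p 3) (p 4) (p 6) (p 7)) (h6 : ¬ Sep p X0357) : False := by
  apply h6
  refine sep_cert5 p X0357 3 4 7 0 1 2 5 6 (by decide) (1) ?_ ?_ ?_ ?_ ?_ ?_
  · rw [D_1230 (p 0) (p 3) (p 4) (p 7)]; exact neg_ne_zero.mpr h1.ne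
  · show 0 < sg true * _; rw [sg_true, D_1230 (p 0) (p 3) (p 4) (p 7)]; linarith only [h1]
  · show 0 < sg false * _; rw [sg_false, D_1230 (p 1) (p 3) (p 4) (p 7)]; linarith only [h2]
  · show 0 < sg false * _; rw [sg_false, D_1230 (p 2) (p 3) (p 4) (p 7)]; linarith only [h3]
  · show 0 < sg true * _; rw [sg_true, D_0132 (p 3) (p 4) (p 5) (p 7)]; linarith only [h4]
  · show 0 < sg false * _; rw [sg_false, D_0132 (p 3) (p 4) (p 6) (p 7)]; linarith only [h5]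

theorem in10178 (p : Fin 8 → E3) (h1 : 0 < D (p 0) (p 3) (p 4) (p 7)) (h2 : D (p 1) (p 3) (p 4) (p 7) < 0) (h3 : D (p 2) (p 3) (p 4) (p 7) < 0) (h4 : 0 < D (p 3) (p 4) (p 5) (p 7)) (h5 : D (p 3) (p 4) (p 6) (p 7) < 0) (h6 : ¬ Sep p X0357) : False := by
  apply h6
  refine sep_cert5 p X0357 3 4 7 0 1 2 5 6 (by decide) (-1) ?_ ?_ ?_ ?_ ?_ ?_
  · rw [D_1230 (p 0) (p 3) (p 4) (p 7)]; exact neg_ne_zero.mpr h1.ne'
  · show 0 < sg true * _; rw [sg_true, D_1230 (p 0) (p 3) (p 4) (p 7)]; linarith only [h1]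
  · show 0 < sg false * _; rw [sg_false, D_1230 (p 1) (p 3) (p 4) (p 7)]; linarith only [h2]
  · show 0 < sg false * _; rw [sg_false, D_1230 (p 2) (p 3) (p 4) (p 7)]; linarith only [h3]
  · show 0 < sg true * _; rw [sg_true, D_0132 (p 3) (p 4) (p 5) (p 7)]; linarith only [h4]
  · show 0 < sg false * _; rw [sg_false, D_0132 (p 3) (p 4) (p 6) (p 7)]; linarith only [h5]

theorem in10182 (p : Fin 8 → E3) (h1 : 0 < D (p 0) (p 3) (p 5) (p 7)) (h2 : D (p 1) (p 3) (p 5) (p 7) < 0) (h3 : D (p 2) (p 3) (p 5) (p 7) < 0) (h4 : 0 < D (p 3) (p 4) (p 5) (p 7)) (h5 : D (p 3) (p 5) (p 6) (p 7) < 0) (h6 : ¬ Sep p X0357) : False := by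
  apply h6
  refine sep_cert5 p X0357 3 5 7 0 1 2 4 6 (by decide) (-1) ?_ ?_ ?_ ?_ ?_ ?_
  · rw [D_1230 (p 0) (p 3) (p 5) (p 7)]; exact neg_ne_zero.mpr h1.ne'
  · show 0 < sg true * _; rw [sg_true, D_1230 (p 0) (p 3) (p 5) (p 7)]; linarith only [h1]
  · show 0 < sg false * _; rw [sg_false, D_1230 (p 1) (p 3) (p 5) (p 7)]; linarith only [h2]
  · show 0 < sg false * _; rw [sg_false, D_1230 (p 2) (p 3) (p 5) (p 7)]; linarith only [h3]
  · show 0 < sg false * _; rw [sg_false, D_0231 (p 3) (p 4) (p 5) (p 7)]; linarith only [h4]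
  · show 0 < sg false * _; rw [sg_false, D_0132 (p 3) (p 5) (p 6) (p 7)]; linarith only [h5]

theorem in10252 (p : Fin 8 → E3) (h1 : 0 < D (p 0) (p 1) (p 3) (p 7)) (h2 : 0 < D (p 1) (p 2) (p 3) (p 7)) (h3 : D (p 1) (p 3) (p 4) (p 7) < 0) (h4 : D (p 1) (p 3) (p 5) (p 7) < 0) (h5 : 0 < D (p 1) (p 3) (p 6) (p 7)) (h6 : ¬ Sep p X0367) : False := by
  apply h6
  refine sep_cert5 p X0367 1 3 7 0 2 4 5 6 (by decide) (-1) ?_ ?_ ?_ ?_ ?_ ?_
  · rw [D_1230 (p 0) (p 1) (p 3) (p 7)]; exact neg_ne_zero.mpr h1.ne'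
  · show 0 < sg true * _; rw [sg_true, D_1230 (p 0) (p 1) (p 3) (p 7)]; linarith only [h1]
  · show 0 < sg false * _; rw [sg_false, D_0231 (p 1) (p 2) (p 3) (p 7)]; linarith only [h2]
  · show 0 < sg false * _; rw [sg_false, D_0132 (p 1) (p 3) (p 4) (p 7)]; linarith only [h3]
  · show 0 < sg false * _; rw [sg_false, D_0132 (p 1) (p 3) (p 5) (p 7)]; linarith only [h4]
  · show 0 < sg true * _; rw [sg_true, D_0132 (p 1) (p 3) (p 6) (p 7)]; linarith only [h5]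

theorem in10356 (p : Fin 8 → E3) (h1 : 0 < D (p 0) (p 1) (p 2) (p 7)) (h2 : D (p 1) (p 2) (p 3) (p 7) < 0) (h3 : 0 < D (p 1) (p 2) (p 4) (p 7)) (h4 : 0 < D (p 1) (p 2) (p 5) (p 7)) (h5 : 0 < D (p 1) (p 2) (p 6) (p 7)) (h6 : ¬ Sep p X0456) : False := by
  apply h6
  refine sep_cert5 p X0456 1 2 7 0 3 4 5 6 (by decide) (-1) ?_ ?_ ?_ ?_ ?_ ?_
  · rw [D_1230 (p 0) (p 1) (p 2) (p 7)]; exact neg_ne_zero.mpr h1.ne'
  · show 0 < sg true * _; rw [sg_true, D_1230 (p 0) (p 1) (p 2) (p 7)]; linarith only [h1]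
  · show 0 < sg false * _; rw [sg_false, D_0132 (p 1) (p 2) (p 3) (p 7)]; linarith only [h2]
  · show 0 < sg true * _; rw [sg_true, D_0132 (p 1) (p 2) (p 4) (p 7)]; linarith only [h3]
  · show 0 < sg true * _; rw [sg_true, D_0132 (p 1) (p 2) (p 5) (p 7)]; linarith only [h4]
  · show 0 < sg true * _; rw [sg_true, D_0132 (p 1) (p 2) (p 6) (p 7)]; linarith only [h5]

theorem in10364 (p : Fin 8 → E3) (h1 : 0 < D (p 0) (p 1) (p 3) (p 7)) (h2 : 0 < D (p 1) (p 2) (p 3) (p 7)) (h3 : 0 < D (p 1) (p 3) (p 4) (p 7)) (h4 : 0 < D (p 1) (p 3) (p 5) (p 7)) (h5 : 0 < D (p 1) (p 3) (p 6) (p 7)) (h6 : ¬ Sep p X0456) : False := by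
  apply h6
  refine sep_cert5 p X0456 1 3 7 0 2 4 5 6 (by decide) (-1) ?_ ?_ ?_ ?_ ?_ ?_
  · rw [D_1230 (p 0) (p 1) (p 3) (p 7)]; exact neg_ne_zero.mpr h1.ne'
  · show 0 < sg true * _; rw [sg_true, D_1230 (p 0) (p 1) (p 3) (p 7)]; linarith only [h1]
  · show 0 < sg false * _; rw [sg_false, D_0231 (p 1) (p 2) (p 3) (p 7)]; linarith only [h2]
  · show 0 < sg true * _; rw [sg_true, D_0132 (p 1) (p 3) (p 4) (p 7)]; linarith only [h3]
  · show 0 < sg true * _; rw [sg_true, D_0132 (p 1) (p 3) (p 5) (p 7)]; linarith only [h4]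
  · show 0 < sg true * _; rw [sg_true, D_0132 (p 1) (p 3) (p 6) (p 7)]; linarith only [h5]

theorem in10374 (p : Fin 8 → E3) (h1 : 0 < D (p 0) (p 1) (p 5) (p 7)) (h2 : 0 < D (p 1) (p 2) (p 5) (p 7)) (h3 : 0 < D (p 1) (p 3) (p 5) (p 7)) (h4 : D (p 1) (p 4) (p 5) (p 7) < 0) (h5 : 0 < D (p 1) (p 5) (p 6) (p 7)) (h6 : ¬ Sep p X0456) : False := by
  apply h6
  refine sep_cert5 p X0456 1 5 7 0 2 3 4 6 (by decide) (-1) ?_ ?_ ?_ ?_ ?_ ?_
  · rw [D_1230 (p 0) (p 1) (p 5) (p 7)]; exact neg_ne_zero.mpr h1.ne'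
  · show 0 < sg true * _; rw [sg_true, D_1230 (p 0) (p 1) (p 5) (p 7)]; linarith only [h1]
  · show 0 < sg false * _; rw [sg_false, D_0231 (p 1) (p 2) (p 5) (p 7)]; linarith only [h2]
  · show 0 < sg false * _; rw [sg_false, D_0231 (p 1) (p 3) (p 5) (p 7)]; linarith only [h3]
  · show 0 < sg true * _; rw [sg_true, D_0231 (p 1) (p 4) (p 5) (p 7)]; linarith only [h4]
  · show 0 < sg true * _; rw [sg_true, D_0132 (p 1) (p 5) (p 6) (p 7)]; linarith only [h5]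

theorem in10476 (p : Fin 8 → E3) (h1 : 0 < D (p 0) (p 1) (p 3) (p 7)) (h2 : 0 < D (p 1) (p 2) (p 3) (p 7)) (h3 : 0 < D (p 1) (p 3) (p 4) (p 7)) (h4 : 0 < D (p 1) (p 3) (p 5) (p 7)) (h5 : D (p 1) (p 3) (p 6) (p 7) < 0) (h6 : ¬ Sep p X0457) : False := by
  apply h6
  refine sep_cert5 p X0457 1 3 7 0 2 4 5 6 (by decide) (-1) ?_ ?_ ?_ ?_ ?_ ?_
  · rw [D_1230 (p 0) (p 1) (p 3) (p 7)]; exact neg_ne_zero.mpr h1.ne'
  · show 0 < sg true * _; rw [sg_true, D_1230 (p 0) (p 1) (p 3) (p 7)]; linarith only [h1]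
  · show 0 < sg false * _; rw [sg_false, D_0231 (p 1) (p 2) (p 3) (p 7)]; linarith only [h2]
  · show 0 < sg true * _; rw [sg_true, D_0132 (p 1) (p 3) (p 4) (p 7)]; linarith only [h3]
  · show 0 < sg true * _; rw [sg_true, D_0132 (p 1) (p 3) (p 5) (p 7)]; linarith only [h4]
  · show 0 < sg false * _; rw [sg_false, D_0132 (p 1) (p 3) (p 6) (p 7)]; linarith only [h5]

theorem in10584 (p : Fin 8 → E3) (h1 : 0 < D (p 0) (p 1) (p 3) (p 5)) (h2 : 0 < D (p 1) (p 2) (p 3) (p 5)) (h3 : 0 < D (p 1) (p 3) (p 4) (p 5)) (h4 : D (p 1) (p 3) (p 5) (p 6) < 0) (h5 : D (p 1) (p 3) (p 5) (p 7) < 0) (h6 : ¬ Sep p X0467) : False := by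
  apply h6
  refine sep_cert5 p X0467 1 3 5 0 2 4 6 7 (by decide) (-1) ?_ ?_ ?_ ?_ ?_ ?_
  · rw [D_1230 (p 0) (p 1) (p 3) (p 5)]; exact neg_ne_zero.mpr h1.ne'
  · show 0 < sg true * _; rw [sg_true, D_1230 (p 0) (p 1) (p 3) (p 5)]; linarith only [h1]
  · show 0 < sg false * _; rw [sg_false, D_0231 (p 1) (p 2) (p 3) (p 5)]; linarith only [h2]
  · show 0 < sg true * _; rw [sg_true, D_0132 (p 1) (p 3) (p 4) (p 5)]; linarith only [h3]
  · show 0 < sg true * _; rw [sg_true]; linarith only [h4]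
  · show 0 < sg true * _; rw [sg_true]; linarith only [h5]

theorem in10598 (p : Fin 8 → E3) (h1 : 0 < D (p 0) (p 1) (p 5) (p 7)) (h2 : 0 < D (p 1) (p 2) (p 5) (p 7)) (h3 : 0 < D (p 1) (p 3) (p 5) (p 7)) (h4 : D (p 1) (p 4) (p 5) (p 7) < 0) (h5 : 0 < D (p 1) (p 5) (p 6) (p 7)) (h6 : ¬ Sep p X0467) : False := by
  apply h6
  refine sep_cert5 p X0467 1 5 7 0 2 3 4 6 (by decide) (-1) ?_ ?_ ?_ ?_ ?_ ?_
  · rw [D_1230 (p 0) (p 1) (p 5) (p 7)]; exact neg_ne_zero.mpr h1.ne'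
  · show 0 < sg true * _; rw [sg_true, D_1230 (p 0) (p 1) (p 5) (p 7)]; linarith only [h1]
  · show 0 < sg false * _; rw [sg_false, D_0231 (p 1) (p 2) (p 5) (p 7)]; linarith only [h2]
  · show 0 < sg false * _; rw [sg_false, D_0231 (p 1) (p 3) (p 5) (p 7)]; linarith only [h3]
  · show 0 < sg true * _; rw [sg_true, D_0231 (p 1) (p 4) (p 5) (p 7)]; linarith only [h4]
  · show 0 < sg true * _; rw [sg_true, D_0132 (p 1) (p 5) (p 6) (p 7)]; linarith only [h5]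

theorem in10645 (p : Fin 8 → E3) (h1 : 0 < D (p 0) (p 1) (p 2) (p 4)) (h2 : 0 < D (p 0) (p 1) (p 3) (p 4)) (h3 : 0 < D (p 0) (p 1) (p 4) (p 5)) (h4 : 0 < D (p 0) (p 1) (p 4) (p 6)) (h5 : 0 < D (p 0) (p 1) (p 4) (p 7)) (h6 : ¬ Sep p X0567) : False := by
  apply h6
  refine sep_cert5 p X0567 0 1 4 2 3 5 6 7 (by decide) (1) ?_ ?_ ?_ ?_ ?_ ?_
  · rw [D_0132 (p 0) (p 1) (p 2) (p 4)]; exact neg_ne_zero.mpr h1.ne'
  · show 0 < sg false * _; rw [sg_false, D_0132 (p 0) (p 1) (p 2) (p 4)]; linarith only [h1]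
  · show 0 < sg false * _; rw [sg_false, D_0132 (p 0) (p 1) (p 3) (p 4)]; linarith only [h2]
  · show 0 < sg true * _; rw [sg_true]; linarith only [h3]
  · show 0 < sg true * _; rw [sg_true]; linarith only [h4]
  · show 0 < sg true * _; rw [sg_true]; linarith only [h5]

theorem core (p : Fin 8 → E3)
    (hnz : ∀ i j k l : Fin 8, i < j → j < k → k < l → D (p i) (p j) (p k) (p l) ≠ 0)
    (hull : ∀ i j : Fin 8, 2 ≤ i → i < j → 0 < D (p 0) (p 1) (p i) (p j))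
    (htr : ∀ A B C : Fin 8 → Bool, Function.Injective (fun y => (A y, B y, C y)) →
      Sep p A → Sep p B → Sep p C → False) : False := by
  have z1 := hnz 0 1 2 3 (by decide) (by decide) (by decide)
  have z2 := hnz 0 1 2 4 (by decide) (by decide) (by decide)
  have z3 := hnz 0 1 2 5 (by decide) (by decide) (by decide)
  have z4 := hnz 0 1 2 6 (by decide) (by decide) (by decide)
  have z5 := hnz 0 1 2 7 (by decide) (by decide) (by decide)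
  have z6 := hnz 0 1 3 4 (by decide) (by decide) (by decide)
  have z7 := hnz 0 1 3 5 (by decide) (by decide) (by decide)
  have z8 := hnz 0 1 3 6 (by decide) (by decide) (by decide)
  have z9 := hnz 0 1 3 7 (by decide) (by decide) (by decide)
  have z10 := hnz 0 1 4 5 (by decide) (by decide) (by decide)
  have z11 := hnz 0 1 4 6 (by decide) (by decide) (by decide)
  have z12 := hnz 0 1 4 7 (by decide) (by decide) (by decide)
  have z13 := hnz 0 1 5 6 (by decide) (by decide) (by decide)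
  have z14 := hnz 0 1 5 7 (by decide) (by decide) (by decide)
  have z15 := hnz 0 1 6 7 (by decide) (by decide) (by decide)
  have z16 := hnz 0 2 3 4 (by decide) (by decide) (by decide)
  have z17 := hnz 0 2 3 5 (by decide) (by decide) (by decide)
  have z18 := hnz 0 2 3 6 (by decide) (by decide) (by decide)
  have z19 := hnz 0 2 3 7 (by decide) (by decide) (by decide)
  have z20 := hnz 0 2 4 5 (by decide) (by decide) (by decide)
  have z21 := hnz 0 2 4 6 (by decide) (by decide) (by decide)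
  have z22 := hnz 0 2 4 7 (by decide) (by decide) (by decide)
  have z23 := hnz 0 2 5 6 (by decide) (by decide) (by decide)
  have z24 := hnz 0 2 5 7 (by decide) (by decide) (by decide)
  have z25 := hnz 0 2 6 7 (by decide) (by decide) (by decide)
  have z26 := hnz 0 3 4 5 (by decide) (by decide) (by decide)
  have z27 := hnz 0 3 4 6 (by decide) (by decide) (by decide)
  have z28 := hnz 0 3 4 7 (by decide) (by decide) (by decide)
  have z29 := hnz 0 3 5 6 (by decide) (by decide) (by decide)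
  have z30 := hnz 0 3 5 7 (by decide) (by decide) (by decide)
  have z31 := hnz 0 3 6 7 (by decide) (by decide) (by decide)
  have z32 := hnz 0 4 5 6 (by decide) (by decide) (by decide)
  have z33 := hnz 0 4 5 7 (by decide) (by decide) (by decide)
  have z34 := hnz 0 4 6 7 (by decide) (by decide) (by decide)
  have z35 := hnz 0 5 6 7 (by decide) (by decide) (by decide)
  have z36 := hnz 1 2 3 4 (by decide) (by decide) (by decide)
  have z37 := hnz 1 2 3 5 (by decide) (by decide) (by decide)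
  have z38 := hnz 1 2 3 6 (by decide) (by decide) (by decide)
  have z39 := hnz 1 2 3 7 (by decide) (by decide) (by decide)
  have z40 := hnz 1 2 4 5 (by decide) (by decide) (by decide)
  have z41 := hnz 1 2 4 6 (by decide) (by decide) (by decide)
  have z42 := hnz 1 2 4 7 (by decide) (by decide) (by decide)
  have z43 := hnz 1 2 5 6 (by decide) (by decide) (by decide)
  have z44 := hnz 1 2 5 7 (by decide) (by decide) (by decide)
  have z45 := hnz 1 2 6 7 (by decide) (by decide) (by decide)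
  have z46 := hnz 1 3 4 5 (by decide) (by decide) (by decide)
  have z47 := hnz 1 3 4 6 (by decide) (by decide) (by decide)
  have z48 := hnz 1 3 4 7 (by decide) (by decide) (by decide)
  have z49 := hnz 1 3 5 6 (by decide) (by decide) (by decide)
  have z50 := hnz 1 3 5 7 (by decide) (by decide) (by decide)
  have z51 := hnz 1 3 6 7 (by decide) (by decide) (by decide)
  have z52 := hnz 1 4 5 6 (by decide) (by decide) (by decide)
  have z53 := hnz 1 4 5 7 (by decide) (by decide) (by decide)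
  have z54 := hnz 1 4 6 7 (by decide) (by decide) (by decide)
  have z55 := hnz 1 5 6 7 (by decide) (by decide) (by decide)
  have z56 := hnz 2 3 4 5 (by decide) (by decide) (by decide)
  have z57 := hnz 2 3 4 6 (by decide) (by decide) (by decide)
  have z58 := hnz 2 3 4 7 (by decide) (by decide) (by decide)
  have z59 := hnz 2 3 5 6 (by decide) (by decide) (by decide)
  have z60 := hnz 2 3 5 7 (by decide) (by decide) (by decide)
  have z61 := hnz 2 3 6 7 (by decide) (by decide) (by decide)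
  have z62 := hnz 2 4 5 6 (by decide) (by decide) (by decide)
  have z63 := hnz 2 4 5 7 (by decide) (by decide) (by decide)
  have z64 := hnz 2 4 6 7 (by decide) (by decide) (by decide)
  have z65 := hnz 2 5 6 7 (by decide) (by decide) (by decide)
  have z66 := hnz 3 4 5 6 (by decide) (by decide) (by decide)
  have z67 := hnz 3 4 5 7 (by decide) (by decide) (by decide)
  have z68 := hnz 3 4 6 7 (by decide) (by decide) (by decide)
  have z69 := hnz 3 5 6 7 (by decide) (by decide) (by decide)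
  have z70 := hnz 4 5 6 7 (by decide) (by decide) (by decide)
  have c986 : (0 < D (p 0) (p 1) (p 2) (p 5)) → (0 < D (p 0) (p 3) (p 5) (p 6)) → (0 < D (p 0) (p 1) (p 3) (p 5)) → (D (p 0) (p 2) (p 5) (p 6) < 0) → (0 < D (p 0) (p 1) (p 5) (p 6)) → (0 < D (p 0) (p 2) (p 3) (p 5)) → False := in986 p
  have c1002 : (0 < D (p 0) (p 1) (p 2) (p 5)) → (0 < D (p 0) (p 3) (p 5) (p 7)) → (0 < D (p 0) (p 1) (p 3) (p 5)) → (D (p 0) (p 2) (p 5) (p 7) < 0) → (0 < D (p 0) (p 1) (p 5) (p 7)) → (0 < D (p 0) (p 2) (p 3) (p 5)) → False := in1002 p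
  have c1965 : (0 < D (p 0) (p 1) (p 2) (p 3)) → (0 < D (p 1) (p 3) (p 4) (p 7)) → (0 < D (p 0) (p 1) (p 3) (p 4)) → (D (p 1) (p 2) (p 3) (p 7) < 0) → (0 < D (p 0) (p 1) (p 3) (p 7)) → (0 < D (p 1) (p 2) (p 3) (p 4)) → False := in1965 p
  have c1989 : (0 < D (p 0) (p 1) (p 2) (p 3)) → (D (p 1) (p 3) (p 5) (p 7) < 0) → (0 < D (p 0) (p 1) (p 3) (p 5)) → (0 < D (p 1) (p 2) (p 3) (p 7)) → (0 < D (p 0) (p 1) (p 3) (p 7)) → (D (p 1) (p 2) (p 3) (p 5) < 0) → False := in1989 p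
  have c1997 : (0 < D (p 0) (p 1) (p 2) (p 3)) → (0 < D (p 1) (p 3) (p 5) (p 7)) → (0 < D (p 0) (p 1) (p 3) (p 5)) → (D (p 1) (p 2) (p 3) (p 7) < 0) → (0 < D (p 0) (p 1) (p 3) (p 7)) → (0 < D (p 1) (p 2) (p 3) (p 5)) → False := in1997 p
  have c2013 : (0 < D (p 0) (p 1) (p 2) (p 3)) → (0 < D (p 1) (p 3) (p 6) (p 7)) → (0 < D (p 0) (p 1) (p 3) (p 6)) → (D (p 1) (p 2) (p 3) (p 7) < 0) → (0 < D (p 0) (p 1) (p 3) (p 7)) → (0 < D (p 1) (p 2) (p 3) (p 6)) → False := in2013 p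
  have c2110 : (0 < D (p 1) (p 2) (p 3) (p 4)) → (0 < D (p 1) (p 3) (p 5) (p 7)) → (D (p 1) (p 2) (p 3) (p 5) < 0) → (0 < D (p 1) (p 3) (p 4) (p 7)) → (0 < D (p 1) (p 2) (p 3) (p 7)) → (0 < D (p 1) (p 3) (p 4) (p 5)) → False := in2110 p
  have c2237 : (0 < D (p 0) (p 1) (p 2) (p 4)) → (0 < D (p 1) (p 4) (p 5) (p 7)) → (0 < D (p 0) (p 1) (p 4) (p 5)) → (D (p 1) (p 2) (p 4) (p 7) < 0) → (0 < D (p 0) (p 1) (p 4) (p 7)) → (0 < D (p 1) (p 2) (p 4) (p 5)) → False := in2237 p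
  have c2277 : (0 < D (p 0) (p 1) (p 3) (p 4)) → (D (p 1) (p 4) (p 5) (p 7) < 0) → (0 < D (p 0) (p 1) (p 4) (p 5)) → (0 < D (p 1) (p 3) (p 4) (p 7)) → (0 < D (p 0) (p 1) (p 4) (p 7)) → (D (p 1) (p 3) (p 4) (p 5) < 0) → False := in2277 p
  have c2533 : (0 < D (p 0) (p 1) (p 3) (p 5)) → (D (p 1) (p 5) (p 6) (p 7) < 0) → (0 < D (p 0) (p 1) (p 5) (p 6)) → (0 < D (p 1) (p 3) (p 5) (p 7)) → (0 < D (p 0) (p 1) (p 5) (p 7)) → (D (p 1) (p 3) (p 5) (p 6) < 0) → False := in2533 p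
  have c2976 : (0 < D (p 0) (p 1) (p 2) (p 7)) → (0 < D (p 1) (p 5) (p 6) (p 7)) → (0 < D (p 0) (p 1) (p 5) (p 7)) → (D (p 1) (p 2) (p 6) (p 7) < 0) → (0 < D (p 0) (p 1) (p 6) (p 7)) → (0 < D (p 1) (p 2) (p 5) (p 7)) → False := in2976 p
  have c3000 : (0 < D (p 0) (p 1) (p 3) (p 7)) → (D (p 1) (p 4) (p 6) (p 7) < 0) → (0 < D (p 0) (p 1) (p 4) (p 7)) → (0 < D (p 1) (p 3) (p 6) (p 7)) → (0 < D (p 0) (p 1) (p 6) (p 7)) → (D (p 1) (p 3) (p 4) (p 7) < 0) → False := in3000 p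
  have c3008 : (0 < D (p 0) (p 1) (p 3) (p 7)) → (0 < D (p 1) (p 4) (p 6) (p 7)) → (0 < D (p 0) (p 1) (p 4) (p 7)) → (D (p 1) (p 3) (p 6) (p 7) < 0) → (0 < D (p 0) (p 1) (p 6) (p 7)) → (0 < D (p 1) (p 3) (p 4) (p 7)) → False := in3008 p
  have c3016 : (0 < D (p 0) (p 1) (p 3) (p 7)) → (D (p 1) (p 5) (p 6) (p 7) < 0) → (0 < D (p 0) (p 1) (p 5) (p 7)) → (0 < D (p 1) (p 3) (p 6) (p 7)) → (0 < D (p 0) (p 1) (p 6) (p 7)) → (D (p 1) (p 3) (p 5) (p 7) < 0) → False := in3016 p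
  have c3024 : (0 < D (p 0) (p 1) (p 3) (p 7)) → (0 < D (p 1) (p 5) (p 6) (p 7)) → (0 < D (p 0) (p 1) (p 5) (p 7)) → (D (p 1) (p 3) (p 6) (p 7) < 0) → (0 < D (p 0) (p 1) (p 6) (p 7)) → (0 < D (p 1) (p 3) (p 5) (p 7)) → False := in3024 p
  have c3105 : (0 < D (p 1) (p 3) (p 4) (p 7)) → (0 < D (p 1) (p 5) (p 6) (p 7)) → (0 < D (p 1) (p 3) (p 5) (p 7)) → (D (p 1) (p 4) (p 6) (p 7) < 0) → (0 < D (p 1) (p 3) (p 6) (p 7)) → (0 < D (p 1) (p 4) (p 5) (p 7)) → False := in3105 p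
  have c4593 : (0 < D (p 0) (p 1) (p 3) (p 5)) → (0 < D (p 2) (p 3) (p 5) (p 7)) → (0 < D (p 0) (p 2) (p 3) (p 5)) → (D (p 1) (p 3) (p 5) (p 7) < 0) → (0 < D (p 0) (p 3) (p 5) (p 7)) → (0 < D (p 1) (p 2) (p 3) (p 5)) → False := in4593 p
  have c4604 : (0 < D (p 0) (p 1) (p 3) (p 5)) → (D (p 2) (p 3) (p 5) (p 7) < 0) → (D (p 0) (p 2) (p 3) (p 5) < 0) → (D (p 1) (p 3) (p 5) (p 7) < 0) → (D (p 0) (p 3) (p 5) (p 7) < 0) → (0 < D (p 1) (p 2) (p 3) (p 5)) → False := in4604 p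
  have c4625 : (0 < D (p 0) (p 1) (p 3) (p 5)) → (D (p 3) (p 4) (p 5) (p 7) < 0) → (D (p 0) (p 3) (p 4) (p 5) < 0) → (D (p 1) (p 3) (p 5) (p 7) < 0) → (0 < D (p 0) (p 3) (p 5) (p 7)) → (D (p 1) (p 3) (p 4) (p 5) < 0) → False := in4625 p
  have c4636 : (0 < D (p 0) (p 1) (p 3) (p 5)) → (0 < D (p 3) (p 4) (p 5) (p 7)) → (0 < D (p 0) (p 3) (p 4) (p 5)) → (D (p 1) (p 3) (p 5) (p 7) < 0) → (D (p 0) (p 3) (p 5) (p 7) < 0) → (D (p 1) (p 3) (p 4) (p 5) < 0) → False := in4636 p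
  have c6836 : (0 < D (p 0) (p 1) (p 2) (p 3)) → (0 < D (p 0) (p 1) (p 3) (p 4)) → (0 < D (p 0) (p 1) (p 3) (p 5)) → (0 < D (p 0) (p 1) (p 3) (p 6)) → (0 < D (p 0) (p 1) (p 3) (p 7)) → (¬ Sep p X0123) → False := in6836 p
  have c6969 : (0 < D (p 0) (p 1) (p 3) (p 5)) → (0 < D (p 0) (p 2) (p 3) (p 5)) → (D (p 0) (p 3) (p 4) (p 5) < 0) → (D (p 0) (p 3) (p 5) (p 6) < 0) → (D (p 0) (p 3) (p 5) (p 7) < 0) → (¬ Sep p X0124) → False := in6969 p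
  have c6998 : (0 < D (p 0) (p 1) (p 3) (p 4)) → (D (p 1) (p 2) (p 3) (p 4) < 0) → (0 < D (p 1) (p 3) (p 4) (p 5)) → (0 < D (p 1) (p 3) (p 4) (p 6)) → (0 < D (p 1) (p 3) (p 4) (p 7)) → (¬ Sep p X0124) → False := in6998 p
  have c7004 : (0 < D (p 0) (p 1) (p 3) (p 7)) → (D (p 1) (p 2) (p 3) (p 7) < 0) → (0 < D (p 1) (p 3) (p 4) (p 7)) → (D (p 1) (p 3) (p 5) (p 7) < 0) → (D (p 1) (p 3) (p 6) (p 7) < 0) → (¬ Sep p X0124) → False := in7004 p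
  have c7041 : (D (p 0) (p 3) (p 4) (p 7) < 0) → (D (p 1) (p 3) (p 4) (p 7) < 0) → (D (p 2) (p 3) (p 4) (p 7) < 0) → (0 < D (p 3) (p 4) (p 5) (p 7)) → (0 < D (p 3) (p 4) (p 6) (p 7)) → (¬ Sep p X0124) → False := in7041 p
  have c7042 : (0 < D (p 0) (p 3) (p 4) (p 7)) → (0 < D (p 1) (p 3) (p 4) (p 7)) → (0 < D (p 2) (p 3) (p 4) (p 7)) → (D (p 3) (p 4) (p 5) (p 7) < 0) → (D (p 3) (p 4) (p 6) (p 7) < 0) → (¬ Sep p X0124) → False := in7042 p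
  have c7045 : (D (p 0) (p 3) (p 5) (p 7) < 0) → (D (p 1) (p 3) (p 5) (p 7) < 0) → (D (p 2) (p 3) (p 5) (p 7) < 0) → (0 < D (p 3) (p 4) (p 5) (p 7)) → (0 < D (p 3) (p 5) (p 6) (p 7)) → (¬ Sep p X0124) → False := in7045 p
  have c7081 : (0 < D (p 0) (p 1) (p 3) (p 5)) → (0 < D (p 0) (p 2) (p 3) (p 5)) → (0 < D (p 0) (p 3) (p 4) (p 5)) → (D (p 0) (p 3) (p 5) (p 6) < 0) → (D (p 0) (p 3) (p 5) (p 7) < 0) → (¬ Sep p X0125) → False := in7081 p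
  have c7112 : (0 < D (p 0) (p 1) (p 3) (p 5)) → (D (p 1) (p 2) (p 3) (p 5) < 0) → (D (p 1) (p 3) (p 4) (p 5) < 0) → (0 < D (p 1) (p 3) (p 5) (p 6)) → (0 < D (p 1) (p 3) (p 5) (p 7)) → (¬ Sep p X0125) → False := in7112 p
  have c7116 : (0 < D (p 0) (p 1) (p 3) (p 7)) → (D (p 1) (p 2) (p 3) (p 7) < 0) → (D (p 1) (p 3) (p 4) (p 7) < 0) → (0 < D (p 1) (p 3) (p 5) (p 7)) → (D (p 1) (p 3) (p 6) (p 7) < 0) → (¬ Sep p X0125) → False := in7116 p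
  have c7157 : (D (p 0) (p 3) (p 5) (p 7) < 0) → (D (p 1) (p 3) (p 5) (p 7) < 0) → (D (p 2) (p 3) (p 5) (p 7) < 0) → (D (p 3) (p 4) (p 5) (p 7) < 0) → (0 < D (p 3) (p 5) (p 6) (p 7)) → (¬ Sep p X0125) → False := in7157 p
  have c7158 : (0 < D (p 0) (p 3) (p 5) (p 7)) → (0 < D (p 1) (p 3) (p 5) (p 7)) → (0 < D (p 2) (p 3) (p 5) (p 7)) → (0 < D (p 3) (p 4) (p 5) (p 7)) → (D (p 3) (p 5) (p 6) (p 7) < 0) → (¬ Sep p X0125) → False := in7158 p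
  have c7222 : (0 < D (p 0) (p 1) (p 3) (p 4)) → (D (p 1) (p 2) (p 3) (p 4) < 0) → (0 < D (p 1) (p 3) (p 4) (p 5)) → (D (p 1) (p 3) (p 4) (p 6) < 0) → (0 < D (p 1) (p 3) (p 4) (p 7)) → (¬ Sep p X0126) → False := in7222 p
  have c7224 : (0 < D (p 0) (p 1) (p 3) (p 5)) → (D (p 1) (p 2) (p 3) (p 5) < 0) → (D (p 1) (p 3) (p 4) (p 5) < 0) → (D (p 1) (p 3) (p 5) (p 6) < 0) → (0 < D (p 1) (p 3) (p 5) (p 7)) → (¬ Sep p X0126) → False := in7224 p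
  have c7228 : (0 < D (p 0) (p 1) (p 3) (p 7)) → (D (p 1) (p 2) (p 3) (p 7) < 0) → (D (p 1) (p 3) (p 4) (p 7) < 0) → (D (p 1) (p 3) (p 5) (p 7) < 0) → (0 < D (p 1) (p 3) (p 6) (p 7)) → (¬ Sep p X0126) → False := in7228 p
  have c7265 : (D (p 0) (p 3) (p 4) (p 7) < 0) → (D (p 1) (p 3) (p 4) (p 7) < 0) → (D (p 2) (p 3) (p 4) (p 7) < 0) → (0 < D (p 3) (p 4) (p 5) (p 7)) → (D (p 3) (p 4) (p 6) (p 7) < 0) → (¬ Sep p X0126) → False := in7265 p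
  have c7266 : (0 < D (p 0) (p 3) (p 4) (p 7)) → (0 < D (p 1) (p 3) (p 4) (p 7)) → (0 < D (p 2) (p 3) (p 4) (p 7)) → (D (p 3) (p 4) (p 5) (p 7) < 0) → (0 < D (p 3) (p 4) (p 6) (p 7)) → (¬ Sep p X0126) → False := in7266 p
  have c7269 : (D (p 0) (p 3) (p 5) (p 7) < 0) → (D (p 1) (p 3) (p 5) (p 7) < 0) → (D (p 2) (p 3) (p 5) (p 7) < 0) → (D (p 3) (p 4) (p 5) (p 7) < 0) → (D (p 3) (p 5) (p 6) (p 7) < 0) → (¬ Sep p X0126) → False := in7269 p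
  have c7270 : (0 < D (p 0) (p 3) (p 5) (p 7)) → (0 < D (p 1) (p 3) (p 5) (p 7)) → (0 < D (p 2) (p 3) (p 5) (p 7)) → (0 < D (p 3) (p 4) (p 5) (p 7)) → (0 < D (p 3) (p 5) (p 6) (p 7)) → (¬ Sep p X0126) → False := in7270 p
  have c7305 : (0 < D (p 0) (p 1) (p 3) (p 5)) → (0 < D (p 0) (p 2) (p 3) (p 5)) → (0 < D (p 0) (p 3) (p 4) (p 5)) → (D (p 0) (p 3) (p 5) (p 6) < 0) → (0 < D (p 0) (p 3) (p 5) (p 7)) → (¬ Sep p X0127) → False := in7305 p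
  have c7340 : (0 < D (p 0) (p 1) (p 3) (p 7)) → (D (p 1) (p 2) (p 3) (p 7) < 0) → (D (p 1) (p 3) (p 4) (p 7) < 0) → (D (p 1) (p 3) (p 5) (p 7) < 0) → (D (p 1) (p 3) (p 6) (p 7) < 0) → (¬ Sep p X0127) → False := in7340 p
  have c7417 : (0 < D (p 0) (p 1) (p 3) (p 5)) → (D (p 0) (p 2) (p 3) (p 5) < 0) → (D (p 0) (p 3) (p 4) (p 5) < 0) → (D (p 0) (p 3) (p 5) (p 6) < 0) → (D (p 0) (p 3) (p 5) (p 7) < 0) → (¬ Sep p X0134) → False := in7417 p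
  have c7446 : (0 < D (p 0) (p 1) (p 3) (p 4)) → (0 < D (p 1) (p 2) (p 3) (p 4)) → (0 < D (p 1) (p 3) (p 4) (p 5)) → (0 < D (p 1) (p 3) (p 4) (p 6)) → (0 < D (p 1) (p 3) (p 4) (p 7)) → (¬ Sep p X0134) → False := in7446 p
  have c7448 : (0 < D (p 0) (p 1) (p 3) (p 5)) → (0 < D (p 1) (p 2) (p 3) (p 5)) → (0 < D (p 1) (p 3) (p 4) (p 5)) → (0 < D (p 1) (p 3) (p 5) (p 6)) → (0 < D (p 1) (p 3) (p 5) (p 7)) → (¬ Sep p X0134) → False := in7448 p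
  have c7452 : (0 < D (p 0) (p 1) (p 3) (p 7)) → (0 < D (p 1) (p 2) (p 3) (p 7)) → (0 < D (p 1) (p 3) (p 4) (p 7)) → (D (p 1) (p 3) (p 5) (p 7) < 0) → (D (p 1) (p 3) (p 6) (p 7) < 0) → (¬ Sep p X0134) → False := in7452 p
  have c7489 : (D (p 0) (p 3) (p 4) (p 7) < 0) → (D (p 1) (p 3) (p 4) (p 7) < 0) → (0 < D (p 2) (p 3) (p 4) (p 7)) → (0 < D (p 3) (p 4) (p 5) (p 7)) → (0 < D (p 3) (p 4) (p 6) (p 7)) → (¬ Sep p X0134) → False := in7489 p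
  have c7490 : (0 < D (p 0) (p 3) (p 4) (p 7)) → (0 < D (p 1) (p 3) (p 4) (p 7)) → (D (p 2) (p 3) (p 4) (p 7) < 0) → (D (p 3) (p 4) (p 5) (p 7) < 0) → (D (p 3) (p 4) (p 6) (p 7) < 0) → (¬ Sep p X0134) → False := in7490 p
  have c7493 : (D (p 0) (p 3) (p 5) (p 7) < 0) → (D (p 1) (p 3) (p 5) (p 7) < 0) → (0 < D (p 2) (p 3) (p 5) (p 7)) → (0 < D (p 3) (p 4) (p 5) (p 7)) → (0 < D (p 3) (p 5) (p 6) (p 7)) → (¬ Sep p X0134) → False := in7493 p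
  have c7529 : (0 < D (p 0) (p 1) (p 3) (p 5)) → (D (p 0) (p 2) (p 3) (p 5) < 0) → (0 < D (p 0) (p 3) (p 4) (p 5)) → (D (p 0) (p 3) (p 5) (p 6) < 0) → (D (p 0) (p 3) (p 5) (p 7) < 0) → (¬ Sep p X0135) → False := in7529 p
  have c7558 : (0 < D (p 0) (p 1) (p 3) (p 4)) → (0 < D (p 1) (p 2) (p 3) (p 4)) → (D (p 1) (p 3) (p 4) (p 5) < 0) → (0 < D (p 1) (p 3) (p 4) (p 6)) → (0 < D (p 1) (p 3) (p 4) (p 7)) → (¬ Sep p X0135) → False := in7558 p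
  have c7560 : (0 < D (p 0) (p 1) (p 3) (p 5)) → (0 < D (p 1) (p 2) (p 3) (p 5)) → (D (p 1) (p 3) (p 4) (p 5) < 0) → (0 < D (p 1) (p 3) (p 5) (p 6)) → (0 < D (p 1) (p 3) (p 5) (p 7)) → (¬ Sep p X0135) → False := in7560 p
  have c7564 : (0 < D (p 0) (p 1) (p 3) (p 7)) → (0 < D (p 1) (p 2) (p 3) (p 7)) → (D (p 1) (p 3) (p 4) (p 7) < 0) → (0 < D (p 1) (p 3) (p 5) (p 7)) → (D (p 1) (p 3) (p 6) (p 7) < 0) → (¬ Sep p X0135) → False := in7564 p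
  have c7605 : (D (p 0) (p 3) (p 5) (p 7) < 0) → (D (p 1) (p 3) (p 5) (p 7) < 0) → (0 < D (p 2) (p 3) (p 5) (p 7)) → (D (p 3) (p 4) (p 5) (p 7) < 0) → (0 < D (p 3) (p 5) (p 6) (p 7)) → (¬ Sep p X0135) → False := in7605 p
  have c7606 : (0 < D (p 0) (p 3) (p 5) (p 7)) → (0 < D (p 1) (p 3) (p 5) (p 7)) → (D (p 2) (p 3) (p 5) (p 7) < 0) → (0 < D (p 3) (p 4) (p 5) (p 7)) → (D (p 3) (p 5) (p 6) (p 7) < 0) → (¬ Sep p X0135) → False := in7606 p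
  have c7641 : (0 < D (p 0) (p 1) (p 3) (p 5)) → (D (p 0) (p 2) (p 3) (p 5) < 0) → (0 < D (p 0) (p 3) (p 4) (p 5)) → (0 < D (p 0) (p 3) (p 5) (p 6)) → (D (p 0) (p 3) (p 5) (p 7) < 0) → (¬ Sep p X0136) → False := in7641 p
  have c7670 : (0 < D (p 0) (p 1) (p 3) (p 4)) → (0 < D (p 1) (p 2) (p 3) (p 4)) → (0 < D (p 1) (p 3) (p 4) (p 5)) → (D (p 1) (p 3) (p 4) (p 6) < 0) → (0 < D (p 1) (p 3) (p 4) (p 7)) → (¬ Sep p X0136) → False := in7670 p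
  have c7672 : (0 < D (p 0) (p 1) (p 3) (p 5)) → (0 < D (p 1) (p 2) (p 3) (p 5)) → (D (p 1) (p 3) (p 4) (p 5) < 0) → (D (p 1) (p 3) (p 5) (p 6) < 0) → (0 < D (p 1) (p 3) (p 5) (p 7)) → (¬ Sep p X0136) → False := in7672 p
  have c7676 : (0 < D (p 0) (p 1) (p 3) (p 7)) → (0 < D (p 1) (p 2) (p 3) (p 7)) → (D (p 1) (p 3) (p 4) (p 7) < 0) → (D (p 1) (p 3) (p 5) (p 7) < 0) → (0 < D (p 1) (p 3) (p 6) (p 7)) → (¬ Sep p X0136) → False := in7676 p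
  have c7713 : (D (p 0) (p 3) (p 4) (p 7) < 0) → (D (p 1) (p 3) (p 4) (p 7) < 0) → (0 < D (p 2) (p 3) (p 4) (p 7)) → (0 < D (p 3) (p 4) (p 5) (p 7)) → (D (p 3) (p 4) (p 6) (p 7) < 0) → (¬ Sep p X0136) → False := in7713 p
  have c7714 : (0 < D (p 0) (p 3) (p 4) (p 7)) → (0 < D (p 1) (p 3) (p 4) (p 7)) → (D (p 2) (p 3) (p 4) (p 7) < 0) → (D (p 3) (p 4) (p 5) (p 7) < 0) → (0 < D (p 3) (p 4) (p 6) (p 7)) → (¬ Sep p X0136) → False := in7714 p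
  have c7717 : (D (p 0) (p 3) (p 5) (p 7) < 0) → (D (p 1) (p 3) (p 5) (p 7) < 0) → (0 < D (p 2) (p 3) (p 5) (p 7)) → (D (p 3) (p 4) (p 5) (p 7) < 0) → (D (p 3) (p 5) (p 6) (p 7) < 0) → (¬ Sep p X0136) → False := in7717 p
  have c7718 : (0 < D (p 0) (p 3) (p 5) (p 7)) → (0 < D (p 1) (p 3) (p 5) (p 7)) → (D (p 2) (p 3) (p 5) (p 7) < 0) → (0 < D (p 3) (p 4) (p 5) (p 7)) → (0 < D (p 3) (p 5) (p 6) (p 7)) → (¬ Sep p X0136) → False := in7718 p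
  have c7753 : (0 < D (p 0) (p 1) (p 3) (p 5)) → (D (p 0) (p 2) (p 3) (p 5) < 0) → (0 < D (p 0) (p 3) (p 4) (p 5)) → (D (p 0) (p 3) (p 5) (p 6) < 0) → (0 < D (p 0) (p 3) (p 5) (p 7)) → (¬ Sep p X0137) → False := in7753 p
  have c7788 : (0 < D (p 0) (p 1) (p 3) (p 7)) → (0 < D (p 1) (p 2) (p 3) (p 7)) → (D (p 1) (p 3) (p 4) (p 7) < 0) → (D (p 1) (p 3) (p 5) (p 7) < 0) → (D (p 1) (p 3) (p 6) (p 7) < 0) → (¬ Sep p X0137) → False := in7788 p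
  have c7977 : (0 < D (p 0) (p 1) (p 3) (p 5)) → (D (p 0) (p 2) (p 3) (p 5) < 0) → (D (p 0) (p 3) (p 4) (p 5) < 0) → (0 < D (p 0) (p 3) (p 5) (p 6)) → (D (p 0) (p 3) (p 5) (p 7) < 0) → (¬ Sep p X0146) → False := in7977 p
  have c8053 : (D (p 0) (p 3) (p 5) (p 7) < 0) → (D (p 1) (p 3) (p 5) (p 7) < 0) → (0 < D (p 2) (p 3) (p 5) (p 7)) → (0 < D (p 3) (p 4) (p 5) (p 7)) → (D (p 3) (p 5) (p 6) (p 7) < 0) → (¬ Sep p X0146) → False := in8053 p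
  have c8089 : (0 < D (p 0) (p 1) (p 3) (p 5)) → (D (p 0) (p 2) (p 3) (p 5) < 0) → (D (p 0) (p 3) (p 4) (p 5) < 0) → (D (p 0) (p 3) (p 5) (p 6) < 0) → (0 < D (p 0) (p 3) (p 5) (p 7)) → (¬ Sep p X0147) → False := in8089 p
  have c8134 : (0 < D (p 0) (p 1) (p 5) (p 7)) → (0 < D (p 1) (p 2) (p 5) (p 7)) → (0 < D (p 1) (p 3) (p 5) (p 7)) → (D (p 1) (p 4) (p 5) (p 7) < 0) → (D (p 1) (p 5) (p 6) (p 7) < 0) → (¬ Sep p X0147) → False := in8134 p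
  have c8201 : (0 < D (p 0) (p 1) (p 3) (p 5)) → (D (p 0) (p 2) (p 3) (p 5) < 0) → (0 < D (p 0) (p 3) (p 4) (p 5)) → (0 < D (p 0) (p 3) (p 5) (p 6)) → (D (p 0) (p 3) (p 5) (p 7) < 0) → (¬ Sep p X0156) → False := in8201 p
  have c8242 : (0 < D (p 0) (p 1) (p 4) (p 7)) → (0 < D (p 1) (p 2) (p 4) (p 7)) → (0 < D (p 1) (p 3) (p 4) (p 7)) → (0 < D (p 1) (p 4) (p 5) (p 7)) → (0 < D (p 1) (p 4) (p 6) (p 7)) → (¬ Sep p X0156) → False := in8242 p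
  have c8354 : (0 < D (p 0) (p 1) (p 4) (p 7)) → (0 < D (p 1) (p 2) (p 4) (p 7)) → (0 < D (p 1) (p 3) (p 4) (p 7)) → (0 < D (p 1) (p 4) (p 5) (p 7)) → (D (p 1) (p 4) (p 6) (p 7) < 0) → (¬ Sep p X0157) → False := in8354 p
  have c8358 : (0 < D (p 0) (p 1) (p 5) (p 7)) → (0 < D (p 1) (p 2) (p 5) (p 7)) → (0 < D (p 1) (p 3) (p 5) (p 7)) → (0 < D (p 1) (p 4) (p 5) (p 7)) → (D (p 1) (p 5) (p 6) (p 7) < 0) → (¬ Sep p X0157) → False := in8358 p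
  have c8407 : (0 < D (p 0) (p 1) (p 2) (p 5)) → (0 < D (p 0) (p 1) (p 3) (p 5)) → (0 < D (p 0) (p 1) (p 4) (p 5)) → (0 < D (p 0) (p 1) (p 5) (p 6)) → (0 < D (p 0) (p 1) (p 5) (p 7)) → (¬ Sep p X0167) → False := in8407 p
  have c8518 : (0 < D (p 0) (p 1) (p 2) (p 4)) → (0 < D (p 0) (p 1) (p 3) (p 4)) → (0 < D (p 0) (p 1) (p 4) (p 5)) → (0 < D (p 0) (p 1) (p 4) (p 6)) → (0 < D (p 0) (p 1) (p 4) (p 7)) → (¬ Sep p X0234) → False := in8518 p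
  have c8642 : (0 < D (p 0) (p 1) (p 2) (p 5)) → (0 < D (p 0) (p 2) (p 3) (p 5)) → (D (p 0) (p 2) (p 4) (p 5) < 0) → (0 < D (p 0) (p 2) (p 5) (p 6)) → (0 < D (p 0) (p 2) (p 5) (p 7)) → (¬ Sep p X0235) → False := in8642 p
  have c8650 : (0 < D (p 0) (p 1) (p 3) (p 5)) → (D (p 0) (p 2) (p 3) (p 5) < 0) → (D (p 0) (p 3) (p 4) (p 5) < 0) → (0 < D (p 0) (p 3) (p 5) (p 6)) → (0 < D (p 0) (p 3) (p 5) (p 7)) → (¬ Sep p X0235) → False := in8650 p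
  have c8686 : (0 < D (p 0) (p 1) (p 4) (p 5)) → (D (p 1) (p 2) (p 4) (p 5) < 0) → (D (p 1) (p 3) (p 4) (p 5) < 0) → (0 < D (p 1) (p 4) (p 5) (p 6)) → (0 < D (p 1) (p 4) (p 5) (p 7)) → (¬ Sep p X0235) → False := in8686 p
  have c8690 : (0 < D (p 0) (p 1) (p 4) (p 7)) → (D (p 1) (p 2) (p 4) (p 7) < 0) → (D (p 1) (p 3) (p 4) (p 7) < 0) → (0 < D (p 1) (p 4) (p 5) (p 7)) → (D (p 1) (p 4) (p 6) (p 7) < 0) → (¬ Sep p X0235) → False := in8690 p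
  have c8796 : (0 < D (p 0) (p 1) (p 3) (p 7)) → (D (p 1) (p 2) (p 3) (p 7) < 0) → (D (p 1) (p 3) (p 4) (p 7) < 0) → (D (p 1) (p 3) (p 5) (p 7) < 0) → (0 < D (p 1) (p 3) (p 6) (p 7)) → (¬ Sep p X0236) → False := in8796 p
  have c8798 : (0 < D (p 0) (p 1) (p 4) (p 5)) → (D (p 1) (p 2) (p 4) (p 5) < 0) → (D (p 1) (p 3) (p 4) (p 5) < 0) → (D (p 1) (p 4) (p 5) (p 6) < 0) → (0 < D (p 1) (p 4) (p 5) (p 7)) → (¬ Sep p X0236) → False := in8798 p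
  have c8802 : (0 < D (p 0) (p 1) (p 4) (p 7)) → (D (p 1) (p 2) (p 4) (p 7) < 0) → (D (p 1) (p 3) (p 4) (p 7) < 0) → (D (p 1) (p 4) (p 5) (p 7) < 0) → (0 < D (p 1) (p 4) (p 6) (p 7)) → (¬ Sep p X0236) → False := in8802 p
  have c8806 : (0 < D (p 0) (p 1) (p 5) (p 7)) → (D (p 1) (p 2) (p 5) (p 7) < 0) → (D (p 1) (p 3) (p 5) (p 7) < 0) → (0 < D (p 1) (p 4) (p 5) (p 7)) → (0 < D (p 1) (p 5) (p 6) (p 7)) → (¬ Sep p X0236) → False := in8806 p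
  have c8838 : (0 < D (p 0) (p 3) (p 5) (p 7)) → (D (p 1) (p 3) (p 5) (p 7) < 0) → (0 < D (p 2) (p 3) (p 5) (p 7)) → (0 < D (p 3) (p 4) (p 5) (p 7)) → (0 < D (p 3) (p 5) (p 6) (p 7)) → (¬ Sep p X0236) → False := in8838 p
  have c8908 : (0 < D (p 0) (p 1) (p 3) (p 7)) → (D (p 1) (p 2) (p 3) (p 7) < 0) → (D (p 1) (p 3) (p 4) (p 7) < 0) → (D (p 1) (p 3) (p 5) (p 7) < 0) → (D (p 1) (p 3) (p 6) (p 7) < 0) → (¬ Sep p X0237) → False := in8908 p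
  have c8914 : (0 < D (p 0) (p 1) (p 4) (p 7)) → (D (p 1) (p 2) (p 4) (p 7) < 0) → (D (p 1) (p 3) (p 4) (p 7) < 0) → (D (p 1) (p 4) (p 5) (p 7) < 0) → (D (p 1) (p 4) (p 6) (p 7) < 0) → (¬ Sep p X0237) → False := in8914 p
  have c8986 : (0 < D (p 0) (p 1) (p 3) (p 5)) → (D (p 0) (p 2) (p 3) (p 5) < 0) → (0 < D (p 0) (p 3) (p 4) (p 5)) → (0 < D (p 0) (p 3) (p 5) (p 6)) → (0 < D (p 0) (p 3) (p 5) (p 7)) → (¬ Sep p X0245) → False := in8986 p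
  have c9014 : (0 < D (p 0) (p 1) (p 3) (p 4)) → (D (p 1) (p 2) (p 3) (p 4) < 0) → (D (p 1) (p 3) (p 4) (p 5) < 0) → (0 < D (p 1) (p 3) (p 4) (p 6)) → (0 < D (p 1) (p 3) (p 4) (p 7)) → (¬ Sep p X0245) → False := in9014 p
  have c9016 : (0 < D (p 0) (p 1) (p 3) (p 5)) → (D (p 1) (p 2) (p 3) (p 5) < 0) → (0 < D (p 1) (p 3) (p 4) (p 5)) → (0 < D (p 1) (p 3) (p 5) (p 6)) → (0 < D (p 1) (p 3) (p 5) (p 7)) → (¬ Sep p X0245) → False := in9016 p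
  have c9018 : (0 < D (p 0) (p 1) (p 3) (p 6)) → (D (p 1) (p 2) (p 3) (p 6) < 0) → (0 < D (p 1) (p 3) (p 4) (p 6)) → (0 < D (p 1) (p 3) (p 5) (p 6)) → (0 < D (p 1) (p 3) (p 6) (p 7)) → (¬ Sep p X0245) → False := in9018 p
  have c9020 : (0 < D (p 0) (p 1) (p 3) (p 7)) → (D (p 1) (p 2) (p 3) (p 7) < 0) → (0 < D (p 1) (p 3) (p 4) (p 7)) → (0 < D (p 1) (p 3) (p 5) (p 7)) → (D (p 1) (p 3) (p 6) (p 7) < 0) → (¬ Sep p X0245) → False := in9020 p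
  have c9128 : (0 < D (p 0) (p 1) (p 3) (p 5)) → (D (p 1) (p 2) (p 3) (p 5) < 0) → (0 < D (p 1) (p 3) (p 4) (p 5)) → (D (p 1) (p 3) (p 5) (p 6) < 0) → (0 < D (p 1) (p 3) (p 5) (p 7)) → (¬ Sep p X0246) → False := in9128 p
  have c9132 : (0 < D (p 0) (p 1) (p 3) (p 7)) → (D (p 1) (p 2) (p 3) (p 7) < 0) → (0 < D (p 1) (p 3) (p 4) (p 7)) → (D (p 1) (p 3) (p 5) (p 7) < 0) → (0 < D (p 1) (p 3) (p 6) (p 7)) → (¬ Sep p X0246) → False := in9132 p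
  have c9142 : (0 < D (p 0) (p 1) (p 5) (p 7)) → (D (p 1) (p 2) (p 5) (p 7) < 0) → (0 < D (p 1) (p 3) (p 5) (p 7)) → (D (p 1) (p 4) (p 5) (p 7) < 0) → (0 < D (p 1) (p 5) (p 6) (p 7)) → (¬ Sep p X0246) → False := in9142 p
  have c9173 : (D (p 0) (p 3) (p 5) (p 7) < 0) → (0 < D (p 1) (p 3) (p 5) (p 7)) → (D (p 2) (p 3) (p 5) (p 7) < 0) → (0 < D (p 3) (p 4) (p 5) (p 7)) → (D (p 3) (p 5) (p 6) (p 7) < 0) → (¬ Sep p X0246) → False := in9173 p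
  have c9174 : (0 < D (p 0) (p 3) (p 5) (p 7)) → (D (p 1) (p 3) (p 5) (p 7) < 0) → (0 < D (p 2) (p 3) (p 5) (p 7)) → (D (p 3) (p 4) (p 5) (p 7) < 0) → (0 < D (p 3) (p 5) (p 6) (p 7)) → (¬ Sep p X0246) → False := in9174 p
  have c9244 : (0 < D (p 0) (p 1) (p 3) (p 7)) → (D (p 1) (p 2) (p 3) (p 7) < 0) → (0 < D (p 1) (p 3) (p 4) (p 7)) → (D (p 1) (p 3) (p 5) (p 7) < 0) → (D (p 1) (p 3) (p 6) (p 7) < 0) → (¬ Sep p X0247) → False := in9244 p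
  have c9254 : (0 < D (p 0) (p 1) (p 5) (p 7)) → (D (p 1) (p 2) (p 5) (p 7) < 0) → (0 < D (p 1) (p 3) (p 5) (p 7)) → (D (p 1) (p 4) (p 5) (p 7) < 0) → (D (p 1) (p 5) (p 6) (p 7) < 0) → (¬ Sep p X0247) → False := in9254 p
  have c9285 : (D (p 0) (p 3) (p 5) (p 7) < 0) → (0 < D (p 1) (p 3) (p 5) (p 7)) → (D (p 2) (p 3) (p 5) (p 7) < 0) → (0 < D (p 3) (p 4) (p 5) (p 7)) → (0 < D (p 3) (p 5) (p 6) (p 7)) → (¬ Sep p X0247) → False := in9285 p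
  have c9286 : (0 < D (p 0) (p 3) (p 5) (p 7)) → (D (p 1) (p 3) (p 5) (p 7) < 0) → (0 < D (p 2) (p 3) (p 5) (p 7)) → (D (p 3) (p 4) (p 5) (p 7) < 0) → (D (p 3) (p 5) (p 6) (p 7) < 0) → (¬ Sep p X0247) → False := in9286 p
  have c9350 : (0 < D (p 0) (p 1) (p 3) (p 4)) → (D (p 1) (p 2) (p 3) (p 4) < 0) → (D (p 1) (p 3) (p 4) (p 5) < 0) → (D (p 1) (p 3) (p 4) (p 6) < 0) → (0 < D (p 1) (p 3) (p 4) (p 7)) → (¬ Sep p X0256) → False := in9350 p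
  have c9352 : (0 < D (p 0) (p 1) (p 3) (p 5)) → (D (p 1) (p 2) (p 3) (p 5) < 0) → (D (p 1) (p 3) (p 4) (p 5) < 0) → (D (p 1) (p 3) (p 5) (p 6) < 0) → (0 < D (p 1) (p 3) (p 5) (p 7)) → (¬ Sep p X0256) → False := in9352 p
  have c9356 : (0 < D (p 0) (p 1) (p 3) (p 7)) → (D (p 1) (p 2) (p 3) (p 7) < 0) → (D (p 1) (p 3) (p 4) (p 7) < 0) → (0 < D (p 1) (p 3) (p 5) (p 7)) → (0 < D (p 1) (p 3) (p 6) (p 7)) → (¬ Sep p X0256) → False := in9356 p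
  have c9362 : (0 < D (p 0) (p 1) (p 4) (p 7)) → (D (p 1) (p 2) (p 4) (p 7) < 0) → (0 < D (p 1) (p 3) (p 4) (p 7)) → (0 < D (p 1) (p 4) (p 5) (p 7)) → (0 < D (p 1) (p 4) (p 6) (p 7)) → (¬ Sep p X0256) → False := in9362 p
  have c9366 : (0 < D (p 0) (p 1) (p 5) (p 7)) → (D (p 1) (p 2) (p 5) (p 7) < 0) → (0 < D (p 1) (p 3) (p 5) (p 7)) → (0 < D (p 1) (p 4) (p 5) (p 7)) → (0 < D (p 1) (p 5) (p 6) (p 7)) → (¬ Sep p X0256) → False := in9366 p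
  have c9393 : (D (p 0) (p 3) (p 4) (p 7) < 0) → (0 < D (p 1) (p 3) (p 4) (p 7)) → (D (p 2) (p 3) (p 4) (p 7) < 0) → (D (p 3) (p 4) (p 5) (p 7) < 0) → (D (p 3) (p 4) (p 6) (p 7) < 0) → (¬ Sep p X0256) → False := in9393 p
  have c9394 : (0 < D (p 0) (p 3) (p 4) (p 7)) → (D (p 1) (p 3) (p 4) (p 7) < 0) → (0 < D (p 2) (p 3) (p 4) (p 7)) → (0 < D (p 3) (p 4) (p 5) (p 7)) → (0 < D (p 3) (p 4) (p 6) (p 7)) → (¬ Sep p X0256) → False := in9394 p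
  have c9468 : (0 < D (p 0) (p 1) (p 3) (p 7)) → (D (p 1) (p 2) (p 3) (p 7) < 0) → (D (p 1) (p 3) (p 4) (p 7) < 0) → (0 < D (p 1) (p 3) (p 5) (p 7)) → (D (p 1) (p 3) (p 6) (p 7) < 0) → (¬ Sep p X0257) → False := in9468 p
  have c9474 : (0 < D (p 0) (p 1) (p 4) (p 7)) → (D (p 1) (p 2) (p 4) (p 7) < 0) → (0 < D (p 1) (p 3) (p 4) (p 7)) → (0 < D (p 1) (p 4) (p 5) (p 7)) → (D (p 1) (p 4) (p 6) (p 7) < 0) → (¬ Sep p X0257) → False := in9474 p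
  have c9478 : (0 < D (p 0) (p 1) (p 5) (p 7)) → (D (p 1) (p 2) (p 5) (p 7) < 0) → (0 < D (p 1) (p 3) (p 5) (p 7)) → (0 < D (p 1) (p 4) (p 5) (p 7)) → (D (p 1) (p 5) (p 6) (p 7) < 0) → (¬ Sep p X0257) → False := in9478 p
  have c9505 : (D (p 0) (p 3) (p 4) (p 7) < 0) → (0 < D (p 1) (p 3) (p 4) (p 7)) → (D (p 2) (p 3) (p 4) (p 7) < 0) → (D (p 3) (p 4) (p 5) (p 7) < 0) → (0 < D (p 3) (p 4) (p 6) (p 7)) → (¬ Sep p X0257) → False := in9505 p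
  have c9506 : (0 < D (p 0) (p 3) (p 4) (p 7)) → (D (p 1) (p 3) (p 4) (p 7) < 0) → (0 < D (p 2) (p 3) (p 4) (p 7)) → (0 < D (p 3) (p 4) (p 5) (p 7)) → (D (p 3) (p 4) (p 6) (p 7) < 0) → (¬ Sep p X0257) → False := in9506 p
  have c9510 : (0 < D (p 0) (p 3) (p 5) (p 7)) → (D (p 1) (p 3) (p 5) (p 7) < 0) → (0 < D (p 2) (p 3) (p 5) (p 7)) → (0 < D (p 3) (p 4) (p 5) (p 7)) → (D (p 3) (p 5) (p 6) (p 7) < 0) → (¬ Sep p X0257) → False := in9510 p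
  have c9580 : (0 < D (p 0) (p 1) (p 3) (p 7)) → (D (p 1) (p 2) (p 3) (p 7) < 0) → (D (p 1) (p 3) (p 4) (p 7) < 0) → (D (p 1) (p 3) (p 5) (p 7) < 0) → (0 < D (p 1) (p 3) (p 6) (p 7)) → (¬ Sep p X0267) → False := in9580 p
  have c9650 : (0 < D (p 0) (p 1) (p 2) (p 5)) → (0 < D (p 0) (p 2) (p 3) (p 5)) → (0 < D (p 0) (p 2) (p 4) (p 5)) → (0 < D (p 0) (p 2) (p 5) (p 6)) → (0 < D (p 0) (p 2) (p 5) (p 7)) → (¬ Sep p X0345) → False := in9650 p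
  have c9658 : (0 < D (p 0) (p 1) (p 3) (p 5)) → (0 < D (p 0) (p 2) (p 3) (p 5)) → (0 < D (p 0) (p 3) (p 4) (p 5)) → (0 < D (p 0) (p 3) (p 5) (p 6)) → (0 < D (p 0) (p 3) (p 5) (p 7)) → (¬ Sep p X0345) → False := in9658 p
  have c9688 : (0 < D (p 0) (p 1) (p 3) (p 5)) → (0 < D (p 1) (p 2) (p 3) (p 5)) → (0 < D (p 1) (p 3) (p 4) (p 5)) → (0 < D (p 1) (p 3) (p 5) (p 6)) → (0 < D (p 1) (p 3) (p 5) (p 7)) → (¬ Sep p X0345) → False := in9688 p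
  have c9692 : (0 < D (p 0) (p 1) (p 3) (p 7)) → (0 < D (p 1) (p 2) (p 3) (p 7)) → (0 < D (p 1) (p 3) (p 4) (p 7)) → (0 < D (p 1) (p 3) (p 5) (p 7)) → (D (p 1) (p 3) (p 6) (p 7) < 0) → (¬ Sep p X0345) → False := in9692 p
  have c9698 : (0 < D (p 0) (p 1) (p 4) (p 7)) → (0 < D (p 1) (p 2) (p 4) (p 7)) → (D (p 1) (p 3) (p 4) (p 7) < 0) → (0 < D (p 1) (p 4) (p 5) (p 7)) → (D (p 1) (p 4) (p 6) (p 7) < 0) → (¬ Sep p X0345) → False := in9698 p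
  have c9800 : (0 < D (p 0) (p 1) (p 3) (p 5)) → (0 < D (p 1) (p 2) (p 3) (p 5)) → (0 < D (p 1) (p 3) (p 4) (p 5)) → (D (p 1) (p 3) (p 5) (p 6) < 0) → (0 < D (p 1) (p 3) (p 5) (p 7)) → (¬ Sep p X0346) → False := in9800 p
  have c9804 : (0 < D (p 0) (p 1) (p 3) (p 7)) → (0 < D (p 1) (p 2) (p 3) (p 7)) → (0 < D (p 1) (p 3) (p 4) (p 7)) → (D (p 1) (p 3) (p 5) (p 7) < 0) → (0 < D (p 1) (p 3) (p 6) (p 7)) → (¬ Sep p X0346) → False := in9804 p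
  have c9810 : (0 < D (p 0) (p 1) (p 4) (p 7)) → (0 < D (p 1) (p 2) (p 4) (p 7)) → (D (p 1) (p 3) (p 4) (p 7) < 0) → (D (p 1) (p 4) (p 5) (p 7) < 0) → (0 < D (p 1) (p 4) (p 6) (p 7)) → (¬ Sep p X0346) → False := in9810 p
  have c9845 : (D (p 0) (p 3) (p 5) (p 7) < 0) → (0 < D (p 1) (p 3) (p 5) (p 7)) → (0 < D (p 2) (p 3) (p 5) (p 7)) → (0 < D (p 3) (p 4) (p 5) (p 7)) → (D (p 3) (p 5) (p 6) (p 7) < 0) → (¬ Sep p X0346) → False := in9845 p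
  have c9846 : (0 < D (p 0) (p 3) (p 5) (p 7)) → (D (p 1) (p 3) (p 5) (p 7) < 0) → (D (p 2) (p 3) (p 5) (p 7) < 0) → (D (p 3) (p 4) (p 5) (p 7) < 0) → (0 < D (p 3) (p 5) (p 6) (p 7)) → (¬ Sep p X0346) → False := in9846 p
  have c9882 : (0 < D (p 0) (p 1) (p 3) (p 5)) → (0 < D (p 0) (p 2) (p 3) (p 5)) → (0 < D (p 0) (p 3) (p 4) (p 5)) → (0 < D (p 0) (p 3) (p 5) (p 6)) → (D (p 0) (p 3) (p 5) (p 7) < 0) → (¬ Sep p X0347) → False := in9882 p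
  have c9912 : (0 < D (p 0) (p 1) (p 3) (p 5)) → (0 < D (p 1) (p 2) (p 3) (p 5)) → (0 < D (p 1) (p 3) (p 4) (p 5)) → (0 < D (p 1) (p 3) (p 5) (p 6)) → (D (p 1) (p 3) (p 5) (p 7) < 0) → (¬ Sep p X0347) → False := in9912 p
  have c9916 : (0 < D (p 0) (p 1) (p 3) (p 7)) → (0 < D (p 1) (p 2) (p 3) (p 7)) → (0 < D (p 1) (p 3) (p 4) (p 7)) → (D (p 1) (p 3) (p 5) (p 7) < 0) → (D (p 1) (p 3) (p 6) (p 7) < 0) → (¬ Sep p X0347) → False := in9916 p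
  have c9922 : (0 < D (p 0) (p 1) (p 4) (p 7)) → (0 < D (p 1) (p 2) (p 4) (p 7)) → (D (p 1) (p 3) (p 4) (p 7) < 0) → (D (p 1) (p 4) (p 5) (p 7) < 0) → (D (p 1) (p 4) (p 6) (p 7) < 0) → (¬ Sep p X0347) → False := in9922 p
  have c9957 : (D (p 0) (p 3) (p 5) (p 7) < 0) → (0 < D (p 1) (p 3) (p 5) (p 7)) → (0 < D (p 2) (p 3) (p 5) (p 7)) → (0 < D (p 3) (p 4) (p 5) (p 7)) → (0 < D (p 3) (p 5) (p 6) (p 7)) → (¬ Sep p X0347) → False := in9957 p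
  have c9958 : (0 < D (p 0) (p 3) (p 5) (p 7)) → (D (p 1) (p 3) (p 5) (p 7) < 0) → (D (p 2) (p 3) (p 5) (p 7) < 0) → (D (p 3) (p 4) (p 5) (p 7) < 0) → (D (p 3) (p 5) (p 6) (p 7) < 0) → (¬ Sep p X0347) → False := in9958 p
  have c9994 : (0 < D (p 0) (p 1) (p 3) (p 5)) → (0 < D (p 0) (p 2) (p 3) (p 5)) → (D (p 0) (p 3) (p 4) (p 5) < 0) → (D (p 0) (p 3) (p 5) (p 6) < 0) → (0 < D (p 0) (p 3) (p 5) (p 7)) → (¬ Sep p X0356) → False := in9994 p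
  have c10022 : (0 < D (p 0) (p 1) (p 3) (p 4)) → (0 < D (p 1) (p 2) (p 3) (p 4)) → (D (p 1) (p 3) (p 4) (p 5) < 0) → (D (p 1) (p 3) (p 4) (p 6) < 0) → (0 < D (p 1) (p 3) (p 4) (p 7)) → (¬ Sep p X0356) → False := in10022 p
  have c10028 : (0 < D (p 0) (p 1) (p 3) (p 7)) → (0 < D (p 1) (p 2) (p 3) (p 7)) → (D (p 1) (p 3) (p 4) (p 7) < 0) → (0 < D (p 1) (p 3) (p 5) (p 7)) → (0 < D (p 1) (p 3) (p 6) (p 7)) → (¬ Sep p X0356) → False := in10028 p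
  have c10034 : (0 < D (p 0) (p 1) (p 4) (p 7)) → (0 < D (p 1) (p 2) (p 4) (p 7)) → (D (p 1) (p 3) (p 4) (p 7) < 0) → (0 < D (p 1) (p 4) (p 5) (p 7)) → (0 < D (p 1) (p 4) (p 6) (p 7)) → (¬ Sep p X0356) → False := in10034 p
  have c10038 : (0 < D (p 0) (p 1) (p 5) (p 7)) → (0 < D (p 1) (p 2) (p 5) (p 7)) → (D (p 1) (p 3) (p 5) (p 7) < 0) → (0 < D (p 1) (p 4) (p 5) (p 7)) → (0 < D (p 1) (p 5) (p 6) (p 7)) → (¬ Sep p X0356) → False := in10038 p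
  have c10065 : (D (p 0) (p 3) (p 4) (p 7) < 0) → (0 < D (p 1) (p 3) (p 4) (p 7)) → (0 < D (p 2) (p 3) (p 4) (p 7)) → (D (p 3) (p 4) (p 5) (p 7) < 0) → (D (p 3) (p 4) (p 6) (p 7) < 0) → (¬ Sep p X0356) → False := in10065 p
  have c10066 : (0 < D (p 0) (p 3) (p 4) (p 7)) → (D (p 1) (p 3) (p 4) (p 7) < 0) → (D (p 2) (p 3) (p 4) (p 7) < 0) → (0 < D (p 3) (p 4) (p 5) (p 7)) → (0 < D (p 3) (p 4) (p 6) (p 7)) → (¬ Sep p X0356) → False := in10066 p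
  have c10070 : (0 < D (p 0) (p 3) (p 5) (p 7)) → (D (p 1) (p 3) (p 5) (p 7) < 0) → (D (p 2) (p 3) (p 5) (p 7) < 0) → (0 < D (p 3) (p 4) (p 5) (p 7)) → (0 < D (p 3) (p 5) (p 6) (p 7)) → (¬ Sep p X0356) → False := in10070 p
  have c10106 : (0 < D (p 0) (p 1) (p 3) (p 5)) → (0 < D (p 0) (p 2) (p 3) (p 5)) → (D (p 0) (p 3) (p 4) (p 5) < 0) → (0 < D (p 0) (p 3) (p 5) (p 6)) → (D (p 0) (p 3) (p 5) (p 7) < 0) → (¬ Sep p X0357) → False := in10106 p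
  have c10140 : (0 < D (p 0) (p 1) (p 3) (p 7)) → (0 < D (p 1) (p 2) (p 3) (p 7)) → (D (p 1) (p 3) (p 4) (p 7) < 0) → (0 < D (p 1) (p 3) (p 5) (p 7)) → (D (p 1) (p 3) (p 6) (p 7) < 0) → (¬ Sep p X0357) → False := in10140 p
  have c10177 : (D (p 0) (p 3) (p 4) (p 7) < 0) → (0 < D (p 1) (p 3) (p 4) (p 7)) → (0 < D (p 2) (p 3) (p 4) (p 7)) → (D (p 3) (p 4) (p 5) (p 7) < 0) → (0 < D (p 3) (p 4) (p 6) (p 7)) → (¬ Sep p X0357) → False := in10177 p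
  have c10178 : (0 < D (p 0) (p 3) (p 4) (p 7)) → (D (p 1) (p 3) (p 4) (p 7) < 0) → (D (p 2) (p 3) (p 4) (p 7) < 0) → (0 < D (p 3) (p 4) (p 5) (p 7)) → (D (p 3) (p 4) (p 6) (p 7) < 0) → (¬ Sep p X0357) → False := in10178 p
  have c10182 : (0 < D (p 0) (p 3) (p 5) (p 7)) → (D (p 1) (p 3) (p 5) (p 7) < 0) → (D (p 2) (p 3) (p 5) (p 7) < 0) → (0 < D (p 3) (p 4) (p 5) (p 7)) → (D (p 3) (p 5) (p 6) (p 7) < 0) → (¬ Sep p X0357) → False := in10182 p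
  have c10252 : (0 < D (p 0) (p 1) (p 3) (p 7)) → (0 < D (p 1) (p 2) (p 3) (p 7)) → (D (p 1) (p 3) (p 4) (p 7) < 0) → (D (p 1) (p 3) (p 5) (p 7) < 0) → (0 < D (p 1) (p 3) (p 6) (p 7)) → (¬ Sep p X0367) → False := in10252 p
  have c10356 : (0 < D (p 0) (p 1) (p 2) (p 7)) → (D (p 1) (p 2) (p 3) (p 7) < 0) → (0 < D (p 1) (p 2) (p 4) (p 7)) → (0 < D (p 1) (p 2) (p 5) (p 7)) → (0 < D (p 1) (p 2) (p 6) (p 7)) → (¬ Sep p X0456) → False := in10356 p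
  have c10364 : (0 < D (p 0) (p 1) (p 3) (p 7)) → (0 < D (p 1) (p 2) (p 3) (p 7)) → (0 < D (p 1) (p 3) (p 4) (p 7)) → (0 < D (p 1) (p 3) (p 5) (p 7)) → (0 < D (p 1) (p 3) (p 6) (p 7)) → (¬ Sep p X0456) → False := in10364 p
  have c10374 : (0 < D (p 0) (p 1) (p 5) (p 7)) → (0 < D (p 1) (p 2) (p 5) (p 7)) → (0 < D (p 1) (p 3) (p 5) (p 7)) → (D (p 1) (p 4) (p 5) (p 7) < 0) → (0 < D (p 1) (p 5) (p 6) (p 7)) → (¬ Sep p X0456) → False := in10374 p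
  have c10476 : (0 < D (p 0) (p 1) (p 3) (p 7)) → (0 < D (p 1) (p 2) (p 3) (p 7)) → (0 < D (p 1) (p 3) (p 4) (p 7)) → (0 < D (p 1) (p 3) (p 5) (p 7)) → (D (p 1) (p 3) (p 6) (p 7) < 0) → (¬ Sep p X0457) → False := in10476 p
  have c10584 : (0 < D (p 0) (p 1) (p 3) (p 5)) → (0 < D (p 1) (p 2) (p 3) (p 5)) → (0 < D (p 1) (p 3) (p 4) (p 5)) → (D (p 1) (p 3) (p 5) (p 6) < 0) → (D (p 1) (p 3) (p 5) (p 7) < 0) → (¬ Sep p X0467) → False := in10584 p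
  have c10598 : (0 < D (p 0) (p 1) (p 5) (p 7)) → (0 < D (p 1) (p 2) (p 5) (p 7)) → (0 < D (p 1) (p 3) (p 5) (p 7)) → (D (p 1) (p 4) (p 5) (p 7) < 0) → (0 < D (p 1) (p 5) (p 6) (p 7)) → (¬ Sep p X0467) → False := in10598 p
  have c10645 : (0 < D (p 0) (p 1) (p 2) (p 4)) → (0 < D (p 0) (p 1) (p 3) (p 4)) → (0 < D (p 0) (p 1) (p 4) (p 5)) → (0 < D (p 0) (p 1) (p 4) (p 6)) → (0 < D (p 0) (p 1) (p 4) (p 7)) → (¬ Sep p X0567) → False := in10645 p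
  have c10764 : (Sep p X0123) → (Sep p X0146) → (Sep p X0267) → False := htr _ _ _ (by decide)
  have c10768 : (Sep p X0123) → (Sep p X0146) → (Sep p X0367) → False := htr _ _ _ (by decide)
  have c10773 : (Sep p X0123) → (Sep p X0147) → (Sep p X0345) → False := htr _ _ _ (by decide)
  have c10777 : (Sep p X0123) → (Sep p X0156) → (Sep p X0245) → False := htr _ _ _ (by decide)
  have c10784 : (Sep p X0123) → (Sep p X0156) → (Sep p X0367) → False := htr _ _ _ (by decide)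
  have c10785 : (Sep p X0123) → (Sep p X0157) → (Sep p X0245) → False := htr _ _ _ (by decide)
  have c10789 : (Sep p X0123) → (Sep p X0157) → (Sep p X0345) → False := htr _ _ _ (by decide)
  have c10793 : (Sep p X0123) → (Sep p X0167) → (Sep p X0246) → False := htr _ _ _ (by decide)
  have c10794 : (Sep p X0123) → (Sep p X0167) → (Sep p X0247) → False := htr _ _ _ (by decide)
  have c10795 : (Sep p X0123) → (Sep p X0167) → (Sep p X0256) → False := htr _ _ _ (by decide)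
  have c10796 : (Sep p X0123) → (Sep p X0167) → (Sep p X0257) → False := htr _ _ _ (by decide)
  have c10797 : (Sep p X0123) → (Sep p X0167) → (Sep p X0346) → False := htr _ _ _ (by decide)
  have c10798 : (Sep p X0123) → (Sep p X0167) → (Sep p X0347) → False := htr _ _ _ (by decide)
  have c10799 : (Sep p X0123) → (Sep p X0167) → (Sep p X0356) → False := htr _ _ _ (by decide)
  have c10800 : (Sep p X0123) → (Sep p X0167) → (Sep p X0357) → False := htr _ _ _ (by decide)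
  have c10856 : (Sep p X0124) → (Sep p X0156) → (Sep p X0467) → False := htr _ _ _ (by decide)
  have c10864 : (Sep p X0124) → (Sep p X0157) → (Sep p X0467) → False := htr _ _ _ (by decide)
  have c10865 : (Sep p X0124) → (Sep p X0167) → (Sep p X0236) → False := htr _ _ _ (by decide)
  have c10866 : (Sep p X0124) → (Sep p X0167) → (Sep p X0237) → False := htr _ _ _ (by decide)
  have c10871 : (Sep p X0124) → (Sep p X0167) → (Sep p X0456) → False := htr _ _ _ (by decide)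
  have c10872 : (Sep p X0124) → (Sep p X0167) → (Sep p X0457) → False := htr _ _ _ (by decide)
  have c10905 : (Sep p X0125) → (Sep p X0136) → (Sep p X0234) → False := htr _ _ _ (by decide)
  have c10913 : (Sep p X0125) → (Sep p X0137) → (Sep p X0234) → False := htr _ _ _ (by decide)
  have c10947 : (Sep p X0125) → (Sep p X0234) → (Sep p X0456) → False := htr _ _ _ (by decide)
  have c10948 : (Sep p X0125) → (Sep p X0234) → (Sep p X0457) → False := htr _ _ _ (by decide)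
  have c10952 : (Sep p X0125) → (Sep p X0236) → (Sep p X0567) → False := htr _ _ _ (by decide)
  have c10956 : (Sep p X0125) → (Sep p X0237) → (Sep p X0567) → False := htr _ _ _ (by decide)
  have c10977 : (Sep p X0126) → (Sep p X0135) → (Sep p X0234) → False := htr _ _ _ (by decide)
  have c10985 : (Sep p X0126) → (Sep p X0137) → (Sep p X0234) → False := htr _ _ _ (by decide)
  have c11001 : (Sep p X0126) → (Sep p X0147) → (Sep p X0234) → False := htr _ _ _ (by decide)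
  have c11019 : (Sep p X0126) → (Sep p X0234) → (Sep p X0456) → False := htr _ _ _ (by decide)
  have c11020 : (Sep p X0126) → (Sep p X0234) → (Sep p X0467) → False := htr _ _ _ (by decide)
  have c11024 : (Sep p X0126) → (Sep p X0235) → (Sep p X0567) → False := htr _ _ _ (by decide)
  have c11028 : (Sep p X0126) → (Sep p X0237) → (Sep p X0567) → False := htr _ _ _ (by decide)
  have c11032 : (Sep p X0126) → (Sep p X0245) → (Sep p X0567) → False := htr _ _ _ (by decide)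
  have c11049 : (Sep p X0127) → (Sep p X0135) → (Sep p X0234) → False := htr _ _ _ (by decide)
  have c11057 : (Sep p X0127) → (Sep p X0136) → (Sep p X0234) → False := htr _ _ _ (by decide)
  have c11092 : (Sep p X0127) → (Sep p X0234) → (Sep p X0467) → False := htr _ _ _ (by decide)
  have c11100 : (Sep p X0127) → (Sep p X0236) → (Sep p X0567) → False := htr _ _ _ (by decide)
  have c11129 : (Sep p X0134) → (Sep p X0167) → (Sep p X0236) → False := htr _ _ _ (by decide)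
  have c11130 : (Sep p X0134) → (Sep p X0167) → (Sep p X0237) → False := htr _ _ _ (by decide)
  have c11135 : (Sep p X0134) → (Sep p X0167) → (Sep p X0456) → False := htr _ _ _ (by decide)
  have c11136 : (Sep p X0134) → (Sep p X0167) → (Sep p X0457) → False := htr _ _ _ (by decide)
  have c11187 : (Sep p X0135) → (Sep p X0234) → (Sep p X0456) → False := htr _ _ _ (by decide)
  have c11188 : (Sep p X0135) → (Sep p X0234) → (Sep p X0457) → False := htr _ _ _ (by decide)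
  have c11192 : (Sep p X0135) → (Sep p X0236) → (Sep p X0567) → False := htr _ _ _ (by decide)
  have c11196 : (Sep p X0135) → (Sep p X0237) → (Sep p X0567) → False := htr _ _ _ (by decide)
  have c11217 : (Sep p X0136) → (Sep p X0147) → (Sep p X0234) → False := htr _ _ _ (by decide)
  have c11234 : (Sep p X0136) → (Sep p X0234) → (Sep p X0267) → False := htr _ _ _ (by decide)
  have c11235 : (Sep p X0136) → (Sep p X0234) → (Sep p X0456) → False := htr _ _ _ (by decide)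
  have c11236 : (Sep p X0136) → (Sep p X0234) → (Sep p X0467) → False := htr _ _ _ (by decide)
  have c11240 : (Sep p X0136) → (Sep p X0235) → (Sep p X0567) → False := htr _ _ _ (by decide)
  have c11244 : (Sep p X0136) → (Sep p X0237) → (Sep p X0567) → False := htr _ _ _ (by decide)
  have c11252 : (Sep p X0136) → (Sep p X0345) → (Sep p X0567) → False := htr _ _ _ (by decide)
  have c11265 : (Sep p X0137) → (Sep p X0146) → (Sep p X0234) → False := htr _ _ _ (by decide)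
  have c11284 : (Sep p X0137) → (Sep p X0234) → (Sep p X0467) → False := htr _ _ _ (by decide)
  have c11288 : (Sep p X0137) → (Sep p X0235) → (Sep p X0567) → False := htr _ _ _ (by decide)
  have c11292 : (Sep p X0137) → (Sep p X0236) → (Sep p X0567) → False := htr _ _ _ (by decide)
  have c11300 : (Sep p X0137) → (Sep p X0345) → (Sep p X0567) → False := htr _ _ _ (by decide)
  have c11387 : (Sep p X0147) → (Sep p X0245) → (Sep p X0567) → False := htr _ _ _ (by decide)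
  have c11411 : (Sep p X0156) → (Sep p X0245) → (Sep p X0467) → False := htr _ _ _ (by decide)
  have c11435 : (Sep p X0157) → (Sep p X0245) → (Sep p X0467) → False := htr _ _ _ (by decide)
  have c11512 : (Sep p X0236) → (Sep p X0245) → (Sep p X0567) → False := htr _ _ _ (by decide)
  have c11522 : (Sep p X0236) → (Sep p X0345) → (Sep p X0567) → False := htr _ _ _ (by decide)
  have c11593 : (D (p 0) (p 1) (p 2) (p 3) < 0) → False := fun h => absurd (hull 2 3 (by decide) (by decide)) (not_lt.mpr h.le)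
  have c11594 : (D (p 0) (p 1) (p 2) (p 4) < 0) → False := fun h => absurd (hull 2 4 (by decide) (by decide)) (not_lt.mpr h.le)
  have c11595 : (D (p 0) (p 1) (p 2) (p 5) < 0) → False := fun h => absurd (hull 2 5 (by decide) (by decide)) (not_lt.mpr h.le)
  have c11597 : (D (p 0) (p 1) (p 2) (p 7) < 0) → False := fun h => absurd (hull 2 7 (by decide) (by decide)) (not_lt.mpr h.le)
  have c11598 : (D (p 0) (p 1) (p 3) (p 4) < 0) → False := fun h => absurd (hull 3 4 (by decide) (by decide)) (not_lt.mpr h.le)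
  have c11599 : (D (p 0) (p 1) (p 3) (p 5) < 0) → False := fun h => absurd (hull 3 5 (by decide) (by decide)) (not_lt.mpr h.le)
  have c11600 : (D (p 0) (p 1) (p 3) (p 6) < 0) → False := fun h => absurd (hull 3 6 (by decide) (by decide)) (not_lt.mpr h.le)
  have c11601 : (D (p 0) (p 1) (p 3) (p 7) < 0) → False := fun h => absurd (hull 3 7 (by decide) (by decide)) (not_lt.mpr h.le)
  have c11602 : (D (p 0) (p 1) (p 4) (p 5) < 0) → False := fun h => absurd (hull 4 5 (by decide) (by decide)) (not_lt.mpr h.le)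
  have c11603 : (D (p 0) (p 1) (p 4) (p 6) < 0) → False := fun h => absurd (hull 4 6 (by decide) (by decide)) (not_lt.mpr h.le)
  have c11604 : (D (p 0) (p 1) (p 4) (p 7) < 0) → False := fun h => absurd (hull 4 7 (by decide) (by decide)) (not_lt.mpr h.le)
  have c11605 : (D (p 0) (p 1) (p 5) (p 6) < 0) → False := fun h => absurd (hull 5 6 (by decide) (by decide)) (not_lt.mpr h.le)
  have c11606 : (D (p 0) (p 1) (p 5) (p 7) < 0) → False := fun h => absurd (hull 5 7 (by decide) (by decide)) (not_lt.mpr h.le)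
  have c11607 : (D (p 0) (p 1) (p 6) (p 7) < 0) → False := fun h => absurd (hull 6 7 (by decide) (by decide)) (not_lt.mpr h.le)
  have c11608 : (¬ Sep p X0123) → False := fun h0 => 
    have u0 : 0 < D (p 0) (p 1) (p 3) (p 7) := pos_of_nz z9 (fun x => c11601 x)
    have u1 : 0 < D (p 0) (p 1) (p 2) (p 3) := pos_of_nz z1 (fun x => c11593 x)
    have u2 : 0 < D (p 0) (p 1) (p 3) (p 4) := pos_of_nz z6 (fun x => c11598 x)
    have u3 : 0 < D (p 0) (p 1) (p 3) (p 5) := pos_of_nz z7 (fun x => c11599 x)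
    have u4 : 0 < D (p 0) (p 1) (p 3) (p 6) := pos_of_nz z8 (fun x => c11600 x)
    c6836 u1 u2 u3 u4 u0 h0
  have c11609 : (¬ Sep p X0234) → False := fun h0 => 
    have u0 : 0 < D (p 0) (p 1) (p 4) (p 7) := pos_of_nz z12 (fun x => c11604 x)
    have u1 : 0 < D (p 0) (p 1) (p 2) (p 4) := pos_of_nz z2 (fun x => c11594 x)
    have u2 : 0 < D (p 0) (p 1) (p 3) (p 4) := pos_of_nz z6 (fun x => c11598 x)
    have u3 : 0 < D (p 0) (p 1) (p 4) (p 5) := pos_of_nz z10 (fun x => c11602 x)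
    have u4 : 0 < D (p 0) (p 1) (p 4) (p 6) := pos_of_nz z11 (fun x => c11603 x)
    c8518 u1 u2 u3 u4 u0 h0
  have c11610 : (¬ Sep p X0567) → False := fun h0 => 
    have u0 : 0 < D (p 0) (p 1) (p 4) (p 7) := pos_of_nz z12 (fun x => c11604 x)
    have u1 : 0 < D (p 0) (p 1) (p 2) (p 4) := pos_of_nz z2 (fun x => c11594 x)
    have u2 : 0 < D (p 0) (p 1) (p 3) (p 4) := pos_of_nz z6 (fun x => c11598 x)
    have u3 : 0 < D (p 0) (p 1) (p 4) (p 5) := pos_of_nz z10 (fun x => c11602 x)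
    have u4 : 0 < D (p 0) (p 1) (p 4) (p 6) := pos_of_nz z11 (fun x => c11603 x)
    c10645 u1 u2 u3 u4 u0 h0
  have c11611 : (¬ Sep p X0167) → False := fun h0 => 
    have u0 : 0 < D (p 0) (p 1) (p 5) (p 7) := pos_of_nz z14 (fun x => c11606 x)
    have u1 : 0 < D (p 0) (p 1) (p 2) (p 5) := pos_of_nz z3 (fun x => c11595 x)
    have u2 : 0 < D (p 0) (p 1) (p 3) (p 5) := pos_of_nz z7 (fun x => c11599 x)
    have u3 : 0 < D (p 0) (p 1) (p 4) (p 5) := pos_of_nz z10 (fun x => c11602 x)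
    have u4 : 0 < D (p 0) (p 1) (p 5) (p 6) := pos_of_nz z13 (fun x => c11605 x)
    c8407 u1 u2 u3 u4 u0 h0
  have c11612 : (Sep p X0246) → False := fun h0 => 
    have u0 : Sep p X0167 := not_not.mp (fun x => c11611 x)
    have u1 : Sep p X0123 := not_not.mp (fun x => c11608 x)
    c10793 u1 u0 h0
  have c11613 : (Sep p X0247) → False := fun h0 => 
    have u0 : Sep p X0167 := not_not.mp (fun x => c11611 x)
    have u1 : Sep p X0123 := not_not.mp (fun x => c11608 x)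
    c10794 u1 u0 h0
  have c11614 : (Sep p X0256) → False := fun h0 => 
    have u0 : Sep p X0167 := not_not.mp (fun x => c11611 x)
    have u1 : Sep p X0123 := not_not.mp (fun x => c11608 x)
    c10795 u1 u0 h0
  have c11615 : (Sep p X0257) → False := fun h0 => 
    have u0 : Sep p X0167 := not_not.mp (fun x => c11611 x)
    have u1 : Sep p X0123 := not_not.mp (fun x => c11608 x)
    c10796 u1 u0 h0
  have c11616 : (Sep p X0346) → False := fun h0 => 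
    have u0 : Sep p X0167 := not_not.mp (fun x => c11611 x)
    have u1 : Sep p X0123 := not_not.mp (fun x => c11608 x)
    c10797 u1 u0 h0
  have c11617 : (Sep p X0347) → False := fun h0 => 
    have u0 : Sep p X0167 := not_not.mp (fun x => c11611 x)
    have u1 : Sep p X0123 := not_not.mp (fun x => c11608 x)
    c10798 u1 u0 h0
  have c11618 : (Sep p X0356) → False := fun h0 => 
    have u0 : Sep p X0167 := not_not.mp (fun x => c11611 x)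
    have u1 : Sep p X0123 := not_not.mp (fun x => c11608 x)
    c10799 u1 u0 h0
  have c11619 : (Sep p X0357) → False := fun h0 => 
    have u0 : Sep p X0167 := not_not.mp (fun x => c11611 x)
    have u1 : Sep p X0123 := not_not.mp (fun x => c11608 x)
    c10800 u1 u0 h0
  have c11620 : (0 < D (p 1) (p 3) (p 5) (p 7)) → (0 < D (p 2) (p 3) (p 5) (p 7)) → (¬ Sep p X0126) → (0 < D (p 3) (p 4) (p 5) (p 7)) → (0 < D (p 3) (p 5) (p 6) (p 7)) → False := fun h0 h1 h2 h3 h4 => 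
    have u0 : ¬ Sep p X0347 := (fun x => c11617 x)
    have u1 : D (p 0) (p 3) (p 5) (p 7) < 0 := neg_of_nz z30 (fun x => c7270 x h0 h1 h3 h4 h2)
    c9957 u1 h0 h1 h3 h4 u0
  have c11621 : (0 < D (p 2) (p 3) (p 5) (p 7)) → (0 < D (p 3) (p 4) (p 5) (p 7)) → (0 < D (p 3) (p 5) (p 6) (p 7)) → (¬ Sep p X0236) → (¬ Sep p X0134) → (¬ Sep p X0126) → False := fun h0 h1 h2 h3 h4 h5 => 
    have u0 : D (p 1) (p 3) (p 5) (p 7) < 0 := neg_of_nz z50 (fun x => c11620 x h0 h5 h1 h2)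
    have u1 : 0 < D (p 0) (p 3) (p 5) (p 7) := pos_of_nz z30 (fun x => c7493 x u0 h0 h1 h2 h4)
    c8838 u1 u0 h0 h1 h2 h3
  have c11622 : (D (p 1) (p 3) (p 5) (p 7) < 0) → (D (p 2) (p 3) (p 5) (p 7) < 0) → (¬ Sep p X0124) → (0 < D (p 3) (p 4) (p 5) (p 7)) → (0 < D (p 3) (p 5) (p 6) (p 7)) → False := fun h0 h1 h2 h3 h4 => 
    have u0 : ¬ Sep p X0356 := (fun x => c11618 x)
    have u1 : 0 < D (p 0) (p 3) (p 5) (p 7) := pos_of_nz z30 (fun x => c7045 x h0 h1 h3 h4 h2)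
    c10070 u1 h0 h1 h3 h4 u0
  have c11623 : (0 < D (p 1) (p 3) (p 5) (p 7)) → (D (p 2) (p 3) (p 5) (p 7) < 0) → (¬ Sep p X0136) → (0 < D (p 3) (p 4) (p 5) (p 7)) → (0 < D (p 3) (p 5) (p 6) (p 7)) → False := fun h0 h1 h2 h3 h4 => 
    have u0 : ¬ Sep p X0247 := (fun x => c11613 x)
    have u1 : D (p 0) (p 3) (p 5) (p 7) < 0 := neg_of_nz z30 (fun x => c7718 x h0 h1 h3 h4 h2)
    c9285 u1 h0 h1 h3 h4 u0
  have c11626 : (D (p 1) (p 3) (p 5) (p 7) < 0) → (D (p 2) (p 3) (p 5) (p 7) < 0) → (¬ Sep p X0125) → (D (p 3) (p 4) (p 5) (p 7) < 0) → (0 < D (p 3) (p 5) (p 6) (p 7)) → False := fun h0 h1 h2 h3 h4 => 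
    have u0 : ¬ Sep p X0346 := (fun x => c11616 x)
    have u1 : 0 < D (p 0) (p 3) (p 5) (p 7) := pos_of_nz z30 (fun x => c7157 x h0 h1 h3 h4 h2)
    c9846 u1 h0 h1 h3 h4 u0
  have c11628 : (D (p 1) (p 3) (p 5) (p 7) < 0) → (0 < D (p 2) (p 3) (p 5) (p 7)) → (¬ Sep p X0135) → (D (p 3) (p 4) (p 5) (p 7) < 0) → (0 < D (p 3) (p 5) (p 6) (p 7)) → False := fun h0 h1 h2 h3 h4 => 
    have u0 : ¬ Sep p X0246 := (fun x => c11612 x)
    have u1 : 0 < D (p 0) (p 3) (p 5) (p 7) := pos_of_nz z30 (fun x => c7605 x h0 h1 h3 h4 h2)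
    c9174 u1 h0 h1 h3 h4 u0
  have c11629 : (0 < D (p 1) (p 3) (p 4) (p 7)) → (0 < D (p 2) (p 3) (p 4) (p 7)) → (¬ Sep p X0126) → (D (p 3) (p 4) (p 5) (p 7) < 0) → (0 < D (p 3) (p 4) (p 6) (p 7)) → False := fun h0 h1 h2 h3 h4 => 
    have u0 : ¬ Sep p X0357 := (fun x => c11619 x)
    have u1 : D (p 0) (p 3) (p 4) (p 7) < 0 := neg_of_nz z28 (fun x => c7266 x h0 h1 h3 h4 h2)
    c10177 u1 h0 h1 h3 h4 u0
  have c11632 : (0 < D (p 1) (p 3) (p 4) (p 7)) → (D (p 2) (p 3) (p 4) (p 7) < 0) → (¬ Sep p X0136) → (D (p 3) (p 4) (p 5) (p 7) < 0) → (0 < D (p 3) (p 4) (p 6) (p 7)) → False := fun h0 h1 h2 h3 h4 => 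
    have u0 : ¬ Sep p X0257 := (fun x => c11615 x)
    have u1 : D (p 0) (p 3) (p 4) (p 7) < 0 := neg_of_nz z28 (fun x => c7714 x h0 h1 h3 h4 h2)
    c9505 u1 h0 h1 h3 h4 u0
  have c11634 : (0 < D (p 1) (p 3) (p 4) (p 7)) → (D (p 2) (p 3) (p 4) (p 7) < 0) → (¬ Sep p X0134) → (D (p 3) (p 4) (p 5) (p 7) < 0) → (D (p 3) (p 4) (p 6) (p 7) < 0) → False := fun h0 h1 h2 h3 h4 => 
    have u0 : ¬ Sep p X0256 := (fun x => c11614 x)
    have u1 : D (p 0) (p 3) (p 4) (p 7) < 0 := neg_of_nz z28 (fun x => c7490 x h0 h1 h3 h4 h2)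
    c9393 u1 h0 h1 h3 h4 u0
  have c11637 : (0 < D (p 1) (p 3) (p 4) (p 7)) → (0 < D (p 2) (p 3) (p 4) (p 7)) → (¬ Sep p X0124) → (D (p 3) (p 4) (p 5) (p 7) < 0) → (D (p 3) (p 4) (p 6) (p 7) < 0) → False := fun h0 h1 h2 h3 h4 => 
    have u0 : ¬ Sep p X0356 := (fun x => c11618 x)
    have u1 : D (p 0) (p 3) (p 4) (p 7) < 0 := neg_of_nz z28 (fun x => c7042 x h0 h1 h3 h4 h2)
    c10065 u1 h0 h1 h3 h4 u0
  have c11643 : (D (p 1) (p 3) (p 4) (p 7) < 0) → (D (p 2) (p 3) (p 4) (p 7) < 0) → (¬ Sep p X0126) → (0 < D (p 3) (p 4) (p 5) (p 7)) → (D (p 3) (p 4) (p 6) (p 7) < 0) → False := fun h0 h1 h2 h3 h4 => 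
    have u0 : ¬ Sep p X0357 := (fun x => c11619 x)
    have u1 : 0 < D (p 0) (p 3) (p 4) (p 7) := pos_of_nz z28 (fun x => c7265 x h0 h1 h3 h4 h2)
    c10178 u1 h0 h1 h3 h4 u0
  have c11646 : (D (p 1) (p 3) (p 4) (p 7) < 0) → (0 < D (p 2) (p 3) (p 4) (p 7)) → (¬ Sep p X0136) → (0 < D (p 3) (p 4) (p 5) (p 7)) → (D (p 3) (p 4) (p 6) (p 7) < 0) → False := fun h0 h1 h2 h3 h4 => 
    have u0 : ¬ Sep p X0257 := (fun x => c11615 x)
    have u1 : 0 < D (p 0) (p 3) (p 4) (p 7) := pos_of_nz z28 (fun x => c7713 x h0 h1 h3 h4 h2)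
    c9506 u1 h0 h1 h3 h4 u0
  have c11648 : (D (p 1) (p 3) (p 4) (p 7) < 0) → (0 < D (p 2) (p 3) (p 4) (p 7)) → (¬ Sep p X0134) → (0 < D (p 3) (p 4) (p 5) (p 7)) → (0 < D (p 3) (p 4) (p 6) (p 7)) → False := fun h0 h1 h2 h3 h4 => 
    have u0 : ¬ Sep p X0256 := (fun x => c11614 x)
    have u1 : 0 < D (p 0) (p 3) (p 4) (p 7) := pos_of_nz z28 (fun x => c7489 x h0 h1 h3 h4 h2)
    c9394 u1 h0 h1 h3 h4 u0
  have c11652 : (D (p 1) (p 3) (p 4) (p 7) < 0) → (D (p 2) (p 3) (p 4) (p 7) < 0) → (0 < D (p 3) (p 4) (p 6) (p 7)) → (0 < D (p 3) (p 4) (p 5) (p 7)) → (¬ Sep p X0124) → False := fun h0 h1 h2 h3 h4 => 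
    have u0 : ¬ Sep p X0356 := (fun x => c11618 x)
    have u1 : D (p 0) (p 3) (p 4) (p 7) < 0 := neg_of_nz z28 (fun x => c10066 x h0 h1 h3 h2 u0)
    c7041 u1 h0 h1 h3 h2 h4
  have c11654 : (0 < D (p 1) (p 4) (p 6) (p 7)) → (0 < D (p 1) (p 4) (p 5) (p 7)) → (0 < D (p 1) (p 3) (p 4) (p 7)) → (¬ Sep p X0156) → False := fun h0 h1 h2 h3 => 
    have u0 : 0 < D (p 0) (p 1) (p 4) (p 7) := pos_of_nz z12 (fun x => c11604 x)
    have u1 : ¬ Sep p X0256 := (fun x => c11614 x)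
    have u2 : D (p 1) (p 2) (p 4) (p 7) < 0 := neg_of_nz z42 (fun x => c8242 u0 x h2 h1 h0 h3)
    c9362 u0 u2 h2 h1 h0 u1
  have c11659 : (D (p 1) (p 3) (p 6) (p 7) < 0) → (D (p 1) (p 3) (p 5) (p 7) < 0) → (D (p 1) (p 3) (p 4) (p 7) < 0) → (Sep p X0467) → False := fun h0 h1 h2 h3 => 
    have u0 : Sep p X0234 := not_not.mp (fun x => c11609 x)
    have u1 : 0 < D (p 0) (p 1) (p 3) (p 7) := pos_of_nz z9 (fun x => c11601 x)
    have u2 : ¬ Sep p X0137 := (fun x => c11284 x u0 h3)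
    have u3 : ¬ Sep p X0127 := (fun x => c11092 x u0 h3)
    have u4 : D (p 1) (p 2) (p 3) (p 7) < 0 := neg_of_nz z39 (fun x => c7788 u1 x h2 h1 h0 u2)
    c7340 u1 u4 h2 h1 h0 u3
  have c11660 : (D (p 1) (p 3) (p 5) (p 7) < 0) → (D (p 1) (p 3) (p 4) (p 7) < 0) → (Sep p X0467) → False := fun h0 h1 h2 => 
    have u0 : Sep p X0234 := not_not.mp (fun x => c11609 x)
    have u1 : 0 < D (p 0) (p 1) (p 3) (p 7) := pos_of_nz z9 (fun x => c11601 x)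
    have u2 : ¬ Sep p X0136 := (fun x => c11236 x u0 h2)
    have u3 : ¬ Sep p X0126 := (fun x => c11020 x u0 h2)
    have u4 : 0 < D (p 1) (p 3) (p 6) (p 7) := pos_of_nz z51 (fun x => c11659 x h0 h1 h2)
    have u5 : D (p 1) (p 2) (p 3) (p 7) < 0 := neg_of_nz z39 (fun x => c7676 u1 x h1 h0 u4 u2)
    c7228 u1 u5 h1 h0 u4 u3
  have c11661 : (0 < D (p 1) (p 3) (p 6) (p 7)) → (D (p 1) (p 3) (p 4) (p 7) < 0) → (0 < D (p 1) (p 3) (p 5) (p 7)) → False := fun h0 h1 h2 => 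
    have u0 : 0 < D (p 0) (p 1) (p 3) (p 7) := pos_of_nz z9 (fun x => c11601 x)
    have u1 : ¬ Sep p X0356 := (fun x => c11618 x)
    have u2 : ¬ Sep p X0256 := (fun x => c11614 x)
    have u3 : 0 < D (p 1) (p 2) (p 3) (p 7) := pos_of_nz z39 (fun x => c9356 u0 x h1 h2 h0 u2)
    c10028 u0 u3 h1 h2 h0 u1
  have c11662 : (D (p 1) (p 3) (p 4) (p 7) < 0) → (Sep p X0457) → (Sep p X0467) → False := fun h0 h1 h2 => 
    have u0 : Sep p X0234 := not_not.mp (fun x => c11609 x)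
    have u1 : 0 < D (p 0) (p 1) (p 3) (p 7) := pos_of_nz z9 (fun x => c11601 x)
    have u2 : ¬ Sep p X0135 := (fun x => c11188 x u0 h1)
    have u3 : ¬ Sep p X0125 := (fun x => c10948 x u0 h1)
    have u4 : 0 < D (p 1) (p 3) (p 5) (p 7) := pos_of_nz z50 (fun x => c11660 x h0 h2)
    have u5 : D (p 1) (p 3) (p 6) (p 7) < 0 := neg_of_nz z51 (fun x => c11661 x h0 u4)
    have u6 : 0 < D (p 1) (p 2) (p 3) (p 7) := pos_of_nz z39 (fun x => c7116 u1 x h0 u4 u5 u3)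
    c7564 u1 u6 h0 u4 u5 u2
  have c11663 : (D (p 3) (p 4) (p 6) (p 7) < 0) → (D (p 3) (p 4) (p 5) (p 7) < 0) → (0 < D (p 1) (p 3) (p 4) (p 7)) → (¬ Sep p X0134) → (¬ Sep p X0124) → False := fun h0 h1 h2 h3 h4 => 
    have u0 : D (p 2) (p 3) (p 4) (p 7) < 0 := neg_of_nz z58 (fun x => c11637 h2 x h4 h1 h0)
    c11634 h2 u0 h3 h1 h0
  have c11664 : (D (p 3) (p 4) (p 5) (p 7) < 0) → (Sep p X0457) → (Sep p X0467) → False := fun h0 h1 h2 => 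
    have u0 : Sep p X0234 := not_not.mp (fun x => c11609 x)
    have u1 : Sep p X0167 := not_not.mp (fun x => c11611 x)
    have u2 : 0 < D (p 1) (p 3) (p 4) (p 7) := pos_of_nz z48 (fun x => c11662 x h1 h2)
    have u3 : ¬ Sep p X0134 := (fun x => c11136 x u1 h1)
    have u4 : ¬ Sep p X0124 := (fun x => c10872 x u1 h1)
    have u5 : ¬ Sep p X0136 := (fun x => c11236 x u0 h2)
    have u6 : ¬ Sep p X0126 := (fun x => c11020 x u0 h2)
    have u7 : 0 < D (p 3) (p 4) (p 6) (p 7) := pos_of_nz z68 (fun x => c11663 x h0 u2 u3 u4)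
    have u8 : 0 < D (p 2) (p 3) (p 4) (p 7) := pos_of_nz z58 (fun x => c11632 u2 x u5 h0 u7)
    c11629 u2 u8 u6 h0 u7
  have c11665 : (0 < D (p 3) (p 5) (p 6) (p 7)) → (0 < D (p 1) (p 3) (p 5) (p 7)) → (0 < D (p 3) (p 4) (p 5) (p 7)) → (Sep p X0467) → False := fun h0 h1 h2 h3 => 
    have u0 : Sep p X0234 := not_not.mp (fun x => c11609 x)
    have u1 : ¬ Sep p X0136 := (fun x => c11236 x u0 h3)
    have u2 : ¬ Sep p X0126 := (fun x => c11020 x u0 h3)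
    have u3 : D (p 2) (p 3) (p 5) (p 7) < 0 := neg_of_nz z60 (fun x => c11620 h1 x u2 h2 h0)
    c11623 h1 u3 u1 h2 h0
  have c11666 : (D (p 2) (p 3) (p 5) (p 7) < 0) → (0 < D (p 1) (p 3) (p 5) (p 7)) → (¬ Sep p X0135) → (0 < D (p 3) (p 4) (p 5) (p 7)) → (D (p 3) (p 5) (p 6) (p 7) < 0) → False := fun h0 h1 h2 h3 h4 => 
    have u0 : ¬ Sep p X0246 := (fun x => c11612 x)
    have u1 : D (p 0) (p 3) (p 5) (p 7) < 0 := neg_of_nz z30 (fun x => c7606 x h1 h0 h3 h4 h2)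
    c9173 u1 h1 h0 h3 h4 u0
  have c11667 : (0 < D (p 2) (p 3) (p 5) (p 7)) → (0 < D (p 1) (p 3) (p 5) (p 7)) → (¬ Sep p X0125) → (0 < D (p 3) (p 4) (p 5) (p 7)) → (D (p 3) (p 5) (p 6) (p 7) < 0) → False := fun h0 h1 h2 h3 h4 => 
    have u0 : ¬ Sep p X0346 := (fun x => c11616 x)
    have u1 : D (p 0) (p 3) (p 5) (p 7) < 0 := neg_of_nz z30 (fun x => c7158 x h1 h0 h3 h4 h2)
    c9845 u1 h1 h0 h3 h4 u0
  have c11668 : (0 < D (p 1) (p 3) (p 5) (p 7)) → (Sep p X0457) → (Sep p X0467) → False := fun h0 h1 h2 => 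
    have u0 : Sep p X0234 := not_not.mp (fun x => c11609 x)
    have u1 : 0 < D (p 3) (p 4) (p 5) (p 7) := pos_of_nz z67 (fun x => c11664 x h1 h2)
    have u2 : ¬ Sep p X0135 := (fun x => c11188 x u0 h1)
    have u3 : ¬ Sep p X0125 := (fun x => c10948 x u0 h1)
    have u4 : D (p 3) (p 5) (p 6) (p 7) < 0 := neg_of_nz z69 (fun x => c11665 x h0 u1 h2)
    have u5 : 0 < D (p 2) (p 3) (p 5) (p 7) := pos_of_nz z60 (fun x => c11666 x h0 u2 u1 u4)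
    c11667 u5 h0 u3 u1 u4
  have c11669 : (0 < D (p 1) (p 3) (p 6) (p 7)) → (D (p 1) (p 3) (p 5) (p 7) < 0) → (0 < D (p 1) (p 3) (p 4) (p 7)) → False := fun h0 h1 h2 => 
    have u0 : 0 < D (p 0) (p 1) (p 3) (p 7) := pos_of_nz z9 (fun x => c11601 x)
    have u1 : ¬ Sep p X0246 := (fun x => c11612 x)
    have u2 : ¬ Sep p X0346 := (fun x => c11616 x)
    have u3 : D (p 1) (p 2) (p 3) (p 7) < 0 := neg_of_nz z39 (fun x => c9804 u0 x h2 h1 h0 u2)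
    c9132 u0 u3 h2 h1 h0 u1
  have c11670 : (Sep p X0457) → (Sep p X0467) → False := fun h0 h1 => 
    have u0 : Sep p X0167 := not_not.mp (fun x => c11611 x)
    have u1 : 0 < D (p 0) (p 1) (p 3) (p 7) := pos_of_nz z9 (fun x => c11601 x)
    have u2 : ¬ Sep p X0124 := (fun x => c10872 x u0 h0)
    have u3 : ¬ Sep p X0134 := (fun x => c11136 x u0 h0)
    have u4 : 0 < D (p 1) (p 3) (p 4) (p 7) := pos_of_nz z48 (fun x => c11662 x h0 h1)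
    have u5 : D (p 1) (p 3) (p 5) (p 7) < 0 := neg_of_nz z50 (fun x => c11668 x h0 h1)
    have u6 : D (p 1) (p 3) (p 6) (p 7) < 0 := neg_of_nz z51 (fun x => c11669 x u5 u4)
    have u7 : D (p 1) (p 2) (p 3) (p 7) < 0 := neg_of_nz z39 (fun x => c7452 u1 x u4 u5 u6 u3)
    c7004 u1 u7 u4 u5 u6 u2
  have c11671 : (D (p 1) (p 3) (p 6) (p 7) < 0) → (D (p 1) (p 3) (p 5) (p 7) < 0) → (0 < D (p 1) (p 3) (p 4) (p 7)) → False := fun h0 h1 h2 => 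
    have u0 : 0 < D (p 0) (p 1) (p 3) (p 7) := pos_of_nz z9 (fun x => c11601 x)
    have u1 : ¬ Sep p X0247 := (fun x => c11613 x)
    have u2 : ¬ Sep p X0347 := (fun x => c11617 x)
    have u3 : D (p 1) (p 2) (p 3) (p 7) < 0 := neg_of_nz z39 (fun x => c9916 u0 x h2 h1 h0 u2)
    c9244 u0 u3 h2 h1 h0 u1
  have c11672 : (D (p 1) (p 3) (p 5) (p 7) < 0) → (0 < D (p 1) (p 3) (p 4) (p 7)) → False := fun h0 h1 => 
    have u0 : D (p 1) (p 3) (p 6) (p 7) < 0 := neg_of_nz z51 (fun x => c11669 x h0 h1)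
    c11671 u0 h0 h1
  have c11673 : (D (p 1) (p 3) (p 5) (p 7) < 0) → (Sep p X0467) → False := fun h0 h1 => 
    have u0 : 0 < D (p 1) (p 3) (p 4) (p 7) := pos_of_nz z48 (fun x => c11660 h0 x h1)
    c11672 h0 u0
  have c11674 : (0 < D (p 1) (p 4) (p 5) (p 7)) → (¬ Sep p X0157) → (0 < D (p 1) (p 3) (p 4) (p 7)) → (D (p 1) (p 4) (p 6) (p 7) < 0) → False := fun h0 h1 h2 h3 => 
    have u0 : 0 < D (p 0) (p 1) (p 4) (p 7) := pos_of_nz z12 (fun x => c11604 x)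
    have u1 : ¬ Sep p X0257 := (fun x => c11615 x)
    have u2 : D (p 1) (p 2) (p 4) (p 7) < 0 := neg_of_nz z42 (fun x => c8354 u0 x h2 h0 h3 h1)
    c9474 u0 u2 h2 h0 h3 u1
  have c11675 : (D (p 1) (p 4) (p 5) (p 7) < 0) → (¬ Sep p X0147) → (0 < D (p 1) (p 3) (p 5) (p 7)) → (D (p 1) (p 5) (p 6) (p 7) < 0) → False := fun h0 h1 h2 h3 => 
    have u0 : 0 < D (p 0) (p 1) (p 5) (p 7) := pos_of_nz z14 (fun x => c11606 x)
    have u1 : ¬ Sep p X0247 := (fun x => c11613 x)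
    have u2 : D (p 1) (p 2) (p 5) (p 7) < 0 := neg_of_nz z44 (fun x => c8134 u0 x h2 h0 h3 h1)
    c9254 u0 u2 h2 h0 h3 u1
  have c11676 : (D (p 1) (p 3) (p 6) (p 7) < 0) → (0 < D (p 1) (p 3) (p 4) (p 7)) → (Sep p X0467) → False := fun h0 h1 h2 => 
    have u0 : 0 < D (p 0) (p 1) (p 4) (p 7) := pos_of_nz z12 (fun x => c11604 x)
    have u1 : 0 < D (p 0) (p 1) (p 6) (p 7) := pos_of_nz z15 (fun x => c11607 x)
    have u2 : 0 < D (p 0) (p 1) (p 5) (p 7) := pos_of_nz z14 (fun x => c11606 x)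
    have u3 : 0 < D (p 0) (p 1) (p 3) (p 7) := pos_of_nz z9 (fun x => c11601 x)
    have u4 : Sep p X0567 := not_not.mp (fun x => c11610 x)
    have u5 : 0 < D (p 1) (p 3) (p 5) (p 7) := pos_of_nz z50 (fun x => c11673 x h2)
    have u6 : ¬ Sep p X0457 := (fun x => c11670 x h2)
    have u7 : D (p 1) (p 4) (p 6) (p 7) < 0 := neg_of_nz z54 (fun x => c3008 u3 x u0 h0 u1 h1)
    have u8 : D (p 1) (p 5) (p 6) (p 7) < 0 := neg_of_nz z55 (fun x => c3024 u3 x u2 h0 u1 u5)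
    have u9 : D (p 1) (p 2) (p 3) (p 7) < 0 := neg_of_nz z39 (fun x => c10476 u3 x h1 u5 h0 u6)
    have u10 : Sep p X0245 := not_not.mp (fun x => c9020 u3 u9 h1 u5 h0 x)
    have u11 : ¬ Sep p X0147 := (fun x => c11387 x u10 u4)
    have u12 : ¬ Sep p X0157 := (fun x => c11435 x u10 h2)
    have u13 : D (p 1) (p 4) (p 5) (p 7) < 0 := neg_of_nz z53 (fun x => c11674 x u12 h1 u7)
    c11675 u13 u11 u5 u8
  have c11677 : (D (p 1) (p 2) (p 3) (p 4) < 0) → (¬ Sep p X0124) → (0 < D (p 1) (p 3) (p 4) (p 5)) → (0 < D (p 1) (p 3) (p 4) (p 7)) → (¬ Sep p X0126) → False := fun h0 h1 h2 h3 h4 => 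
    have u0 : 0 < D (p 0) (p 1) (p 3) (p 4) := pos_of_nz z6 (fun x => c11598 x)
    have u1 : 0 < D (p 1) (p 3) (p 4) (p 6) := pos_of_nz z47 (fun x => c7222 u0 h0 h2 x h3 h4)
    c6998 u0 h0 h2 u1 h3 h1
  have c11678 : (Sep p X0456) → (0 < D (p 1) (p 3) (p 4) (p 5)) → (0 < D (p 1) (p 3) (p 4) (p 7)) → (Sep p X0467) → False := fun h0 h1 h2 h3 => 
    have u0 : Sep p X0234 := not_not.mp (fun x => c11609 x)
    have u1 : Sep p X0167 := not_not.mp (fun x => c11611 x)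
    have u2 : 0 < D (p 0) (p 1) (p 3) (p 4) := pos_of_nz z6 (fun x => c11598 x)
    have u3 : ¬ Sep p X0136 := (fun x => c11236 x u0 h3)
    have u4 : ¬ Sep p X0126 := (fun x => c11020 x u0 h3)
    have u5 : ¬ Sep p X0124 := (fun x => c10871 x u1 h0)
    have u6 : ¬ Sep p X0134 := (fun x => c11135 x u1 h0)
    have u7 : 0 < D (p 1) (p 2) (p 3) (p 4) := pos_of_nz z36 (fun x => c11677 x u5 h1 h2 u4)
    have u8 : D (p 1) (p 3) (p 4) (p 6) < 0 := neg_of_nz z47 (fun x => c7446 u2 u7 h1 x h2 u6)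
    c7670 u2 u7 h1 u8 h2 u3
  have c11679 : (D (p 1) (p 4) (p 5) (p 7) < 0) → (0 < D (p 1) (p 3) (p 4) (p 7)) → (Sep p X0467) → False := fun h0 h1 h2 => 
    have u0 : 0 < D (p 0) (p 1) (p 4) (p 7) := pos_of_nz z12 (fun x => c11604 x)
    have u1 : 0 < D (p 0) (p 1) (p 4) (p 5) := pos_of_nz z10 (fun x => c11602 x)
    have u2 : 0 < D (p 0) (p 1) (p 3) (p 4) := pos_of_nz z6 (fun x => c11598 x)
    have u3 : 0 < D (p 0) (p 1) (p 3) (p 7) := pos_of_nz z9 (fun x => c11601 x)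
    have u4 : 0 < D (p 0) (p 1) (p 2) (p 3) := pos_of_nz z1 (fun x => c11593 x)
    have u5 : 0 < D (p 0) (p 1) (p 3) (p 5) := pos_of_nz z7 (fun x => c11599 x)
    have u6 : Sep p X0567 := not_not.mp (fun x => c11610 x)
    have u7 : ¬ Sep p X0246 := (fun x => c11612 x)
    have u8 : 0 < D (p 0) (p 1) (p 5) (p 7) := pos_of_nz z14 (fun x => c11606 x)
    have u9 : 0 < D (p 1) (p 3) (p 6) (p 7) := pos_of_nz z51 (fun x => c11676 x h1 h2)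
    have u10 : 0 < D (p 1) (p 3) (p 5) (p 7) := pos_of_nz z50 (fun x => c11673 x h2)
    have u11 : 0 < D (p 1) (p 3) (p 4) (p 5) := pos_of_nz z46 (fun x => c2277 u2 h0 u1 h1 u0 x)
    have u12 : ¬ Sep p X0456 := (fun x => c11678 x u11 h1 h2)
    have u13 : D (p 1) (p 2) (p 3) (p 7) < 0 := neg_of_nz z39 (fun x => c10364 u3 x h1 u10 u9 u12)
    have u14 : D (p 1) (p 2) (p 3) (p 5) < 0 := neg_of_nz z37 (fun x => c1997 u4 u10 u5 u13 u3 x)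
    have u15 : 0 < D (p 1) (p 3) (p 5) (p 6) := pos_of_nz z49 (fun x => c9128 u5 u14 u11 x u10 u7)
    have u16 : Sep p X0245 := not_not.mp (fun x => c9016 u5 u14 u11 u15 u10 x)
    have u17 : ¬ Sep p X0147 := (fun x => c11387 x u16 u6)
    have u18 : 0 < D (p 1) (p 5) (p 6) (p 7) := pos_of_nz z55 (fun x => c11675 h0 u17 u10 x)
    have u19 : 0 < D (p 1) (p 2) (p 5) (p 7) := pos_of_nz z44 (fun x => c9142 u8 x u10 h0 u18 u7)
    c10374 u8 u19 u10 h0 u18 u12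
  have c11680 : (Sep p X0124) → (0 < D (p 1) (p 3) (p 4) (p 7)) → (Sep p X0467) → False := fun h0 h1 h2 => 
    have u0 : 0 < D (p 1) (p 4) (p 5) (p 7) := pos_of_nz z53 (fun x => c11679 x h1 h2)
    have u1 : ¬ Sep p X0156 := (fun x => c10856 h0 x h2)
    have u2 : ¬ Sep p X0157 := (fun x => c10864 h0 x h2)
    have u3 : D (p 1) (p 4) (p 6) (p 7) < 0 := neg_of_nz z54 (fun x => c11654 x u0 h1 u1)
    c11674 u0 u2 h1 u3
  have c11681 : (0 < D (p 1) (p 3) (p 4) (p 5)) → (0 < D (p 1) (p 3) (p 4) (p 7)) → (Sep p X0467) → False := fun h0 h1 h2 => 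
    have u0 : Sep p X0234 := not_not.mp (fun x => c11609 x)
    have u1 : 0 < D (p 0) (p 1) (p 3) (p 7) := pos_of_nz z9 (fun x => c11601 x)
    have u2 : 0 < D (p 0) (p 1) (p 3) (p 4) := pos_of_nz z6 (fun x => c11598 x)
    have u3 : 0 < D (p 0) (p 1) (p 2) (p 3) := pos_of_nz z1 (fun x => c11593 x)
    have u4 : ¬ Sep p X0124 := (fun x => c11680 x h1 h2)
    have u5 : 0 < D (p 1) (p 3) (p 6) (p 7) := pos_of_nz z51 (fun x => c11676 x h1 h2)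
    have u6 : 0 < D (p 1) (p 3) (p 5) (p 7) := pos_of_nz z50 (fun x => c11673 x h2)
    have u7 : ¬ Sep p X0126 := (fun x => c11020 x u0 h2)
    have u8 : ¬ Sep p X0456 := (fun x => c11678 x h0 h1 h2)
    have u9 : 0 < D (p 1) (p 2) (p 3) (p 4) := pos_of_nz z36 (fun x => c11677 x u4 h0 h1 u7)
    have u10 : D (p 1) (p 2) (p 3) (p 7) < 0 := neg_of_nz z39 (fun x => c10364 u1 x h1 u6 u5 u8)
    c1965 u3 h1 u2 u10 u1 u9
  have c11682 : (0 < D (p 1) (p 2) (p 3) (p 4)) → (D (p 1) (p 3) (p 4) (p 5) < 0) → (0 < D (p 1) (p 3) (p 6) (p 7)) → (0 < D (p 1) (p 3) (p 4) (p 7)) → (0 < D (p 1) (p 3) (p 5) (p 7)) → False := fun h0 h1 h2 h3 h4 => 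
    have u0 : 0 < D (p 0) (p 1) (p 2) (p 3) := pos_of_nz z1 (fun x => c11593 x)
    have u1 : ¬ Sep p X0356 := (fun x => c11618 x)
    have u2 : 0 < D (p 0) (p 1) (p 3) (p 7) := pos_of_nz z9 (fun x => c11601 x)
    have u3 : 0 < D (p 0) (p 1) (p 3) (p 4) := pos_of_nz z6 (fun x => c11598 x)
    have u4 : Sep p X0234 := not_not.mp (fun x => c11609 x)
    have u5 : 0 < D (p 1) (p 2) (p 3) (p 7) := pos_of_nz z39 (fun x => c1965 u0 h3 u3 x u2 h0)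
    have u6 : 0 < D (p 1) (p 3) (p 4) (p 6) := pos_of_nz z47 (fun x => c10022 u3 h0 h1 x h3 u1)
    have u7 : Sep p X0456 := not_not.mp (fun x => c10364 u2 u5 h3 h4 h2 x)
    have u8 : Sep p X0135 := not_not.mp (fun x => c7558 u3 h0 h1 u6 h3 x)
    c11187 u8 u4 u7
  have c11683 : (0 < D (p 1) (p 3) (p 4) (p 7)) → (Sep p X0467) → False := fun h0 h1 => 
    have u0 : ¬ Sep p X0256 := (fun x => c11614 x)
    have u1 : 0 < D (p 0) (p 1) (p 3) (p 4) := pos_of_nz z6 (fun x => c11598 x)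
    have u2 : 0 < D (p 1) (p 3) (p 5) (p 7) := pos_of_nz z50 (fun x => c11673 x h1)
    have u3 : 0 < D (p 1) (p 3) (p 6) (p 7) := pos_of_nz z51 (fun x => c11676 x h0 h1)
    have u4 : 0 < D (p 1) (p 4) (p 5) (p 7) := pos_of_nz z53 (fun x => c11679 x h0 h1)
    have u5 : D (p 1) (p 3) (p 4) (p 5) < 0 := neg_of_nz z46 (fun x => c11681 x h0 h1)
    have u6 : D (p 1) (p 2) (p 3) (p 4) < 0 := neg_of_nz z36 (fun x => c11682 x u5 u3 h0 u2)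
    have u7 : 0 < D (p 1) (p 3) (p 4) (p 6) := pos_of_nz z47 (fun x => c9350 u1 u6 u5 x h0 u0)
    have u8 : Sep p X0245 := not_not.mp (fun x => c9014 u1 u6 u5 u7 h0 x)
    have u9 : ¬ Sep p X0156 := (fun x => c11411 x u8 h1)
    have u10 : ¬ Sep p X0157 := (fun x => c11435 x u8 h1)
    have u11 : D (p 1) (p 4) (p 6) (p 7) < 0 := neg_of_nz z54 (fun x => c11654 x u4 h0 u9)
    c11674 u4 u10 h0 u11
  have c11684 : (D (p 1) (p 3) (p 6) (p 7) < 0) → (D (p 1) (p 3) (p 4) (p 7) < 0) → (0 < D (p 1) (p 3) (p 5) (p 7)) → False := fun h0 h1 h2 => 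
    have u0 : 0 < D (p 0) (p 1) (p 3) (p 7) := pos_of_nz z9 (fun x => c11601 x)
    have u1 : ¬ Sep p X0357 := (fun x => c11619 x)
    have u2 : ¬ Sep p X0257 := (fun x => c11615 x)
    have u3 : 0 < D (p 1) (p 2) (p 3) (p 7) := pos_of_nz z39 (fun x => c9468 u0 x h1 h2 h0 u2)
    c10140 u0 u3 h1 h2 h0 u1
  have c11685 : (D (p 1) (p 3) (p 4) (p 7) < 0) → (0 < D (p 1) (p 3) (p 5) (p 7)) → False := fun h0 h1 => 
    have u0 : D (p 1) (p 3) (p 6) (p 7) < 0 := neg_of_nz z51 (fun x => c11661 x h0 h1)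
    c11684 u0 h0 h1
  have c11686 : (Sep p X0467) → False := fun h0 => 
    have u0 : 0 < D (p 1) (p 3) (p 5) (p 7) := pos_of_nz z50 (fun x => c11673 x h0)
    have u1 : D (p 1) (p 3) (p 4) (p 7) < 0 := neg_of_nz z48 (fun x => c11683 x h0)
    c11685 u1 u0
  have c11687 : (D (p 1) (p 4) (p 6) (p 7) < 0) → (0 < D (p 1) (p 4) (p 5) (p 7)) → (Sep p X0137) → (D (p 1) (p 3) (p 4) (p 7) < 0) → False := fun h0 h1 h2 h3 => 
    have u0 : Sep p X0567 := not_not.mp (fun x => c11610 x)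
    have u1 : 0 < D (p 0) (p 1) (p 4) (p 7) := pos_of_nz z12 (fun x => c11604 x)
    have u2 : ¬ Sep p X0345 := (fun x => c11300 h2 x u0)
    have u3 : ¬ Sep p X0235 := (fun x => c11288 h2 x u0)
    have u4 : D (p 1) (p 2) (p 4) (p 7) < 0 := neg_of_nz z42 (fun x => c9698 u1 x h3 h1 h0 u2)
    c8690 u1 u4 h3 h1 h0 u3
  have c11688 : (0 < D (p 1) (p 4) (p 5) (p 7)) → (D (p 1) (p 3) (p 4) (p 5) < 0) → (Sep p X0137) → (D (p 1) (p 3) (p 4) (p 7) < 0) → False := fun h0 h1 h2 h3 => 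
    have u0 : Sep p X0567 := not_not.mp (fun x => c11610 x)
    have u1 : ¬ Sep p X0356 := (fun x => c11618 x)
    have u2 : 0 < D (p 0) (p 1) (p 4) (p 7) := pos_of_nz z12 (fun x => c11604 x)
    have u3 : 0 < D (p 0) (p 1) (p 2) (p 4) := pos_of_nz z2 (fun x => c11594 x)
    have u4 : 0 < D (p 0) (p 1) (p 4) (p 5) := pos_of_nz z10 (fun x => c11602 x)
    have u5 : ¬ Sep p X0236 := (fun x => c11292 h2 x u0)
    have u6 : ¬ Sep p X0235 := (fun x => c11288 h2 x u0)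
    have u7 : 0 < D (p 1) (p 4) (p 6) (p 7) := pos_of_nz z54 (fun x => c11687 x h0 h2 h3)
    have u8 : D (p 1) (p 2) (p 4) (p 7) < 0 := neg_of_nz z42 (fun x => c10034 u2 x h3 h0 u7 u1)
    have u9 : D (p 1) (p 2) (p 4) (p 5) < 0 := neg_of_nz z40 (fun x => c2237 u3 h0 u4 u8 u2 x)
    have u10 : D (p 1) (p 4) (p 5) (p 6) < 0 := neg_of_nz z52 (fun x => c8686 u4 u9 h1 x h0 u6)
    c8798 u4 u9 h1 u10 h0 u5
  have c11689 : (0 < D (p 1) (p 4) (p 6) (p 7)) → (D (p 1) (p 4) (p 5) (p 7) < 0) → (D (p 1) (p 3) (p 4) (p 7) < 0) → (¬ Sep p X0236) → False := fun h0 h1 h2 h3 => 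
    have u0 : 0 < D (p 0) (p 1) (p 4) (p 7) := pos_of_nz z12 (fun x => c11604 x)
    have u1 : ¬ Sep p X0346 := (fun x => c11616 x)
    have u2 : 0 < D (p 1) (p 2) (p 4) (p 7) := pos_of_nz z42 (fun x => c8802 u0 x h2 h1 h0 h3)
    c9810 u0 u2 h2 h1 h0 u1
  have c11690 : (0 < D (p 2) (p 3) (p 5) (p 7)) → (D (p 3) (p 5) (p 6) (p 7) < 0) → (0 < D (p 3) (p 4) (p 5) (p 7)) → (¬ Sep p X0146) → (D (p 1) (p 3) (p 5) (p 7) < 0) → False := fun h0 h1 h2 h3 h4 => 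
    have u0 : ¬ Sep p X0257 := (fun x => c11615 x)
    have u1 : D (p 0) (p 3) (p 5) (p 7) < 0 := neg_of_nz z30 (fun x => c9510 x h4 h0 h2 h1 u0)
    c8053 u1 h4 h0 h2 h1 h3
  have c11691 : (0 < D (p 0) (p 2) (p 3) (p 5)) → (D (p 0) (p 3) (p 4) (p 5) < 0) → (¬ Sep p X0124) → (D (p 0) (p 3) (p 5) (p 7) < 0) → False := fun h0 h1 h2 h3 => 
    have u0 : 0 < D (p 0) (p 1) (p 3) (p 5) := pos_of_nz z7 (fun x => c11599 x)
    have u1 : ¬ Sep p X0357 := (fun x => c11619 x)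
    have u2 : 0 < D (p 0) (p 3) (p 5) (p 6) := pos_of_nz z29 (fun x => c6969 u0 h0 h1 x h3 h2)
    c10106 u0 h0 h1 u2 h3 u1
  have c11692 : (D (p 3) (p 5) (p 6) (p 7) < 0) → (0 < D (p 3) (p 4) (p 5) (p 7)) → (¬ Sep p X0124) → (D (p 1) (p 3) (p 4) (p 5) < 0) → (¬ Sep p X0146) → (0 < D (p 1) (p 2) (p 3) (p 5)) → (D (p 1) (p 3) (p 5) (p 7) < 0) → False := fun h0 h1 h2 h3 h4 h5 h6 => 
    have u0 : ¬ Sep p X0357 := (fun x => c11619 x)
    have u1 : 0 < D (p 0) (p 1) (p 3) (p 5) := pos_of_nz z7 (fun x => c11599 x)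
    have u2 : D (p 2) (p 3) (p 5) (p 7) < 0 := neg_of_nz z60 (fun x => c11690 x h0 h1 h4 h6)
    have u3 : D (p 0) (p 3) (p 5) (p 7) < 0 := neg_of_nz z30 (fun x => c10182 x h6 u2 h1 h0 u0)
    have u4 : 0 < D (p 0) (p 2) (p 3) (p 5) := pos_of_nz z17 (fun x => c4604 u1 u2 x h6 u3 h5)
    have u5 : D (p 0) (p 3) (p 4) (p 5) < 0 := neg_of_nz z26 (fun x => c4636 u1 h1 x h6 u3 h3)
    c11691 u4 u5 h2 u3
  have c11693 : (0 < D (p 3) (p 4) (p 5) (p 7)) → (¬ Sep p X0134) → (¬ Sep p X0124) → (D (p 1) (p 3) (p 4) (p 5) < 0) → (¬ Sep p X0236) → (¬ Sep p X0146) → (¬ Sep p X0126) → (0 < D (p 1) (p 2) (p 3) (p 5)) → (D (p 1) (p 3) (p 5) (p 7) < 0) → False := fun h0 h1 h2 h3 h4 h5 h6 h7 h8 => 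
    have u0 : 0 < D (p 3) (p 5) (p 6) (p 7) := pos_of_nz z69 (fun x => c11692 x h0 h2 h3 h5 h7 h8)
    have u1 : D (p 2) (p 3) (p 5) (p 7) < 0 := neg_of_nz z60 (fun x => c11621 x h0 u0 h4 h1 h6)
    c11622 h8 u1 h2 h0 u0
  have c11694 : (0 < D (p 3) (p 5) (p 6) (p 7)) → (D (p 3) (p 4) (p 5) (p 7) < 0) → (¬ Sep p X0135) → (¬ Sep p X0125) → (D (p 1) (p 3) (p 5) (p 7) < 0) → False := fun h0 h1 h2 h3 h4 => 
    have u0 : 0 < D (p 2) (p 3) (p 5) (p 7) := pos_of_nz z60 (fun x => c11626 h4 x h3 h1 h0)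
    c11628 h4 u0 h2 h1 h0
  have c11695 : (0 < D (p 2) (p 3) (p 5) (p 7)) → (¬ Sep p X0136) → (D (p 1) (p 3) (p 5) (p 7) < 0) → (D (p 3) (p 4) (p 5) (p 7) < 0) → (D (p 3) (p 5) (p 6) (p 7) < 0) → False := fun h0 h1 h2 h3 h4 => 
    have u0 : ¬ Sep p X0247 := (fun x => c11613 x)
    have u1 : 0 < D (p 0) (p 3) (p 5) (p 7) := pos_of_nz z30 (fun x => c7717 x h2 h0 h3 h4 h1)
    c9286 u1 h2 h0 h3 h4 u0
  have c11696 : (D (p 2) (p 3) (p 5) (p 7) < 0) → (D (p 3) (p 4) (p 5) (p 7) < 0) → (D (p 1) (p 3) (p 5) (p 7) < 0) → (¬ Sep p X0126) → (D (p 3) (p 5) (p 6) (p 7) < 0) → False := fun h0 h1 h2 h3 h4 => 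
    have u0 : ¬ Sep p X0347 := (fun x => c11617 x)
    have u1 : 0 < D (p 0) (p 3) (p 5) (p 7) := pos_of_nz z30 (fun x => c7269 x h2 h0 h1 h4 h3)
    c9958 u1 h2 h0 h1 h4 u0
  have c11697 : (D (p 1) (p 3) (p 4) (p 5) < 0) → (Sep p X0137) → (0 < D (p 1) (p 2) (p 3) (p 5)) → (D (p 1) (p 3) (p 4) (p 7) < 0) → False := fun h0 h1 h2 h3 => 
    have u0 : Sep p X0234 := not_not.mp (fun x => c11609 x)
    have u1 : ¬ Sep p X0347 := (fun x => c11617 x)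
    have u2 : 0 < D (p 0) (p 1) (p 4) (p 7) := pos_of_nz z12 (fun x => c11604 x)
    have u3 : Sep p X0567 := not_not.mp (fun x => c11610 x)
    have u4 : Sep p X0167 := not_not.mp (fun x => c11611 x)
    have u5 : ¬ Sep p X0236 := (fun x => c11292 h1 x u3)
    have u6 : ¬ Sep p X0146 := (fun x => c11265 h1 x u0)
    have u7 : ¬ Sep p X0126 := (fun x => c10985 x h1 u0)
    have u8 : ¬ Sep p X0125 := (fun x => c10913 x h1 u0)
    have u9 : D (p 1) (p 3) (p 5) (p 7) < 0 := neg_of_nz z50 (fun x => c11685 h3 x)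
    have u10 : D (p 1) (p 4) (p 5) (p 7) < 0 := neg_of_nz z53 (fun x => c11688 x h0 h1 h3)
    have u11 : D (p 1) (p 4) (p 6) (p 7) < 0 := neg_of_nz z54 (fun x => c11689 x u10 h3 u5)
    have u12 : D (p 1) (p 2) (p 4) (p 7) < 0 := neg_of_nz z42 (fun x => c9922 u2 x h3 u10 u11 u1)
    have u13 : Sep p X0237 := not_not.mp (fun x => c8914 u2 u12 h3 u10 u11 x)
    have u14 : ¬ Sep p X0135 := (fun x => c11196 x u13 u3)
    have u15 : ¬ Sep p X0136 := (fun x => c11244 x u13 u3)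
    have u16 : ¬ Sep p X0124 := (fun x => c10866 x u4 u13)
    have u17 : ¬ Sep p X0134 := (fun x => c11130 x u4 u13)
    have u18 : D (p 3) (p 4) (p 5) (p 7) < 0 := neg_of_nz z67 (fun x => c11693 x u17 u16 h0 u5 u6 u7 h2 u9)
    have u19 : D (p 3) (p 5) (p 6) (p 7) < 0 := neg_of_nz z69 (fun x => c11694 x u18 u14 u8 u9)
    have u20 : D (p 2) (p 3) (p 5) (p 7) < 0 := neg_of_nz z60 (fun x => c11695 x u15 u9 u18 u19)
    c11696 u20 u18 u9 u7 u19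
  have c11698 : (0 < D (p 1) (p 3) (p 4) (p 5)) → (0 < D (p 1) (p 2) (p 3) (p 5)) → (D (p 1) (p 3) (p 5) (p 7) < 0) → False := fun h0 h1 h2 => 
    have u0 : 0 < D (p 0) (p 1) (p 3) (p 5) := pos_of_nz z7 (fun x => c11599 x)
    have u1 : ¬ Sep p X0467 := (fun x => c11686 x)
    have u2 : ¬ Sep p X0347 := (fun x => c11617 x)
    have u3 : D (p 1) (p 3) (p 5) (p 6) < 0 := neg_of_nz z49 (fun x => c9912 u0 h1 h0 x h2 u2)
    c10584 u0 h1 h0 u3 h2 u1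
  have c11699 : (0 < D (p 1) (p 2) (p 3) (p 7)) → (D (p 1) (p 3) (p 6) (p 7) < 0) → (D (p 1) (p 3) (p 4) (p 7) < 0) → False := fun h0 h1 h2 => 
    have u0 : 0 < D (p 0) (p 1) (p 3) (p 5) := pos_of_nz z7 (fun x => c11599 x)
    have u1 : 0 < D (p 0) (p 1) (p 2) (p 3) := pos_of_nz z1 (fun x => c11593 x)
    have u2 : 0 < D (p 0) (p 1) (p 3) (p 7) := pos_of_nz z9 (fun x => c11601 x)
    have u3 : D (p 1) (p 3) (p 5) (p 7) < 0 := neg_of_nz z50 (fun x => c11685 h2 x)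
    have u4 : 0 < D (p 1) (p 2) (p 3) (p 5) := pos_of_nz z37 (fun x => c1989 u1 u3 u0 h0 u2 x)
    have u5 : Sep p X0137 := not_not.mp (fun x => c7788 u2 h0 h2 u3 h1 x)
    have u6 : 0 < D (p 1) (p 3) (p 4) (p 5) := pos_of_nz z46 (fun x => c11697 x u5 u4 h2)
    c11698 u6 u4 u3
  have c11700 : (D (p 3) (p 4) (p 5) (p 7) < 0) → (¬ Sep p X0126) → (¬ Sep p X0125) → (¬ Sep p X0136) → (¬ Sep p X0135) → (D (p 1) (p 3) (p 5) (p 7) < 0) → False := fun h0 h1 h2 h3 h4 h5 => 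
    have u0 : D (p 3) (p 5) (p 6) (p 7) < 0 := neg_of_nz z69 (fun x => c11694 x h0 h4 h2 h5)
    have u1 : 0 < D (p 2) (p 3) (p 5) (p 7) := pos_of_nz z60 (fun x => c11696 x h0 h5 h1 u0)
    c11695 u1 h3 h5 h0 u0
  have c11701 : (D (p 2) (p 3) (p 4) (p 7) < 0) → (D (p 1) (p 3) (p 6) (p 7) < 0) → (D (p 1) (p 3) (p 4) (p 7) < 0) → False := fun h0 h1 h2 => 
    have u0 : Sep p X0167 := not_not.mp (fun x => c11611 x)
    have u1 : Sep p X0567 := not_not.mp (fun x => c11610 x)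
    have u2 : 0 < D (p 0) (p 1) (p 3) (p 7) := pos_of_nz z9 (fun x => c11601 x)
    have u3 : Sep p X0234 := not_not.mp (fun x => c11609 x)
    have u4 : D (p 1) (p 3) (p 5) (p 7) < 0 := neg_of_nz z50 (fun x => c11685 h2 x)
    have u5 : D (p 1) (p 2) (p 3) (p 7) < 0 := neg_of_nz z39 (fun x => c11699 x h1 h2)
    have u6 : Sep p X0127 := not_not.mp (fun x => c7340 u2 u5 h2 u4 h1 x)
    have u7 : ¬ Sep p X0135 := (fun x => c11049 u6 x u3)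
    have u8 : ¬ Sep p X0136 := (fun x => c11057 u6 x u3)
    have u9 : Sep p X0237 := not_not.mp (fun x => c8908 u2 u5 h2 u4 h1 x)
    have u10 : ¬ Sep p X0125 := (fun x => c10956 x u9 u1)
    have u11 : ¬ Sep p X0126 := (fun x => c11028 x u9 u1)
    have u12 : 0 < D (p 3) (p 4) (p 5) (p 7) := pos_of_nz z67 (fun x => c11700 x u11 u10 u8 u7 u4)
    have u13 : ¬ Sep p X0124 := (fun x => c10866 x u0 u9)
    have u14 : 0 < D (p 3) (p 4) (p 6) (p 7) := pos_of_nz z68 (fun x => c11643 h2 h0 u11 u12 x)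
    c11652 h2 h0 u14 u12 u13
  have c11702 : (D (p 1) (p 2) (p 3) (p 7) < 0) → (D (p 1) (p 3) (p 6) (p 7) < 0) → (D (p 1) (p 3) (p 4) (p 7) < 0) → (D (p 1) (p 3) (p 5) (p 7) < 0) → False := fun h0 h1 h2 h3 => 
    have u0 : Sep p X0167 := not_not.mp (fun x => c11611 x)
    have u1 : Sep p X0567 := not_not.mp (fun x => c11610 x)
    have u2 : Sep p X0234 := not_not.mp (fun x => c11609 x)
    have u3 : 0 < D (p 0) (p 1) (p 3) (p 7) := pos_of_nz z9 (fun x => c11601 x)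
    have u4 : Sep p X0127 := not_not.mp (fun x => c7340 u3 h0 h2 h3 h1 x)
    have u5 : Sep p X0237 := not_not.mp (fun x => c8908 u3 h0 h2 h3 h1 x)
    have u6 : ¬ Sep p X0135 := (fun x => c11049 u4 x u2)
    have u7 : ¬ Sep p X0136 := (fun x => c11057 u4 x u2)
    have u8 : ¬ Sep p X0125 := (fun x => c10956 x u5 u1)
    have u9 : ¬ Sep p X0126 := (fun x => c11028 x u5 u1)
    have u10 : ¬ Sep p X0134 := (fun x => c11130 x u0 u5)
    have u11 : 0 < D (p 3) (p 4) (p 5) (p 7) := pos_of_nz z67 (fun x => c11700 x u9 u8 u7 u6 h3)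
    have u12 : 0 < D (p 2) (p 3) (p 4) (p 7) := pos_of_nz z58 (fun x => c11701 x h1 h2)
    have u13 : 0 < D (p 3) (p 4) (p 6) (p 7) := pos_of_nz z68 (fun x => c11646 h2 u12 u7 u11 x)
    c11648 h2 u12 u10 u11 u13
  have c11703 : (D (p 1) (p 3) (p 6) (p 7) < 0) → (D (p 1) (p 3) (p 4) (p 7) < 0) → False := fun h0 h1 => 
    have u0 : D (p 1) (p 3) (p 5) (p 7) < 0 := neg_of_nz z50 (fun x => c11685 h1 x)
    have u1 : D (p 1) (p 2) (p 3) (p 7) < 0 := neg_of_nz z39 (fun x => c11699 x h0 h1)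
    c11702 u1 h0 h1 u0
  have c11705 : (D (p 0) (p 3) (p 4) (p 5) < 0) → (D (p 0) (p 3) (p 5) (p 7) < 0) → (¬ Sep p X0146) → (¬ Sep p X0134) → (¬ Sep p X0124) → False := fun h0 h1 h2 h3 h4 => 
    have u0 : 0 < D (p 0) (p 1) (p 3) (p 5) := pos_of_nz z7 (fun x => c11599 x)
    have u1 : D (p 0) (p 2) (p 3) (p 5) < 0 := neg_of_nz z17 (fun x => c11691 x h0 h4 h1)
    have u2 : 0 < D (p 0) (p 3) (p 5) (p 6) := pos_of_nz z29 (fun x => c7417 u0 u1 h0 x h1 h3)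
    c7977 u0 u1 h0 u2 h1 h2
  have c11706 : (D (p 0) (p 2) (p 3) (p 5) < 0) → (0 < D (p 0) (p 3) (p 4) (p 5)) → (D (p 0) (p 3) (p 5) (p 7) < 0) → (¬ Sep p X0136) → (¬ Sep p X0135) → False := fun h0 h1 h2 h3 h4 => 
    have u0 : 0 < D (p 0) (p 1) (p 3) (p 5) := pos_of_nz z7 (fun x => c11599 x)
    have u1 : 0 < D (p 0) (p 3) (p 5) (p 6) := pos_of_nz z29 (fun x => c7529 u0 h0 h1 x h2 h4)
    c7641 u0 h0 h1 u1 h2 h3
  have c11707 : (0 < D (p 0) (p 2) (p 3) (p 5)) → (0 < D (p 0) (p 3) (p 4) (p 5)) → (¬ Sep p X0125) → (D (p 0) (p 3) (p 5) (p 7) < 0) → False := fun h0 h1 h2 h3 => 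
    have u0 : 0 < D (p 0) (p 1) (p 3) (p 5) := pos_of_nz z7 (fun x => c11599 x)
    have u1 : ¬ Sep p X0347 := (fun x => c11617 x)
    have u2 : 0 < D (p 0) (p 3) (p 5) (p 6) := pos_of_nz z29 (fun x => c7081 u0 h0 h1 x h3 h2)
    c9882 u0 h0 h1 u2 h3 u1
  have c11708 : (D (p 0) (p 3) (p 5) (p 7) < 0) → (¬ Sep p X0136) → (¬ Sep p X0146) → (¬ Sep p X0134) → (¬ Sep p X0124) → (¬ Sep p X0125) → (¬ Sep p X0135) → False := fun h0 h1 h2 h3 h4 h5 h6 => 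
    have u0 : 0 < D (p 0) (p 3) (p 4) (p 5) := pos_of_nz z26 (fun x => c11705 x h0 h2 h3 h4)
    have u1 : 0 < D (p 0) (p 2) (p 3) (p 5) := pos_of_nz z17 (fun x => c11706 x u0 h0 h1 h6)
    c11707 u1 u0 h5 h0
  have c11709 : (0 < D (p 0) (p 2) (p 3) (p 5)) → (0 < D (p 0) (p 3) (p 4) (p 5)) → (0 < D (p 0) (p 3) (p 5) (p 7)) → (¬ Sep p X0345) → (¬ Sep p X0127) → False := fun h0 h1 h2 h3 h4 => 
    have u0 : 0 < D (p 0) (p 1) (p 3) (p 5) := pos_of_nz z7 (fun x => c11599 x)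
    have u1 : D (p 0) (p 3) (p 5) (p 6) < 0 := neg_of_nz z29 (fun x => c9658 u0 h0 h1 x h2 h3)
    c7305 u0 h0 h1 u1 h2 h4
  have c11710 : (0 < D (p 0) (p 3) (p 4) (p 5)) → (0 < D (p 0) (p 3) (p 5) (p 7)) → (¬ Sep p X0345) → (¬ Sep p X0127) → (¬ Sep p X0245) → (¬ Sep p X0137) → False := fun h0 h1 h2 h3 h4 h5 => 
    have u0 : 0 < D (p 0) (p 1) (p 3) (p 5) := pos_of_nz z7 (fun x => c11599 x)
    have u1 : D (p 0) (p 2) (p 3) (p 5) < 0 := neg_of_nz z17 (fun x => c11709 x h0 h1 h2 h3)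
    have u2 : 0 < D (p 0) (p 3) (p 5) (p 6) := pos_of_nz z29 (fun x => c7753 u0 u1 h0 x h1 h5)
    c8986 u0 u1 h0 u2 h1 h4
  have c11711 : (D (p 0) (p 2) (p 3) (p 5) < 0) → (D (p 0) (p 3) (p 4) (p 5) < 0) → (0 < D (p 0) (p 3) (p 5) (p 7)) → (¬ Sep p X0235) → (¬ Sep p X0147) → False := fun h0 h1 h2 h3 h4 => 
    have u0 : 0 < D (p 0) (p 1) (p 3) (p 5) := pos_of_nz z7 (fun x => c11599 x)
    have u1 : 0 < D (p 0) (p 3) (p 5) (p 6) := pos_of_nz z29 (fun x => c8089 u0 h0 h1 x h2 h4)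
    c8650 u0 h0 h1 u1 h2 h3
  have c11712 : (D (p 1) (p 2) (p 3) (p 7) < 0) → (0 < D (p 1) (p 3) (p 6) (p 7)) → (D (p 1) (p 3) (p 4) (p 7) < 0) → (D (p 1) (p 3) (p 5) (p 7) < 0) → False := fun h0 h1 h2 h3 => 
    have u0 : 0 < D (p 0) (p 1) (p 2) (p 5) := pos_of_nz z3 (fun x => c11595 x)
    have u1 : 0 < D (p 0) (p 1) (p 3) (p 5) := pos_of_nz z7 (fun x => c11599 x)
    have u2 : 0 < D (p 0) (p 1) (p 5) (p 6) := pos_of_nz z13 (fun x => c11605 x)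
    have u3 : ¬ Sep p X0356 := (fun x => c11618 x)
    have u4 : 0 < D (p 0) (p 1) (p 5) (p 7) := pos_of_nz z14 (fun x => c11606 x)
    have u5 : Sep p X0234 := not_not.mp (fun x => c11609 x)
    have u6 : Sep p X0123 := not_not.mp (fun x => c11608 x)
    have u7 : Sep p X0167 := not_not.mp (fun x => c11611 x)
    have u8 : Sep p X0567 := not_not.mp (fun x => c11610 x)
    have u9 : 0 < D (p 0) (p 1) (p 3) (p 7) := pos_of_nz z9 (fun x => c11601 x)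
    have u10 : Sep p X0126 := not_not.mp (fun x => c7228 u9 h0 h2 h3 h1 x)
    have u11 : Sep p X0236 := not_not.mp (fun x => c8796 u9 h0 h2 h3 h1 x)
    have u12 : Sep p X0267 := not_not.mp (fun x => c9580 u9 h0 h2 h3 h1 x)
    have u13 : ¬ Sep p X0135 := (fun x => c10977 u10 x u5)
    have u14 : ¬ Sep p X0137 := (fun x => c10985 u10 x u5)
    have u15 : ¬ Sep p X0147 := (fun x => c11001 u10 x u5)
    have u16 : ¬ Sep p X0235 := (fun x => c11024 u10 x u8)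
    have u17 : ¬ Sep p X0245 := (fun x => c11032 u10 x u8)
    have u18 : ¬ Sep p X0125 := (fun x => c10952 x u11 u8)
    have u19 : ¬ Sep p X0127 := (fun x => c11100 x u11 u8)
    have u20 : ¬ Sep p X0345 := (fun x => c11522 u11 x u8)
    have u21 : ¬ Sep p X0124 := (fun x => c10865 x u7 u11)
    have u22 : ¬ Sep p X0134 := (fun x => c11129 x u7 u11)
    have u23 : ¬ Sep p X0146 := (fun x => c10764 u6 x u12)
    have u24 : ¬ Sep p X0136 := (fun x => c11234 x u5 u12)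
    have u25 : 0 < D (p 0) (p 3) (p 5) (p 7) := pos_of_nz z30 (fun x => c11708 x u24 u23 u22 u21 u18 u13)
    have u26 : D (p 0) (p 3) (p 4) (p 5) < 0 := neg_of_nz z26 (fun x => c11710 x u25 u20 u19 u17 u14)
    have u27 : 0 < D (p 0) (p 2) (p 3) (p 5) := pos_of_nz z17 (fun x => c11711 x u26 u25 u16 u15)
    have u28 : 0 < D (p 0) (p 2) (p 5) (p 7) := pos_of_nz z24 (fun x => c1002 u0 u25 u1 x u4 u27)
    have u29 : 0 < D (p 0) (p 3) (p 5) (p 6) := pos_of_nz z29 (fun x => c9994 u1 u27 u26 x u25 u3)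
    have u30 : 0 < D (p 0) (p 2) (p 5) (p 6) := pos_of_nz z23 (fun x => c986 u0 u29 u1 x u2 u27)
    have u31 : 0 < D (p 0) (p 2) (p 4) (p 5) := pos_of_nz z20 (fun x => c8642 u0 u27 x u30 u28 u16)
    c9650 u0 u27 u31 u30 u28 u20
  have c11713 : (D (p 2) (p 3) (p 5) (p 7) < 0) → (0 < D (p 3) (p 4) (p 5) (p 7)) → (D (p 1) (p 3) (p 5) (p 7) < 0) → (0 < D (p 0) (p 3) (p 5) (p 7)) → False := fun h0 h1 h2 h3 => 
    have u0 : ¬ Sep p X0357 := (fun x => c11619 x)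
    have u1 : ¬ Sep p X0356 := (fun x => c11618 x)
    have u2 : D (p 3) (p 5) (p 6) (p 7) < 0 := neg_of_nz z69 (fun x => c10070 h3 h2 h0 h1 x u1)
    c10182 h3 h2 h0 h1 u2 u0
  have c11714 : (D (p 0) (p 3) (p 4) (p 5) < 0) → (0 < D (p 0) (p 3) (p 5) (p 7)) → (D (p 1) (p 3) (p 4) (p 7) < 0) → False := fun h0 h1 h2 => 
    have u0 : 0 < D (p 0) (p 1) (p 2) (p 3) := pos_of_nz z1 (fun x => c11593 x)
    have u1 : Sep p X0234 := not_not.mp (fun x => c11609 x)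
    have u2 : 0 < D (p 0) (p 1) (p 3) (p 7) := pos_of_nz z9 (fun x => c11601 x)
    have u3 : Sep p X0567 := not_not.mp (fun x => c11610 x)
    have u4 : 0 < D (p 0) (p 1) (p 3) (p 5) := pos_of_nz z7 (fun x => c11599 x)
    have u5 : 0 < D (p 1) (p 3) (p 6) (p 7) := pos_of_nz z51 (fun x => c11703 x h2)
    have u6 : D (p 1) (p 3) (p 5) (p 7) < 0 := neg_of_nz z50 (fun x => c11685 h2 x)
    have u7 : 0 < D (p 1) (p 2) (p 3) (p 7) := pos_of_nz z39 (fun x => c11712 x u5 h2 u6)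
    have u8 : Sep p X0136 := not_not.mp (fun x => c7676 u2 u7 h2 u6 u5 x)
    have u9 : ¬ Sep p X0235 := (fun x => c11240 u8 x u3)
    have u10 : ¬ Sep p X0147 := (fun x => c11217 u8 x u1)
    have u11 : 0 < D (p 1) (p 2) (p 3) (p 5) := pos_of_nz z37 (fun x => c1989 u0 u6 u4 u7 u2 x)
    have u12 : D (p 1) (p 3) (p 4) (p 5) < 0 := neg_of_nz z46 (fun x => c11698 x u11 u6)
    have u13 : 0 < D (p 0) (p 2) (p 3) (p 5) := pos_of_nz z17 (fun x => c11711 x h0 h1 u9 u10)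
    have u14 : 0 < D (p 3) (p 4) (p 5) (p 7) := pos_of_nz z67 (fun x => c4625 u4 x h0 u6 h1 u12)
    have u15 : D (p 2) (p 3) (p 5) (p 7) < 0 := neg_of_nz z60 (fun x => c4593 u4 x u13 u6 h1 u11)
    c11713 u15 u14 u6 h1
  have c11715 : (0 < D (p 1) (p 4) (p 5) (p 7)) → (¬ Sep p X0236) → (D (p 1) (p 3) (p 5) (p 7) < 0) → (0 < D (p 1) (p 5) (p 6) (p 7)) → False := fun h0 h1 h2 h3 => 
    have u0 : 0 < D (p 0) (p 1) (p 5) (p 7) := pos_of_nz z14 (fun x => c11606 x)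
    have u1 : ¬ Sep p X0356 := (fun x => c11618 x)
    have u2 : 0 < D (p 1) (p 2) (p 5) (p 7) := pos_of_nz z44 (fun x => c8806 u0 x h2 h0 h3 h1)
    c10038 u0 u2 h2 h0 h3 u1
  have c11716 : (¬ Sep p X0236) → (D (p 1) (p 3) (p 4) (p 7) < 0) → False := fun h0 h1 => 
    have u0 : 0 < D (p 0) (p 1) (p 4) (p 7) := pos_of_nz z12 (fun x => c11604 x)
    have u1 : 0 < D (p 0) (p 1) (p 3) (p 7) := pos_of_nz z9 (fun x => c11601 x)
    have u2 : 0 < D (p 0) (p 1) (p 5) (p 7) := pos_of_nz z14 (fun x => c11606 x)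
    have u3 : 0 < D (p 0) (p 1) (p 6) (p 7) := pos_of_nz z15 (fun x => c11607 x)
    have u4 : D (p 1) (p 3) (p 5) (p 7) < 0 := neg_of_nz z50 (fun x => c11685 h1 x)
    have u5 : 0 < D (p 1) (p 3) (p 6) (p 7) := pos_of_nz z51 (fun x => c11703 x h1)
    have u6 : 0 < D (p 1) (p 5) (p 6) (p 7) := pos_of_nz z55 (fun x => c3016 u1 x u2 u5 u3 u4)
    have u7 : 0 < D (p 1) (p 4) (p 6) (p 7) := pos_of_nz z54 (fun x => c3000 u1 x u0 u5 u3 h1)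
    have u8 : 0 < D (p 1) (p 4) (p 5) (p 7) := pos_of_nz z53 (fun x => c11689 u7 x h1 h0)
    c11715 u8 h0 u4 u6
  have c11717 : (0 < D (p 0) (p 3) (p 5) (p 7)) → (D (p 1) (p 3) (p 4) (p 7) < 0) → False := fun h0 h1 => 
    have u0 : Sep p X0234 := not_not.mp (fun x => c11609 x)
    have u1 : 0 < D (p 0) (p 1) (p 2) (p 3) := pos_of_nz z1 (fun x => c11593 x)
    have u2 : 0 < D (p 0) (p 1) (p 3) (p 5) := pos_of_nz z7 (fun x => c11599 x)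
    have u3 : 0 < D (p 0) (p 1) (p 3) (p 7) := pos_of_nz z9 (fun x => c11601 x)
    have u4 : Sep p X0567 := not_not.mp (fun x => c11610 x)
    have u5 : Sep p X0236 := not_not.mp (fun x => c11716 x h1)
    have u6 : ¬ Sep p X0245 := (fun x => c11512 u5 x u4)
    have u7 : D (p 1) (p 3) (p 5) (p 7) < 0 := neg_of_nz z50 (fun x => c11685 h1 x)
    have u8 : 0 < D (p 1) (p 3) (p 6) (p 7) := pos_of_nz z51 (fun x => c11703 x h1)
    have u9 : 0 < D (p 1) (p 2) (p 3) (p 7) := pos_of_nz z39 (fun x => c11712 x u8 h1 u7)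
    have u10 : 0 < D (p 1) (p 2) (p 3) (p 5) := pos_of_nz z37 (fun x => c1989 u1 u7 u2 u9 u3 x)
    have u11 : D (p 1) (p 3) (p 4) (p 5) < 0 := neg_of_nz z46 (fun x => c11698 x u10 u7)
    have u12 : ¬ Sep p X0137 := (fun x => c11697 u11 x u10 h1)
    have u13 : Sep p X0136 := not_not.mp (fun x => c7676 u3 u9 h1 u7 u8 x)
    have u14 : ¬ Sep p X0345 := (fun x => c11252 u13 x u4)
    have u15 : ¬ Sep p X0127 := (fun x => c11057 x u13 u0)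
    have u16 : 0 < D (p 0) (p 3) (p 4) (p 5) := pos_of_nz z26 (fun x => c11714 x h0 h1)
    c11710 u16 h0 u14 u15 u6 u12
  have c11718 : (0 < D (p 1) (p 2) (p 3) (p 7)) → (0 < D (p 1) (p 3) (p 6) (p 7)) → (D (p 1) (p 3) (p 4) (p 7) < 0) → (D (p 1) (p 3) (p 5) (p 7) < 0) → False := fun h0 h1 h2 h3 => 
    have u0 : 0 < D (p 0) (p 1) (p 3) (p 5) := pos_of_nz z7 (fun x => c11599 x)
    have u1 : Sep p X0167 := not_not.mp (fun x => c11611 x)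
    have u2 : Sep p X0567 := not_not.mp (fun x => c11610 x)
    have u3 : Sep p X0123 := not_not.mp (fun x => c11608 x)
    have u4 : Sep p X0234 := not_not.mp (fun x => c11609 x)
    have u5 : 0 < D (p 0) (p 1) (p 3) (p 7) := pos_of_nz z9 (fun x => c11601 x)
    have u6 : Sep p X0136 := not_not.mp (fun x => c7676 u5 h0 h2 h3 h1 x)
    have u7 : Sep p X0367 := not_not.mp (fun x => c10252 u5 h0 h2 h3 h1 x)
    have u8 : ¬ Sep p X0125 := (fun x => c10905 x u6 u4)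
    have u9 : ¬ Sep p X0146 := (fun x => c10768 u3 x u7)
    have u10 : ¬ Sep p X0156 := (fun x => c10784 u3 x u7)
    have u11 : Sep p X0236 := not_not.mp (fun x => c11716 x h2)
    have u12 : ¬ Sep p X0135 := (fun x => c11192 x u11 u2)
    have u13 : ¬ Sep p X0124 := (fun x => c10865 x u1 u11)
    have u14 : ¬ Sep p X0134 := (fun x => c11129 x u1 u11)
    have u15 : D (p 0) (p 3) (p 5) (p 7) < 0 := neg_of_nz z30 (fun x => c11717 x h2)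
    have u16 : 0 < D (p 0) (p 3) (p 4) (p 5) := pos_of_nz z26 (fun x => c11705 x u15 u9 u14 u13)
    have u17 : D (p 0) (p 2) (p 3) (p 5) < 0 := neg_of_nz z17 (fun x => c11707 x u16 u8 u15)
    have u18 : 0 < D (p 0) (p 3) (p 5) (p 6) := pos_of_nz z29 (fun x => c7529 u0 u17 u16 x u15 u12)
    c8201 u0 u17 u16 u18 u15 u10
  have c11719 : (0 < D (p 1) (p 3) (p 6) (p 7)) → (D (p 1) (p 3) (p 5) (p 7) < 0) → (D (p 1) (p 3) (p 4) (p 7) < 0) → False := fun h0 h1 h2 => 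
    have u0 : 0 < D (p 1) (p 2) (p 3) (p 7) := pos_of_nz z39 (fun x => c11712 x h0 h2 h1)
    c11718 u0 h0 h2 h1
  have c11720 : (D (p 1) (p 3) (p 4) (p 7) < 0) → False := fun h0 => 
    have u0 : D (p 1) (p 3) (p 5) (p 7) < 0 := neg_of_nz z50 (fun x => c11685 h0 x)
    have u1 : 0 < D (p 1) (p 3) (p 6) (p 7) := pos_of_nz z51 (fun x => c11703 x h0)
    c11719 u1 u0 h0
  have c11721 : (D (p 1) (p 3) (p 5) (p 7) < 0) → False := fun h0 => 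
    have u0 : 0 < D (p 1) (p 3) (p 4) (p 7) := pos_of_nz z48 (fun x => c11720 x)
    c11672 h0 u0
  have c11727 : (0 < D (p 1) (p 3) (p 4) (p 5)) → (0 < D (p 1) (p 3) (p 5) (p 6)) → (¬ Sep p X0134) → (¬ Sep p X0124) → (¬ Sep p X0126) → (0 < D (p 1) (p 2) (p 3) (p 7)) → False := fun h0 h1 h2 h3 h4 h5 => 
    have u0 : 0 < D (p 1) (p 3) (p 4) (p 7) := pos_of_nz z48 (fun x => c11720 x)
    have u1 : 0 < D (p 1) (p 3) (p 5) (p 7) := pos_of_nz z50 (fun x => c11721 x)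
    have u2 : 0 < D (p 0) (p 1) (p 3) (p 5) := pos_of_nz z7 (fun x => c11599 x)
    have u3 : 0 < D (p 1) (p 2) (p 3) (p 4) := pos_of_nz z36 (fun x => c11677 x h3 h0 u0 h4)
    have u4 : 0 < D (p 1) (p 2) (p 3) (p 5) := pos_of_nz z37 (fun x => c2110 u3 u1 x u0 h5 h0)
    c7448 u2 u4 h0 h1 u1 h2
  have c11728 : (0 < D (p 1) (p 3) (p 5) (p 6)) → (¬ Sep p X0134) → (¬ Sep p X0124) → (¬ Sep p X0135) → (¬ Sep p X0126) → (¬ Sep p X0125) → (0 < D (p 1) (p 2) (p 3) (p 7)) → False := fun h0 h1 h2 h3 h4 h5 h6 => 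
    have u0 : 0 < D (p 1) (p 3) (p 5) (p 7) := pos_of_nz z50 (fun x => c11721 x)
    have u1 : 0 < D (p 0) (p 1) (p 3) (p 5) := pos_of_nz z7 (fun x => c11599 x)
    have u2 : D (p 1) (p 3) (p 4) (p 5) < 0 := neg_of_nz z46 (fun x => c11727 x h0 h1 h2 h4 h6)
    have u3 : D (p 1) (p 2) (p 3) (p 5) < 0 := neg_of_nz z37 (fun x => c7560 u1 x u2 h0 u0 h3)
    c7112 u1 u3 u2 h0 u0 h5
  have c11729 : (D (p 1) (p 3) (p 4) (p 5) < 0) → (D (p 1) (p 3) (p 5) (p 6) < 0) → (¬ Sep p X0136) → (¬ Sep p X0126) → False := fun h0 h1 h2 h3 => 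
    have u0 : 0 < D (p 1) (p 3) (p 5) (p 7) := pos_of_nz z50 (fun x => c11721 x)
    have u1 : 0 < D (p 0) (p 1) (p 3) (p 5) := pos_of_nz z7 (fun x => c11599 x)
    have u2 : D (p 1) (p 2) (p 3) (p 5) < 0 := neg_of_nz z37 (fun x => c7672 u1 x h0 h1 u0 h2)
    c7224 u1 u2 h0 h1 u0 h3
  have c11730 : (0 < D (p 1) (p 2) (p 3) (p 7)) → (0 < D (p 1) (p 3) (p 6) (p 7)) → False := fun h0 h1 => 
    have u0 : 0 < D (p 0) (p 1) (p 3) (p 5) := pos_of_nz z7 (fun x => c11599 x)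
    have u1 : 0 < D (p 1) (p 3) (p 5) (p 7) := pos_of_nz z50 (fun x => c11721 x)
    have u2 : ¬ Sep p X0346 := (fun x => c11616 x)
    have u3 : 0 < D (p 1) (p 3) (p 4) (p 7) := pos_of_nz z48 (fun x => c11720 x)
    have u4 : Sep p X0167 := not_not.mp (fun x => c11611 x)
    have u5 : Sep p X0234 := not_not.mp (fun x => c11609 x)
    have u6 : 0 < D (p 0) (p 1) (p 3) (p 7) := pos_of_nz z9 (fun x => c11601 x)
    have u7 : Sep p X0456 := not_not.mp (fun x => c10364 u6 h0 u3 u1 h1 x)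
    have u8 : ¬ Sep p X0125 := (fun x => c10947 x u5 u7)
    have u9 : ¬ Sep p X0126 := (fun x => c11019 x u5 u7)
    have u10 : ¬ Sep p X0135 := (fun x => c11187 x u5 u7)
    have u11 : ¬ Sep p X0136 := (fun x => c11235 x u5 u7)
    have u12 : ¬ Sep p X0124 := (fun x => c10871 x u4 u7)
    have u13 : ¬ Sep p X0134 := (fun x => c11135 x u4 u7)
    have u14 : D (p 1) (p 3) (p 5) (p 6) < 0 := neg_of_nz z49 (fun x => c11728 x u13 u12 u10 u9 u8 h0)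
    have u15 : 0 < D (p 1) (p 3) (p 4) (p 5) := pos_of_nz z46 (fun x => c11729 x u14 u11 u9)
    have u16 : 0 < D (p 1) (p 2) (p 3) (p 4) := pos_of_nz z36 (fun x => c11677 x u12 u15 u3 u9)
    have u17 : 0 < D (p 1) (p 2) (p 3) (p 5) := pos_of_nz z37 (fun x => c2110 u16 u1 x u3 h0 u15)
    c9800 u0 u17 u15 u14 u1 u2
  have c11731 : (Sep p X0456) → (D (p 1) (p 2) (p 3) (p 7) < 0) → False := fun h0 h1 => 
    have u0 : 0 < D (p 0) (p 1) (p 3) (p 4) := pos_of_nz z6 (fun x => c11598 x)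
    have u1 : 0 < D (p 0) (p 1) (p 2) (p 3) := pos_of_nz z1 (fun x => c11593 x)
    have u2 : 0 < D (p 0) (p 1) (p 3) (p 7) := pos_of_nz z9 (fun x => c11601 x)
    have u3 : Sep p X0234 := not_not.mp (fun x => c11609 x)
    have u4 : Sep p X0167 := not_not.mp (fun x => c11611 x)
    have u5 : 0 < D (p 1) (p 3) (p 4) (p 7) := pos_of_nz z48 (fun x => c11720 x)
    have u6 : 0 < D (p 1) (p 3) (p 5) (p 7) := pos_of_nz z50 (fun x => c11721 x)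
    have u7 : 0 < D (p 0) (p 1) (p 3) (p 5) := pos_of_nz z7 (fun x => c11599 x)
    have u8 : D (p 1) (p 2) (p 3) (p 5) < 0 := neg_of_nz z37 (fun x => c1997 u1 u6 u7 h1 u2 x)
    have u9 : D (p 1) (p 2) (p 3) (p 4) < 0 := neg_of_nz z36 (fun x => c1965 u1 u5 u0 h1 u2 x)
    have u10 : ¬ Sep p X0125 := (fun x => c10947 x u3 h0)
    have u11 : ¬ Sep p X0126 := (fun x => c11019 x u3 h0)
    have u12 : ¬ Sep p X0124 := (fun x => c10871 x u4 h0)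
    have u13 : D (p 1) (p 3) (p 4) (p 5) < 0 := neg_of_nz z46 (fun x => c11677 u9 u12 x u5 u11)
    have u14 : 0 < D (p 1) (p 3) (p 5) (p 6) := pos_of_nz z49 (fun x => c7224 u7 u8 u13 x u6 u11)
    c7112 u7 u8 u13 u14 u6 u10
  have c11732 : (D (p 1) (p 3) (p 4) (p 5) < 0) → (0 < D (p 1) (p 3) (p 6) (p 7)) → False := fun h0 h1 => 
    have u0 : 0 < D (p 0) (p 1) (p 2) (p 3) := pos_of_nz z1 (fun x => c11593 x)
    have u1 : 0 < D (p 0) (p 1) (p 3) (p 7) := pos_of_nz z9 (fun x => c11601 x)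
    have u2 : 0 < D (p 0) (p 1) (p 4) (p 7) := pos_of_nz z12 (fun x => c11604 x)
    have u3 : 0 < D (p 0) (p 1) (p 4) (p 5) := pos_of_nz z10 (fun x => c11602 x)
    have u4 : 0 < D (p 1) (p 3) (p 5) (p 7) := pos_of_nz z50 (fun x => c11721 x)
    have u5 : 0 < D (p 0) (p 1) (p 3) (p 5) := pos_of_nz z7 (fun x => c11599 x)
    have u6 : ¬ Sep p X0256 := (fun x => c11614 x)
    have u7 : 0 < D (p 0) (p 1) (p 3) (p 4) := pos_of_nz z6 (fun x => c11598 x)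
    have u8 : 0 < D (p 0) (p 1) (p 3) (p 6) := pos_of_nz z8 (fun x => c11600 x)
    have u9 : Sep p X0123 := not_not.mp (fun x => c11608 x)
    have u10 : 0 < D (p 1) (p 3) (p 4) (p 7) := pos_of_nz z48 (fun x => c11720 x)
    have u11 : D (p 1) (p 2) (p 3) (p 7) < 0 := neg_of_nz z39 (fun x => c11730 x h1)
    have u12 : D (p 1) (p 2) (p 3) (p 6) < 0 := neg_of_nz z38 (fun x => c2013 u0 h1 u8 u11 u1 x)
    have u13 : D (p 1) (p 2) (p 3) (p 5) < 0 := neg_of_nz z37 (fun x => c1997 u0 u4 u5 u11 u1 x)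
    have u14 : D (p 1) (p 2) (p 3) (p 4) < 0 := neg_of_nz z36 (fun x => c1965 u0 u10 u7 u11 u1 x)
    have u15 : 0 < D (p 1) (p 4) (p 5) (p 7) := pos_of_nz z53 (fun x => c2277 u7 x u3 u10 u2 h0)
    have u16 : 0 < D (p 1) (p 3) (p 5) (p 6) := pos_of_nz z49 (fun x => c9352 u5 u13 h0 x u4 u6)
    have u17 : 0 < D (p 1) (p 3) (p 4) (p 6) := pos_of_nz z47 (fun x => c9350 u7 u14 h0 x u10 u6)
    have u18 : Sep p X0245 := not_not.mp (fun x => c9018 u8 u12 u17 u16 h1 x)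
    have u19 : ¬ Sep p X0156 := (fun x => c10777 u9 x u18)
    have u20 : ¬ Sep p X0157 := (fun x => c10785 u9 x u18)
    have u21 : D (p 1) (p 4) (p 6) (p 7) < 0 := neg_of_nz z54 (fun x => c11654 x u15 u10 u19)
    c11674 u15 u20 u10 u21
  have c11733 : (0 < D (p 1) (p 4) (p 5) (p 7)) → (Sep p X0245) → False := fun h0 h1 => 
    have u0 : Sep p X0123 := not_not.mp (fun x => c11608 x)
    have u1 : 0 < D (p 1) (p 3) (p 4) (p 7) := pos_of_nz z48 (fun x => c11720 x)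
    have u2 : ¬ Sep p X0157 := (fun x => c10785 u0 x h1)
    have u3 : ¬ Sep p X0156 := (fun x => c10777 u0 x h1)
    have u4 : D (p 1) (p 4) (p 6) (p 7) < 0 := neg_of_nz z54 (fun x => c11654 x h0 u1 u3)
    c11674 h0 u2 u1 u4
  have c11734 : (0 < D (p 1) (p 5) (p 6) (p 7)) → (D (p 1) (p 4) (p 5) (p 7) < 0) → False := fun h0 h1 => 
    have u0 : 0 < D (p 0) (p 1) (p 5) (p 7) := pos_of_nz z14 (fun x => c11606 x)
    have u1 : 0 < D (p 1) (p 3) (p 5) (p 7) := pos_of_nz z50 (fun x => c11721 x)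
    have u2 : ¬ Sep p X0467 := (fun x => c11686 x)
    have u3 : ¬ Sep p X0246 := (fun x => c11612 x)
    have u4 : 0 < D (p 1) (p 2) (p 5) (p 7) := pos_of_nz z44 (fun x => c9142 u0 x u1 h1 h0 u3)
    c10598 u0 u4 u1 h1 h0 u2
  have c11735 : (D (p 1) (p 4) (p 5) (p 7) < 0) → (¬ Sep p X0147) → False := fun h0 h1 => 
    have u0 : 0 < D (p 1) (p 3) (p 5) (p 7) := pos_of_nz z50 (fun x => c11721 x)
    have u1 : 0 < D (p 1) (p 5) (p 6) (p 7) := pos_of_nz z55 (fun x => c11675 h0 h1 u0 x)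
    c11734 u1 h0
  have c11736 : (Sep p X0245) → False := fun h0 => 
    have u0 : Sep p X0567 := not_not.mp (fun x => c11610 x)
    have u1 : ¬ Sep p X0147 := (fun x => c11387 x h0 u0)
    have u2 : D (p 1) (p 4) (p 5) (p 7) < 0 := neg_of_nz z53 (fun x => c11733 x h0)
    c11735 u2 u1
  have c11737 : (D (p 1) (p 4) (p 5) (p 7) < 0) → False := fun h0 => 
    have u0 : 0 < D (p 1) (p 3) (p 4) (p 7) := pos_of_nz z48 (fun x => c11720 x)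
    have u1 : 0 < D (p 0) (p 1) (p 4) (p 7) := pos_of_nz z12 (fun x => c11604 x)
    have u2 : 0 < D (p 0) (p 1) (p 4) (p 5) := pos_of_nz z10 (fun x => c11602 x)
    have u3 : 0 < D (p 0) (p 1) (p 3) (p 4) := pos_of_nz z6 (fun x => c11598 x)
    have u4 : Sep p X0123 := not_not.mp (fun x => c11608 x)
    have u5 : 0 < D (p 0) (p 1) (p 5) (p 7) := pos_of_nz z14 (fun x => c11606 x)
    have u6 : 0 < D (p 0) (p 1) (p 5) (p 6) := pos_of_nz z13 (fun x => c11605 x)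
    have u7 : ¬ Sep p X0245 := (fun x => c11736 x)
    have u8 : 0 < D (p 1) (p 3) (p 5) (p 7) := pos_of_nz z50 (fun x => c11721 x)
    have u9 : 0 < D (p 0) (p 1) (p 3) (p 5) := pos_of_nz z7 (fun x => c11599 x)
    have u10 : 0 < D (p 1) (p 3) (p 4) (p 5) := pos_of_nz z46 (fun x => c2277 u3 h0 u2 u0 u1 x)
    have u11 : Sep p X0147 := not_not.mp (fun x => c11735 h0 x)
    have u12 : D (p 1) (p 5) (p 6) (p 7) < 0 := neg_of_nz z55 (fun x => c11734 x h0)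
    have u13 : ¬ Sep p X0345 := (fun x => c10773 u4 u11 x)
    have u14 : 0 < D (p 1) (p 3) (p 5) (p 6) := pos_of_nz z49 (fun x => c2533 u9 u12 u6 u8 u5 x)
    have u15 : 0 < D (p 1) (p 2) (p 3) (p 5) := pos_of_nz z37 (fun x => c9016 u9 x u10 u14 u8 u7)
    c9688 u9 u15 u10 u14 u8 u13
  have c11738 : (0 < D (p 1) (p 3) (p 4) (p 5)) → (D (p 1) (p 5) (p 6) (p 7) < 0) → False := fun h0 h1 => 
    have u0 : 0 < D (p 0) (p 1) (p 5) (p 6) := pos_of_nz z13 (fun x => c11605 x)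
    have u1 : ¬ Sep p X0257 := (fun x => c11615 x)
    have u2 : 0 < D (p 0) (p 1) (p 5) (p 7) := pos_of_nz z14 (fun x => c11606 x)
    have u3 : 0 < D (p 1) (p 4) (p 5) (p 7) := pos_of_nz z53 (fun x => c11737 x)
    have u4 : Sep p X0123 := not_not.mp (fun x => c11608 x)
    have u5 : ¬ Sep p X0245 := (fun x => c11736 x)
    have u6 : 0 < D (p 1) (p 3) (p 5) (p 7) := pos_of_nz z50 (fun x => c11721 x)
    have u7 : 0 < D (p 0) (p 1) (p 3) (p 5) := pos_of_nz z7 (fun x => c11599 x)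
    have u8 : 0 < D (p 1) (p 2) (p 5) (p 7) := pos_of_nz z44 (fun x => c9478 u2 x u6 u3 h1 u1)
    have u9 : Sep p X0157 := not_not.mp (fun x => c8358 u2 u8 u6 u3 h1 x)
    have u10 : ¬ Sep p X0345 := (fun x => c10789 u4 u9 x)
    have u11 : 0 < D (p 1) (p 3) (p 5) (p 6) := pos_of_nz z49 (fun x => c2533 u7 h1 u0 u6 u2 x)
    have u12 : 0 < D (p 1) (p 2) (p 3) (p 5) := pos_of_nz z37 (fun x => c9016 u7 x h0 u11 u6 u5)
    c9688 u7 u12 h0 u11 u6 u10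
  have c11739 : (0 < D (p 1) (p 2) (p 5) (p 7)) → (D (p 1) (p 5) (p 6) (p 7) < 0) → False := fun h0 h1 => 
    have u0 : 0 < D (p 0) (p 1) (p 3) (p 7) := pos_of_nz z9 (fun x => c11601 x)
    have u1 : 0 < D (p 1) (p 3) (p 4) (p 7) := pos_of_nz z48 (fun x => c11720 x)
    have u2 : 0 < D (p 1) (p 3) (p 5) (p 7) := pos_of_nz z50 (fun x => c11721 x)
    have u3 : ¬ Sep p X0245 := (fun x => c11736 x)
    have u4 : Sep p X0123 := not_not.mp (fun x => c11608 x)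
    have u5 : 0 < D (p 0) (p 1) (p 5) (p 7) := pos_of_nz z14 (fun x => c11606 x)
    have u6 : 0 < D (p 1) (p 4) (p 5) (p 7) := pos_of_nz z53 (fun x => c11737 x)
    have u7 : Sep p X0157 := not_not.mp (fun x => c8358 u5 h0 u2 u6 h1 x)
    have u8 : ¬ Sep p X0345 := (fun x => c10789 u4 u7 x)
    have u9 : D (p 1) (p 3) (p 4) (p 5) < 0 := neg_of_nz z46 (fun x => c11738 x h1)
    have u10 : D (p 1) (p 3) (p 6) (p 7) < 0 := neg_of_nz z51 (fun x => c11732 u9 x)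
    have u11 : 0 < D (p 1) (p 2) (p 3) (p 7) := pos_of_nz z39 (fun x => c9020 u0 x u1 u2 u10 u3)
    c9692 u0 u11 u1 u2 u10 u8
  have c11740 : (D (p 1) (p 5) (p 6) (p 7) < 0) → False := fun h0 => 
    have u0 : ¬ Sep p X0257 := (fun x => c11615 x)
    have u1 : 0 < D (p 1) (p 4) (p 5) (p 7) := pos_of_nz z53 (fun x => c11737 x)
    have u2 : 0 < D (p 1) (p 3) (p 5) (p 7) := pos_of_nz z50 (fun x => c11721 x)
    have u3 : 0 < D (p 0) (p 1) (p 5) (p 7) := pos_of_nz z14 (fun x => c11606 x)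
    have u4 : 0 < D (p 1) (p 2) (p 5) (p 7) := pos_of_nz z44 (fun x => c9478 u3 x u2 u1 h0 u0)
    c11739 u4 h0
  have c11741 : (D (p 1) (p 3) (p 6) (p 7) < 0) → False := fun h0 => 
    have u0 : 0 < D (p 1) (p 5) (p 6) (p 7) := pos_of_nz z55 (fun x => c11740 x)
    have u1 : 0 < D (p 0) (p 1) (p 3) (p 7) := pos_of_nz z9 (fun x => c11601 x)
    have u2 : 0 < D (p 0) (p 1) (p 5) (p 7) := pos_of_nz z14 (fun x => c11606 x)
    have u3 : 0 < D (p 0) (p 1) (p 6) (p 7) := pos_of_nz z15 (fun x => c11607 x)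
    have u4 : 0 < D (p 1) (p 3) (p 5) (p 7) := pos_of_nz z50 (fun x => c11721 x)
    c3024 u1 u0 u2 h0 u3 u4
  have c11742 : (D (p 1) (p 2) (p 5) (p 7) < 0) → False := fun h0 => 
    have u0 : 0 < D (p 1) (p 5) (p 6) (p 7) := pos_of_nz z55 (fun x => c11740 x)
    have u1 : 0 < D (p 0) (p 1) (p 5) (p 7) := pos_of_nz z14 (fun x => c11606 x)
    have u2 : 0 < D (p 1) (p 3) (p 5) (p 7) := pos_of_nz z50 (fun x => c11721 x)
    have u3 : 0 < D (p 1) (p 4) (p 5) (p 7) := pos_of_nz z53 (fun x => c11737 x)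
    have u4 : ¬ Sep p X0256 := (fun x => c11614 x)
    c9366 u1 h0 u2 u3 u0 u4
  have c11743 : (D (p 1) (p 4) (p 6) (p 7) < 0) → False := fun h0 => 
    have u0 : 0 < D (p 1) (p 5) (p 6) (p 7) := pos_of_nz z55 (fun x => c11740 x)
    have u1 : 0 < D (p 1) (p 3) (p 5) (p 7) := pos_of_nz z50 (fun x => c11721 x)
    have u2 : 0 < D (p 1) (p 3) (p 4) (p 7) := pos_of_nz z48 (fun x => c11720 x)
    have u3 : 0 < D (p 1) (p 3) (p 6) (p 7) := pos_of_nz z51 (fun x => c11741 x)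
    have u4 : 0 < D (p 1) (p 4) (p 5) (p 7) := pos_of_nz z53 (fun x => c11737 x)
    c3105 u2 u0 u1 h0 u3 u4
  have c11744 : (0 < D (p 1) (p 2) (p 3) (p 7)) → False := fun h0 => 
    have u0 : 0 < D (p 1) (p 3) (p 6) (p 7) := pos_of_nz z51 (fun x => c11741 x)
    c11730 h0 u0
  have c11746 : (D (p 1) (p 2) (p 6) (p 7) < 0) → False := fun h0 => 
    have u0 : 0 < D (p 1) (p 2) (p 5) (p 7) := pos_of_nz z44 (fun x => c11742 x)
    have u1 : 0 < D (p 0) (p 1) (p 2) (p 7) := pos_of_nz z5 (fun x => c11597 x)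
    have u2 : 0 < D (p 0) (p 1) (p 5) (p 7) := pos_of_nz z14 (fun x => c11606 x)
    have u3 : 0 < D (p 0) (p 1) (p 6) (p 7) := pos_of_nz z15 (fun x => c11607 x)
    have u4 : 0 < D (p 1) (p 5) (p 6) (p 7) := pos_of_nz z55 (fun x => c11740 x)
    c2976 u1 u4 u2 h0 u3 u0
  have c11748 : (D (p 1) (p 2) (p 4) (p 7) < 0) → False := fun h0 => 
    have u0 : 0 < D (p 1) (p 4) (p 6) (p 7) := pos_of_nz z54 (fun x => c11743 x)
    have u1 : 0 < D (p 0) (p 1) (p 4) (p 7) := pos_of_nz z12 (fun x => c11604 x)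
    have u2 : 0 < D (p 1) (p 3) (p 4) (p 7) := pos_of_nz z48 (fun x => c11720 x)
    have u3 : 0 < D (p 1) (p 4) (p 5) (p 7) := pos_of_nz z53 (fun x => c11737 x)
    have u4 : ¬ Sep p X0256 := (fun x => c11614 x)
    c9362 u1 h0 u2 u3 u0 u4
  have c11752 : (Sep p X0456) → False := fun h0 => 
    have u0 : D (p 1) (p 2) (p 3) (p 7) < 0 := neg_of_nz z39 (fun x => c11744 x)
    c11731 h0 u0
  have c11753 : False := 
    have u0 : 0 < D (p 1) (p 2) (p 4) (p 7) := pos_of_nz z42 (fun x => c11748 x)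
    have u1 : D (p 1) (p 2) (p 3) (p 7) < 0 := neg_of_nz z39 (fun x => c11744 x)
    have u2 : 0 < D (p 0) (p 1) (p 2) (p 7) := pos_of_nz z5 (fun x => c11597 x)
    have u3 : 0 < D (p 1) (p 2) (p 5) (p 7) := pos_of_nz z44 (fun x => c11742 x)
    have u4 : 0 < D (p 1) (p 2) (p 6) (p 7) := pos_of_nz z45 (fun x => c11746 x)
    have u5 : ¬ Sep p X0456 := (fun x => c11752 x)
    c10356 u2 u1 u0 u3 u4 u5
  exact c11753

end Pool.Agent.Lib_MP_a0a64f_co
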